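import Pool.Agent.Helper70.GLn.DI

/-!
# GL-AL: the three cases for an element of bounded order (120-200 lines)

PROOF. Take `K` from `dichotomy` and `n0 = n1 + n1 + 2 * K + 1`. Case of the copies `i`, `π` (second alternative of `dichotomy`): `A' = {v : ∀ s, π s v = 0}` (a submodule,
`x A' ⊆ A'`, `x' = x|A'`, an equivalence because `A'` is finite and `x` injective); `e v = (((fun s => π s v for s < k), ⟨v - ∑ s, i s (π s v), _⟩), (fun s => π (k + s) v))`, inverse
`((f, a), g) ↦ ∑ i s (f s) + a + ∑ i (k + s) (g s)`.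
Case `finrank (range (x - a)) ≤ K`: as `finrank V > K`, `x - a` has a nonzero kernel, so `a` is an eigenvalue, `a ≠ 0` and `a ^ orderOf x = 1`; with
`a ^ (q - 1) = 1` and coprimality `a = 1` (`unit_eq_one` in LV). If `x = 1` we are done. Otherwise let `I = range (x - 1)`, `N = ker (x - 1)`, `finrank I ≤ K`,
`finrank N ≥ finrank V - K`. Choose a complement `N₀` of `N ⊓ I` in `N` and a subspace `A ≤ N₀` of dimension `n1` (`finrank N₀ ≥ finrank V - 2K ≥ n1`; `exists` by `Submodule.exists_finrank_eq`-like lemmas);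
`A ⊓ I = ⊥`, so there is a complement `B` of `A` in `V` with `I ≤ B` (`exists_isCompl` in the interval, or `Submodule.exists_isCompl` for the quotient); `x B ⊆ B`, because
`x b = b + (x - 1) b`, and `x = 1` on `A`. `finrank B = finrank V - n1 ≥ n1`. `e : V ≃ A × B` (`Submodule.prodEquivOfIsCompl`), `z = x|B`, `z ≠ 1` because `x ≠ 1`, and
`range (z - 1)` is mapped injectively into `I`.
-/

set_option autoImplicit false

open Module

namespace Pool.Agent.Helper70.GLn

section

variable {F V : Type} [Field F] [AddCommGroup V] [Module F V]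

private lemma al_copies60 {k : ℕ} {E : Type} [AddCommGroup E] [Module F E]
    (x : V ≃ₗ[F] V) (x₀ : E ≃ₗ[F] E) (i : Fin k ⊕ Fin k → (E →ₗ[F] V))
    (π : Fin k ⊕ Fin k → (V →ₗ[F] E))
    (h1 : ∀ s t, π s ∘ₗ i t = if s = t then LinearMap.id else 0)
    (h2 : ∀ s u, x (i s u) = i s (x₀ u)) (h3 : ∀ s v, π s (x v) = x₀ (π s v)) :
    ∃ (A' : Submodule F V) (e : V ≃ₗ[F] ((Fin k → E) × A') × (Fin k → E)) (x' : A' ≃ₗ[F] A'),
      ∀ v, e (x v) = (((fun i => x₀ ((e v).1.1 i)), x' (e v).1.2), fun i => x₀ ((e v).2 i)) := by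
  let A' : Submodule F V := ⨅ s, LinearMap.ker (π s)
  have hA : ∀ v, v ∈ A' ↔ ∀ s, π s v = 0 := by
    intro v
    simp only [A', Submodule.mem_iInf, LinearMap.mem_ker]
  have hx1 : ∀ v ∈ A', x v ∈ A' := by
    intro v hv
    rw [hA] at hv ⊢
    intro s
    rw [h3, hv s, map_zero]
  have hx2 : ∀ v ∈ A', x.symm v ∈ A' := by
    intro v hv
    rw [hA] at hv ⊢
    intro s
    have h4 := h3 s (x.symm v)
    rw [LinearEquiv.apply_symm_apply, hv s] at h4
    exact x₀.injective (by rw [← h4, map_zero])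
  let x' : A' ≃ₗ[F] A' :=
    { toFun := fun v => ⟨x v, hx1 v v.2⟩
      invFun := fun v => ⟨x.symm v, hx2 v v.2⟩
      map_add' := fun v w => Subtype.ext (map_add x (v : V) w)
      map_smul' := fun c v => Subtype.ext (map_smul x c (v : V))
      left_inv := fun v => Subtype.ext (x.symm_apply_apply v)
      right_inv := fun v => Subtype.ext (x.apply_symm_apply v) }
  have hpi : ∀ s t u, π s (i t u) = if s = t then u else 0 := by
    intro s t u
    have h4 := LinearMap.congr_fun (h1 s t) u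
    rw [LinearMap.comp_apply] at h4
    rw [h4]
    split_ifs <;> rfl
  have hpis : ∀ (s : Fin k ⊕ Fin k) (f : Fin k ⊕ Fin k → E), π s (∑ t, i t (f t)) = f s := by
    intro s f
    rw [map_sum, Finset.sum_congr rfl fun t _ => hpi s t (f t), Finset.sum_ite_eq,
      if_pos (Finset.mem_univ _)]
  let P : V →ₗ[F] V := ∑ t, i t ∘ₗ π t
  have hP : ∀ v, P v = ∑ t, i t (π t v) := by
    intro v
    simp only [P, LinearMap.sum_apply, LinearMap.comp_apply]
  have hPA : ∀ v, v - P v ∈ A' := by
    intro v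
    rw [hA]
    intro s
    rw [map_sub, hP, hpis, sub_self]
  let e : V ≃ₗ[F] ((Fin k → E) × A') × (Fin k → E) :=
    { toFun := fun v => (((fun s => π (Sum.inl s) v), ⟨v - P v, hPA v⟩),
        fun s => π (Sum.inr s) v)
      invFun := fun w => ∑ t, i t (Sum.elim w.1.1 w.2 t) + w.1.2
      map_add' := fun v w => by
        refine Prod.ext (Prod.ext ?_ (Subtype.ext ?_)) ?_
        · funext s
          exact map_add _ _ _
        · show v + w - P (v + w) = (v - P v) + (w - P w)
          rw [map_add]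
          abel
        · funext s
          exact map_add _ _ _
      map_smul' := fun c v => by
        refine Prod.ext (Prod.ext ?_ (Subtype.ext ?_)) ?_
        · funext s
          exact map_smul _ _ _
        · show c • v - P (c • v) = c • (v - P v)
          rw [map_smul, smul_sub]
        · funext s
          exact map_smul _ _ _
      left_inv := fun v => by
        show ∑ t, i t (Sum.elim (fun s => π (Sum.inl s) v) (fun s => π (Sum.inr s) v) t) +
          (v - P v) = v
        have h4 : ∑ t, i t (Sum.elim (fun s => π (Sum.inl s) v)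
            (fun s => π (Sum.inr s) v) t) = P v := by
          rw [hP]
          refine Finset.sum_congr rfl fun t _ => ?_
          rcases t with t | t <;> rfl
        rw [h4]
        abel
      right_inv := fun w => by
        have h4 : ∀ s, π s (∑ t, i t (Sum.elim w.1.1 w.2 t) + (w.1.2 : V)) =
            Sum.elim w.1.1 w.2 s := by
          intro s
          rw [map_add, hpis, (hA _).1 w.1.2.2 s, add_zero]
        refine Prod.ext (Prod.ext ?_ (Subtype.ext ?_)) ?_
        · funext s
          exact h4 (Sum.inl s)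
        · show ∑ t, i t (Sum.elim w.1.1 w.2 t) + (w.1.2 : V) -
            P (∑ t, i t (Sum.elim w.1.1 w.2 t) + (w.1.2 : V)) = w.1.2
          have h5 : P (∑ t, i t (Sum.elim w.1.1 w.2 t) + (w.1.2 : V)) =
              ∑ t, i t (Sum.elim w.1.1 w.2 t) := by
            rw [hP]
            refine Finset.sum_congr rfl fun t _ => ?_
            rw [h4]
          rw [h5]
          abel
        · funext s
          exact h4 (Sum.inr s) }
  refine ⟨A', e, x', fun v => ?_⟩
  refine Prod.ext (Prod.ext ?_ (Subtype.ext ?_)) ?_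
  · funext s
    exact h3 _ _
  · show x v - P (x v) = x (v - P v)
    rw [map_sub, hP, hP, map_sum]
    congr 1
    refine Finset.sum_congr rfl fun t _ => ?_
    rw [h3, h2]
  · funext s
    exact h3 _ _

private lemma al_sub60 [Finite V] (W : Submodule F V) (n : ℕ) (hn : n ≤ finrank F W) :
    ∃ A : Submodule F V, A ≤ W ∧ finrank F A = n := by
  obtain ⟨f, hf⟩ := exists_linearIndependent_of_le_finrank hn
  refine ⟨(Submodule.span F (Set.range f)).map W.subtype, ?_, ?_⟩
  · rw [Submodule.map_le_iff_le_comap]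
    intro v _
    exact v.2
  · rw [Submodule.finrank_map_subtype_eq, finrank_span_eq_card hf, Fintype.card_fin]

private lemma al_small60 [Finite V] (x : V ≃ₗ[F] V) (hx : x ≠ 1) (K n1 : ℕ)
    (hV : n1 + n1 + 2 * K + 1 ≤ finrank F V)
    (hK : finrank F (LinearMap.range ((x : V →ₗ[F] V) - LinearMap.id)) ≤ K) :
    ∃ (A B : Submodule F V) (e : V ≃ₗ[F] A × B) (z : B ≃ₗ[F] B),
      n1 ≤ finrank F A ∧ n1 ≤ finrank F B ∧ z ≠ 1 ∧
      finrank F (LinearMap.range ((z : B →ₗ[F] B) - LinearMap.id)) ≤ K ∧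
      ∀ v, e (x v) = ((e v).1, z (e v).2) := by
  obtain ⟨I, hI⟩ : ∃ I, I = LinearMap.range ((x : V →ₗ[F] V) - LinearMap.id) := ⟨_, rfl⟩
  obtain ⟨N, hN⟩ : ∃ N, N = LinearMap.ker ((x : V →ₗ[F] V) - LinearMap.id) := ⟨_, rfl⟩
  have hrn := LinearMap.finrank_range_add_finrank_ker ((x : V →ₗ[F] V) - LinearMap.id)
  rw [← hI, ← hN] at hrn
  rw [← hI] at hK
  have hIx : ∀ v, x v - v ∈ I := by
    intro v
    rw [hI]
    exact ⟨v, rfl⟩
  have hNx : ∀ v ∈ N, x v = v := by
    intro v hv
    rw [hN, LinearMap.mem_ker] at hv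
    exact sub_eq_zero.1 hv
  -- a complement of N ⊓ I in N
  obtain ⟨C, hC⟩ := Submodule.exists_isCompl (N ⊓ I)
  obtain ⟨N₀, hN₀⟩ : ∃ N₀, N₀ = C ⊓ N := ⟨_, rfl⟩
  have hdis : N₀ ⊓ I = ⊥ := by
    rw [hN₀, inf_assoc, inf_comm]
    exact hC.disjoint.eq_bot
  have hdim : finrank F N ≤ finrank F N₀ + finrank F I := by
    have h1 : N ≤ N₀ ⊔ (N ⊓ I) := by
      rw [hN₀, sup_comm, inf_comm C N]
      have h2 : (N ⊓ I) ⊔ (N ⊓ C) = N := by
        rw [sup_comm, inf_sup_assoc_of_le C (inf_le_left : N ⊓ I ≤ N), sup_comm,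
          hC.sup_eq_top, inf_top_eq]
      rw [h2]
    have h3 := Submodule.finrank_mono h1
    have h4 := Submodule.finrank_add_le_finrank_add_finrank N₀ (N ⊓ I)
    have h5 := Submodule.finrank_mono (inf_le_right : N ⊓ I ≤ I)
    omega
  obtain ⟨A, hA1, hA2⟩ := al_sub60 N₀ n1 (by omega)
  have hAI : Disjoint I A := by
    rw [disjoint_iff]
    apply le_bot_iff.1
    rw [← hdis, inf_comm]
    exact inf_le_inf_right _ hA1
  obtain ⟨B, hIB, hBA⟩ := hAI.exists_isCompl
  have hAB : IsCompl A B := hBA.symm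
  have hAx : ∀ v ∈ A, x v = v := fun v hv => hNx v (by
    have := hA1 hv
    rw [hN₀] at this
    exact this.2)
  have hBx : ∀ v ∈ B, x v ∈ B := by
    intro v hv
    have h1 := B.add_mem (hIB (hIx v)) hv
    rwa [sub_add_cancel] at h1
  let zl : B →ₗ[F] B := (x : V →ₗ[F] V).restrict hBx
  have hzl : ∀ b : B, (zl b : V) = x b := fun b => rfl
  have hinj : Function.Injective zl := by
    intro a b hab
    apply Subtype.ext
    apply x.injective
    rw [← hzl, ← hzl, hab]
  let z : B ≃ₗ[F] B := LinearEquiv.ofInjectiveEndo zl hinj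
  have hz : ∀ b : B, (z b : V) = x b := fun b => rfl
  let e : V ≃ₗ[F] A × B := (Submodule.prodEquivOfIsCompl A B hAB).symm
  have he : ∀ (a : A) (b : B), e ((a : V) + b) = (a, b) := by
    intro a b
    rw [LinearEquiv.symm_apply_eq, Submodule.coe_prodEquivOfIsCompl']
  have hev : ∀ v, ((e v).1 : V) + (e v).2 = v := by
    intro v
    have h1 := (Submodule.prodEquivOfIsCompl A B hAB).apply_symm_apply v
    rwa [Submodule.coe_prodEquivOfIsCompl'] at h1
  refine ⟨A, B, e, z, hA2.ge, ?_, ?_, ?_, ?_⟩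
  · have h1 := Submodule.finrank_add_eq_of_isCompl hAB
    omega
  · intro h
    apply hx
    ext v
    show x v = v
    rw [← hev v, map_add, hAx _ (e v).1.2, ← hz, h]
    rfl
  · refine le_trans ?_ hK
    rw [← Submodule.finrank_map_subtype_eq B]
    refine Submodule.finrank_mono ?_
    rintro _ ⟨_, ⟨b, rfl⟩, rfl⟩
    exact hIx b
  · intro v
    rw [← he]
    congr 1
    conv_lhs => rw [← hev v]
    rw [map_add, hAx _ (e v).1.2, hz]

end

theorem decomp (F : Type) [Field F] [Finite F] (h k : ℕ) : ∃ K : ℕ, ∀ n1 : ℕ, ∃ n0 : ℕ,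
    ∀ (V : Type) [AddCommGroup V] [Module F V] [Finite V], n0 ≤ finrank F V →
    ∀ x : V ≃ₗ[F] V, orderOf x ≤ h → (orderOf x).Coprime (Nat.card F - 1) →
    x = 1 ∨
    (∃ (E A' : Type) (_ : AddCommGroup E) (_ : Module F E) (_ : Finite E) (_ : AddCommGroup A')
      (_ : Module F A') (_ : Finite A') (e : V ≃ₗ[F] ((Fin k → E) × A') × (Fin k → E))
      (x₀ : E ≃ₗ[F] E) (x' : A' ≃ₗ[F] A'), Nonsc x₀ ∧
      ∀ v, e (x v) = (((fun i => x₀ ((e v).1.1 i)), x' (e v).1.2), fun i => x₀ ((e v).2 i))) ∨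
    ∃ (A B : Type) (_ : AddCommGroup A) (_ : Module F A) (_ : Finite A) (_ : AddCommGroup B)
      (_ : Module F B) (_ : Finite B) (e : V ≃ₗ[F] A × B) (z : B ≃ₗ[F] B),
      n1 ≤ finrank F A ∧ n1 ≤ finrank F B ∧ z ≠ 1 ∧
      finrank F (LinearMap.range ((z : B →ₗ[F] B) - LinearMap.id)) ≤ K ∧
      ∀ v, e (x v) = ((e v).1, z (e v).2) := by
  obtain ⟨K, hK⟩ := dichotomy F h k
  refine ⟨K, fun n1 => ⟨n1 + n1 + 2 * K + 1, ?_⟩⟩
  intro V _ _ _ hV x hx hcop
  by_cases hx1 : x = 1
  · exact Or.inl hx1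
  right
  rcases hK V x hx with ⟨a, ha⟩ | ⟨E, _, _, _, x₀, i, π, hns, h1, h2, h3⟩
  · right
    -- `a = 1`
    have hrn := LinearMap.finrank_range_add_finrank_ker ((x : V →ₗ[F] V) - a • LinearMap.id)
    have hker : 0 < finrank F (LinearMap.ker ((x : V →ₗ[F] V) - a • LinearMap.id)) := by omega
    obtain ⟨⟨v, hv⟩, hv0⟩ := Module.finrank_pos_iff_exists_ne_zero.1 hker
    have hv0' : v ≠ 0 := fun h => hv0 (Subtype.ext h)
    have hxv : x v = a • v := by
      rw [LinearMap.mem_ker] at hv
      exact sub_eq_zero.1 hv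
    have ha0 : a ≠ 0 := by
      rintro rfl
      rw [zero_smul] at hxv
      exact hv0' (x.injective (by rw [hxv, map_zero]))
    have hpow : ∀ n : ℕ, (x ^ n) v = a ^ n • v := by
      intro n
      induction n with
      | zero => simp
      | succ n ih =>
        rw [pow_succ', pow_succ', mul_smul]
        show x ((x ^ n) v) = _
        rw [ih, map_smul, hxv, smul_comm]
    have h1 : a ^ orderOf x = 1 := by
      have h2 := hpow (orderOf x)
      rw [pow_orderOf_eq_one] at h2
      have h3 : (a ^ orderOf x - 1) • v = 0 := by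
        rw [sub_smul, one_smul, ← h2]
        exact sub_self _
      rcases smul_eq_zero.1 h3 with h4 | h4
      · exact sub_eq_zero.1 h4
      · exact absurd h4 hv0'
    have h2 : Units.mk0 a ha0 = 1 := by
      refine unit_eq_one (m := orderOf x) ?_ hcop
      ext
      exact h1
    have ha1 : a = 1 := congrArg Units.val h2
    rw [ha1, one_smul] at ha
    obtain ⟨A, B, e, z, h3, h4, h5, h6, h7⟩ := al_small60 x hx1 K n1 hV ha
    exact ⟨A, B, _, _, inferInstance, _, _, inferInstance, e, z, h3, h4, h5, h6, h7⟩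
  · left
    let S : Fin k ⊕ Fin k ≃ Fin (2 * k) := finSumFinEquiv.trans (finCongr (two_mul k).symm)
    obtain ⟨A', e, x', he⟩ := al_copies60 x x₀ (fun s => i (S s)) (fun s => π (S s))
      (fun s t => by
        rw [h1]
        by_cases hst : s = t
        · rw [if_pos hst, if_pos (by rw [hst])]
        · rw [if_neg hst, if_neg (fun h => hst (S.injective h))])
      (fun s u => h2 _ u) (fun s v => h3 _ v)
    exact ⟨E, A', _, _, inferInstance, _, _, inferInstance, e, x₀, x', hns, he⟩

end Pool.Agent.Helper70.GLn
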