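import Pool.Agent.Helper70.GLn.TR

/-!
# GL-AT: the average of an additive character over the special linear group (80-140 lines)

PROOF. `q = |F|`, `a = dim A`. Choose a functional `f` with `f ∘ M ≠ 0` (and then `f ≠ 0`). For `u ∈ ker f` the transvection
`E_u = 1 + f ⊗ u : x ↦ x + f x • u` has determinant 1 (`LinearEquiv.transvection`), so the sum over `g` is the sum over `g * E_u`; average
over `u ∈ ker f`: `trace (g E_u M) = trace (g M) + f (M (g u))` (the trace of `x ↦ f (M x) • g u`,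
`LinearMap.trace_comp_comm'` / trace of a rank one map). The average over `u ∈ ker f` of `ps F (f (M (g u)))` is `1` if the functional
`f ∘ M ∘ g` vanishes on `ker f` and `0` otherwise (nontrivial character of `ker f`, `ps_prim`). So the norm of the sum is at
most the number of `g` with `(f ∘ M) ∘ g ∈ {c • f}`; as `f ∘ M ≠ 0`, `c ≠ 0` and `card_dual` with `S = {c • f : c ≠ 0}`,
`|S| = q - 1`: this number is `|SL| (q-1) / (q^a - 1) ≤ |SL| / q^(a-1)`.
-/

set_option autoImplicit false

open Module Pool.Agent.Helper13.Ded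

namespace Pool.Agent.Helper70.GLn

variable {F A : Type} [Field F] [Finite F] [AddCommGroup A] [Module F A] [Finite A]

omit [Finite F] in
private lemma trace_rank_one_h2 (φ : A →ₗ[F] F) (y : A) :
    LinearMap.trace F A (φ.smulRight y) = φ y := by
  have h1 : φ.smulRight y = dualTensorHom F A A (φ ⊗ₜ[F] y) := by
    ext x
    rw [dualTensorHom_apply]
    rfl
  rw [h1, LinearMap.trace_eq_contract_apply, contractLeft_apply]

private lemma sum_ps_h2 {W : Type} [AddCommGroup W] [Module F W] [Fintype W] (L : W →ₗ[F] F)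
    (hL : L ≠ 0) : ∑ u : W, ps F (L u) = 0 := by
  obtain ⟨u₀, hu₀⟩ : ∃ u, L u ≠ 0 := by
    by_contra hc
    push Not at hc
    exact hL (LinearMap.ext hc)
  have h1 : (ps F) ≠ 1 := by
    have h2 := ps_prim (F := F) (one_ne_zero)
    rwa [AddChar.mulShift_one] at h2
  obtain ⟨t, ht⟩ : ∃ t, ps F t ≠ 1 := by
    by_contra hc
    push Not at hc
    exact h1 (DFunLike.ext _ _ hc)
  have h3 : (ps F).compAddMonoidHom L.toAddMonoidHom ≠ 0 := by
    intro h0
    have h4 := DFunLike.congr_fun h0 ((t * (L u₀)⁻¹) • u₀)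
    have h5 : ps F (L ((t * (L u₀)⁻¹) • u₀)) = 1 := h4
    rw [map_smul, smul_eq_mul, mul_assoc, inv_mul_cancel₀ hu₀, mul_one] at h5
    exact ht h5
  exact AddChar.sum_eq_zero_iff_ne_zero.2 h3

theorem avg_trace [Fintype (SpecialLinearGroup F A)] (hA : 2 ≤ finrank F A) {M : A →ₗ[F] A}
    (hM : M ≠ 0) :
    ‖∑ g : SpecialLinearGroup F A, ps F (LinearMap.trace F A ((g : A →ₗ[F] A) ∘ₗ M))‖ *
      (Nat.card F : ℝ) ^ (finrank F A - 1) ≤ Nat.card (SpecialLinearGroup F A) := by
  classical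
  obtain ⟨a₀, ha₀⟩ : ∃ a, M a ≠ 0 := by
    by_contra hc
    push Not at hc
    exact hM (LinearMap.ext hc)
  obtain ⟨f, hf⟩ : ∃ f : A →ₗ[F] F, f (M a₀) ≠ 0 := by
    by_contra hc
    push Not at hc
    exact ha₀ ((Module.forall_dual_apply_eq_zero_iff F (M a₀)).1 hc)
  have hfM : f ∘ₗ M ≠ 0 := by
    intro h0
    exact hf (LinearMap.congr_fun h0 a₀)
  have hf0 : f ≠ 0 := by
    rintro rfl
    exact hf rfl
  let K := LinearMap.ker f
  have : Fintype K := Fintype.ofFinite K
  set Sm := ∑ g : SpecialLinearGroup F A, ps F (LinearMap.trace F A ((g : A →ₗ[F] A) ∘ₗ M))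
    with hSm
  let E : K → SpecialLinearGroup F A := fun u =>
    ⟨LinearEquiv.transvection (f := f) (v := (u : A)) u.2, LinearEquiv.transvection.det_eq_one _⟩
  have hE : ∀ (u : K) (x : A), E u x = x + f x • (u : A) := fun u x => by
    show LinearEquiv.transvection (f := f) (v := (u : A)) u.2 x = _
    rw [LinearEquiv.transvection.apply]
  have h1 : ∀ u : K, Sm = ∑ g : SpecialLinearGroup F A,
      ps F (LinearMap.trace F A ((g : A →ₗ[F] A) ∘ₗ M)) * ps F (f (M (g (u : A)))) := by
    intro u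
    rw [hSm, ← Equiv.sum_comp (Equiv.mulRight (E u))]
    refine Finset.sum_congr rfl fun g _ => ?_
    rw [← AddChar.map_add_eq_mul]
    congr 1
    have h2 : (((Equiv.mulRight (E u) g : SpecialLinearGroup F A) : A ≃ₗ[F] A) : A →ₗ[F] A) ∘ₗ M =
        (g : A →ₗ[F] A) ∘ₗ M + (f ∘ₗ M).smulRight (g (u : A)) := by
      ext x
      show g (E u (M x)) = g (M x) + f (M x) • g (u : A)
      rw [hE]
      exact ((g : A ≃ₗ[F] A).map_add _ _).trans (by rw [LinearEquiv.map_smul])
    rw [h2, map_add, trace_rank_one_h2]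
    rfl
  have hKpos : (0 : ℝ) < Fintype.card K := by exact_mod_cast Fintype.card_pos
  let P : SpecialLinearGroup F A → Prop := fun g =>
    (f ∘ₗ M) ∘ₗ (g : A →ₗ[F] A) ∈ {c | ∃ t : F, t ≠ 0 ∧ c = t • f}
  have h3 : ∀ g : SpecialLinearGroup F A, ¬ P g → ∑ u : K, ps F (f (M (g (u : A)))) = 0 := by
    intro g hg
    have h4 := sum_ps_h2 (((f ∘ₗ M) ∘ₗ (g : A →ₗ[F] A)) ∘ₗ K.subtype) (by
      intro h0
      apply hg
      obtain ⟨z, hz⟩ : ∃ z, f z ≠ 0 := by
        by_contra hc
        push Not at hc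
        exact hf0 (LinearMap.ext hc)
      have h5 : (f ∘ₗ M) ∘ₗ (g : A →ₗ[F] A) = (((f ∘ₗ M) (g z)) * (f z)⁻¹) • f := by
        ext x
        have h6 : x - (f x * (f z)⁻¹) • z ∈ K := by
          show f _ = 0
          rw [map_sub, map_smul, smul_eq_mul, mul_assoc, inv_mul_cancel₀ hz, mul_one, sub_self]
        have h7 := LinearMap.congr_fun h0 ⟨_, h6⟩
        have h8 : ((f ∘ₗ M) ∘ₗ (g : A →ₗ[F] A)) (x - (f x * (f z)⁻¹) • z) = 0 := h7
        rw [map_sub, map_smul, smul_eq_mul, sub_eq_zero] at h8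
        rw [h8, LinearMap.smul_apply, smul_eq_mul]
        show f x * (f z)⁻¹ * (f ∘ₗ M) (g z) = _
        ring
      refine ⟨_, ?_, h5⟩
      intro h9
      rw [h9, zero_smul] at h5
      apply hfM
      ext x
      have h10 := LinearMap.congr_fun h5 (g⁻¹ x)
      have h11 : (f ∘ₗ M) (g (g⁻¹ x)) = 0 := h10
      rw [inv_apply_self] at h11
      exact h11)
    exact h4
  have h4 : ‖Sm‖ ≤ Fintype.card {g : SpecialLinearGroup F A // P g} := by
    have h5 : (Fintype.card K : ℂ) * Sm = ∑ g : SpecialLinearGroup F A,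
        ps F (LinearMap.trace F A ((g : A →ₗ[F] A) ∘ₗ M)) * ∑ u : K, ps F (f (M (g (u : A)))) := by
      have h6 : (Fintype.card K : ℂ) * Sm = ∑ u : K, Sm := by
        rw [Finset.sum_const, Finset.card_univ, nsmul_eq_mul]
      rw [h6, Finset.sum_congr rfl (fun u _ => h1 u), Finset.sum_comm]
      refine Finset.sum_congr rfl fun g _ => ?_
      rw [Finset.mul_sum]
    have h7 : ‖(Fintype.card K : ℂ) * Sm‖ ≤ Fintype.card K * Fintype.card {g // P g} := by
      rw [h5]
      calc ‖∑ g : SpecialLinearGroup F A, ps F (LinearMap.trace F A ((g : A →ₗ[F] A) ∘ₗ M)) *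
            ∑ u : K, ps F (f (M (g (u : A))))‖
          ≤ ∑ g : SpecialLinearGroup F A, ‖ps F (LinearMap.trace F A ((g : A →ₗ[F] A) ∘ₗ M)) *
            ∑ u : K, ps F (f (M (g (u : A))))‖ := norm_sum_le _ _
        _ ≤ ∑ g : SpecialLinearGroup F A, if P g then (Fintype.card K : ℝ) else 0 := by
            refine Finset.sum_le_sum fun g _ => ?_
            split_ifs with hg
            · rw [norm_mul, AddChar.norm_apply, one_mul]
              refine (norm_sum_le _ _).trans ?_
              rw [Finset.sum_congr rfl (fun u _ => AddChar.norm_apply _ _), Finset.sum_const,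
                Finset.card_univ, nsmul_eq_mul, mul_one]
            · rw [h3 g hg, mul_zero, norm_zero]
        _ = Fintype.card K * Fintype.card {g // P g} := by
            rw [← Finset.sum_filter, Finset.sum_const, nsmul_eq_mul, mul_comm]
            congr 2
            exact (Fintype.card_subtype P).symm
    rw [norm_mul, Complex.norm_natCast] at h7
    exact le_of_mul_le_mul_left h7 hKpos
  have h5 := card_dual hA hfM {c | ∃ t : F, t ≠ 0 ∧ c = t • f} (by
    rintro ⟨t, ht, h0⟩
    rcases smul_eq_zero.1 h0.symm with h | h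
    · exact ht h
    · exact hf0 h)
  have h6 : Nat.card ({c | ∃ t : F, t ≠ 0 ∧ c = t • f} : Set (A →ₗ[F] F)) = Nat.card F - 1 := by
    have h7 : Nat.card ({0}ᶜ : Set F) = Nat.card F - 1 := by
      rw [Nat.card_coe_set_eq, Set.ncard_compl, Set.ncard_singleton]
    rw [← h7]
    symm
    refine Nat.card_congr (Equiv.ofBijective (fun t => ⟨(t : F) • f, t, t.2, rfl⟩) ⟨?_, ?_⟩)
    · rintro ⟨t, ht⟩ ⟨t', ht'⟩ h
      have h8 := congrArg Subtype.val h
      have h9 : t • f = t' • f := h8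
      exact Subtype.ext (smul_left_injective F hf0 h9)
    · rintro ⟨c, t, ht, rfl⟩
      exact ⟨⟨t, ht⟩, rfl⟩
  have h7 : Nat.card {g : SpecialLinearGroup F A //
      (f ∘ₗ M) ∘ₗ (g : A →ₗ[F] A) ∈ {c | ∃ t : F, t ≠ 0 ∧ c = t • f}} =
      Fintype.card {g : SpecialLinearGroup F A // P g} := Nat.card_eq_fintype_card
  rw [h6, h7] at h5
  have hcA : Nat.card A = Nat.card F ^ finrank F A := Module.natCard_eq_pow_finrank
  have hq : 2 ≤ Nat.card F := by
    have := Finite.one_lt_card (α := F)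
    omega
  set q := Nat.card F with hqd
  set a := finrank F A with had
  set N := Fintype.card {g : SpecialLinearGroup F A // P g}
  rw [hcA] at h5
  have hqa : q ^ a = q * q ^ (a - 1) := by
    rw [← pow_succ']
    congr 1
    omega
  have hqa1 : 1 ≤ q ^ (a - 1) := Nat.one_le_pow _ _ (by omega)
  have hqa2 : q ≤ q ^ a := by
    rw [hqa]
    exact Nat.le_mul_of_pos_right _ hqa1
  have h8 : (N : ℝ) * ((q : ℝ) ^ a - 1) = Nat.card (SpecialLinearGroup F A) * ((q : ℝ) - 1) := by
    have h9 := congrArg (fun n : ℕ => (n : ℝ)) h5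
    simp only [Nat.cast_mul] at h9
    rw [Nat.cast_sub (by omega), Nat.cast_sub (by omega)] at h9
    push_cast at h9
    exact h9
  have hqr : (2 : ℝ) ≤ q := by exact_mod_cast hq
  have hqa' : (q : ℝ) ^ a = q * (q : ℝ) ^ (a - 1) := by exact_mod_cast hqa
  have hqa1' : (1 : ℝ) ≤ (q : ℝ) ^ (a - 1) := by exact_mod_cast hqa1
  have hpos : 0 < (q : ℝ) ^ a - 1 := by
    rw [hqa']
    nlinarith
  have hcs : (0 : ℝ) ≤ Nat.card (SpecialLinearGroup F A) := Nat.cast_nonneg _
  have h10 : (N : ℝ) * (q : ℝ) ^ (a - 1) ≤ Nat.card (SpecialLinearGroup F A) := by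
    refine le_of_mul_le_mul_right ?_ hpos
    calc (N : ℝ) * (q : ℝ) ^ (a - 1) * ((q : ℝ) ^ a - 1) =
          (N : ℝ) * ((q : ℝ) ^ a - 1) * (q : ℝ) ^ (a - 1) := by ring
      _ = Nat.card (SpecialLinearGroup F A) * (((q : ℝ) - 1) * (q : ℝ) ^ (a - 1)) := by
          rw [h8]; ring
      _ ≤ Nat.card (SpecialLinearGroup F A) * ((q : ℝ) ^ a - 1) := by
          apply mul_le_mul_of_nonneg_left _ hcs
          rw [hqa']
          linarith
  exact (mul_le_mul_of_nonneg_right h4 (by positivity)).trans h10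

end Pool.Agent.Helper70.GLn
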