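import Mathlib

/-!
# GL-IR: the number of irreducible polynomials (80-140 lines)

PROOF. If `S` is empty this is clear. Otherwise let `f₀ ∈ S` and `K = AdjoinRoot f₀`, a field with `q ^ d` elements. Every `f ∈ S` divides `X ^ (q ^ d) - X` (in the field `AdjoinRoot f` with
`q ^ d` elements the root `a` satisfies `a ^ (q ^ d) = a`, so `f = minpoly` divides), and `X ^ (q ^ d) - X` is the product of the `X - C a` over `a ∈ K` (`FiniteField.X_pow_card_sub_X...`,
`FiniteField.roots_X_pow_card_sub_X`), so `f` splits in `K` with distinct roots: it has exactly `d` roots in `K`, all nonzero as `f ≠ X` is irreducible. Different `f` have disjoint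
sets of roots (`f` is the minimal polynomial of its roots). So `|S| * d ≤ |K| - 1`.
-/

set_option autoImplicit false

open Polynomial

namespace Pool.Agent.Helper70.GLn

private theorem irred_dvd {F : Type} [Field F] [Finite F] {f : F[X]} (hf : Irreducible f) :
    f ∣ X ^ (Nat.card F ^ f.natDegree) - X := by
  have : Fact (Irreducible f) := ⟨hf⟩
  have h0 : f ≠ 0 := hf.ne_zero
  have : Module.Finite F (AdjoinRoot f) := (AdjoinRoot.powerBasis h0).finite
  have : Finite (AdjoinRoot f) := Module.finite_of_finite F
  have hcard : Nat.card (AdjoinRoot f) = Nat.card F ^ f.natDegree := by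
    rw [Module.natCard_eq_pow_finrank (K := F) (V := AdjoinRoot f),
      (AdjoinRoot.powerBasis h0).finrank, AdjoinRoot.powerBasis_dim]
  rw [← AdjoinRoot.mk_eq_zero, map_sub, map_pow, ← hcard, sub_eq_zero]
  have := Fintype.ofFinite (AdjoinRoot f)
  rw [Nat.card_eq_fintype_card]
  exact FiniteField.pow_card _

theorem card_irred {F : Type} [Field F] [Finite F] (d : ℕ) (S : Finset F[X])
    (hS : ∀ f ∈ S, f.Monic ∧ Irreducible f ∧ f.natDegree = d ∧ f ≠ X) :
    S.card * d ≤ Nat.card F ^ d - 1 := by
  classical
  rcases S.eq_empty_or_nonempty with h | ⟨f0, hf0⟩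
  · subst h
    simp
  · have hd : d ≠ 0 := by
      obtain ⟨_, h1, h2, _⟩ := hS f0 hf0
      rw [← h2]
      exact h1.natDegree_pos.ne'
    have hq : 1 < Nat.card F := Finite.one_lt_card
    have hXS : (X : F[X]) ∉ S := fun h => (hS X h).2.2.2 rfl
    set T : Finset F[X] := insert X S with hT
    have hTm : ∀ f ∈ T, f.Monic ∧ Irreducible f := by
      intro f hf
      rcases Finset.mem_insert.1 hf with rfl | h
      · exact ⟨monic_X, irreducible_X⟩
      · exact ⟨(hS f h).1, (hS f h).2.1⟩
    have hdvd : ∏ f ∈ T, f ∣ (X ^ (Nat.card F ^ d) - X : F[X]) := by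
      apply Finset.prod_dvd_of_coprime
      · intro f hf g hg hne
        have hf' := hTm f hf
        have hg' := hTm g hg
        show IsCoprime f g
        rw [hf'.2.coprime_iff_not_dvd]
        intro h
        exact hne (eq_of_monic_of_associated hf'.1 hg'.1 (hf'.2.associated_of_dvd hg'.2 h))
      · intro f hf
        rcases Finset.mem_insert.1 hf with rfl | h
        · exact dvd_sub (dvd_pow_self _ (pow_ne_zero _ (by omega))) (dvd_refl _)
        · obtain ⟨_, h1, h2, _⟩ := hS f h
          have := irred_dvd h1
          rwa [h2] at this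
    have hne : (X ^ (Nat.card F ^ d) - X : F[X]) ≠ 0 := FiniteField.X_pow_card_pow_sub_X_ne_zero F hd hq
    have hdeg := natDegree_le_of_dvd hdvd hne
    rw [FiniteField.X_pow_card_pow_sub_X_natDegree_eq F hd hq,
      natDegree_prod_of_monic T _ (fun f hf => (hTm f hf).1), hT, Finset.sum_insert hXS, natDegree_X,
      Finset.sum_congr rfl (fun f hf => (hS f hf).2.2.1), Finset.sum_const, smul_eq_mul] at hdeg
    omega

end Pool.Agent.Helper70.GLn
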