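import Pool.Agent.Helper70.GLn.PI

/-!
# GL-PF: iterating the submultiplicativity (60-120 lines)

PROOF. `pf_iter`: induction on `m`: `m = 0`: `NP f V ≤ GLc F V` (subtype). Step: `finrank V = finrank A + n'`, so `V ≃ₗ A × V'` with `V' = Fin n' → F`
(`LinearEquiv.ofFinrankEq`), `n' ≥ m * finrank A`; `prim_mul` and the induction hypothesis for `V'`:
`NP f V * GLc A * GLc V' ≤ GLc V * NP f A * NP f V'`, `NP f V' * GLc A ^ m ≤ GLc V' * NP f A ^ m`; multiply and cancel `GLc V' > 0`.
`pf_deg`: `pf_iter` with `A = Fin (natDegree f) → F` and `prim_irr` for `A`: `NP f A * (q ^ d - 1) ≤ GLc A`, so `NP f V * (q ^ d - 1) ^ m ≤ GLc V` (cancel `NP f A ^ m`, or `GLc A ^ m`;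
if `NP f A = 0` the left side of `pf_iter` shows `NP f V = 0`).
`pf_lin`: `c = max` over `a ∈ F` of `NP (X - C a) (F × F) / GLc F (F × F)`, `< 1` by `prim_lt`; `pf_iter` with `A = F × F`, `m = finrank V / 2`.
-/

set_option autoImplicit false

open Module Polynomial

namespace Pool.Agent.Helper70.GLn

private theorem fin_pf45 (F V : Type) [Field F] [AddCommGroup V] [Module F V] [Finite V] :
    Finite (V ≃ₗ[F] V) :=
  Finite.of_injective (fun f : V ≃ₗ[F] V => (f : V → V)) DFunLike.coe_injective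

private theorem pos_pf45 (F V : Type) [Field F] [AddCommGroup V] [Module F V] [Finite V] :
    0 < GLc F V := by
  have := fin_pf45 F V
  exact Nat.card_pos

theorem pf_iter {F A : Type} [Field F] [Finite F] [AddCommGroup A] [Module F A] [Finite A]
    {f : F[X]} (hf : Irreducible f) (hd : f.natDegree ∣ finrank F A) (m : ℕ) :
    ∀ (V : Type) [AddCommGroup V] [Module F V] [Finite V], m * finrank F A ≤ finrank F V →
      NP f V * GLc F A ^ m ≤ GLc F V * NP f A ^ m := by
  induction m with
  | zero =>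
    intro V _ _ _ _
    rw [pow_zero, pow_zero, mul_one, mul_one]
    have := fin_pf45 F V
    exact Finite.card_subtype_le _
  | succ m ih =>
    intro V _ _ _ hV
    have hfA : Module.Finite F A := Module.Finite.of_finite
    have hfV : Module.Finite F V := Module.Finite.of_finite
    have hle : finrank F A ≤ finrank F V := by nlinarith
    obtain ⟨n', hn'⟩ : ∃ n', finrank F V = finrank F A + n' := ⟨_, (Nat.add_sub_of_le hle).symm⟩
    have hn : finrank F V = finrank F (A × (Fin n' → F)) := by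
      rw [finrank_prod, finrank_fin_fun]; exact hn'
    have e : V ≃ₗ[F] A × (Fin n' → F) := LinearEquiv.ofFinrankEq _ _ hn
    have h1 := prim_mul (A := A) (B := Fin n' → F) hf hd
    have h2 := ih (Fin n' → F) (by rw [finrank_fin_fun]; nlinarith)
    rw [np_congr e, gl_congr e]
    have hpos : 0 < GLc F (Fin n' → F) := pos_pf45 _ _
    refine Nat.le_of_mul_le_mul_right ?_ hpos
    calc NP f (A × (Fin n' → F)) * GLc F A ^ (m + 1) * GLc F (Fin n' → F)
        = (NP f (A × (Fin n' → F)) * (GLc F A * GLc F (Fin n' → F))) * GLc F A ^ m := by ring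
      _ ≤ (GLc F (A × (Fin n' → F)) * (NP f A * NP f (Fin n' → F))) * GLc F A ^ m :=
          Nat.mul_le_mul_right _ h1
      _ = GLc F (A × (Fin n' → F)) * NP f A * (NP f (Fin n' → F) * GLc F A ^ m) := by ring
      _ ≤ GLc F (A × (Fin n' → F)) * NP f A * (GLc F (Fin n' → F) * NP f A ^ m) :=
          Nat.mul_le_mul_left _ h2
      _ = GLc F (A × (Fin n' → F)) * NP f A ^ (m + 1) * GLc F (Fin n' → F) := by ring

theorem pf_deg {F V : Type} [Field F] [Finite F] [AddCommGroup V] [Module F V] [Finite V]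
    {f : F[X]} (hf : Irreducible f) (m : ℕ) (hm : m * f.natDegree ≤ finrank F V) :
    NP f V * (Nat.card F ^ f.natDegree - 1) ^ m ≤ GLc F V := by
  have hA : finrank F (Fin f.natDegree → F) = f.natDegree := finrank_fin_fun F
  have h1 := pf_iter (A := Fin f.natDegree → F) hf (by rw [hA]) m V (by rw [hA]; exact hm)
  have h2 := prim_irr (V := Fin f.natDegree → F) hf hA
  have hpos : 0 < GLc F (Fin f.natDegree → F) := pos_pf45 _ _
  refine Nat.le_of_mul_le_mul_right ?_ (pow_pos hpos m)
  calc NP f V * (Nat.card F ^ f.natDegree - 1) ^ m * GLc F (Fin f.natDegree → F) ^ m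
      = (NP f V * GLc F (Fin f.natDegree → F) ^ m) * (Nat.card F ^ f.natDegree - 1) ^ m := by ring
    _ ≤ (GLc F V * NP f (Fin f.natDegree → F) ^ m) * (Nat.card F ^ f.natDegree - 1) ^ m :=
        Nat.mul_le_mul_right _ h1
    _ = GLc F V * (NP f (Fin f.natDegree → F) * (Nat.card F ^ f.natDegree - 1)) ^ m := by
        rw [mul_pow]; ring
    _ ≤ GLc F V * GLc F (Fin f.natDegree → F) ^ m :=
        Nat.mul_le_mul_left _ (Nat.pow_le_pow_left h2 m)

theorem pf_lin (F : Type) [Field F] [Finite F] : ∃ c : ℝ, 0 ≤ c ∧ c < 1 ∧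
    ∀ (V : Type) [AddCommGroup V] [Module F V] [Finite V] (a : F),
      (NP (X - C a) V : ℝ) ≤ c ^ (finrank F V / 2) * GLc F V := by
  have hpos : 0 < GLc F (F × F) := pos_pf45 _ _
  have hposR : (0 : ℝ) < GLc F (F × F) := by exact_mod_cast hpos
  obtain ⟨a0, ha0⟩ := Finite.exists_max (fun a : F => (NP (X - C a) (F × F) : ℝ) / GLc F (F × F))
  refine ⟨(NP (X - C a0) (F × F) : ℝ) / GLc F (F × F), by positivity, ?_, ?_⟩
  · rw [div_lt_one hposR]
    exact_mod_cast prim_lt a0
  · intro V _ _ _ a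
    have hA : finrank F (F × F) = 2 := by rw [finrank_prod, finrank_self]
    have h1 := pf_iter (A := F × F) (irreducible_X_sub_C a)
      (by rw [natDegree_X_sub_C]; exact one_dvd _) (finrank F V / 2) V
      (by rw [hA]; exact Nat.div_mul_le_self _ _)
    have h2 : (NP (X - C a) V : ℝ) * (GLc F (F × F) : ℝ) ^ (finrank F V / 2) ≤
        (GLc F V : ℝ) * (NP (X - C a) (F × F) : ℝ) ^ (finrank F V / 2) := by exact_mod_cast h1
    have h3 : (NP (X - C a) V : ℝ) ≤
        ((NP (X - C a) (F × F) : ℝ) / GLc F (F × F)) ^ (finrank F V / 2) * GLc F V := by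
      rw [div_pow, div_mul_eq_mul_div, le_div_iff₀ (pow_pos hposR _)]
      linarith
    refine h3.trans ?_
    apply mul_le_mul_of_nonneg_right _ (Nat.cast_nonneg _)
    exact pow_le_pow_left₀ (by positivity) (ha0 a) _

end Pool.Agent.Helper70.GLn
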