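import Pool.Agent.Helper70.GLn.Defs
import Pool.Agent.Helper70.GLn.PF
import Pool.Agent.Helper70.GLn.IR

/-!
# GL-PR: few elements are primary (120-200 lines)

PROOF. `n = finrank V ≥ 4`, `q = |F|`. If `f(g)` is nilpotent with `f` monic irreducible then `f ≠ X` (`g` is invertible, `V ≠ 0`) and `natDegree f` divides `n`
(`prim_dvd`). Union bound over the monic irreducible `f ≠ X` of degree `d ∣ n`: `d = 1`:
`f = X - C a`, `pf_lin`: total at most `q c ^ (n / 2) * GLc`. `2 ≤ d < n`, `n = d m`, `m ≥ 2`: `pf_deg` and `card_irred`: total at most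
`(q ^ d - 1) / d * (q ^ d - 1) ^ (-m) ≤ (q ^ d - 1) ^ (-(m - 1)) ≤ 2 ^ (-(d - 1) (m - 1)) ≤ 2 ^ (-n / 4)` times `GLc` (`q ^ d - 1 ≥ 2 ^ (d - 1)`, `(d - 1) (m - 1) ≥ d m / 4`). `d = n`: at most `1 / n * GLc`. The sum is at most
`(q c ^ (n / 2) + n 2 ^ (-n / 4) + 1 / n) * GLc`, and this tends to `0` (`tendsto_pow_const_mul_const_pow_of_abs_lt_one`-like lemmas).
(The finite set of monic polynomials of degree `d`: `Polynomial.degreeLT` is finite, or index by the coefficients; a `Finset` of all monic irreducible `f` of degree `d`.)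
-/

set_option autoImplicit false

open Module Polynomial

namespace Pool.Agent.Helper70.GLn

private lemma fin_deg70 (F : Type) [Field F] [Finite F] (d : ℕ) :
    {f : F[X] | f.Monic ∧ Irreducible f ∧ f.natDegree = d ∧ f ≠ X}.Finite := by
  have h1 : Finite (degreeLT F (d + 1)) := Finite.of_equiv _ (degreeLTEquiv F (d + 1)).symm.toEquiv
  have h2 : ((degreeLT F (d + 1) : Set F[X])).Finite := h1
  refine h2.subset ?_
  rintro f ⟨-, -, h3, -⟩
  rw [SetLike.mem_coe, mem_degreeLT]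
  refine lt_of_le_of_lt degree_le_natDegree ?_
  rw [h3]
  exact_mod_cast Nat.lt_succ_self d

private lemma lim_a70 {c ε : ℝ} (hc0 : 0 ≤ c) (hc : c < 1) (hε : 0 < ε) (q : ℝ) :
    ∃ k0 : ℕ, ∀ k ≥ k0, q * c ^ k ≤ ε := by
  have h1 := (tendsto_pow_atTop_nhds_zero_of_lt_one hc0 hc).const_mul q
  rw [mul_zero] at h1
  have h2 := h1.eventually (ge_mem_nhds hε)
  exact Filter.eventually_atTop.1 h2

private lemma lim_b70 {ε : ℝ} (hε : 0 < ε) :
    ∃ k0 : ℕ, ∀ k ≥ k0, 4 * ((k : ℝ) + 1) * (1 / 2) ^ k ≤ ε := by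
  have h1 := tendsto_self_mul_const_pow_of_lt_one (r := (1 / 2 : ℝ)) (by norm_num) (by norm_num)
  have h2 := tendsto_pow_atTop_nhds_zero_of_lt_one (r := (1 / 2 : ℝ)) (by norm_num) (by norm_num)
  have h3 := (h1.add h2).const_mul 4
  rw [add_zero, mul_zero] at h3
  have h4 := h3.eventually (ge_mem_nhds hε)
  obtain ⟨k0, hk0⟩ := Filter.eventually_atTop.1 h4
  refine ⟨k0, fun k hk => ?_⟩
  have := hk0 k hk
  calc 4 * ((k : ℝ) + 1) * (1 / 2) ^ k = 4 * (k * (1 / 2) ^ k + (1 / 2) ^ k) := by ring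
    _ ≤ ε := this

section

variable {F V : Type} [Field F] [Finite F] [AddCommGroup V] [Module F V] [Finite V]

private lemma not_prm_X70 (hV : 1 ≤ finrank F V) (g : V ≃ₗ[F] V) : ¬ Prm X g := by
  rintro ⟨k, hk⟩
  rw [aeval_X] at hk
  have h4 : ∀ n : ℕ, ((g ^ n : V ≃ₗ[F] V) : V →ₗ[F] V) = (g : V →ₗ[F] V) ^ n := by
    intro n
    induction n with
    | zero => rfl
    | succ n ih => rw [pow_succ, pow_succ, ← ih]; rfl
  rw [← h4] at hk
  have h5 : ∀ v : V, (g ^ k) v = 0 := fun v => LinearMap.congr_fun hk v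
  have h6 : Subsingleton V := by
    refine ⟨fun a b => (g ^ k).injective ?_⟩
    rw [h5, h5]
  have h7 : finrank F V = 0 := finrank_zero_of_subsingleton
  omega

private lemma sum_one70 {c : ℝ}
    (hpf : ∀ (V : Type) [AddCommGroup V] [Module F V] [Finite V] (a : F),
      (NP (X - C a) V : ℝ) ≤ c ^ (finrank F V / 2) * GLc F V) (hc0 : 0 ≤ c) :
    (∑ f ∈ (fin_deg70 F 1).toFinset, (NP f V : ℝ)) ≤
      Nat.card F * c ^ (finrank F V / 2) * GLc F V := by
  have h1 : ∀ f ∈ (fin_deg70 F 1).toFinset,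
      (NP f V : ℝ) ≤ c ^ (finrank F V / 2) * GLc F V := by
    intro f hf
    rw [Set.Finite.mem_toFinset] at hf
    obtain ⟨hm, -, hd, -⟩ := hf
    have h2 := hm.eq_X_add_C hd
    have h3 : f = X - C (-f.coeff 0) := by rw [map_neg, sub_neg_eq_add]; exact h2
    rw [h3]
    exact hpf V _
  refine (Finset.sum_le_sum h1).trans ?_
  rw [Finset.sum_const, nsmul_eq_mul]
  have h4 := card_irred 1 (fin_deg70 F 1).toFinset (fun f hf => by
    rw [Set.Finite.mem_toFinset] at hf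
    exact hf)
  rw [mul_one, pow_one] at h4
  have h5 : ((fin_deg70 F 1).toFinset.card : ℝ) ≤ Nat.card F := by
    exact_mod_cast h4.trans (Nat.sub_le _ _)
  rw [mul_assoc]
  exact mul_le_mul_of_nonneg_right h5 (by positivity)

private lemma sum_deg70 {d m : ℕ} (hd : 1 ≤ d) (hm : m * d ≤ finrank F V) :
    (∑ f ∈ (fin_deg70 F d).toFinset, NP f V) * (Nat.card F ^ d - 1) ^ m * d ≤
      (Nat.card F ^ d - 1) * GLc F V := by
  have h1 : ∀ f ∈ (fin_deg70 F d).toFinset,
      NP f V * (Nat.card F ^ d - 1) ^ m ≤ GLc F V := by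
    intro f hf
    rw [Set.Finite.mem_toFinset] at hf
    obtain ⟨-, hi, hfd, -⟩ := hf
    have h2 := pf_deg (V := V) hi m (by rw [hfd]; exact hm)
    rw [hfd] at h2
    exact h2
  have h3 := Finset.sum_le_sum h1
  rw [Finset.sum_const, smul_eq_mul, ← Finset.sum_mul] at h3
  have h4 := card_irred d (fin_deg70 F d).toFinset (fun f hf => by
    rw [Set.Finite.mem_toFinset] at hf
    exact hf)
  calc (∑ f ∈ (fin_deg70 F d).toFinset, NP f V) * (Nat.card F ^ d - 1) ^ m * d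
      ≤ (fin_deg70 F d).toFinset.card * GLc F V * d := Nat.mul_le_mul_right _ h3
    _ = ((fin_deg70 F d).toFinset.card * d) * GLc F V := by ring
    _ ≤ _ := Nat.mul_le_mul_right _ h4

private lemma q_pow70 {q d : ℕ} (hq : 2 ≤ q) (hd : 1 ≤ d) : 2 ^ (d - 1) ≤ q ^ d - 1 := by
  obtain ⟨e, rfl⟩ := Nat.exists_eq_add_of_le hd
  have h1 : 2 ^ (1 + e) ≤ q ^ (1 + e) := Nat.pow_le_pow_left hq _
  have h2 : 1 ≤ 2 ^ e := Nat.one_le_two_pow
  have h3 : 2 ^ (1 + e) = 2 * 2 ^ e := by rw [pow_add, pow_one]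
  have h4 : 1 + e - 1 = e := by omega
  rw [h4]
  omega

private lemma sum_mid70 {d m : ℕ} (hd : 2 ≤ d) (hm : 2 ≤ m) (hn : finrank F V = m * d) :
    (∑ f ∈ (fin_deg70 F d).toFinset, NP f V) * 2 ^ (finrank F V / 4) ≤ GLc F V := by
  have hq : 2 ≤ Nat.card F := Finite.one_lt_card
  have h1 := sum_deg70 (F := F) (V := V) (d := d) (m := m) (by omega) hn.ge
  have hQ : 2 ^ (d - 1) ≤ Nat.card F ^ d - 1 := q_pow70 hq (by omega)
  have hQ0 : 0 < Nat.card F ^ d - 1 := lt_of_lt_of_le (by positivity) hQ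
  obtain ⟨k, rfl⟩ := Nat.exists_eq_add_of_le hm
  obtain ⟨e, rfl⟩ := Nat.exists_eq_add_of_le hd
  have h2 : 2 ^ (finrank F V / 4) ≤ (Nat.card F ^ (2 + e) - 1) ^ (1 + k) := by
    calc 2 ^ (finrank F V / 4) ≤ 2 ^ ((2 + e - 1) * (1 + k)) := by
          refine Nat.pow_le_pow_right (by norm_num) ?_
          rw [hn]
          refine Nat.div_le_of_le_mul ?_
          have h5 : 2 + e - 1 = 1 + e := by omega
          rw [h5]
          nlinarith [Nat.zero_le (k * e), Nat.zero_le k, Nat.zero_le e]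
      _ = (2 ^ (2 + e - 1)) ^ (1 + k) := by rw [pow_mul]
      _ ≤ _ := Nat.pow_le_pow_left hQ _
  have h3 : (∑ f ∈ (fin_deg70 F (2 + e)).toFinset, NP f V) *
      (Nat.card F ^ (2 + e) - 1) ^ (1 + k) * (Nat.card F ^ (2 + e) - 1) ≤
      GLc F V * (Nat.card F ^ (2 + e) - 1) := by
    calc (∑ f ∈ (fin_deg70 F (2 + e)).toFinset, NP f V) *
          (Nat.card F ^ (2 + e) - 1) ^ (1 + k) * (Nat.card F ^ (2 + e) - 1)
        = (∑ f ∈ (fin_deg70 F (2 + e)).toFinset, NP f V) *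
          (Nat.card F ^ (2 + e) - 1) ^ (2 + k) * 1 := by ring
      _ ≤ (∑ f ∈ (fin_deg70 F (2 + e)).toFinset, NP f V) *
          (Nat.card F ^ (2 + e) - 1) ^ (2 + k) * (2 + e) := Nat.mul_le_mul_left _ (by omega)
      _ ≤ _ := by rw [mul_comm (GLc F V)]; exact h1
  have h4 := Nat.le_of_mul_le_mul_right h3 hQ0
  exact (Nat.mul_le_mul_left _ h2).trans h4

private lemma sum_top70 (hV : 1 ≤ finrank F V) :
    (∑ f ∈ (fin_deg70 F (finrank F V)).toFinset, NP f V) * finrank F V ≤ GLc F V := by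
  have hq : 2 ≤ Nat.card F := Finite.one_lt_card
  have h1 := sum_deg70 (F := F) (V := V) (d := finrank F V) (m := 1) hV (by omega)
  have hQ : 2 ^ (finrank F V - 1) ≤ Nat.card F ^ finrank F V - 1 := q_pow70 hq hV
  have hQ0 : 0 < Nat.card F ^ finrank F V - 1 := lt_of_lt_of_le (by positivity) hQ
  rw [pow_one] at h1
  refine Nat.le_of_mul_le_mul_left ?_ hQ0
  calc (Nat.card F ^ finrank F V - 1) *
        ((∑ f ∈ (fin_deg70 F (finrank F V)).toFinset, NP f V) * finrank F V)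
      = (∑ f ∈ (fin_deg70 F (finrank F V)).toFinset, NP f V) *
        (Nat.card F ^ finrank F V - 1) * finrank F V := by ring
    _ ≤ _ := h1

private lemma union70 (hV : 1 ≤ finrank F V) :
    Nat.card {g : V ≃ₗ[F] V // ∃ f : F[X], f.Monic ∧ Irreducible f ∧ Prm f g} ≤
      ∑ d ∈ (finrank F V).divisors, ∑ f ∈ (fin_deg70 F d).toFinset, NP f V := by
  classical
  have := Fintype.ofFinite (V ≃ₗ[F] V)
  have h0 : ∀ P : (V ≃ₗ[F] V) → Prop, Nat.card {g : V ≃ₗ[F] V // P g} =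
      (Finset.univ.filter P).card := by
    intro P
    rw [Nat.card_eq_fintype_card, Fintype.card_subtype]
  rw [h0]
  have h1 : (Finset.univ.filter fun g : V ≃ₗ[F] V =>
      ∃ f : F[X], f.Monic ∧ Irreducible f ∧ Prm f g) ⊆
      (finrank F V).divisors.biUnion fun d => (fin_deg70 F d).toFinset.biUnion fun f =>
        Finset.univ.filter fun g : V ≃ₗ[F] V => Prm f g := by
    intro g hg
    obtain ⟨f, hm, hi, hp⟩ := (Finset.mem_filter.1 hg).2
    rw [Finset.mem_biUnion]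
    refine ⟨f.natDegree, Nat.mem_divisors.2 ⟨prim_dvd hi hp, by omega⟩, ?_⟩
    rw [Finset.mem_biUnion]
    refine ⟨f, ?_, Finset.mem_filter.2 ⟨Finset.mem_univ _, hp⟩⟩
    rw [Set.Finite.mem_toFinset]
    refine ⟨hm, hi, rfl, ?_⟩
    rintro rfl
    exact not_prm_X70 hV g hp
  refine (Finset.card_le_card h1).trans (Finset.card_biUnion_le.trans ?_)
  refine Finset.sum_le_sum fun d _ => Finset.card_biUnion_le.trans ?_
  refine Finset.sum_le_sum fun f _ => le_of_eq ?_
  rw [← h0]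
  rfl

end

theorem prim_small (F : Type) [Field F] [Finite F] {ε : ℝ} (hε : 0 < ε) : ∃ n0 : ℕ,
    ∀ (V : Type) [AddCommGroup V] [Module F V] [Finite V], n0 ≤ finrank F V →
      (Nat.card {g : V ≃ₗ[F] V // ∃ f : F[X], f.Monic ∧ Irreducible f ∧ Prm f g} : ℝ) ≤
        ε * GLc F V := by
  obtain ⟨c, hc0, hc1, hpf⟩ := pf_lin F
  have hε3 : 0 < ε / 3 := by positivity
  obtain ⟨k1, hk1⟩ := lim_a70 hc0 hc1 hε3 (Nat.card F)
  obtain ⟨k2, hk2⟩ := lim_b70 hε3
  obtain ⟨k3, hk3⟩ := exists_nat_gt (3 / ε)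
  refine ⟨2 * k1 + 4 * k2 + k3 + 4, ?_⟩
  intro V _ _ _ hV
  set n := finrank F V with hn
  have hG : (0 : ℝ) ≤ GLc F V := Nat.cast_nonneg _
  have h1 := union70 (F := F) (V := V) (by omega)
  have h2 : (Nat.card {g : V ≃ₗ[F] V // ∃ f : F[X], f.Monic ∧ Irreducible f ∧ Prm f g} : ℝ) ≤
      ∑ d ∈ n.divisors, ∑ f ∈ (fin_deg70 F d).toFinset, (NP f V : ℝ) := by
    exact_mod_cast h1
  refine h2.trans ?_
  -- the individual bounds
  have b1 : (∑ f ∈ (fin_deg70 F 1).toFinset, (NP f V : ℝ)) ≤ ε / 3 * GLc F V := by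
    refine (sum_one70 (V := V) hpf hc0).trans (mul_le_mul_of_nonneg_right ?_ hG)
    exact hk1 _ (by omega)
  have b3 : (∑ f ∈ (fin_deg70 F n).toFinset, (NP f V : ℝ)) ≤ ε / 3 * GLc F V := by
    have h3 := sum_top70 (F := F) (V := V) (by omega)
    have h4 : (∑ f ∈ (fin_deg70 F n).toFinset, (NP f V : ℝ)) * n ≤ GLc F V := by
      exact_mod_cast h3
    have h5 : (0 : ℝ) < n := by
      have : 0 < n := by omega
      exact_mod_cast this
    have h6 : 3 / ε ≤ n := hk3.le.trans (by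
      have : k3 ≤ n := by omega
      exact_mod_cast this)
    have h7 : 1 ≤ ε / 3 * n := by
      rw [div_le_iff₀ hε] at h6
      linarith
    have h8 : (∑ f ∈ (fin_deg70 F n).toFinset, (NP f V : ℝ)) * n ≤ ε / 3 * GLc F V * n := by
      nlinarith
    exact le_of_mul_le_mul_right h8 h5
  have b2 : ∀ d ∈ n.divisors \ {1, n}, (∑ f ∈ (fin_deg70 F d).toFinset, (NP f V : ℝ)) ≤
      (1 / 2) ^ (n / 4) * GLc F V := by
    intro d hd
    rw [Finset.mem_sdiff, Nat.mem_divisors, Finset.mem_insert, Finset.mem_singleton] at hd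
    obtain ⟨⟨⟨m, hm⟩, hn0⟩, hd1⟩ := hd
    push Not at hd1
    have hd0 : d ≠ 0 := by
      rintro rfl
      rw [zero_mul] at hm
      omega
    have hm1 : m ≠ 1 := by
      rintro rfl
      rw [mul_one] at hm
      exact hd1.2 hm.symm
    have hm0 : m ≠ 0 := by
      rintro rfl
      rw [mul_zero] at hm
      omega
    have h3 := sum_mid70 (F := F) (V := V) (d := d) (m := m) (by omega) (by omega)
      (by rw [← hn, hm, mul_comm])
    have h4 : (∑ f ∈ (fin_deg70 F d).toFinset, (NP f V : ℝ)) * 2 ^ (n / 4) ≤ GLc F V := by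
      exact_mod_cast h3
    have h5 : (0 : ℝ) < 2 ^ (n / 4) := by positivity
    rw [one_div, inv_pow, inv_mul_eq_div, le_div_iff₀ h5]
    exact h4
  have h3 : n.divisors = (n.divisors \ {1, n}) ∪ {1, n} := by
    rw [Finset.sdiff_union_of_subset]
    intro d hd
    rw [Finset.mem_insert, Finset.mem_singleton] at hd
    rcases hd with rfl | rfl
    · exact Nat.one_mem_divisors.2 (by omega)
    · exact Nat.mem_divisors_self _ (by omega)
  have h4 : 1 ≠ n := by omega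
  rw [h3, Finset.sum_union Finset.sdiff_disjoint, Finset.sum_pair h4]
  have h5 : ∑ d ∈ n.divisors \ {1, n}, ∑ f ∈ (fin_deg70 F d).toFinset, (NP f V : ℝ) ≤
      ε / 3 * GLc F V := by
    refine (Finset.sum_le_sum b2).trans ?_
    rw [Finset.sum_const, nsmul_eq_mul, ← mul_assoc]
    refine mul_le_mul_of_nonneg_right ?_ hG
    have h6 : ((n.divisors \ {1, n}).card : ℝ) ≤ 4 * ((n / 4 : ℕ) + 1) := by
      have h7 : (n.divisors \ {1, n}).card ≤ n :=
        (Finset.card_le_card Finset.sdiff_subset).trans (Nat.card_divisors_le_self n)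
      have h8 : n ≤ 4 * (n / 4 + 1) := by omega
      exact_mod_cast h7.trans h8
    refine (mul_le_mul_of_nonneg_right h6 (by positivity)).trans ?_
    exact hk2 _ (by omega)
  linarith

end Pool.Agent.Helper70.GLn
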