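import Pool.Agent.Helper70.GLn.PB
import Pool.Agent.Helper70.GLn.PR

/-!
# GL-BD: few elements are bad (100-160 lines)

PROOF. Let `m₀` be from `prim_small` with `ε / (R + 1)`, `n0 = 3 R + m₀`. By `bad_struct` every `g` which is not good belongs to `T j` for some `j < R`: `V = V₁ ⊕ V₂` invariant, `finrank V₂ = j`,
`f(g|V₁)` nilpotent. Fix `j`, `A = Fin (n - j) → F`, `B = Fin j → F`, `n = finrank V`; by `gl_congr`-like transport assume `V = A × B` (or keep `e : V ≃ A × B`).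
`P` = the group of the `(g₁, g₂)` (block diagonal, order `GLc A * GLc B`), `S` = those with `g₁` primary (`∃ f` monic irreducible, `Prm f g₁`), invariant under conjugation by `P`,
`|S| ≤ ε / (R + 1) * GLc A * GLc B`. Every element of `T j` is conjugate to an element of `S` (choose `γ` mapping `A × 0` to `V₁` and `0 × B` to `V₂`). `conj_card`:
`|T j| * GLc A * GLc B ≤ GLc V * |S|`, so `|T j| ≤ ε / (R + 1) * GLc V`. Sum over `j < R`.
-/

set_option autoImplicit false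

open Module Polynomial

namespace Pool.Agent.Helper70.GLn

section Aux

variable {F V : Type} [Field F] [AddCommGroup V] [Module F V]

private theorem bd_pow_4 {M N : Type} [AddCommGroup M] [Module F M] [AddCommGroup N] [Module F N]
    (ι : M →ₗ[F] N) (x : M →ₗ[F] M) (y : N →ₗ[F] N) (h : ∀ v, ι (x v) = y (ι v)) (n : ℕ) (v : M) :
    ι ((x ^ n) v) = (y ^ n) (ι v) := by
  induction n generalizing v with
  | zero => rfl
  | succ n ih => rw [pow_succ, pow_succ, Module.End.mul_apply, Module.End.mul_apply, ih, h]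

private theorem bd_aeval_4 {M N : Type} [AddCommGroup M] [Module F M] [AddCommGroup N] [Module F N]
    (ι : M →ₗ[F] N) (x : M →ₗ[F] M) (y : N →ₗ[F] N) (h : ∀ v, ι (x v) = y (ι v)) (f : F[X]) (v : M) :
    ι (aeval x f v) = aeval y f (ι v) := by
  induction f using Polynomial.induction_on' generalizing v with
  | add p q hp hq =>
    rw [map_add, map_add, LinearMap.add_apply, LinearMap.add_apply, map_add, hp, hq]
  | monomial n a =>
    rw [aeval_monomial, aeval_monomial, Module.End.mul_apply, Module.End.mul_apply,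
      Module.algebraMap_end_apply, Module.algebraMap_end_apply, map_smul, bd_pow_4 ι x y h]

/-- nilpotency is inherited along an injective intertwining map -/
private theorem bd_nil_4 {M N : Type} [AddCommGroup M] [Module F M] [AddCommGroup N] [Module F N]
    (ι : M →ₗ[F] N) (hι : Function.Injective ι) (x : M →ₗ[F] M) (y : N →ₗ[F] N)
    (h : ∀ v, ι (x v) = y (ι v)) (f : F[X]) (k : ℕ) (h0 : ∀ v, (aeval y f ^ k) (ι v) = 0) :
    aeval x f ^ k = 0 := by
  refine LinearMap.ext fun v => hι ?_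
  rw [bd_pow_4 ι _ _ (bd_aeval_4 ι x y h f), h0, LinearMap.zero_apply, map_zero]

/-- the block diagonal maps -/
private noncomputable def bdPhi_4 {A B : Submodule F V} (h : IsCompl A B) :
    (A ≃ₗ[F] A) × (B ≃ₗ[F] B) →* (V ≃ₗ[F] V) where
  toFun g := ((Submodule.prodEquivOfIsCompl A B h).symm.trans (g.1.prodCongr g.2)).trans
    (Submodule.prodEquivOfIsCompl A B h)
  map_one' := by
    refine LinearEquiv.ext fun v => ?_
    exact (Submodule.prodEquivOfIsCompl A B h).apply_symm_apply v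
  map_mul' g g' := by
    refine LinearEquiv.ext fun v => ?_
    rw [LinearEquiv.mul_apply]
    simp only [LinearEquiv.trans_apply, LinearEquiv.symm_apply_apply]
    rfl

private theorem bdPhi_apply_4 {A B : Submodule F V} (h : IsCompl A B)
    (g : (A ≃ₗ[F] A) × (B ≃ₗ[F] B)) (a : A) (b : B) :
    bdPhi_4 h g (a + b) = (g.1 a : V) + (g.2 b : V) := by
  have e : (a : V) + b = Submodule.prodEquivOfIsCompl A B h (a, b) := rfl
  rw [e]
  change (Submodule.prodEquivOfIsCompl A B h) ((g.1.prodCongr g.2)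
    ((Submodule.prodEquivOfIsCompl A B h).symm (Submodule.prodEquivOfIsCompl A B h (a, b)))) = _
  rw [LinearEquiv.symm_apply_apply]
  rfl

private theorem bdPhi_inj_4 {A B : Submodule F V} (h : IsCompl A B) :
    Function.Injective (bdPhi_4 h) := by
  intro g g' hg
  have h1 : ∀ a : A, g.1 a = g'.1 a := by
    intro a
    have h2 : bdPhi_4 h g (a + ((0 : B) : V)) = bdPhi_4 h g' (a + ((0 : B) : V)) := by rw [hg]
    rw [bdPhi_apply_4, bdPhi_apply_4, map_zero, map_zero] at h2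
    simpa using h2
  have h3 : ∀ b : B, g.2 b = g'.2 b := by
    intro b
    have h2 : bdPhi_4 h g (((0 : A) : V) + b) = bdPhi_4 h g' (((0 : A) : V) + b) := by rw [hg]
    rw [bdPhi_apply_4, bdPhi_apply_4, map_zero, map_zero] at h2
    simpa using h2
  exact Prod.ext (LinearEquiv.ext h1) (LinearEquiv.ext h3)

/-- primary -/
private def Pr_4 {M : Type} [AddCommGroup M] [Module F M] (g : M ≃ₗ[F] M) : Prop :=
  ∃ f : F[X], f.Monic ∧ Irreducible f ∧ Prm f g

private theorem pr_conj_4 {M : Type} [AddCommGroup M] [Module F M] {g : M ≃ₗ[F] M} (hg : Pr_4 g)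
    (p : M ≃ₗ[F] M) : Pr_4 (p * g * p⁻¹) := by
  obtain ⟨f, hf, hi, k, hk⟩ := hg
  refine ⟨f, hf, hi, k, ?_⟩
  refine bd_nil_4 ((p⁻¹ : M ≃ₗ[F] M) : M →ₗ[F] M) (p⁻¹ : M ≃ₗ[F] M).injective _ (g : M →ₗ[F] M)
    (fun v => ?_) f k (fun v => ?_)
  · change (p⁻¹ : M ≃ₗ[F] M) ((p * g * p⁻¹ : M ≃ₗ[F] M) v) = g ((p⁻¹ : M ≃ₗ[F] M) v)
    have e : (p⁻¹ * (p * g * p⁻¹) : M ≃ₗ[F] M) = g * p⁻¹ := by group
    rw [← LinearEquiv.mul_apply, e, LinearEquiv.mul_apply]
  · rw [hk, LinearMap.zero_apply]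

/-- the set of the elements with a decomposition of type `j` -/
private def Tt_4 (j : ℕ) (g : V ≃ₗ[F] V) : Prop :=
  ∃ f : F[X], f.Monic ∧ Irreducible f ∧ ∃ V₁ V₂ : Submodule F V, IsCompl V₁ V₂ ∧
      (∀ v ∈ V₁, g v ∈ V₁) ∧ (∀ v ∈ V₂, g v ∈ V₂) ∧ finrank F V₂ = j ∧
      ∃ k : ℕ, ∀ v ∈ V₁, (aeval (g : V →ₗ[F] V) f ^ k) v = 0

/-- restriction to an invariant subspace -/
private theorem bd_restr_4 [Finite V] (g : V ≃ₗ[F] V) (W : Submodule F V) (h : ∀ v ∈ W, g v ∈ W) :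
    ∃ r : W ≃ₗ[F] W, ∀ w : W, (r w : V) = g w := by
  let r0 : W →ₗ[F] W := (g : V →ₗ[F] V).restrict h
  have hr0 : ∀ w : W, (r0 w : V) = g w := fun w => rfl
  have hinj : Function.Injective r0 := by
    intro x y hxy
    have h1 : (r0 x : V) = r0 y := by rw [hxy]
    rw [hr0, hr0] at h1
    exact Subtype.ext (g.injective h1)
  have hbij : Function.Bijective r0 := ⟨hinj, Finite.surjective_of_injective hinj⟩
  exact ⟨LinearEquiv.ofBijective r0 hbij, fun w => rfl⟩

private theorem bd_conj_4 [Finite V] {A B : Submodule F V} (h : IsCompl A B) {g : V ≃ₗ[F] V}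
    (hg : Tt_4 (finrank F B) g) :
    ∃ γ : V ≃ₗ[F] V, ∃ s ∈ {s | ∃ x : (A ≃ₗ[F] A) × (B ≃ₗ[F] B), Pr_4 x.1 ∧ bdPhi_4 h x = s},
      g = γ * s * γ⁻¹ := by
  have hfin : Module.Finite F V := Module.Finite.of_finite
  obtain ⟨f, hf, hi, V₁, V₂, hc, h1, h2, hj, k, hk⟩ := hg
  have hd1 := Submodule.finrank_add_eq_of_isCompl h
  have hd2 := Submodule.finrank_add_eq_of_isCompl hc
  let α : A ≃ₗ[F] V₁ := LinearEquiv.ofFinrankEq A V₁ (by omega)
  let β : B ≃ₗ[F] V₂ := LinearEquiv.ofFinrankEq B V₂ hj.symm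
  let e := Submodule.prodEquivOfIsCompl A B h
  let e' := Submodule.prodEquivOfIsCompl V₁ V₂ hc
  let γ : V ≃ₗ[F] V := (e.symm.trans (α.prodCongr β)).trans e'
  have hγ : ∀ (a : A) (b : B), γ ((a : V) + b) = (α a : V) + (β b : V) := by
    intro a b
    have e1 : (a : V) + b = e (a, b) := rfl
    rw [e1]
    change e' ((α.prodCongr β) (e.symm (e (a, b)))) = _
    rw [LinearEquiv.symm_apply_apply]
    rfl
  obtain ⟨r1, hr1⟩ := bd_restr_4 g V₁ h1
  obtain ⟨r2, hr2⟩ := bd_restr_4 g V₂ h2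
  let g1 : A ≃ₗ[F] A := (α.trans r1).trans α.symm
  let g2 : B ≃ₗ[F] B := (β.trans r2).trans β.symm
  have hg1 : ∀ a, α (g1 a) = r1 (α a) := fun a => α.apply_symm_apply _
  have hg2 : ∀ b, β (g2 b) = r2 (β b) := fun b => β.apply_symm_apply _
  refine ⟨γ, bdPhi_4 h (g1, g2), ⟨(g1, g2), ⟨f, hf, hi, k, ?_⟩, rfl⟩, ?_⟩
  · refine bd_nil_4 (V₁.subtype ∘ₗ (α : A →ₗ[F] V₁)) ?_ _ (g : V →ₗ[F] V) (fun v => ?_) f k
      (fun v => hk _ (α v).2)
    · exact V₁.injective_subtype.comp α.injective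
    · change ((α (g1 v) : V₁) : V) = g (α v : V)
      rw [hg1, hr1]
  · rw [eq_mul_inv_iff_mul_eq]
    refine LinearEquiv.ext fun v => ?_
    obtain ⟨⟨a, b⟩, rfl⟩ := e.surjective v
    have e1 : e (a, b) = (a : V) + b := rfl
    rw [LinearEquiv.mul_apply, LinearEquiv.mul_apply, e1, hγ, bdPhi_apply_4, hγ, map_add, hg1, hg2,
      hr1, hr2]

end Aux

open Classical in
private theorem bd_union_4 {Γ : Type} [Finite Γ] (p : Γ → Prop) (T : ℕ → Γ → Prop) (R : ℕ)
    (h : ∀ g, p g → ∃ j, j < R ∧ T j g) :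
    (Nat.card {g // p g} : ℝ) ≤ ∑ j ∈ Finset.range R, (Nat.card {g // T j g} : ℝ) := by
  have := Fintype.ofFinite Γ
  have hcard : ∀ p : Γ → Prop, Nat.card {g // p g} = (Finset.univ.filter fun g => p g).card := by
    intro p
    rw [Nat.card_eq_fintype_card, Fintype.card_subtype]
  have hsub : (Finset.univ.filter fun g => p g) ⊆
      (Finset.range R).biUnion fun j => Finset.univ.filter fun g => T j g := by
    intro g hg
    rw [Finset.mem_filter] at hg
    obtain ⟨j, hj, hT⟩ := h g hg.2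
    rw [Finset.mem_biUnion]
    exact ⟨j, Finset.mem_range.2 hj, Finset.mem_filter.2 ⟨Finset.mem_univ _, hT⟩⟩
  simp only [hcard]
  rw [← Nat.cast_sum]
  exact_mod_cast (Finset.card_le_card hsub).trans Finset.card_biUnion_le

private theorem bd_finite_4 {F V : Type} [Field F] [AddCommGroup V] [Module F V] [Finite V] :
    Finite (V ≃ₗ[F] V) :=
  Finite.of_injective (fun g : V ≃ₗ[F] V => (g : V → V)) DFunLike.coe_injective

/-- the number of the elements of type `j` -/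
private theorem bd_step_4 {F : Type} [Field F] [Finite F] {V : Type} [AddCommGroup V] [Module F V]
    [Finite V] {j : ℕ} (hj : j ≤ finrank F V) {ε : ℝ}
    (hsm : ∀ (W : Type) [AddCommGroup W] [Module F W] [Finite W], finrank F W + j = finrank F V →
      (Nat.card {g : W ≃ₗ[F] W // ∃ f : F[X], f.Monic ∧ Irreducible f ∧ Prm f g} : ℝ) ≤ ε * GLc F W) :
    (Nat.card {g : V ≃ₗ[F] V // Tt_4 j g} : ℝ) ≤ ε * GLc F V := by
  have hfin : Module.Finite F V := Module.Finite.of_finite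
  obtain ⟨B, hB⟩ : ∃ B : Submodule F V, finrank F B = j := by
    obtain ⟨f, hf⟩ := exists_linearIndependent_of_le_finrank hj
    exact ⟨Submodule.span F (Set.range f), by rw [finrank_span_eq_card hf, Fintype.card_fin]⟩
  obtain ⟨A, hA⟩ := Submodule.exists_isCompl B
  have h : IsCompl A B := hA.symm
  have hd := Submodule.finrank_add_eq_of_isCompl h
  have := bd_finite_4 (F := F) (V := V)
  have := bd_finite_4 (F := F) (V := A)
  have := bd_finite_4 (F := F) (V := B)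
  set S : Set (V ≃ₗ[F] V) := {s | ∃ x : (A ≃ₗ[F] A) × (B ≃ₗ[F] B), Pr_4 x.1 ∧ bdPhi_4 h x = s} with hS
  have hconj := conj_card (bdPhi_4 h).range S (by
    rintro _ ⟨p, rfl⟩ _ ⟨x, hx, rfl⟩
    exact ⟨p * x * p⁻¹, pr_conj_4 hx p.1, by rw [map_mul, map_mul, map_inv]⟩)
  have hP : Nat.card (bdPhi_4 h).range = GLc F A * GLc F B := by
    unfold GLc
    rw [← Nat.card_prod]
    exact (Nat.card_congr (MonoidHom.ofInjective (bdPhi_inj_4 h)).toEquiv).symm
  have hSc : Nat.card S ≤ Nat.card {g : A ≃ₗ[F] A // ∃ f : F[X], f.Monic ∧ Irreducible f ∧ Prm f g} *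
      GLc F B := by
    unfold GLc
    rw [← Nat.card_prod]
    have hsurj : Function.Surjective (fun y : {g : A ≃ₗ[F] A // ∃ f : F[X], f.Monic ∧ Irreducible f ∧
        Prm f g} × (B ≃ₗ[F] B) => (⟨bdPhi_4 h (y.1.1, y.2), (y.1.1, y.2), y.1.2, rfl⟩ : S)) := by
      rintro ⟨_, x, hx, rfl⟩
      exact ⟨(⟨x.1, hx⟩, x.2), rfl⟩
    exact Nat.card_le_card_of_surjective _ hsurj
  have hT : Nat.card {g : V ≃ₗ[F] V // Tt_4 j g} ≤
      Nat.card {g : V ≃ₗ[F] V // ∃ γ : V ≃ₗ[F] V, ∃ s ∈ S, g = γ * s * γ⁻¹} := by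
    refine Nat.card_le_card_of_injective (fun g => ⟨g.1, bd_conj_4 h (by rw [hB]; exact g.2)⟩) ?_
    intro g g' hg
    exact Subtype.ext (congrArg (fun y => y.1) hg)
  have hA0 : 0 < GLc F A := Nat.card_pos
  have hB0 : 0 < GLc F B := Nat.card_pos
  have h1 := hsm A (by omega)
  rw [hP] at hconj
  have h2 : Nat.card {g : V ≃ₗ[F] V // Tt_4 j g} * (GLc F A * GLc F B) ≤
      GLc F V * (Nat.card {g : A ≃ₗ[F] A // ∃ f : F[X], f.Monic ∧ Irreducible f ∧ Prm f g} *
      GLc F B) :=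
    (Nat.mul_le_mul_right _ hT).trans (hconj.trans (Nat.mul_le_mul_left _ hSc))
  have h3 : (Nat.card {g : V ≃ₗ[F] V // Tt_4 j g} : ℝ) * ((GLc F A : ℝ) * GLc F B) ≤
      (ε * GLc F V) * ((GLc F A : ℝ) * GLc F B) := by
    have h4 : (Nat.card {g : V ≃ₗ[F] V // Tt_4 j g} : ℝ) * ((GLc F A : ℝ) * GLc F B) ≤
        (GLc F V : ℝ) * ((Nat.card {g : A ≃ₗ[F] A // ∃ f : F[X], f.Monic ∧ Irreducible f ∧ Prm f g} : ℝ) *
          GLc F B) := by exact_mod_cast h2
    refine h4.trans ?_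
    have h5 : (Nat.card {g : A ≃ₗ[F] A // ∃ f : F[X], f.Monic ∧ Irreducible f ∧ Prm f g} : ℝ) *
          GLc F B ≤ (ε * GLc F A) * GLc F B := mul_le_mul_of_nonneg_right h1 (Nat.cast_nonneg _)
    calc (GLc F V : ℝ) * ((Nat.card {g : A ≃ₗ[F] A // ∃ f : F[X], f.Monic ∧ Irreducible f ∧ Prm f g} : ℝ) *
          GLc F B) ≤ (GLc F V : ℝ) * ((ε * GLc F A) * GLc F B) :=
          mul_le_mul_of_nonneg_left h5 (Nat.cast_nonneg _)
      _ = (ε * GLc F V) * ((GLc F A : ℝ) * GLc F B) := by ring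
  have hpos : (0 : ℝ) < (GLc F A : ℝ) * GLc F B := by
    have a1 : (0 : ℝ) < GLc F A := by exact_mod_cast hA0
    have a2 : (0 : ℝ) < GLc F B := by exact_mod_cast hB0
    positivity
  exact le_of_mul_le_mul_right h3 hpos

theorem bad_card (F : Type) [Field F] [Finite F] {ε : ℝ} (hε : 0 < ε) (R : ℕ) : ∃ n0 : ℕ,
    ∀ (V : Type) [AddCommGroup V] [Module F V] [Finite V], n0 ≤ finrank F V →
      (Nat.card {g : V ≃ₗ[F] V // ¬ Good R g} : ℝ) ≤ ε * GLc F V := by
  have hR : (0 : ℝ) < R + 1 := by positivity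
  obtain ⟨m₀, hm₀⟩ := prim_small F (ε := ε / (R + 1)) (by positivity)
  refine ⟨3 * R + m₀, ?_⟩
  intro V _ _ _ hn
  have := bd_finite_4 (F := F) (V := V)
  have hle : (Nat.card {g : V ≃ₗ[F] V // ¬ Good R g} : ℝ) ≤
      ∑ j ∈ Finset.range R, (Nat.card {g : V ≃ₗ[F] V // Tt_4 j g} : ℝ) := by
    refine bd_union_4 (fun g => ¬ Good R g) Tt_4 R fun g hg => ?_
    obtain ⟨f, hf, hi, V₁, V₂, hc, h1, h2, hj, k, hk⟩ := bad_struct (by omega) g hg
    exact ⟨finrank F V₂, hj, f, hf, hi, V₁, V₂, hc, h1, h2, rfl, k, hk⟩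
  refine hle.trans ?_
  have hstep : ∀ j ∈ Finset.range R, (Nat.card {g : V ≃ₗ[F] V // Tt_4 j g} : ℝ) ≤
      ε / (R + 1) * GLc F V := by
    intro j hj
    rw [Finset.mem_range] at hj
    refine bd_step_4 (by omega) fun W _ _ _ hW => hm₀ W (by omega)
  refine (Finset.sum_le_card_nsmul _ _ _ hstep).trans ?_
  rw [Finset.card_range, nsmul_eq_mul]
  have h1 : (R : ℝ) * (ε / (R + 1)) ≤ ε := by
    rw [mul_div_assoc', div_le_iff₀ hR]
    nlinarith
  calc (R : ℝ) * (ε / (R + 1) * GLc F V) = (R : ℝ) * (ε / (R + 1)) * GLc F V := by ring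
    _ ≤ ε * GLc F V := mul_le_mul_of_nonneg_right h1 (Nat.cast_nonneg _)

end Pool.Agent.Helper70.GLn
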