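import Mathlib

/-!
# GL-CJ: counting conjugates (40-80 lines)

PROOF. The map `Γ × S → T`, `(γ, s) ↦ γ s γ⁻¹`, is surjective, and every fibre has at least `|P|` elements: with `(γ, s)` it contains all `(γ p⁻¹, p s p⁻¹)`, `p ∈ P`
(distinct for distinct `p`). So `|Γ| |S| ≥ |P| |T|`.
-/

set_option autoImplicit false

namespace Pool.Agent.Helper70.GLn

theorem conj_card {Γ : Type*} [Group Γ] [Finite Γ] (P : Subgroup Γ) (S : Set Γ)
    (hS : ∀ p ∈ P, ∀ s ∈ S, p * s * p⁻¹ ∈ S) :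
    Nat.card {g : Γ // ∃ γ : Γ, ∃ s ∈ S, g = γ * s * γ⁻¹} * Nat.card P ≤
      Nat.card Γ * Nat.card S := by
  classical
  let T := {g : Γ // ∃ γ : Γ, ∃ s ∈ S, g = γ * s * γ⁻¹}
  let c : T → Γ := fun t => t.2.choose
  have hc : ∀ t : T, ∃ s ∈ S, (t : Γ) = c t * s * (c t)⁻¹ := fun t => t.2.choose_spec
  let d : T → Γ := fun t => (hc t).choose
  have hd : ∀ t : T, d t ∈ S ∧ (t : Γ) = c t * d t * (c t)⁻¹ := fun t => (hc t).choose_spec
  let φ : T × P → Γ × S := fun x => (c x.1 * (x.2 : Γ)⁻¹,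
    ⟨(x.2 : Γ) * d x.1 * (x.2 : Γ)⁻¹, hS _ x.2.2 _ (hd x.1).1⟩)
  have hφ : Function.Injective φ := by
    rintro ⟨t, p⟩ ⟨t', p'⟩ h
    have h1 : c t * (p : Γ)⁻¹ = c t' * (p' : Γ)⁻¹ := congrArg Prod.fst h
    have h2 : (p : Γ) * d t * (p : Γ)⁻¹ = (p' : Γ) * d t' * (p' : Γ)⁻¹ :=
      congrArg (fun x : Γ × S => (x.2 : Γ)) h
    have h3 : ∀ (u : T) (r : Γ), (u : Γ) = (c u * r⁻¹) * (r * d u * r⁻¹) * (c u * r⁻¹)⁻¹ := by
      intro u r
      conv_lhs => rw [(hd u).2]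
      group
    have h4 : t = t' := by
      apply Subtype.ext
      rw [h3 t p, h3 t' p', h1, h2]
    subst h4
    have h5 : (p : Γ)⁻¹ = (p' : Γ)⁻¹ := mul_left_cancel h1
    have h6 : p = p' := Subtype.ext (inv_injective h5)
    rw [h6]
  have h := Nat.card_le_card_of_injective φ hφ
  rwa [Nat.card_prod, Nat.card_prod] at h

end Pool.Agent.Helper70.GLn
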