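import Pool.Agent.Helper70.GLn.Defs
import Pool.Agent.Helper94.Ded.Comm

/-!
# GL-GR1: elementary inequalities for `HP` functions (60-120 lines)

PROOF. `nn_nonneg`: `HP.le_one` pointwise. `nn_mono`: `dedIn_of_subgroupOf` (Helper13/Ded/Quot) with
`ded_solvable` (Helper13/Ded/Solv) for the group `K'`. `nn_mono_comm`: a commutative group is solvable. `nn_conj`:
conjugation is a bijection of `K` onto its image and `θ` is a class function (`av_comp_equiv`).
`sub_le_card_nn`: all terms `θ 1 - θ k` are nonnegative (`le_one`), their sum over `K` is `|K| * nn θ K`.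
`nn_commSub_le`: `commSub B g` is normalised by `g` (`commSub_normal`; `g⁻¹ b g ∈ B` because conjugation by `g` is an injective
map of the finite group `B` into itself); for `a = b g b⁻¹ g⁻¹` one has `a * g = b g b⁻¹`, so `θ (a * g) = θ g` and
`Pool.Agent.Helper94.Ded.le_av_of_coset` gives `θ g ≤ av`.
-/

set_option autoImplicit false

open Pool.Agent.Helper13.Ded Pool.Agent.Helper94.Ded

namespace Pool.Agent.Helper70.GLn

variable {G : Type*} [Group G] [Finite G] {θ : G → ℝ}

private lemma av_le56 {P : Type*} [Finite P] [Nonempty P] (f : P → ℝ) (c : ℝ) (hf : ∀ p, f p ≤ c) : av f ≤ c := by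
  classical
  have := Fintype.ofFinite P
  unfold av
  have hc : (0 : ℝ) < Nat.card P := by exact_mod_cast Nat.card_pos
  rw [finsum_eq_sum_of_fintype, div_le_iff₀ hc]
  calc ∑ p, f p ≤ ∑ _p : P, c := Finset.sum_le_sum fun p _ => hf p
    _ = c * Nat.card P := by
      rw [Finset.sum_const, Finset.card_univ, Nat.card_eq_fintype_card, nsmul_eq_mul, mul_comm]

theorem nn_nonneg (h : HP θ) (K : Subgroup G) : 0 ≤ nn θ K := by
  unfold nn
  have := av_le56 (fun k : K => θ k) (θ 1) fun k => h.le_one _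
  linarith

theorem nn_mono (h : HP θ) {K K' : Subgroup G} (hK : K ≤ K') (hs : Group.IsSolvable K') :
    nn θ K ≤ nn θ K' := by
  unfold nn
  have := dedIn_of_subgroupOf hK (ded_solvable (K.subgroupOf K')) θ h
  linarith

theorem nn_mono_comm (h : HP θ) {K K' : Subgroup G} (hK : K ≤ K')
    (hc : ∀ a ∈ K', ∀ b ∈ K', a * b = b * a) : nn θ K ≤ nn θ K' :=
  nn_mono h hK (Group.isSolvable_of_comm fun a b => Subtype.ext (hc a a.2 b b.2))

theorem nn_conj (h : HP θ) (t : G) (K : Subgroup G) :
    nn θ (K.map (MulAut.conj t).toMonoidHom) = nn θ K := by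
  unfold nn
  have e := av_comp_equiv (K.equivMapOfInjective (MulAut.conj t).toMonoidHom (MulAut.conj t).injective).toEquiv
    (fun x : K.map (MulAut.conj t).toMonoidHom => θ x)
  rw [← e]
  congr 2
  funext k
  exact h.conj k t

theorem sub_le_card_nn (h : HP θ) (K : Subgroup G) (x : G) (hx : x ∈ K) :
    θ 1 - θ x ≤ Nat.card K * nn θ K := by
  classical
  have := Fintype.ofFinite K
  have hc : (0 : ℝ) < Nat.card K := by exact_mod_cast Nat.card_pos
  have e : (Nat.card K : ℝ) * nn θ K = ∑ k : K, (θ 1 - θ k) := by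
    unfold nn av
    rw [finsum_eq_sum_of_fintype, Finset.sum_sub_distrib, Finset.sum_const, Finset.card_univ, nsmul_eq_mul,
      ← Nat.card_eq_fintype_card]
    field_simp
  rw [e]
  exact Finset.single_le_sum (f := fun k : K => θ 1 - θ k) (fun k _ => sub_nonneg.2 (h.le_one _))
    (Finset.mem_univ (⟨x, hx⟩ : K))

theorem nn_commSub_le (h : HP θ) (B : Subgroup G) (g : G) (hB : ∀ a ∈ B, ∀ b ∈ B, a * b = b * a)
    (hg : ∀ b ∈ B, g * b * g⁻¹ ∈ B) : nn θ (commSub B g hB hg) ≤ θ 1 - θ g := by
  have hg' : ∀ b ∈ B, g⁻¹ * b * g ∈ B := by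
    intro b hb
    let f : B → B := fun u => ⟨g * u * g⁻¹, hg u u.2⟩
    have hf : Function.Injective f := by
      intro u v huv
      have h1 : g * (u : G) * g⁻¹ = g * v * g⁻¹ := congrArg Subtype.val huv
      exact Subtype.ext (by simpa using h1)
    obtain ⟨u, hu⟩ := (Finite.surjective_of_injective hf) ⟨b, hb⟩
    have h1 : g * (u : G) * g⁻¹ = b := congrArg Subtype.val hu
    have h2 : g⁻¹ * b * g = u := by
      rw [← h1]
      group
    rw [h2]
    exact u.2
  have h1 := Pool.Agent.Helper94.Ded.le_av_of_coset h (commSub B g hB hg) g (commSub_normal hg') (by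
    rintro a ⟨b, hb, rfl⟩
    have e : b * g * b⁻¹ * g⁻¹ * g = b * g * b⁻¹ := by group
    rw [e]
    exact h.conj g b)
  unfold nn
  linarith

end Pool.Agent.Helper70.GLn
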