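import Pool.Agent.Helper70.GLn.EM
import Pool.Agent.Helper70.GLn.GR1

/-!
# GL-CM: all big groups `EE W₁ W₂` have almost the same defect (100-160 lines)

PROOF. Step 1: if `Big 2 W₁ W₂`, `Big 2 W₁' W₂'`, `r ≤ finrank (W₁ ⊓ W₁')`, `r + finrank (W₂ ⊔ W₂') ≤ finrank V`, `r + 1 ≤ finrank W₁, finrank W₁'`
then there is a linear map `X : V → V` of rank `r` with range in `W₁ ⊓ W₁'` and kernel containing `W₂ ⊔ W₂'`; `g = 1 + X` (`1 - X` is the
inverse as `X² = 0`; the determinant is `1` as for `det_shear`, or use `EE` elements from `exists_embed`) lies in both groups, and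
`ee_lo`, `ee_up` give `(1 - 2/2^r) nn (EE W₁ W₂) ≤ θ 1 - θ g ≤ (1 + 1/2^r) nn (EE W₁' W₂')` (`q ≥ 2`).
Step 2: for `Big (2r+2)` pairs choose `T ≤ W₁`, `T' ≤ W₁'` of dimension `r + 1`, `W'' = T ⊔ T'`; the pairs `(W₁, W₂)`, `(W'', W'')` and `(W'', W'')`,
`(W₁', W₂')` satisfy the hypotheses of step 1 (`W'' ⊔ W₂ = T' ⊔ W₂` has dimension at most `finrank W₂ + r + 1`). So
`nn (EE W₁ W₂) ≤ ((1 + 1/2^r) / (1 - 2/2^r))² nn (EE W₁' W₂')`; choose `r` large depending on `ε`. (`nn ≥ 0`: `nn_nonneg`.)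
-/

set_option autoImplicit false

open Module Pool.Agent.Helper13.Ded

namespace Pool.Agent.Helper70.GLn

section CM6

variable {F V : Type} [Field F] [AddCommGroup V] [Module F V]

/-- The automorphism `1 + X`. -/
def un6 (X : V →ₗ[F] V) (hX : X ∘ₗ X = 0) : V ≃ₗ[F] V :=
  LinearEquiv.ofLinearMap (LinearMap.id + X) (LinearMap.id - X)
    (by
      ext v
      have h1 : X (X v) = 0 := LinearMap.congr_fun hX v
      simp [h1])
    (by
      ext v
      have h1 : X (X v) = 0 := LinearMap.congr_fun hX v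
      simp [h1])

lemma un6_apply (X : V →ₗ[F] V) (hX : X ∘ₗ X = 0) (v : V) : un6 X hX v = v + X v := rfl

lemma un6_pow (X : V →ₗ[F] V) (hX : X ∘ₗ X = 0) (n : ℕ) (v : V) :
    (un6 X hX ^ n) v = v + n • X v := by
  have h1 : ∀ v, X (X v) = 0 := fun v => LinearMap.congr_fun hX v
  induction n generalizing v with
  | zero => rw [pow_zero, zero_smul, add_zero]; rfl
  | succ n ih =>
    rw [pow_succ]
    change (un6 X hX ^ n) (un6 X hX v) = _
    rw [ih, un6_apply, map_add, h1, add_zero, succ_nsmul, add_assoc, add_comm (X v)]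

lemma det_un6 [Finite F] (X : V →ₗ[F] V) (hX : X ∘ₗ X = 0) : LinearEquiv.det (un6 X hX) = 1 := by
  obtain ⟨p, hp⟩ := CharP.exists F
  have hpp : p.Prime := CharP.char_is_prime F p
  have h2 : un6 X hX ^ p = 1 := by
    ext v
    rw [un6_pow, ← Nat.cast_smul_eq_nsmul F, CharP.cast_eq_zero, zero_smul, add_zero]
    rfl
  have h3 : (LinearEquiv.det (un6 X hX)) ^ p = 1 := by rw [← map_pow, h2, map_one]
  have : Fact p.Prime := ⟨hpp⟩
  apply Units.ext
  have h4 : ((LinearEquiv.det (un6 X hX) : Fˣ) : F) ^ p = 1 := by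
    rw [← Units.val_pow_eq_pow_val, h3, Units.val_one]
  have h5 : (((LinearEquiv.det (un6 X hX) : Fˣ) : F) - 1) ^ p = 0 := by
    rw [sub_pow_char, h4, one_pow, sub_self]
  exact sub_eq_zero.1 (pow_eq_zero_iff hpp.ne_zero |>.1 h5)

end CM6

theorem exists_unip {F V : Type} [Field F] [Finite F] [AddCommGroup V] [Module F V] [Finite V]
    (X : V →ₗ[F] V) (hX : X ∘ₗ X = 0) :
    ∃ g : SpecialLinearGroup F V, ∀ v, g v = v + X v :=
  ⟨⟨un6 X hX, det_un6 X hX⟩, fun _ => rfl⟩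

section CM6

variable {F V : Type} [Field F] [Finite F] [AddCommGroup V] [Module F V] [Finite V]

omit [Finite F] in
/-- A subspace of given dimension. -/
lemma exists_sub6 {n : ℕ} {W : Submodule F V} (h : n ≤ finrank F W) :
    ∃ T : Submodule F V, T ≤ W ∧ finrank F T = n := by
  have hf : Module.Finite F V := Module.Finite.of_finite
  have h1 : finrank F (Fin n → F) ≤ finrank F W := by rwa [Module.finrank_fin_fun]
  obtain ⟨f, hf⟩ := finrank_le_iff_exists_linearMap.1 h1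
  refine ⟨LinearMap.range (W.subtype ∘ₗ f), ?_, ?_⟩
  · rintro _ ⟨v, rfl⟩
    exact (f v).2
  · rw [LinearMap.finrank_range_of_inj, Module.finrank_fin_fun]
    exact W.subtype_injective.comp hf

omit [Finite F] in
/-- A linear map of given rank. -/
lemma exists_map6 {n : ℕ} {U K : Submodule F V} (hU : n ≤ finrank F U)
    (hK : n + finrank F K ≤ finrank F V) :
    ∃ X : V →ₗ[F] V, (∀ v, X v ∈ U) ∧ (∀ v ∈ K, X v = 0) ∧ finrank F (LinearMap.range X) = n := by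
  have hf : Module.Finite F V := Module.Finite.of_finite
  have h1 : finrank F (Fin n → F) ≤ finrank F U := by rwa [Module.finrank_fin_fun]
  obtain ⟨j, hj⟩ := finrank_le_iff_exists_linearMap.1 h1
  have h2 : finrank F (Fin n → F) ≤ finrank F (V ⧸ K) := by
    rw [Module.finrank_fin_fun]
    have h3 := Submodule.finrank_quotient_add_finrank K
    omega
  obtain ⟨i, hi⟩ := finrank_le_iff_exists_linearMap.1 h2
  obtain ⟨q, hq⟩ := LinearMap.exists_leftInverse_of_injective i (LinearMap.ker_eq_bot.2 hi)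
  have hqs : Function.Surjective q := fun v => ⟨i v, LinearMap.congr_fun hq v⟩
  refine ⟨(U.subtype ∘ₗ j) ∘ₗ (q ∘ₗ K.mkQ), fun v => (j _).2, fun v hv => ?_, ?_⟩
  · have h3 : K.mkQ v = 0 := by
      rw [Submodule.mkQ_apply, Submodule.Quotient.mk_eq_zero]
      exact hv
    rw [LinearMap.comp_apply, LinearMap.comp_apply, LinearMap.comp_apply, h3, map_zero, map_zero,
      map_zero]
  · rw [LinearMap.range_comp_of_range_eq_top, LinearMap.finrank_range_of_inj,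
      Module.finrank_fin_fun]
    · exact U.subtype_injective.comp hj
    · exact LinearMap.range_eq_top.2 (hqs.comp K.mkQ_surjective)

lemma one_div_pow_le6 {r m : ℕ} (h : r ≤ m) :
    1 / (Nat.card F : ℝ) ^ m ≤ (1 / 2 : ℝ) ^ r := by
  have h2 : (2 : ℝ) ≤ (Nat.card F : ℝ) := by
    have h3 : 1 < Nat.card F := Finite.one_lt_card
    exact_mod_cast h3
  rw [one_div_pow]
  apply one_div_le_one_div_of_le (by positivity)
  calc (2 : ℝ) ^ r ≤ (Nat.card F : ℝ) ^ r := pow_le_pow_left₀ (by norm_num) h2 r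
    _ ≤ (Nat.card F : ℝ) ^ m := pow_le_pow_right₀ (by linarith) h

/-- Step 1. -/
lemma step6 {θ : SpecialLinearGroup F V → ℝ} (h : HP θ) {r : ℕ}
    {W₁ W₂ W₁' W₂' : Submodule F V} (hW : Big 2 W₁ W₂) (hW' : Big 2 W₁' W₂')
    (h1 : r ≤ finrank F (W₁ ⊓ W₁' : Submodule F V))
    (h2 : r + finrank F (W₂ ⊔ W₂' : Submodule F V) ≤ finrank F V)
    (h3 : r + 1 ≤ finrank F W₁) (h4 : r + 1 ≤ finrank F W₁') (hN : 0 ≤ nn θ (EE W₁ W₂))
    (hN' : 0 ≤ nn θ (EE W₁' W₂')) :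
    (1 - 2 * (1 / 2 : ℝ) ^ r) * nn θ (EE W₁ W₂) ≤ (1 + (1 / 2 : ℝ) ^ r) * nn θ (EE W₁' W₂') := by
  obtain ⟨X, hXU, hXK, hXr⟩ := exists_map6 h1 h2
  have hXX : X ∘ₗ X = 0 := by
    ext v
    exact hXK _ (Submodule.mem_sup_left (hW.1 (hXU v).1))
  obtain ⟨g, hg⟩ := exists_unip X hXX
  have hsub : ∀ v, g v - v = X v := fun v => by rw [hg, add_sub_cancel_left]
  have hg1 : g ∈ EE W₁ W₂ := by
    refine ⟨fun v => ?_, fun v hv => ?_⟩
    · rw [hsub]
      exact (hXU v).1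
    · rw [hg, hXK v (Submodule.mem_sup_left hv), add_zero]
  have hg2 : g ∈ EE W₁' W₂' := by
    refine ⟨fun v => ?_, fun v hv => ?_⟩
    · rw [hsub]
      exact (hXU v).2
    · rw [hg, hXK v (Submodule.mem_sup_right hv), add_zero]
  have hgX : ((g : V ≃ₗ[F] V) : V →ₗ[F] V) - LinearMap.id = X := by
    ext v
    exact hsub v
  have h5 := ee_lo h hW hg1
  have h6 := ee_up h hW' hg2
  rw [hgX, hXr] at h5
  have h7 : 1 / (Nat.card F : ℝ) ^ r ≤ (1 / 2 : ℝ) ^ r := one_div_pow_le6 le_rfl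
  have h8 : 1 / (Nat.card F : ℝ) ^ (finrank F W₁ - 1) ≤ (1 / 2 : ℝ) ^ r :=
    one_div_pow_le6 (by omega)
  have h9 : 1 / (Nat.card F : ℝ) ^ (finrank F W₁' - 1) ≤ (1 / 2 : ℝ) ^ r :=
    one_div_pow_le6 (by omega)
  calc (1 - 2 * (1 / 2 : ℝ) ^ r) * nn θ (EE W₁ W₂)
      ≤ (1 - 1 / (Nat.card F : ℝ) ^ r - 1 / (Nat.card F : ℝ) ^ (finrank F W₁ - 1)) *
        nn θ (EE W₁ W₂) := mul_le_mul_of_nonneg_right (by linarith) hN
    _ ≤ θ 1 - θ g := h5
    _ ≤ (1 + 1 / (Nat.card F : ℝ) ^ (finrank F W₁' - 1)) * nn θ (EE W₁' W₂') := h6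
    _ ≤ (1 + (1 / 2 : ℝ) ^ r) * nn θ (EE W₁' W₂') :=
      mul_le_mul_of_nonneg_right (by linarith) hN'

end CM6

theorem nn_compare (F : Type) [Field F] [Finite F] {ε : ℝ} (hε : 0 < ε) : ∃ R : ℕ, 2 ≤ R ∧
    ∀ (V : Type) [AddCommGroup V] [Module F V] [Finite V] (θ : SpecialLinearGroup F V → ℝ), HP θ →
    ∀ W₁ W₂ W₁' W₂' : Submodule F V, Big R W₁ W₂ → Big R W₁' W₂' →
      nn θ (EE W₁ W₂) ≤ (1 + ε) * nn θ (EE W₁' W₂') := by
  have hd : 0 < ε / (7 + 4 * ε) := by positivity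
  obtain ⟨r, hr⟩ := exists_pow_lt_of_lt_one hd (by norm_num : (1 / 2 : ℝ) < 1)
  have hx0 : 0 < (1 / 2 : ℝ) ^ r := by positivity
  set x : ℝ := (1 / 2 : ℝ) ^ r with hx
  have hx1 : x * (7 + 4 * ε) < ε := by rwa [lt_div_iff₀ (by positivity)] at hr
  have hx2 : x < 1 / 4 := by
    by_contra hcon
    push Not at hcon
    nlinarith
  refine ⟨2 * r + 2, by omega, ?_⟩
  intro V _ _ _ θ h W₁ W₂ W₁' W₂' hW hW'
  have hfd : Module.Finite F V := Module.Finite.of_finite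
  have fSL : Finite (SpecialLinearGroup F V) :=
    Finite.of_injective (fun g : SpecialLinearGroup F V => (fun v => g v))
      (fun g h hgh => SpecialLinearGroup.ext g h (congrFun hgh))
  obtain ⟨hW1, hW2, hW3⟩ := hW
  obtain ⟨hW1', hW2', hW3'⟩ := hW'
  obtain ⟨T, hT, hTr⟩ := exists_sub6 (n := r + 1) (W := W₁) (by omega)
  obtain ⟨T', hT', hTr'⟩ := exists_sub6 (n := r + 1) (W := W₁') (by omega)
  have hr1 : 1 ≤ r := by
    by_contra hcon
    have : r = 0 := by omega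
    rw [this, pow_zero] at hx
    linarith
  have hle12 : finrank F W₁ ≤ finrank F W₂ := Submodule.finrank_mono hW1
  have hle12' : finrank F W₁' ≤ finrank F W₂' := Submodule.finrank_mono hW1'
  have hTT1 : finrank F T ≤ finrank F (T ⊔ T' : Submodule F V) := Submodule.finrank_mono le_sup_left
  have hTT2 : finrank F (T ⊔ T' : Submodule F V) ≤ finrank F T + finrank F T' :=
    Submodule.finrank_add_le_finrank_add_finrank T T'
  have hB : Big 2 (T ⊔ T') (T ⊔ T') := ⟨le_rfl, by omega, by omega⟩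
  have hN : ∀ U U' : Submodule F V, 0 ≤ nn θ (EE U U') := fun U U' => nn_nonneg h _
  have e1 : (1 - 2 * x) * nn θ (EE W₁ W₂) ≤ (1 + x) * nn θ (EE (T ⊔ T') (T ⊔ T')) := by
    refine step6 h ⟨hW1, by omega, by omega⟩ hB ?_ ?_ (by omega) (by omega) (hN _ _) (hN _ _)
    · have h1 : finrank F T ≤ finrank F (W₁ ⊓ (T ⊔ T') : Submodule F V) :=
        Submodule.finrank_mono (le_inf hT le_sup_left)
      omega
    · have h1 : W₂ ⊔ (T ⊔ T') = W₂ ⊔ T' := by
        rw [← sup_assoc, sup_eq_left.2 (hT.trans hW1)]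
      have h2 := Submodule.finrank_add_le_finrank_add_finrank W₂ T'
      rw [h1]
      omega
  have e2 : (1 - 2 * x) * nn θ (EE (T ⊔ T') (T ⊔ T')) ≤ (1 + x) * nn θ (EE W₁' W₂') := by
    refine step6 h hB ⟨hW1', by omega, by omega⟩ ?_ ?_ (by omega) (by omega) (hN _ _) (hN _ _)
    · have h1 : finrank F T' ≤ finrank F ((T ⊔ T') ⊓ W₁' : Submodule F V) :=
        Submodule.finrank_mono (le_inf le_sup_right hT')
      omega
    · have h1 : (T ⊔ T') ⊔ W₂' = T ⊔ W₂' := by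
        rw [sup_assoc, sup_eq_right.2 (hT'.trans hW1')]
      have h2 := Submodule.finrank_add_le_finrank_add_finrank T W₂'
      rw [h1]
      omega
  have e3 : (1 - 2 * x) ^ 2 * nn θ (EE W₁ W₂) ≤ (1 + x) ^ 2 * nn θ (EE W₁' W₂') := by
    have h1 := mul_le_mul_of_nonneg_left e1 (by linarith : (0 : ℝ) ≤ 1 - 2 * x)
    have h2 := mul_le_mul_of_nonneg_left e2 (by linarith : (0 : ℝ) ≤ 1 + x)
    nlinarith
  have e4 : (1 + x) ^ 2 ≤ (1 + ε) * (1 - 2 * x) ^ 2 := by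
    have h1 : (1 + x) ^ 2 ≤ 1 + 3 * x := by nlinarith
    have h2 : 1 - 4 * x ≤ (1 - 2 * x) ^ 2 := by nlinarith [sq_nonneg x]
    have h3 : (1 + ε) * (1 - 4 * x) ≤ (1 + ε) * (1 - 2 * x) ^ 2 :=
      mul_le_mul_of_nonneg_left h2 (by linarith)
    nlinarith
  have e5 : (1 - 2 * x) ^ 2 * nn θ (EE W₁ W₂) ≤
      (1 - 2 * x) ^ 2 * ((1 + ε) * nn θ (EE W₁' W₂')) := by
    refine e3.trans ((mul_le_mul_of_nonneg_right e4 (hN _ _)).trans (le_of_eq ?_))
    ring
  exact le_of_mul_le_mul_left e5 (by have : 0 < 1 - 2 * x := by linarith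
                                     positivity)

end Pool.Agent.Helper70.GLn
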