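import Pool.Agent.Helper70.GLn.Defs

/-!
# GL-CY: cyclic decomposition (80-140 lines)

PROOF. `Module.equiv_directSum_of_isTorsion` (Mathlib.Algebra.Module.PID) for the `F[X]`-module `Module.AEval' x` (finite, torsion because `minpoly x` or
`charpoly x` kills everything; finitely generated over `F`, hence over `F[X]`). The result is `⨁ i : ι, F[X] ⧸ F[X] ∙ p i ^ e i`; remove the indices with `e i = 0`
(or: `p i ^ e i` a unit: the summand is zero), make the generators monic (`g i = normalize (p i ^ e i)`, associated elements span the same ideal,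
`Ideal.quotientEquivAlgOfEq` / `Submodule.quotEquivOfEq`), number the finite index type by `Fin N`. `AdjoinRoot g` is by definition `F[X] ⧸ span {g}` and multiplication by
`X` is multiplication by `root g`. (Alternative proof: `p i ^ e i` may be replaced by any approach giving cyclic modules.)
`dvd`: `aeval (root (g i)) f = 0` follows by applying `e` (`e (f(x) v) i = aeval (root) f * e v i`), then `AdjoinRoot.mk_eq_zero`.
-/

set_option autoImplicit false

open Module Polynomial

namespace Pool.Agent.Helper70.GLn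

private lemma key_h2 {F V : Type} [Field F] [AddCommGroup V] [Module F V] (x : V →ₗ[F] V)
    {ι : Type} [Fintype ι] (Q : ι → Type) [∀ i, AddCommGroup (Q i)] [∀ i, Module F (Q i)]
    (D : V ≃ₗ[F] ((i : ι) → Q i)) (X' : (i : ι) → Q i → Q i) (hD : ∀ v i, D (x v) i = X' i (D v i))
    (p : ι → Prop) (hp : ∀ i, ¬ p i → Subsingleton (Q i)) (g : ι → F[X])
    (E : (i : ι) → Q i ≃ₗ[F] AdjoinRoot (g i))
    (hE : ∀ i q, E i (X' i q) = AdjoinRoot.root (g i) * E i q) :
    ∃ (N : ℕ) (σ : Fin N → ι) (e : V ≃ₗ[F] ((k : Fin N) → AdjoinRoot (g (σ k)))),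
      (∀ k, p (σ k)) ∧ ∀ v k, e (x v) k = AdjoinRoot.root (g (σ k)) * e v k := by
  classical
  have : Finite {i // p i} := inferInstance
  obtain ⟨N, ⟨s⟩⟩ := Finite.exists_equiv_fin {i // p i}
  let σ : Fin N ≃ {i // p i} := s.symm
  let L : ((i : ι) → Q i) →ₗ[F] ((k : Fin N) → AdjoinRoot (g (σ k).1)) :=
    LinearMap.pi (fun k => (E (σ k).1 : Q (σ k).1 →ₗ[F] AdjoinRoot (g (σ k).1)) ∘ₗ
      LinearMap.proj (σ k).1)
  have hL : ∀ f k, L f k = E (σ k).1 (f (σ k).1) := fun f k => rfl
  have hinj : Function.Injective L := by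
    rw [← LinearMap.ker_eq_bot, LinearMap.ker_eq_bot']
    intro f hf
    funext i
    by_cases hi : p i
    · have h1 := congrFun hf (σ.symm ⟨i, hi⟩)
      have h2 : L f (σ.symm ⟨i, hi⟩) = 0 := h1
      rw [hL, LinearEquiv.map_eq_zero_iff] at h2
      have h3 : ∀ j : {i // p i}, j = ⟨i, hi⟩ → f j.1 = 0 → f i = 0 := by
        rintro _ rfl h
        exact h
      exact h3 _ (σ.apply_symm_apply _) h2
    · exact @Subsingleton.elim _ (hp i hi) _ _
  have hsurj : Function.Surjective L := by
    intro y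
    let y' : (j : {i // p i}) → AdjoinRoot (g j.1) :=
      Equiv.piCongrLeft (fun j : {i // p i} => AdjoinRoot (g j.1)) σ y
    have hy' : ∀ k, y' (σ k) = y k := fun k =>
      Equiv.piCongrLeft_apply_apply (fun j : {i // p i} => AdjoinRoot (g j.1)) σ y k
    refine ⟨fun i => if h : p i then (E i).symm (y' ⟨i, h⟩) else 0, ?_⟩
    funext k
    rw [hL, dif_pos (σ k).2, LinearEquiv.apply_symm_apply]
    exact hy' k
  refine ⟨N, fun k => (σ k).1, D.trans (LinearEquiv.ofBijective L ⟨hinj, hsurj⟩),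
    fun k => (σ k).2, fun v k => ?_⟩
  show E (σ k).1 (D (x v) (σ k).1) = AdjoinRoot.root (g (σ k).1) * E (σ k).1 (D v (σ k).1)
  rw [hD, hE]

theorem cyclic {F V : Type} [Field F] [Finite F] [AddCommGroup V] [Module F V] [Finite V]
    (x : V →ₗ[F] V) : ∃ (N : ℕ) (g : Fin N → F[X]) (e : V ≃ₗ[F] ((i : Fin N) → AdjoinRoot (g i))),
      (∀ i, (g i).Monic) ∧ (∀ i, 0 < (g i).natDegree) ∧
      (∀ v i, e (x v) i = AdjoinRoot.root (g i) * e v i) := by
  classical
  obtain ⟨ι, hι, p, hp, n, ⟨h⟩⟩ := Module.equiv_directSum_of_isTorsion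
    (Module.AEval.isTorsion_of_finiteDimensional F V x)
  let D' : (DirectSum ι fun i => F[X] ⧸ Submodule.span F[X] {p i ^ n i}) ≃ₗ[F[X]]
      ((i : ι) → F[X] ⧸ Submodule.span F[X] {p i ^ n i}) :=
    DirectSum.linearEquivFunOnFintype F[X] ι _
  let D : V ≃ₗ[F] ((i : ι) → F[X] ⧸ Submodule.span F[X] {p i ^ n i}) :=
    (Module.AEval'.of x).trans ((h.trans D').restrictScalars F)
  have hpn : ∀ i, p i ^ n i ≠ 0 := fun i => pow_ne_zero _ (hp i).ne_zero
  let g : ι → F[X] := fun i => p i ^ n i * C (p i ^ n i).leadingCoeff⁻¹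
  have hg : ∀ i, (g i).Monic := fun i => monic_mul_leadingCoeff_inv (hpn i)
  have hgs : ∀ i, Submodule.span F[X] {p i ^ n i} = Ideal.span {g i} := by
    intro i
    have h1 : Associated (p i ^ n i) (g i) := by
      have hu : IsUnit (C (p i ^ n i).leadingCoeff⁻¹) := by
        rw [isUnit_C]
        exact (inv_ne_zero (leadingCoeff_ne_zero.2 (hpn i))).isUnit
      exact (associated_mul_unit_right _ _ hu)
    exact Ideal.span_singleton_eq_span_singleton.2 h1
  obtain ⟨N, σ, e, he1, he2⟩ := key_h2 (F := F) (V := V) x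
    (fun i => F[X] ⧸ Submodule.span F[X] {p i ^ n i}) D (fun i q => (X : F[X]) • q) (by
      intro v i
      show D' (h (Module.AEval'.of x (x v))) i = (X : F[X]) • D' (h (Module.AEval'.of x v)) i
      rw [← Module.AEval'.X_smul_of, map_smul, map_smul]
      rfl) (fun i => n i ≠ 0) (by
      intro i hi
      have h0 : n i = 0 := not_not.1 hi
      show Subsingleton (F[X] ⧸ Submodule.span F[X] {p i ^ n i})
      rw [h0, pow_zero]
      refine ⟨fun a b => ?_⟩
      obtain ⟨a, rfl⟩ := Submodule.Quotient.mk_surjective _ a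
      obtain ⟨b, rfl⟩ := Submodule.Quotient.mk_surjective _ b
      rw [Submodule.Quotient.eq, Submodule.mem_span_singleton]
      exact ⟨a - b, by rw [smul_eq_mul, mul_one]⟩) g
    (fun i => (Submodule.quotEquivOfEq _ _ (hgs i)).restrictScalars F) (by
      intro i q
      obtain ⟨a, rfl⟩ := Submodule.Quotient.mk_surjective _ q
      show AdjoinRoot.mk (g i) (X * a) = AdjoinRoot.root (g i) * AdjoinRoot.mk (g i) a
      rw [map_mul, AdjoinRoot.mk_X])
  refine ⟨N, fun k => g (σ k), e, fun k => hg _, fun k => ?_, he2⟩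
  show 0 < (p (σ k) ^ n (σ k) * C (p (σ k) ^ n (σ k)).leadingCoeff⁻¹).natDegree
  rw [natDegree_mul_leadingCoeff_inv _ (hpn _), natDegree_pow]
  exact Nat.mul_pos (Nat.pos_of_ne_zero (he1 k)) (hp _).natDegree_pos

theorem cyclic_dvd {F V : Type} [Field F] [Finite F] [AddCommGroup V] [Module F V] [Finite V]
    {x : V →ₗ[F] V} {N : ℕ} {g : Fin N → F[X]} (e : V ≃ₗ[F] ((i : Fin N) → AdjoinRoot (g i)))
    (he : ∀ v i, e (x v) i = AdjoinRoot.root (g i) * e v i) {f : F[X]} (hf : aeval x f = 0)
    (i : Fin N) : g i ∣ f := by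
  classical
  have h1 : ∀ (p : F[X]) (v : V), e (aeval x p v) i = aeval (AdjoinRoot.root (g i)) p * e v i := by
    intro p v
    induction p using Polynomial.induction_on' with
    | add p q hp hq =>
      rw [map_add, LinearMap.add_apply, map_add, Pi.add_apply, hp, hq, map_add, add_mul]
    | monomial n a =>
      have h2 : e ((x ^ n) v) i = AdjoinRoot.root (g i) ^ n * e v i := by
        induction n with
        | zero => simp
        | succ n ih => rw [pow_succ', Module.End.mul_apply, he, ih, pow_succ', mul_assoc]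
      rw [aeval_monomial, aeval_monomial]
      show e (a • (x ^ n) v) i = _
      rw [map_smul, Pi.smul_apply, h2, Algebra.smul_def, mul_assoc]
  have h2 := h1 f (e.symm (Pi.single i 1))
  rw [hf, LinearMap.zero_apply, map_zero, LinearEquiv.apply_symm_apply, Pi.single_eq_same, mul_one,
    AdjoinRoot.aeval_eq] at h2
  exact AdjoinRoot.mk_eq_zero.1 h2.symm

end Pool.Agent.Helper70.GLn
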