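import Pool.Agent.Helper70.GLn.CY

/-!
# GL-DC: grouping the cyclic pieces (100-160 lines)

PROOF. `cyclic` for `y`: `e : A ≃ₗ ((i : Fin N) → AdjoinRoot (g i))`, each `g i` divides `X ^ m - 1` (`cyclic_dvd`), so `AdjoinRoot (g i)` has dimension
`natDegree (g i)` between `1` and `m` (`AdjoinRoot.powerBasis`), and `N ≤ finrank A`. With `t = 2 * p * m` let `P r` be the subspace of all `v` with `e v i = 0` for
`i % t ≠ r`, `Q r` the subspace of all `v` with `e v i = 0` for `i % t = r`, `z r v = e⁻¹ (i ↦ if i % t = r then e (y v) i else e v i)` (a linear equivalence, its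
inverse is built in the same way from `y⁻¹`; note `e (y⁻¹ v) i * root = e v i`). The number of `i < N` with `i % t = r` is at most `N / t + 1`, so
`finrank (P r) ≤ m * (N / t + 1)` and `p * finrank (P r) ≤ p m N / t + p m ≤ finrank A / 2 + finrank A / 2` (real or natural division; `2 p m ≤ finrank A`).
`z r ^ m = 1` (coordinatewise), the `z r` commute, and `y` is the product of the `z r` over `r : Fin t` (for instance `Finset.noncommProd`, or prove by induction that
the map acting as `y` on the coordinates with `i % t < s` is in the closure for all `s ≤ t`).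
-/

set_option autoImplicit false

open Module

namespace Pool.Agent.Helper70.GLn

open Polynomial in
private theorem aev53 {F A : Type} [Field F] [AddCommGroup A] [Module F A] (y : A ≃ₗ[F] A) {m : ℕ} (hm : y ^ m = 1) :
    aeval (y : A →ₗ[F] A) ((X : F[X]) ^ m - 1) = 0 := by
  have h1 : ∀ k : ℕ, ((y : A →ₗ[F] A)) ^ k = ((y ^ k : A ≃ₗ[F] A) : A →ₗ[F] A) := by
    intro k
    induction k with
    | zero => rfl
    | succ k ih => rw [pow_succ, ih, pow_succ]; rfl
  rw [map_sub, map_pow, aeval_X, map_one, h1, hm]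
  exact sub_self _

/-- coordinatewise multiplication -/
private noncomputable def E53 {F A : Type} [Field F] [AddCommGroup A] [Module F A] {N : ℕ} {R : Fin N → Type}
    [∀ i, CommRing (R i)] [∀ i, Algebra F (R i)] (e : A ≃ₗ[F] ((i : Fin N) → R i)) (m : ℕ) (hm : 0 < m)
    (c : (i : Fin N) → R i) (hc : ∀ i, c i ^ m = 1) : A ≃ₗ[F] A where
  toFun v := e.symm (fun i => c i * e v i)
  invFun v := e.symm (fun i => c i ^ (m - 1) * e v i)
  map_add' u v := by
    rw [← map_add]
    congr 1
    funext i
    rw [map_add, Pi.add_apply, Pi.add_apply, mul_add]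
  map_smul' a v := by
    rw [← map_smul]
    congr 1
    funext i
    rw [map_smul, Pi.smul_apply, Pi.smul_apply, mul_smul_comm]
    rfl
  left_inv v := by
    apply e.injective
    rw [LinearEquiv.apply_symm_apply, LinearEquiv.apply_symm_apply]
    funext i
    show c i ^ (m - 1) * (c i * e v i) = e v i
    rw [← mul_assoc, ← pow_succ, Nat.sub_add_cancel hm, hc, one_mul]
  right_inv v := by
    apply e.injective
    rw [LinearEquiv.apply_symm_apply, LinearEquiv.apply_symm_apply]
    funext i
    show c i * (c i ^ (m - 1) * e v i) = e v i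
    rw [← mul_assoc, ← pow_succ', Nat.sub_add_cancel hm, hc, one_mul]

private theorem E53_apply {F A : Type} [Field F] [AddCommGroup A] [Module F A] {N : ℕ} {R : Fin N → Type}
    [∀ i, CommRing (R i)] [∀ i, Algebra F (R i)] (e : A ≃ₗ[F] ((i : Fin N) → R i)) (m : ℕ) (hm : 0 < m)
    (c : (i : Fin N) → R i) (hc : ∀ i, c i ^ m = 1) (v : A) (i : Fin N) : e (E53 e m hm c hc v) i = c i * e v i := by
  show e (e.symm (fun i => c i * e v i)) i = _
  rw [LinearEquiv.apply_symm_apply]

private theorem E53_mul {F A : Type} [Field F] [AddCommGroup A] [Module F A] {N : ℕ} {R : Fin N → Type}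
    [∀ i, CommRing (R i)] [∀ i, Algebra F (R i)] (e : A ≃ₗ[F] ((i : Fin N) → R i)) (m : ℕ) (hm : 0 < m)
    (c : (i : Fin N) → R i) (hc : ∀ i, c i ^ m = 1) (c' : (i : Fin N) → R i) (hc' : ∀ i, c' i ^ m = 1)
    (c'' : (i : Fin N) → R i) (hc'' : ∀ i, c'' i ^ m = 1) (h : ∀ i, c'' i = c i * c' i) :
    E53 e m hm c'' hc'' = E53 e m hm c hc * E53 e m hm c' hc' := by
  ext v
  apply e.injective
  funext i
  show e (E53 e m hm c'' hc'' v) i = e (E53 e m hm c hc (E53 e m hm c' hc' v)) i
  rw [E53_apply, E53_apply, E53_apply, h, mul_assoc]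

private theorem E53_pow {F A : Type} [Field F] [AddCommGroup A] [Module F A] {N : ℕ} {R : Fin N → Type}
    [∀ i, CommRing (R i)] [∀ i, Algebra F (R i)] (e : A ≃ₗ[F] ((i : Fin N) → R i)) (m : ℕ) (hm : 0 < m)
    (c : (i : Fin N) → R i) (hc : ∀ i, c i ^ m = 1) : E53 e m hm c hc ^ m = 1 := by
  have h1 : ∀ (k : ℕ) (v : A) (i : Fin N), e ((E53 e m hm c hc ^ k) v) i = c i ^ k * e v i := by
    intro k
    induction k with
    | zero => intro v i; rw [pow_zero, pow_zero, one_mul]; rfl
    | succ k ih =>
      intro v i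
      rw [pow_succ]
      show e ((E53 e m hm c hc ^ k) (E53 e m hm c hc v)) i = _
      rw [ih, E53_apply, pow_succ, mul_assoc]
  ext v
  apply e.injective
  funext i
  rw [h1, hc, one_mul]
  rfl

private theorem cnt53 {N t : ℕ} (r : ℕ) : Fintype.card {i : Fin N // (i : ℕ) % t = r} ≤ N / t + 1 := by
  have h : Function.Injective (fun i : {i : Fin N // (i : ℕ) % t = r} => (⟨(i.1 : ℕ) / t, by
      have := Nat.div_le_div_right (c := t) i.1.2.le
      omega⟩ : Fin (N / t + 1))) := by
    intro i j hij
    have h1 : (i.1 : ℕ) / t = (j.1 : ℕ) / t := congrArg Fin.val hij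
    apply Subtype.ext
    apply Fin.ext
    rw [← Nat.div_add_mod (i.1 : ℕ) t, ← Nat.div_add_mod (j.1 : ℕ) t, h1, i.2, j.2]
  have := Fintype.card_le_of_injective _ h
  rwa [Fintype.card_fin] at this

theorem pieces {F A : Type} [Field F] [Finite F] [AddCommGroup A] [Module F A] [Finite A]
    (y : A ≃ₗ[F] A) {m p : ℕ} (hm : y ^ m = 1) (hm0 : 0 < m) (hp : 0 < p)
    (hA : 2 * p * m ≤ finrank F A) :
    ∃ (z : Fin (2 * p * m) → (A ≃ₗ[F] A)) (P Q : Fin (2 * p * m) → Submodule F A),
      (∀ i j, Commute (z i) (z j)) ∧ (∀ r, IsCompl (P r) (Q r)) ∧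
      (∀ r, ∀ v ∈ P r, z r v ∈ P r) ∧ (∀ r, ∀ v ∈ Q r, z r v = v) ∧
      (∀ r, p * finrank F (P r) ≤ finrank F A) ∧ (∀ r, z r ^ m = 1) ∧
      y ∈ Subgroup.closure (Set.range z) := by
  classical
  obtain ⟨N, g, e, hmon, hdeg, he⟩ := cyclic (y : A →ₗ[F] A)
  have hdvd : ∀ i, g i ∣ (Polynomial.X : Polynomial F) ^ m - 1 := fun i => cyclic_dvd e he (aev53 y hm) i
  have hne : (Polynomial.X : Polynomial F) ^ m - 1 ≠ 0 := (Polynomial.monic_X_pow_sub_C (1 : F) hm0.ne').ne_zero
  have hnd : ((Polynomial.X : Polynomial F) ^ m - 1).natDegree = m := Polynomial.natDegree_X_pow_sub_C (r := (1 : F))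
  have hdeg2 : ∀ i, (g i).natDegree ≤ m := fun i => (Polynomial.natDegree_le_of_dvd (hdvd i) hne).trans hnd.le
  have hw : ∀ i, AdjoinRoot.root (g i) ^ m = 1 := by
    intro i
    have h1 : AdjoinRoot.mk (g i) ((Polynomial.X : Polynomial F) ^ m - 1) = 0 := AdjoinRoot.mk_eq_zero.2 (hdvd i)
    rw [map_sub, map_pow, AdjoinRoot.mk_X, map_one, sub_eq_zero] at h1
    exact h1
  have hfin : ∀ i, Finite (AdjoinRoot (g i)) := by
    intro i
    have h1 : Finite ((i : Fin N) → AdjoinRoot (g i)) := Finite.of_equiv A e.toEquiv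
    refine Finite.of_surjective (fun f : (i : Fin N) → AdjoinRoot (g i) => f i) fun x => ?_
    exact ⟨Function.update 0 i x, by simp⟩
  have hrank : ∀ i, finrank F (AdjoinRoot (g i)) = (g i).natDegree := by
    intro i
    rw [(AdjoinRoot.powerBasis' (hmon i)).finrank, AdjoinRoot.powerBasis'_dim]
  have hAr : finrank F A = ∑ i, (g i).natDegree := by
    rw [e.finrank_eq, Module.finrank_pi_fintype]
    exact Finset.sum_congr rfl fun i _ => hrank i
  have hNA : N ≤ finrank F A := by
    rw [hAr]
    calc N = ∑ _i : Fin N, 1 := by simp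
      _ ≤ _ := Finset.sum_le_sum fun i _ => hdeg i
  obtain ⟨t, ht⟩ : ∃ t, t = 2 * p * m := ⟨_, rfl⟩
  have ht0 : 0 < t := by rw [ht]; positivity
  obtain ⟨c, hcdef⟩ : ∃ c : ℕ → (i : Fin N) → AdjoinRoot (g i), c = fun r (i : Fin N) => if (i : ℕ) % t = r then AdjoinRoot.root (g i) else 1 := ⟨_, rfl⟩
  have hc : ∀ r i, c r i ^ m = 1 := by
    intro r i
    rw [hcdef]
    show (if (i : ℕ) % t = r then AdjoinRoot.root (g i) else 1) ^ m = 1
    split_ifs
    · exact hw i
    · exact one_pow m
  obtain ⟨b, hbdef⟩ : ∃ b : ℕ → (i : Fin N) → AdjoinRoot (g i), b = fun r (i : Fin N) => if (i : ℕ) % t < r then AdjoinRoot.root (g i) else 1 := ⟨_, rfl⟩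
  have hb : ∀ r i, b r i ^ m = 1 := by
    intro r i
    rw [hbdef]
    show (if (i : ℕ) % t < r then AdjoinRoot.root (g i) else 1) ^ m = 1
    split_ifs
    · exact hw i
    · exact one_pow m
  let P : Fin (2 * p * m) → Submodule F A := fun r =>
    { carrier := {v | ∀ i : Fin N, (i : ℕ) % t ≠ r → e v i = 0}
      add_mem' := by
        intro u v hu hv i hi
        rw [map_add, Pi.add_apply, hu i hi, hv i hi, add_zero]
      zero_mem' := by
        intro i _
        rw [map_zero]
        rfl
      smul_mem' := by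
        intro a v hv i hi
        rw [map_smul, Pi.smul_apply, hv i hi, smul_zero] }
  let Q : Fin (2 * p * m) → Submodule F A := fun r =>
    { carrier := {v | ∀ i : Fin N, (i : ℕ) % t = r → e v i = 0}
      add_mem' := by
        intro u v hu hv i hi
        rw [map_add, Pi.add_apply, hu i hi, hv i hi, add_zero]
      zero_mem' := by
        intro i _
        rw [map_zero]
        rfl
      smul_mem' := by
        intro a v hv i hi
        rw [map_smul, Pi.smul_apply, hv i hi, smul_zero] }
  have hP : ∀ r v, v ∈ P r ↔ ∀ i : Fin N, (i : ℕ) % t ≠ r → e v i = 0 := fun r v => Iff.rfl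
  have hQ : ∀ r v, v ∈ Q r ↔ ∀ i : Fin N, (i : ℕ) % t = r → e v i = 0 := fun r v => Iff.rfl
  refine ⟨fun r => E53 e m hm0 (c r) (hc r), P, Q, ?_, ?_, ?_, ?_, ?_, ?_, ?_⟩
  · intro r s
    show E53 e m hm0 (c r) (hc r) * E53 e m hm0 (c s) (hc s) = E53 e m hm0 (c s) (hc s) * E53 e m hm0 (c r) (hc r)
    have h1 : ∀ i, (c r i * c s i) ^ m = 1 := fun i => by rw [mul_pow, hc, hc, one_mul]
    rw [← E53_mul e m hm0 (c r) (hc r) (c s) (hc s) (fun i => c r i * c s i) h1 (fun i => rfl),
      ← E53_mul e m hm0 (c s) (hc s) (c r) (hc r) (fun i => c r i * c s i) h1 (fun i => mul_comm _ _)]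
  · intro r
    constructor
    · rw [Submodule.disjoint_def]
      intro v h1 h2
      rw [hP] at h1
      rw [hQ] at h2
      apply e.injective
      rw [map_zero]
      funext i
      by_cases hi : (i : ℕ) % t = r
      · exact h2 i hi
      · exact h1 i hi
    · rw [codisjoint_iff, eq_top_iff]
      intro v _
      rw [Submodule.mem_sup]
      refine ⟨e.symm (fun i => if (i : ℕ) % t = r then e v i else 0), ?_,
        e.symm (fun i => if (i : ℕ) % t = r then 0 else e v i), ?_, ?_⟩
      · rw [hP]
        intro i hi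
        rw [LinearEquiv.apply_symm_apply, if_neg hi]
      · rw [hQ]
        intro i hi
        rw [LinearEquiv.apply_symm_apply, if_pos hi]
      · rw [← map_add]
        apply e.injective
        rw [LinearEquiv.apply_symm_apply]
        funext i
        rw [Pi.add_apply]
        split_ifs
        · rw [add_zero]
        · rw [zero_add]
  · intro r v hv
    rw [hP] at hv ⊢
    intro i hi
    rw [E53_apply, hv i hi, mul_zero]
  · intro r v hv
    rw [hQ] at hv
    apply e.injective
    funext i
    rw [E53_apply]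
    by_cases hi : (i : ℕ) % t = r
    · rw [hv i hi, mul_zero]
    · rw [hcdef]
      show (if (i : ℕ) % t = r then AdjoinRoot.root (g i) else 1) * e v i = e v i
      rw [if_neg hi, one_mul]
  · intro r
    let ψ : P r →ₗ[F] ((i : {i : Fin N // (i : ℕ) % t = r}) → AdjoinRoot (g i.1)) :=
      { toFun := fun v i => e v.1 i.1
        map_add' := by
          intro u v
          funext i
          show e (u.1 + v.1) i.1 = e u.1 i.1 + e v.1 i.1
          rw [map_add, Pi.add_apply]
        map_smul' := by
          intro a v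
          funext i
          show e (a • v.1) i.1 = a • e v.1 i.1
          rw [map_smul, Pi.smul_apply] }
    have hψ : Function.Injective ψ := by
      intro u v huv
      apply Subtype.ext
      apply e.injective
      funext i
      by_cases hi : (i : ℕ) % t = r
      · exact congrFun huv ⟨i, hi⟩
      · rw [(hP r u.1).1 u.2 i hi, (hP r v.1).1 v.2 i hi]
    have h1 := LinearMap.finrank_le_finrank_of_injective hψ
    rw [Module.finrank_pi_fintype] at h1
    have h2 : ∑ i : {i : Fin N // (i : ℕ) % t = r}, finrank F (AdjoinRoot (g i.1)) ≤ (N / t + 1) * m := by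
      calc _ ≤ ∑ _i : {i : Fin N // (i : ℕ) % t = r}, m := Finset.sum_le_sum fun i _ => by rw [hrank]; exact hdeg2 _
        _ = Fintype.card {i : Fin N // (i : ℕ) % t = r} * m := by rw [Finset.sum_const, Finset.card_univ, smul_eq_mul]
        _ ≤ _ := Nat.mul_le_mul_right m (cnt53 r)
    have h3 : p * finrank F (P r) ≤ p * ((N / t + 1) * m) := Nat.mul_le_mul_left p (h1.trans h2)
    have h4 : 2 * (p * ((N / t + 1) * m)) = t * (N / t) + 2 * p * m := by
      rw [ht]
      ring
    have h5 : t * (N / t) ≤ N := Nat.mul_div_le N t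
    omega
  · intro r
    exact E53_pow e m hm0 (c r) (hc r)
  · have hind : ∀ s : ℕ, s ≤ t → E53 e m hm0 (b s) (hb s) ∈
        Subgroup.closure (Set.range fun r : Fin (2 * p * m) => E53 e m hm0 (c r) (hc r)) := by
      intro s
      induction s with
      | zero =>
        intro _
        have h1 : E53 e m hm0 (b 0) (hb 0) = 1 := by
          ext v
          apply e.injective
          funext i
          rw [E53_apply, hbdef]
          show (if (i : ℕ) % t < 0 then AdjoinRoot.root (g i) else 1) * e v i = e v i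
          rw [if_neg (Nat.not_lt_zero _), one_mul]
        rw [h1]
        exact one_mem _
      | succ s ih =>
        intro hs
        have h1 : ∀ i, b (s + 1) i = b s i * c s i := by
          intro i
          rw [hbdef, hcdef]
          show (if (i : ℕ) % t < s + 1 then AdjoinRoot.root (g i) else 1) =
            (if (i : ℕ) % t < s then AdjoinRoot.root (g i) else 1) * (if (i : ℕ) % t = s then AdjoinRoot.root (g i) else 1)
          rcases lt_trichotomy ((i : ℕ) % t) s with h | h | h
          · rw [if_pos (by omega), if_pos h, if_neg (by omega), mul_one]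
          · rw [if_pos (by omega), if_neg (by omega), if_pos h, one_mul]
          · rw [if_neg (by omega), if_neg (by omega), if_neg (by omega), mul_one]
        rw [E53_mul e m hm0 (b s) (hb s) (c s) (hc s) (b (s + 1)) (hb (s + 1)) h1]
        refine mul_mem (ih (by omega)) (Subgroup.subset_closure ?_)
        exact ⟨⟨s, by omega⟩, rfl⟩
    have h1 : y = E53 e m hm0 (b t) (hb t) := by
      ext v
      apply e.injective
      funext i
      rw [E53_apply, hbdef]
      show e (y v) i = (if (i : ℕ) % t < t then AdjoinRoot.root (g i) else 1) * e v i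
      rw [if_pos (Nat.mod_lt _ ht0)]
      exact he v i
    rw [h1]
    exact hind t le_rfl

end Pool.Agent.Helper70.GLn
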