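import Pool.Agent.Helper70.GLn.GR1

/-!
# GL-GR4: an element normalising an abelian subgroup (80-140 lines)

PROOF. Let `N = U ⊔ zpowers x` (or the subgroup of all `u * x ^ i`, `u ∈ U`) and `C₀ = commSub U x`, a subgroup of `U`
which is normal in `N` and such that `N / C₀` is commutative (generated by the images of `U` and of `x`, which commute). By `HP.comp` and
`HP.push` the function `ϑ (y C₀) = (1/|C₀|) ∑_{c ∈ C₀} θ (c y)` on the abelian group `Q = N / C₀` is, up to the factor `|C₀|`, an
`HP` function. `ϑ (x̄) = θ x`, because `c x = a x a⁻¹` for `c = a x a⁻¹ x⁻¹ ∈ C₀`; `ϑ 1 = av_{C₀} θ`, the average of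
`ϑ` over `Ū = U / C₀` is `av_U θ`, and the average over `Ū x̄` is `av_{u ∈ U} θ (u x)`. Fourier inversion on `Q` (`HP.fp`, `fourier_inv`):
`ϑ (x̄) - av_{Ū x̄} ϑ = ∑_{χ ≠ 1 on Ū} c_χ Re χ (x̄) ≥ - ∑_{χ ≠ 1 on Ū} c_χ = - (ϑ 1 - av_Ū ϑ)` with `c_χ ≥ 0`, i.e.
`θ x ≥ av_{u ∈ U} θ (u x) - (av_{C₀} θ - av_U θ) = av - (nn U - nn C₀)`. Finally `C ≤ C₀ ≤ U`, so `nn C ≤ nn C₀` (`nn_mono_comm`).
-/

set_option autoImplicit false

open Pool.Agent.Helper13.Ded Pool.Agent.Helper94.Ded

namespace Pool.Agent.Helper70.GLn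

variable {G : Type*} [Group G] [Finite G] {θ : G → ℝ}

private lemma h31_ab {Q : Type*} [CommGroup Q] [Finite Q] {f : Q → ℝ} (hf : HP f) {B : Type*}
    [Group B] [Finite B] (ι : B →* Q) (b : Q) :
    av (fun u => f (ι u * b)) - f b ≤ f 1 - av (fun u => f (ι u)) := by
  classical
  have := Fintype.ofFinite Q
  have := Fintype.ofFinite B
  let q : Multiplicative (Additive Q) →* Q :=
    { toFun := fun a => Additive.toMul (Multiplicative.toAdd a)
      map_one' := rfl
      map_mul' := fun _ _ => rfl }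
  have hfp := hf.fp q
  set F : Additive Q → ℝ := fun a => f (Additive.toMul a) with hF
  have hfp' : FP ({0} : Set (AddChar (Additive Q) ℂ)) F := hfp
  set ι' : B → Additive Q := fun u => Additive.ofMul (ι u) with hι'
  set g : Additive Q → ℝ := fun a => F a - av (fun u => F (ι' u + a)) with hg
  have havneg : ∀ a, av (fun u => F (ι' u + -a)) = av (fun u => F (ι' u + a)) := by
    intro a
    have h1 := av_comp_equiv (Equiv.inv B) (fun u => F (ι' u + -a))
    rw [← h1]
    congr 1
    funext u
    have e : ι' (Equiv.inv B u) + -a = -(ι' u + a) := by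
      rw [hι']
      simp only [Equiv.inv_apply, map_inv, ofMul_inv]
      abel
    rw [e, hfp'.inv]
  have hginv : ∀ a, g (-a) = g a := by
    intro a
    rw [hg]
    simp only
    rw [havneg, hfp'.inv]
  have hBc : (0 : ℝ) < Nat.card B := by exact_mod_cast Nat.card_pos
  have hhat : ∀ χ : AddChar (Additive Q) ℂ, 0 ≤ hat g χ := by
    intro χ
    have e1 : ∀ u : B, ∑ a, (F (ι' u + a) : ℂ) * χ a = χ (-ι' u) * ∑ a, (F a : ℂ) * χ a := by
      intro u
      rw [Finset.mul_sum, ← Equiv.sum_comp (Equiv.addLeft (ι' u))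
        (fun a => χ (-ι' u) * ((F a : ℂ) * χ a))]
      refine Finset.sum_congr rfl fun a _ => ?_
      simp only [Equiv.coe_addLeft]
      rw [AddChar.map_add_eq_mul, AddChar.map_neg_eq_inv]
      have h2 : χ (ι' u) ≠ 0 := by
        intro h0
        have := χ.norm_apply (ι' u)
        rw [h0, norm_zero] at this
        exact zero_ne_one this
      field_simp
    have e2 : ∑ a, (g a : ℂ) * χ a = (∑ a, (F a : ℂ) * χ a) *
        (1 - (∑ u : B, χ (-ι' u)) / Nat.card B) := by
      have e3 : ∀ a, (g a : ℂ) * χ a = (F a : ℂ) * χ a -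
          (∑ u : B, (F (ι' u + a) : ℂ) * χ a) / Nat.card B := by
        intro a
        rw [hg]
        simp only
        unfold av
        rw [finsum_eq_sum_of_fintype]
        push_cast
        rw [← Finset.sum_mul]
        ring
      rw [Finset.sum_congr rfl fun a _ => e3 a, Finset.sum_sub_distrib, ← Finset.sum_div,
        Finset.sum_comm, Finset.sum_congr rfl fun u _ => e1 u, ← Finset.sum_mul]
      ring
    have e4 := hat_eq F hfp'.inv χ
    have e5 : hat g χ = hat F χ * (1 - (∑ u : B, χ (-ι' u)).re / Nat.card B) := by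
      unfold hat
      rw [finsum_eq_sum_of_fintype, finsum_eq_sum_of_fintype, e2, ← e4]
      have e6 : ((1 : ℂ) - (∑ u : B, χ (-ι' u)) / Nat.card B).re =
          1 - (∑ u : B, χ (-ι' u)).re / Nat.card B := by
        rw [Complex.sub_re, Complex.one_re, Complex.div_natCast_re]
      rw [Complex.mul_re, Complex.ofReal_re, Complex.ofReal_im, zero_mul, sub_zero, e6]
    have e7 : (∑ u : B, χ (-ι' u)).re ≤ Nat.card B := by
      rw [Complex.re_sum]
      calc ∑ u : B, (χ (-ι' u)).re ≤ ∑ _u : B, (1 : ℝ) := Finset.sum_le_sum fun u _ =>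
            (Complex.re_le_norm _).trans (χ.norm_apply _).le
        _ = Nat.card B := by simp [Nat.card_eq_fintype_card]
    rw [e5]
    by_cases hχ : χ = 0
    · subst hχ
      have : (∑ u : B, (0 : AddChar (Additive Q) ℂ) (-ι' u)).re = Nat.card B := by
        simp [Nat.card_eq_fintype_card]
      rw [this, div_self hBc.ne', sub_self, mul_zero]
    · refine mul_nonneg (hfp'.pos χ hχ) ?_
      rw [sub_nonneg, div_le_one hBc]
      exact e7
  have h1 := fourier_inv g hginv (Additive.ofMul b)
  have h0 := fourier_inv g hginv 0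
  have hcard : (0 : ℝ) < (Fintype.card (Additive Q) : ℝ) := by
    exact_mod_cast Fintype.card_pos
  have key : (Fintype.card (Additive Q) : ℝ) * -(g 0) ≤ Fintype.card (Additive Q) * g (Additive.ofMul b) := by
    rw [mul_neg, h0, h1, ← Finset.sum_neg_distrib]
    refine Finset.sum_le_sum fun χ _ => ?_
    rw [AddChar.map_zero_eq_one, Complex.one_re, mul_one]
    have h2 : -1 ≤ (χ (Additive.ofMul b)).re := by
      have := (abs_le.1 (Complex.abs_re_le_norm (χ (Additive.ofMul b)))).1
      rwa [χ.norm_apply] at this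
    nlinarith [hhat χ]
  have key2 := le_of_mul_le_mul_left key hcard
  have g0 : g 0 = f 1 - av (fun u => f (ι u)) := by
    rw [hg]
    simp only [add_zero]
    rfl
  have gb : g (Additive.ofMul b) = f b - av (fun u => f (ι u * b)) := rfl
  rw [g0, gb] at key2
  linarith

theorem coset_lower (h : HP θ) (U : Subgroup G) (hU : ∀ a ∈ U, ∀ b ∈ U, a * b = b * a) (x : G)
    (hx : ∀ a ∈ U, x * a * x⁻¹ ∈ U) (C : Subgroup G)
    (hC : ∀ c ∈ C, ∃ a ∈ U, c = a * x * a⁻¹ * x⁻¹) :
    av (fun u : U => θ (u * x)) - (nn θ U - nn θ C) ≤ θ x := by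
  classical
  set C₀ : Subgroup G := commSub U x hU hx with hC₀
  have hC₀U : C₀ ≤ U := commSub_le
  have hCC₀ : C ≤ C₀ := fun c hc => hC c hc
  have hx' : ∀ b ∈ U, x⁻¹ * b * x ∈ U := by
    intro b hb
    let f : U → U := fun u => ⟨x * u * x⁻¹, hx u u.2⟩
    have hf : Function.Injective f := by
      intro u v huv
      have h1 : x * (u : G) * x⁻¹ = x * v * x⁻¹ := congrArg Subtype.val huv
      exact Subtype.ext (by simpa using h1)
    obtain ⟨u, hu⟩ := (Finite.surjective_of_injective hf) ⟨b, hb⟩
    have h1 : x * (u : G) * x⁻¹ = b := congrArg Subtype.val hu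
    have h2 : x⁻¹ * b * x = u := by
      rw [← h1]
      group
    rw [h2]
    exact u.2
  set N : Subgroup G := Subgroup.closure ((U : Set G) ∪ {x}) with hN
  have hUN : U ≤ N := fun u hu => Subgroup.subset_closure (Or.inl hu)
  have hxN : x ∈ N := Subgroup.subset_closure (Or.inr rfl)
  have hNn : N ≤ Subgroup.normalizer (C₀ : Set G) := by
    rw [hN, Subgroup.closure_le]
    rintro y (hy | hy)
    · rw [SetLike.mem_coe, Subgroup.mem_normalizer_iff]
      intro c
      constructor
      · intro hc
        have h1 : y * c * y⁻¹ = c := by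
          rw [hU y hy c (hC₀U hc)]
          group
        rw [h1]
        exact hc
      · intro hc
        have h1 : y * c * y⁻¹ ∈ U := hC₀U hc
        have h2 : c ∈ U := by
          have h3 := U.mul_mem (U.mul_mem (U.inv_mem hy) h1) hy
          have h4 : y⁻¹ * (y * c * y⁻¹) * y = c := by group
          rwa [h4] at h3
        have h5 : y * c * y⁻¹ = c := by
          rw [hU y hy c h2]
          group
        rwa [h5] at hc
    · rw [Set.mem_singleton_iff.1 hy]
      exact commSub_normal hx'
  have hnorm : (C₀.subgroupOf N).Normal := Subgroup.normal_subgroupOf_of_le_normalizer hNn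
  set π : N →* N ⧸ C₀.subgroupOf N := QuotientGroup.mk' (C₀.subgroupOf N) with hπ
  have hπs : Function.Surjective π := QuotientGroup.mk'_surjective _
  have hπ1 : ∀ c : N, (c : G) ∈ C₀ → π c = 1 := by
    intro c hc
    exact (QuotientGroup.eq_one_iff c).2 hc
  -- the quotient is commutative
  have hcomm : ∀ a b : N ⧸ C₀.subgroupOf N, a * b = b * a := by
    set S : Set N := ((↑) : N → G) ⁻¹' ((U : Set G) ∪ {x}) with hS
    have hST : Subgroup.closure S = ⊤ := Subgroup.closure_closure_coe_preimage
    have hux : ∀ u : N, (u : G) ∈ U → ∀ y : N, (y : G) = x → π u * π y = π y * π u := by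
      intro u hu y hy
      have h1 : π (u * y * u⁻¹ * y⁻¹) = 1 := by
        apply hπ1
        refine ⟨u, hu, ?_⟩
        simp [hy]
      have h2 : u * y = u * y * u⁻¹ * y⁻¹ * (y * u) := by group
      rw [← map_mul, h2, map_mul, h1, one_mul, map_mul]
    have hcl := closure_comm (S := π '' S) (by
      rintro _ ⟨a, ha, rfl⟩ _ ⟨b, hb, rfl⟩
      rcases ha with ha | ha <;> rcases hb with hb | hb
      · rw [← map_mul, ← map_mul]
        congr 1
        exact Subtype.ext (hU _ ha _ hb)
      · exact hux a ha b hb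
      · exact (hux b hb a ha).symm
      · have hab : a = b := Subtype.ext (by
          rw [Set.mem_singleton_iff.1 ha, Set.mem_singleton_iff.1 hb])
        rw [hab])
    have htop : Subgroup.closure (π '' S) = ⊤ := by
      rw [← MonoidHom.map_closure, hST, ← MonoidHom.range_eq_map, MonoidHom.range_eq_top]
      exact hπs
    intro a b
    exact hcl a (by rw [htop]; trivial) b (by rw [htop]; trivial)
  let iQ : CommGroup (N ⧸ C₀.subgroupOf N) :=
    { (inferInstance : Group (N ⧸ C₀.subgroupOf N)) with mul_comm := hcomm }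
  set f : (N ⧸ C₀.subgroupOf N) → ℝ := push π (fun n : N => θ n) with hf
  have hfHP : HP f := (h.comp N.subtype).push π hπs
  -- the values of `f`
  have hval : ∀ n : N, f (π n) = ∑ᶠ c : C₀, θ (c * n) := by
    intro n
    rw [hf]
    unfold push
    let e : C₀ ≃ {y : N // π y = π n} :=
      { toFun := fun c => ⟨⟨c, hUN (hC₀U c.2)⟩ * n, by
          rw [map_mul, hπ1 ⟨c, hUN (hC₀U c.2)⟩ c.2, one_mul]⟩
        invFun := fun y => ⟨(y.1 : G) * (n : G)⁻¹, by
          have h1 : π (y.1 * n⁻¹) = 1 := by rw [map_mul, y.2, map_inv, mul_inv_cancel]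
          have h2 : (y.1 * n⁻¹ : N) ∈ C₀.subgroupOf N := (QuotientGroup.eq_one_iff (y.1 * n⁻¹ : N)).1 h1
          exact h2⟩
        left_inv := fun c => by
          apply Subtype.ext
          simp
        right_inv := fun y => by
          apply Subtype.ext
          apply Subtype.ext
          simp }
    rw [← finsum_comp_equiv e]
    rfl
  have := Fintype.ofFinite G
  have := Fintype.ofFinite C₀
  have := Fintype.ofFinite U
  have hc0 : (0 : ℝ) < Nat.card C₀ := by exact_mod_cast Nat.card_pos
  have v1 : f (π ⟨x, hxN⟩) = Nat.card C₀ * θ x := by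
    rw [hval, finsum_eq_sum_of_fintype]
    have h1 : ∀ c : C₀, θ ((c : G) * x) = θ x := by
      rintro ⟨c, a, ha, rfl⟩
      have h2 : a * x * a⁻¹ * x⁻¹ * x = a * x * a⁻¹ := by group
      simp only
      rw [h2, h.conj]
    rw [Finset.sum_congr rfl fun c _ => h1 c, Finset.sum_const, Finset.card_univ, nsmul_eq_mul,
      Nat.card_eq_fintype_card]
  have v2 : f 1 = Nat.card C₀ * av (fun c : C₀ => θ c) := by
    have h1 : f 1 = f (π 1) := by rw [map_one]
    rw [h1, hval]
    unfold av
    rw [mul_div_cancel₀ _ hc0.ne']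
    refine finsum_congr fun c => ?_
    simp
  let ι : U →* N ⧸ C₀.subgroupOf N := π.comp (Subgroup.inclusion hUN)
  have v3 : ∀ b : N, av (fun u : U => f (ι u * π b)) = Nat.card C₀ * av (fun u : U => θ (u * b)) := by
    intro b
    have h1 : ∀ u : U, f (ι u * π b) = ∑ c : C₀, θ (c * (u * b)) := by
      intro u
      have h2 : ι u * π b = π (Subgroup.inclusion hUN u * b) := by rw [map_mul]; rfl
      rw [h2, hval, finsum_eq_sum_of_fintype]
      rfl
    have h3 : ∀ c : C₀, ∑ u : U, θ (c * (u * b)) = ∑ u : U, θ (u * b) := by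
      intro c
      rw [← Equiv.sum_comp (Equiv.mulLeft (⟨c, hC₀U c.2⟩ : U)) (fun u : U => θ (u * b))]
      refine Finset.sum_congr rfl fun u _ => ?_
      simp [mul_assoc]
    unfold av
    rw [finsum_eq_sum_of_fintype, finsum_eq_sum_of_fintype, Finset.sum_congr rfl fun u _ => h1 u,
      Finset.sum_comm, Finset.sum_congr rfl fun c _ => h3 c, Finset.sum_const, Finset.card_univ,
      nsmul_eq_mul, Nat.card_eq_fintype_card, Nat.card_eq_fintype_card]
    ring
  have key := h31_ab hfHP ι (π ⟨x, hxN⟩)
  have v4 : av (fun u : U => f (ι u)) = Nat.card C₀ * av (fun u : U => θ u) := by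
    have h1 := v3 1
    simp only [map_one, mul_one, OneMemClass.coe_one] at h1
    exact h1
  rw [v1, v2, v3, v4] at key
  have key2 : av (fun u : U => θ (u * x)) - θ x ≤ av (fun c : C₀ => θ c) - av (fun u : U => θ u) := by
    have h1 : (Nat.card C₀ : ℝ) * (av (fun u : U => θ (u * x)) - θ x) ≤
        Nat.card C₀ * (av (fun c : C₀ => θ c) - av (fun u : U => θ u)) := by
      have h2 : av (fun u : U => θ (u * (⟨x, hxN⟩ : N))) = av (fun u : U => θ (u * x)) := rfl
      rw [h2] at key
      linarith
    exact le_of_mul_le_mul_left h1 hc0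
  have hmono := nn_mono_comm h hCC₀ (fun a ha b hb => hU a (hC₀U ha) b (hC₀U hb))
  unfold nn at hmono ⊢
  linarith

end Pool.Agent.Helper70.GLn
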