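import Pool.Agent.Helper70.GLn.Defs

/-!
# GL-TN: tensor products with matrices (100-160 lines)

PROOF. `rank_tens`: choose `u` with `T u ≠ 0` and a functional `f` with `f (T u) = 1`. With `i c = (j ↦ c j • u)` and `r g = (i ↦ f (g i))` one has
`r ∘ tens M T ∘ i = mulVecLin M` (as linear maps `(Fin k → F) → (Fin k → F)`), so `rank M ≤ rank (tens M T)` (`LinearMap.rank_comp_le...`, in terms of
`finrank (range ..)`: the range of `r ∘ tens ∘ i` is the image under `r` of a subspace of `range (tens M T)`).
`sum_rank`: `1 / q ^ rank M = |ker M| / q ^ k` (rank nullity, `|ker M| = q ^ finrank (ker M)`, `Module.card_eq_pow_finrank`); so the sum is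
`q ^ (-k) * ∑_v #{M : M *ᵥ v = 0}`; the term `v = 0` is `|Mat|`; for `v ≠ 0` the map `M ↦ M *ᵥ v` is surjective onto `Fin k → F`, so `#{M : M *ᵥ v = 0} = |Mat| / q ^ k`.
Total `q ^ (-k) |Mat| (1 + (q ^ k - 1) / q ^ k) ≤ 2 q ^ (-k) |Mat|`.
-/

set_option autoImplicit false

open Module

namespace Pool.Agent.Helper70.GLn

variable {F E : Type} [Field F] [Finite F] [AddCommGroup E] [Module F E] [Finite E]

/-- The map `M ⊗ T` on `F ^ k ⊗ E`. -/
def tens {k : ℕ} (M : Matrix (Fin k) (Fin k) F) (T : E →ₗ[F] E) : (Fin k → E) →ₗ[F] (Fin k → E) where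
  toFun f := fun i => ∑ j, M i j • T (f j)
  map_add' f g := by
    funext i
    simp only [Pi.add_apply, map_add, smul_add, Finset.sum_add_distrib]
  map_smul' c f := by
    funext i
    simp only [Pi.smul_apply, map_smul, RingHom.id_apply, Finset.smul_sum]
    exact Finset.sum_congr rfl fun j _ => smul_comm _ _ _

lemma tens_apply {k : ℕ} (M : Matrix (Fin k) (Fin k) F) (T : E →ₗ[F] E) (f : Fin k → E)
    (i : Fin k) : tens M T f i = ∑ j, M i j • T (f j) := rfl

theorem rank_tens {k : ℕ} (M : Matrix (Fin k) (Fin k) F) {T : E →ₗ[F] E} (hT : T ≠ 0) :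
    M.rank ≤ finrank F (LinearMap.range (tens M T)) := by
  obtain ⟨u, hu⟩ : ∃ u, T u ≠ 0 := by
    by_contra hcon
    push Not at hcon
    exact hT (LinearMap.ext hcon)
  obtain ⟨φ, hφ⟩ : ∃ φ : Dual F E, φ (T u) ≠ 0 := by
    by_contra hcon
    push Not at hcon
    exact hu ((forall_dual_apply_eq_zero_iff F (T u)).1 hcon)
  let r : (Fin k → E) →ₗ[F] (Fin k → F) :=
    { toFun := fun g i => (φ (T u))⁻¹ * φ (g i)
      map_add' := fun g g' => by
        funext i
        simp only [Pi.add_apply, map_add, mul_add]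
      map_smul' := fun c g => by
        funext i
        simp only [Pi.smul_apply, map_smul, smul_eq_mul, RingHom.id_apply]
        ring }
  have hle : LinearMap.range M.mulVecLin ≤ (LinearMap.range (tens M T)).map r := by
    rintro _ ⟨c, rfl⟩
    refine ⟨tens M T (fun j => c j • u), ⟨_, rfl⟩, ?_⟩
    funext i
    show (φ (T u))⁻¹ * φ (tens M T (fun j => c j • u) i) = M.mulVec c i
    rw [tens_apply, map_sum, Finset.mul_sum]
    unfold Matrix.mulVec dotProduct
    refine Finset.sum_congr rfl fun j _ => ?_
    rw [map_smul, map_smul, map_smul, smul_eq_mul, smul_eq_mul]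
    field_simp
  have h1 : finrank F (LinearMap.range M.mulVecLin) ≤
      finrank F ((LinearMap.range (tens M T)).map r) := Submodule.finrank_mono hle
  exact h1.trans (Submodule.finrank_map_le r _)

private lemma ker24 (F : Type) [Field F] [Fintype F] [DecidableEq F] (k : ℕ)
    (M : Matrix (Fin k) (Fin k) F) :
    1 / (Nat.card F : ℝ) ^ M.rank * (Nat.card F : ℝ) ^ k =
      ((Finset.univ.filter (fun v : Fin k → F => M.mulVec v = 0)).card : ℝ) := by
  have hrn := LinearMap.finrank_range_add_finrank_ker M.mulVecLin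
  rw [Module.finrank_fin_fun] at hrn
  have hker : Nat.card (LinearMap.ker M.mulVecLin) =
      Nat.card F ^ finrank F (LinearMap.ker M.mulVecLin) := Module.natCard_eq_pow_finrank
  have hcard : (Finset.univ.filter (fun v : Fin k → F => M.mulVec v = 0)).card =
      Nat.card (LinearMap.ker M.mulVecLin) := by
    rw [← Fintype.card_subtype, ← Nat.card_eq_fintype_card]
    exact Nat.card_congr (Equiv.subtypeEquivRight fun v => by
      rw [LinearMap.mem_ker, Matrix.mulVecLin_apply])
  have hq : (0 : ℝ) < (Nat.card F : ℝ) := by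
    have : 0 < Nat.card F := Nat.card_pos
    exact_mod_cast this
  have hk : (Nat.card F : ℝ) ^ k = (Nat.card F : ℝ) ^ M.rank *
      (Nat.card F : ℝ) ^ finrank F (LinearMap.ker M.mulVecLin) := by
    rw [← pow_add]
    congr 1
    exact hrn.symm
  rw [hcard, hker, hk]
  push_cast
  field_simp

private lemma sol24 (F : Type) [Field F] [Fintype F] [DecidableEq F] (k : ℕ)
    {v : Fin k → F} (hv : v ≠ 0) :
    ((Finset.univ.filter (fun M : Matrix (Fin k) (Fin k) F => M.mulVec v = 0)).card : ℝ) *
      (Nat.card F : ℝ) ^ k = Nat.card (Matrix (Fin k) (Fin k) F) := by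
  let L : Matrix (Fin k) (Fin k) F →ₗ[F] (Fin k → F) :=
    { toFun := fun M => M.mulVec v
      map_add' := fun M M' => Matrix.add_mulVec M M' v
      map_smul' := fun c M => by
        rw [Matrix.smul_mulVec, RingHom.id_apply] }
  have hsurj : Function.Surjective L := by
    intro w
    obtain ⟨i0, hi0⟩ : ∃ i, v i ≠ 0 := by
      by_contra hcon
      push Not at hcon
      exact hv (funext hcon)
    refine ⟨Matrix.of fun i j => if j = i0 then w i / v i0 else 0, ?_⟩
    funext i
    show (∑ j, (if j = i0 then w i / v i0 else 0) * v j) = w i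
    rw [Finset.sum_eq_single i0]
    · rw [if_pos rfl]
      field_simp
    · intro j _ hj
      rw [if_neg hj, zero_mul]
    · intro h
      exact (h (Finset.mem_univ _)).elim
  have hrn := LinearMap.finrank_range_add_finrank_ker L
  rw [LinearMap.range_eq_top.2 hsurj, finrank_top, Module.finrank_fin_fun] at hrn
  have hker : Nat.card (LinearMap.ker L) = Nat.card F ^ finrank F (LinearMap.ker L) :=
    Module.natCard_eq_pow_finrank
  have hmat : Nat.card (Matrix (Fin k) (Fin k) F) =
      Nat.card F ^ finrank F (Matrix (Fin k) (Fin k) F) := Module.natCard_eq_pow_finrank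
  have hcard : (Finset.univ.filter (fun M : Matrix (Fin k) (Fin k) F => M.mulVec v = 0)).card =
      Nat.card (LinearMap.ker L) := by
    rw [← Fintype.card_subtype, ← Nat.card_eq_fintype_card]
    exact Nat.card_congr (Equiv.subtypeEquivRight fun M => by
      rw [LinearMap.mem_ker]
      rfl)
  rw [hcard, hker, hmat, ← hrn, pow_add]
  push_cast
  ring

theorem sum_rank (F : Type) [Field F] [Fintype F] [DecidableEq F] (k : ℕ) :
    (∑ M : Matrix (Fin k) (Fin k) F, 1 / (Nat.card F : ℝ) ^ M.rank) * (Nat.card F : ℝ) ^ k ≤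
      2 * Nat.card (Matrix (Fin k) (Fin k) F) := by
  classical
  have hq : (0 : ℝ) < (Nat.card F : ℝ) := by
    have : 0 < Nat.card F := Nat.card_pos
    exact_mod_cast this
  set N : ℝ := (Nat.card (Matrix (Fin k) (Fin k) F) : ℝ) with hN
  have hN0 : 0 ≤ N := Nat.cast_nonneg _
  rw [Finset.sum_mul, Finset.sum_congr rfl fun M _ => ker24 F k M]
  have hswap : ∑ M : Matrix (Fin k) (Fin k) F,
      ((Finset.univ.filter (fun v : Fin k → F => M.mulVec v = 0)).card : ℝ) =
      ∑ v : Fin k → F,
        ((Finset.univ.filter (fun M : Matrix (Fin k) (Fin k) F => M.mulVec v = 0)).card : ℝ) := by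
    simp only [Finset.card_filter]
    push_cast
    exact Finset.sum_comm
  rw [hswap]
  have hle : ∀ v : Fin k → F,
      ((Finset.univ.filter (fun M : Matrix (Fin k) (Fin k) F => M.mulVec v = 0)).card : ℝ) ≤
        (if v = 0 then N else 0) + N / (Nat.card F : ℝ) ^ k := by
    intro v
    have hpos : 0 ≤ N / (Nat.card F : ℝ) ^ k := by positivity
    by_cases hv : v = 0
    · rw [if_pos hv]
      have h1 : (Finset.univ.filter (fun M : Matrix (Fin k) (Fin k) F => M.mulVec v = 0)).card ≤
          Nat.card (Matrix (Fin k) (Fin k) F) := by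
        refine (Finset.card_filter_le _ _).trans ?_
        rw [Finset.card_univ, Nat.card_eq_fintype_card]
      have h2 : ((Finset.univ.filter
          (fun M : Matrix (Fin k) (Fin k) F => M.mulVec v = 0)).card : ℝ) ≤ N := by
        rw [hN]
        exact_mod_cast h1
      linarith
    · rw [if_neg hv, zero_add, le_div_iff₀ (by positivity), sol24 F k hv]
  refine (Finset.sum_le_sum fun v _ => hle v).trans ?_
  rw [Finset.sum_add_distrib, Finset.sum_ite_eq' Finset.univ (0 : Fin k → F),
    if_pos (Finset.mem_univ _), Finset.sum_const, nsmul_eq_mul, Finset.card_univ]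
  have hc : ((Fintype.card (Fin k → F) : ℕ) : ℝ) = (Nat.card F : ℝ) ^ k := by
    rw [Fintype.card_fun, Fintype.card_fin, Nat.card_eq_fintype_card]
    push_cast
    rfl
  rw [hc]
  have : (Nat.card F : ℝ) ^ k * (N / (Nat.card F : ℝ) ^ k) = N := by
    field_simp
  rw [this]
  linarith

end Pool.Agent.Helper70.GLn
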