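import Pool.Agent.Helper70.GLn.CY
import Pool.Agent.Helper70.GLn.LG

/-!
# GL-DI: an element is almost scalar or contains many copies of a nonscalar map (120-200 lines)

PROOF. `f = X ^ n - 1`, `n = orderOf x ≤ h`. `cyclic` for `x`: `V ≃ ∏ i : Fin N, AdjoinRoot (g i)`, all `g i` monic divisors of `f` of degree `≥ 1` (`cyclic_dvd`), degree `≤ h`; there are at most `T`
monic polynomials of degree `≤ h` over `F` (a finite set; `T` depends on `F` and `h` only). `K = T * h * (2 * k)`.
(a) Some `g` with `natDegree g ≥ 2` occurs at least `2k` times among the `g i`: `E = AdjoinRoot g`, `x₀` = multiplication by `root g` (bijective: injective because `x` is, via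
the inclusion of a coordinate), `ι j a = e.symm (Pi.single (i j) a)`, `π j v = e v (i j)` for distinct indices `i j` with `g (i j) = g` (cast along the equality: `subst`, or use
`AdjoinRoot` algebra equivalences for equal polynomials). `x₀` is not scalar: if it commutes with all `S` then `root g = algebraMap c` for some `c`
(`Module.End` centre: `S` = rank one maps), then `g ∣ X - C c`, degree `≤ 1`.
(b) Otherwise, if two different polynomials `X - C a ≠ X - C b` occur at least `2k` times each: `E = F × F`, `x₀ (s, t) = (a s, b t)`, `S = swap`; here one has eigenvectors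
`v j`, `w j` and coordinate functionals (`AdjoinRoot (X - C a)` is `F`, one may use `1 = mk 1` as basis and any linear functional `λ` with `λ 1 = 1`).
(c) Otherwise all polynomials except possibly one `X - C a` occur less than `2k` times each, so the sum of the coordinates with `g i ≠ X - C a` has dimension at most
`T * (2k) * h = K`, and `x - a` vanishes on the other coordinates (`root = a` there), so `finrank (range (x - a)) ≤ K`. (If there is no such `a` take `a = 0`: `finrank V ≤ K`.)
-/

set_option autoImplicit false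

open Module Polynomial

namespace Pool.Agent.Helper70.GLn

private lemma fin_deg_h2 (F : Type) [Field F] [Finite F] (h : ℕ) :
    {g : F[X] | g.natDegree ≤ h}.Finite := by
  have h1 : Finite (degreeLT F (h + 1)) :=
    Finite.of_injective (degreeLTEquiv F (h + 1)) (degreeLTEquiv F (h + 1)).injective
  refine Set.Finite.subset (Set.toFinite ((degreeLT F (h + 1) : Submodule F F[X]) : Set F[X])) ?_
  intro g hg
  show g ∈ degreeLT F (h + 1)
  rw [mem_degreeLT]
  have h2 : g.natDegree < h + 1 := Nat.lt_succ_of_le hg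
  exact lt_of_le_of_lt degree_le_natDegree (by exact_mod_cast h2)

section

variable {F V : Type} [Field F] [Finite F] [AddCommGroup V] [Module F V] [Finite V]
  {x : V ≃ₗ[F] V} {N : ℕ} {g : Fin N → F[X]} (e : V ≃ₗ[F] ((i : Fin N) → AdjoinRoot (g i)))

omit [Finite F] in
include e in
private lemma adj_fin_h2 (i : Fin N) : Finite (AdjoinRoot (g i)) := by
  classical
  refine Finite.of_injective (fun z => e.symm (Pi.single i z)) ?_
  intro a b hab
  have h1 := e.symm.injective hab
  exact Pi.single_injective i h1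

omit [Finite F] [Finite V] in
private lemma root_inj_h2 (he : ∀ v i, e (x v) i = AdjoinRoot.root (g i) * e v i) (i : Fin N)
    {z : AdjoinRoot (g i)} (hz : AdjoinRoot.root (g i) * z = 0) : z = 0 := by
  classical
  have h1 : x (e.symm (Pi.single i z)) = 0 := by
    apply e.injective
    rw [map_zero]
    funext j
    rw [he, LinearEquiv.apply_symm_apply]
    by_cases hj : j = i
    · subst hj
      rw [Pi.single_eq_same, hz]
      rfl
    · rw [Pi.single_eq_of_ne hj, mul_zero]
      rfl
  have h2 : e.symm (Pi.single i z) = 0 := by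
    apply x.injective
    rw [h1, map_zero]
  have h3 : (Pi.single i z : (i : Fin N) → AdjoinRoot (g i)) = 0 := by
    rw [← LinearEquiv.apply_symm_apply e (Pi.single i z), h2, map_zero]
  have h4 := congrFun h3 i
  rwa [Pi.single_eq_same] at h4

omit [Finite F] [Finite V] in
private lemma cast_h2 {p q : F[X]} (hpq : q = p) : ∃ c : AdjoinRoot p ≃ₗ[F] AdjoinRoot q,
    ∀ a, c (AdjoinRoot.root p * a) = AdjoinRoot.root q * c a := by
  subst hpq
  exact ⟨LinearEquiv.refl F _, fun a => rfl⟩

/-- Case (a). -/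
private lemma caseA_h2 (he : ∀ v i, e (x v) i = AdjoinRoot.root (g i) * e v i)
    (i₀ : Fin N) (hd : 2 ≤ (g i₀).natDegree) (k : ℕ) (j : Fin (2 * k) ↪ {i // g i = g i₀}) :
    ∃ (E : Type) (_ : AddCommGroup E) (_ : Module F E) (_ : Finite E) (x₀ : E ≃ₗ[F] E)
      (i : Fin (2 * k) → (E →ₗ[F] V)) (π : Fin (2 * k) → (V →ₗ[F] E)), Nonsc x₀ ∧
      (∀ s t, π s ∘ₗ i t = if s = t then LinearMap.id else 0) ∧
      (∀ s u, x (i s u) = i s (x₀ u)) ∧ ∀ s v, π s (x v) = x₀ (π s v) := by
  classical
  have hfinE : Finite (AdjoinRoot (g i₀)) := adj_fin_h2 e i₀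
  let x₁ : AdjoinRoot (g i₀) →ₗ[F] AdjoinRoot (g i₀) :=
    LinearMap.mulLeft F (AdjoinRoot.root (g i₀))
  have hx₁ : Function.Injective x₁ := by
    rw [← LinearMap.ker_eq_bot, LinearMap.ker_eq_bot']
    intro z hz
    exact root_inj_h2 e he i₀ hz
  let x₀ : AdjoinRoot (g i₀) ≃ₗ[F] AdjoinRoot (g i₀) := LinearEquiv.ofInjectiveEndo x₁ hx₁
  have hx₀ : ∀ z, x₀ z = AdjoinRoot.root (g i₀) * z := fun z => rfl
  choose c hc using fun s => cast_h2 (F := F) (j s).2
  refine ⟨AdjoinRoot (g i₀), inferInstance, inferInstance, hfinE, x₀,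
    fun s => e.symm.toLinearMap ∘ₗ (LinearMap.single F (fun i => AdjoinRoot (g i)) (j s).1) ∘ₗ
      (c s).toLinearMap,
    fun s => (c s).symm.toLinearMap ∘ₗ (LinearMap.proj (j s).1) ∘ₗ e.toLinearMap,
    ?_, ?_, ?_, ?_⟩
  · have hne : (1 : AdjoinRoot (g i₀)) ≠ 0 := by
      intro h0
      have h1 : AdjoinRoot.mk (g i₀) 1 = 0 := by rw [map_one, h0]
      rw [AdjoinRoot.mk_eq_zero] at h1
      have h2 := natDegree_le_of_dvd h1 one_ne_zero
      rw [natDegree_one] at h2
      omega
    obtain ⟨φ, hφ⟩ : ∃ φ : AdjoinRoot (g i₀) →ₗ[F] F, φ 1 ≠ 0 := by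
      by_contra hcon
      push Not at hcon
      exact hne ((Module.forall_dual_apply_eq_zero_iff F (1 : AdjoinRoot (g i₀))).1 hcon)
    refine ⟨(((φ 1)⁻¹) • φ).smulRight (1 : AdjoinRoot (g i₀)), fun hcom => ?_⟩
    have h1 := LinearMap.congr_fun hcom 1
    have h2 : AdjoinRoot.root (g i₀) * (((φ 1)⁻¹ * φ 1) • (1 : AdjoinRoot (g i₀))) =
        ((φ 1)⁻¹ * φ (AdjoinRoot.root (g i₀) * 1)) • (1 : AdjoinRoot (g i₀)) := h1
    rw [inv_mul_cancel₀ hφ, one_smul, mul_one] at h2
    have h3 : AdjoinRoot.mk (g i₀) (X - C ((φ 1)⁻¹ * φ (AdjoinRoot.root (g i₀)))) = 0 := by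
      rw [map_sub, AdjoinRoot.mk_X, AdjoinRoot.mk_C, sub_eq_zero]
      conv_lhs => rw [h2]
      rw [Algebra.smul_def, mul_one]
      rfl
    rw [AdjoinRoot.mk_eq_zero] at h3
    have h4 := natDegree_le_of_dvd h3 (X_sub_C_ne_zero _)
    rw [natDegree_X_sub_C] at h4
    omega
  · intro s t
    ext1 u
    show (c s).symm (e (e.symm (Pi.single (j t).1 (c t u))) (j s).1) = _
    rw [LinearEquiv.apply_symm_apply]
    by_cases hst : s = t
    · subst hst
      rw [Pi.single_eq_same, LinearEquiv.symm_apply_apply, if_pos rfl]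
      rfl
    · have hne : (j s).1 ≠ (j t).1 := fun h => hst (j.injective (Subtype.ext h))
      rw [Pi.single_eq_of_ne hne, map_zero, if_neg hst]
      rfl
  · intro s u
    apply e.injective
    show e (x (e.symm (Pi.single (j s).1 (c s u)))) = e (e.symm (Pi.single (j s).1 (c s (x₀ u))))
    rw [LinearEquiv.apply_symm_apply]
    funext i
    rw [he, LinearEquiv.apply_symm_apply]
    by_cases hi : i = (j s).1
    · subst hi
      rw [Pi.single_eq_same, Pi.single_eq_same, hx₀, hc]
    · rw [Pi.single_eq_of_ne hi, Pi.single_eq_of_ne hi, mul_zero]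
  · intro s v
    apply (c s).injective
    show c s ((c s).symm (e (x v) (j s).1)) = c s (x₀ ((c s).symm (e v (j s).1)))
    rw [LinearEquiv.apply_symm_apply, hx₀, hc, LinearEquiv.apply_symm_apply, he]

omit [Finite F] [Finite V] in
private lemma root_lin_h2 {p : F[X]} {a : F} (hp : p = X - C a) (z : AdjoinRoot p) :
    AdjoinRoot.root p * z = a • z := by
  have h1 : AdjoinRoot.mk p (X - C a) = 0 := by rw [hp]; exact AdjoinRoot.mk_self
  rw [map_sub, AdjoinRoot.mk_X, AdjoinRoot.mk_C, sub_eq_zero] at h1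
  rw [h1, Algebra.smul_def]
  rfl

/-- Case (b). -/
private lemma caseB_h2 (he : ∀ v i, e (x v) i = AdjoinRoot.root (g i) * e v i)
    {a b : F} (hab : a ≠ b) (ha0 : a ≠ 0) (hb0 : b ≠ 0) (k : ℕ)
    (j : Fin (2 * k) ↪ {i // g i = X - C a}) (j' : Fin (2 * k) ↪ {i // g i = X - C b}) :
    ∃ (E : Type) (_ : AddCommGroup E) (_ : Module F E) (_ : Finite E) (x₀ : E ≃ₗ[F] E)
      (i : Fin (2 * k) → (E →ₗ[F] V)) (π : Fin (2 * k) → (V →ₗ[F] E)), Nonsc x₀ ∧
      (∀ s t, π s ∘ₗ i t = if s = t then LinearMap.id else 0) ∧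
      (∀ s u, x (i s u) = i s (x₀ u)) ∧ ∀ s v, π s (x v) = x₀ (π s v) := by
  classical
  have hone : ∀ (c : F) (i : Fin N), g i = X - C c → (1 : AdjoinRoot (g i)) ≠ 0 := by
    intro c i hi h0
    have h1 : AdjoinRoot.mk (g i) 1 = 0 := by rw [map_one, h0]
    rw [AdjoinRoot.mk_eq_zero, hi] at h1
    have h2 := natDegree_le_of_dvd h1 one_ne_zero
    rw [natDegree_one, natDegree_X_sub_C] at h2
    omega
  have hex : ∀ (c : F) (i : Fin N), g i = X - C c → ∃ l : AdjoinRoot (g i) →ₗ[F] F, l 1 = 1 := by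
    intro c i hi
    obtain ⟨φ, hφ⟩ : ∃ φ : AdjoinRoot (g i) →ₗ[F] F, φ 1 ≠ 0 := by
      by_contra hcon
      push Not at hcon
      exact hone c i hi ((Module.forall_dual_apply_eq_zero_iff F (1 : AdjoinRoot (g i))).1 hcon)
    exact ⟨(φ 1)⁻¹ • φ, by rw [LinearMap.smul_apply, smul_eq_mul, inv_mul_cancel₀ hφ]⟩
  choose l hl using fun s => hex a (j s).1 (j s).2
  choose l' hl' using fun s => hex b (j' s).1 (j' s).2
  have hjj' : ∀ s t, (j s).1 ≠ (j' t).1 := by
    intro s t h
    have h1 := (j s).2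
    rw [h, (j' t).2] at h1
    have h2 : C b = C a := sub_right_injective h1
    exact hab (C_injective h2).symm
  let x₀ : (F × F) ≃ₗ[F] (F × F) :=
    { toFun := fun u => (a * u.1, b * u.2)
      invFun := fun u => (a⁻¹ * u.1, b⁻¹ * u.2)
      map_add' := fun u v => by ext <;> simp [mul_add]
      map_smul' := fun r u => by ext <;> simp [mul_left_comm]
      left_inv := fun u => by ext <;> simp [ha0, hb0]
      right_inv := fun u => by ext <;> simp [ha0, hb0] }
  have hx₀ : ∀ u, x₀ u = (a * u.1, b * u.2) := fun u => rfl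
  let ι : Fin (2 * k) → ((F × F) →ₗ[F] V) := fun s =>
    (e.symm : _ →ₗ[F] V) ∘ₗ
      (((LinearMap.single F (fun i => AdjoinRoot (g i)) (j s).1) ∘ₗ
        (LinearMap.fst F F F).smulRight (1 : AdjoinRoot (g (j s).1))) +
      ((LinearMap.single F (fun i => AdjoinRoot (g i)) (j' s).1) ∘ₗ
        (LinearMap.snd F F F).smulRight (1 : AdjoinRoot (g (j' s).1))))
  have hι : ∀ s u, ι s u = e.symm (Pi.single (j s).1 (u.1 • (1 : AdjoinRoot (g (j s).1))) +
      Pi.single (j' s).1 (u.2 • (1 : AdjoinRoot (g (j' s).1)))) := fun s u => rfl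
  let ρ : Fin (2 * k) → (V →ₗ[F] (F × F)) := fun s =>
    ((l s ∘ₗ (LinearMap.proj (j s).1) ∘ₗ e.toLinearMap).prod
      (l' s ∘ₗ (LinearMap.proj (j' s).1) ∘ₗ e.toLinearMap))
  have hρ : ∀ s v, ρ s v = (l s (e v (j s).1), l' s (e v (j' s).1)) := fun s v => rfl
  refine ⟨F × F, inferInstance, inferInstance, inferInstance, x₀, ι, ρ, ?_, ?_, ?_, ?_⟩
  · refine ⟨(LinearMap.snd F F F).prod (LinearMap.fst F F F), fun hcom => ?_⟩
    have h1 := LinearMap.congr_fun hcom (1, 0)
    have h2 : ((a * 0, b * 1) : F × F) = (b * 0, a * 1) := h1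
    have h3 := congrArg Prod.snd h2
    rw [mul_one, mul_one] at h3
    exact hab h3.symm
  · intro s t
    refine LinearMap.ext fun u => ?_
    show ρ s (ι t u) = _
    rw [hρ, hι, LinearEquiv.apply_symm_apply, Pi.add_apply, Pi.add_apply]
    by_cases hst : s = t
    · subst hst
      rw [Pi.single_eq_same, Pi.single_eq_of_ne (hjj' s s), add_zero,
        Pi.single_eq_of_ne (hjj' s s).symm, Pi.single_eq_same, zero_add, map_smul, map_smul, hl,
        hl', if_pos rfl]
      ext <;> simp
    · have hne : (j s).1 ≠ (j t).1 := fun h => hst (j.injective (Subtype.ext h))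
      have hne' : (j' s).1 ≠ (j' t).1 := fun h => hst (j'.injective (Subtype.ext h))
      rw [Pi.single_eq_of_ne hne, Pi.single_eq_of_ne (hjj' s t), Pi.single_eq_of_ne hne',
        Pi.single_eq_of_ne (hjj' t s).symm, add_zero, add_zero, map_zero, map_zero, if_neg hst]
      rfl
  · intro s u
    apply e.injective
    funext i
    rw [he, hι, hι, LinearEquiv.apply_symm_apply, LinearEquiv.apply_symm_apply, hx₀, Pi.add_apply,
      Pi.add_apply, mul_add]
    congr 1
    · by_cases hi : i = (j s).1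
      · subst hi
        rw [Pi.single_eq_same, Pi.single_eq_same, root_lin_h2 (j s).2, smul_smul]
      · rw [Pi.single_eq_of_ne hi, Pi.single_eq_of_ne hi, mul_zero]
    · by_cases hi : i = (j' s).1
      · subst hi
        rw [Pi.single_eq_same, Pi.single_eq_same, root_lin_h2 (j' s).2, smul_smul]
      · rw [Pi.single_eq_of_ne hi, Pi.single_eq_of_ne hi, mul_zero]
  · intro s v
    rw [hρ, hρ, hx₀, he, he, root_lin_h2 (j s).2, root_lin_h2 (j' s).2, map_smul, map_smul]
    rfl

/-- Case (c). -/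
private lemma caseC_h2 (he : ∀ v i, e (x v) i = AdjoinRoot.root (g i) * e v i)
    (a : F) (B : Finset (Fin N)) (hB : ∀ i, i ∉ B → g i = X - C a) {h : ℕ}
    (hm : ∀ i, (g i).Monic) (hd : ∀ i, (g i).natDegree ≤ h) :
    finrank F (LinearMap.range ((x : V →ₗ[F] V) - a • LinearMap.id)) ≤ B.card * h := by
  classical
  have hfinE : ∀ i, Finite (AdjoinRoot (g i)) := adj_fin_h2 e
  let L : V →ₗ[F] ((i : B) → AdjoinRoot (g i.1)) :=
    LinearMap.pi (fun i : B => (LinearMap.proj i.1) ∘ₗ e.toLinearMap)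
  let L' := L ∘ₗ (LinearMap.range ((x : V →ₗ[F] V) - a • LinearMap.id)).subtype
  have hinj : Function.Injective L' := by
    rw [← LinearMap.ker_eq_bot, LinearMap.ker_eq_bot']
    rintro ⟨_, ⟨v, rfl⟩⟩ hv
    apply Subtype.ext
    apply e.injective
    show e (x v - a • v) = e 0
    rw [map_zero]
    funext i
    by_cases hi : i ∈ B
    · exact congrFun hv ⟨i, hi⟩
    · rw [map_sub, map_smul]
      show e (x v) i - a • e v i = 0
      rw [he, root_lin_h2 (hB i hi), sub_self]
  have h1 := LinearMap.finrank_le_finrank_of_injective hinj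
  refine h1.trans ?_
  rw [Module.finrank_pi_fintype]
  have h2 : ∀ i : B, finrank F (AdjoinRoot (g i.1)) ≤ h := by
    intro i
    have h3 : finrank F (AdjoinRoot (g i.1)) = (g i.1).natDegree :=
      finrank_quotient_span_eq_natDegree
    rw [h3]
    exact hd _
  refine (Finset.sum_le_card_nsmul _ _ _ (fun i _ => h2 i)).trans ?_
  rw [Finset.card_univ, Fintype.card_coe, smul_eq_mul]

end

theorem dichotomy (F : Type) [Field F] [Finite F] (h k : ℕ) : ∃ K : ℕ,
    ∀ (V : Type) [AddCommGroup V] [Module F V] [Finite V] (x : V ≃ₗ[F] V), orderOf x ≤ h →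
    (∃ a : F, finrank F (LinearMap.range ((x : V →ₗ[F] V) - a • LinearMap.id)) ≤ K) ∨
    ∃ (E : Type) (_ : AddCommGroup E) (_ : Module F E) (_ : Finite E) (x₀ : E ≃ₗ[F] E)
      (i : Fin (2 * k) → (E →ₗ[F] V)) (π : Fin (2 * k) → (V →ₗ[F] E)), Nonsc x₀ ∧
      (∀ s t, π s ∘ₗ i t = if s = t then LinearMap.id else 0) ∧
      (∀ s u, x (i s u) = i s (x₀ u)) ∧ ∀ s v, π s (x v) = x₀ (π s v) := by
  classical
  set T := (fin_deg_h2 F h).toFinset.card with hT
  refine ⟨2 * k * T * h, ?_⟩
  intro V _ _ _ x hx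
  obtain ⟨N, g, e, hg1, hg2, he'⟩ := cyclic (x : V →ₗ[F] V)
  have he : ∀ v i, e (x v) i = AdjoinRoot.root (g i) * e v i := he'
  have hpow : ∀ n : ℕ, ((x ^ n : V ≃ₗ[F] V) : V →ₗ[F] V) = (x : V →ₗ[F] V) ^ n := by
    intro n
    induction n with
    | zero => rfl
    | succ n ih =>
      rw [pow_succ, pow_succ, ← ih]
      rfl
  have hn : 0 < orderOf x := orderOf_pos x
  have hf : aeval (x : V →ₗ[F] V) (X ^ orderOf x - 1 : F[X]) = 0 := by
    rw [map_sub, map_pow, aeval_X, map_one, ← hpow, pow_orderOf_eq_one]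
    exact sub_self _
  have hdeg : ∀ i, (g i).natDegree ≤ h := by
    intro i
    have h1 := cyclic_dvd e he' hf i
    have h2 : (X ^ orderOf x - 1 : F[X]) ≠ 0 := X_pow_sub_C_ne_zero hn 1
    have h3 := natDegree_le_of_dvd h1 h2
    have h4 : (X ^ orderOf x - 1 : F[X]).natDegree = orderOf x := natDegree_X_pow_sub_C (r := 1)
    omega
  -- the eigenvalue of a linear factor
  have hlin : ∀ i, (g i).natDegree = 1 → g i = X - C (-(g i).coeff 0) := by
    intro i hi
    rw [map_neg, sub_neg_eq_add]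
    exact (hg1 i).eq_X_add_C hi
  have hne0 : ∀ (i : Fin N) (a : F), g i = X - C a → a ≠ 0 := by
    rintro i a hi rfl
    have h1 := root_lin_h2 hi (1 : AdjoinRoot (g i))
    rw [zero_smul] at h1
    have h2 := root_inj_h2 e he i h1
    have h3 : AdjoinRoot.mk (g i) 1 = 0 := by rw [map_one, h2]
    rw [AdjoinRoot.mk_eq_zero] at h3
    have h4 := natDegree_le_of_dvd h3 one_ne_zero
    rw [natDegree_one] at h4
    have := hg2 i
    omega
  by_cases hA : ∃ i₀, 2 ≤ (g i₀).natDegree ∧ 2 * k ≤ Fintype.card {i // g i = g i₀}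
  · right
    obtain ⟨i₀, hd, hc⟩ := hA
    obtain ⟨j⟩ := Function.Embedding.nonempty_of_card_le (α := Fin (2 * k))
      (β := {i // g i = g i₀}) (by rwa [Fintype.card_fin])
    exact caseA_h2 e he i₀ hd k j
  by_cases hB : ∃ (i₀ i₁ : Fin N) (a b : F), g i₀ = X - C a ∧ g i₁ = X - C b ∧ a ≠ b ∧
      2 * k ≤ Fintype.card {i // g i = X - C a} ∧ 2 * k ≤ Fintype.card {i // g i = X - C b}
  · right
    obtain ⟨i₀, i₁, a, b, ha, hb, hab, hc, hc'⟩ := hB
    obtain ⟨j⟩ := Function.Embedding.nonempty_of_card_le (α := Fin (2 * k))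
      (β := {i // g i = X - C a}) (by rwa [Fintype.card_fin])
    obtain ⟨j'⟩ := Function.Embedding.nonempty_of_card_le (α := Fin (2 * k))
      (β := {i // g i = X - C b}) (by rwa [Fintype.card_fin])
    exact caseB_h2 e he hab (hne0 _ _ ha) (hne0 _ _ hb) k j j'
  · left
    push Not at hA hB
    obtain ⟨a, ha⟩ : ∃ a : F, ∀ i, g i ≠ X - C a → Fintype.card {i' // g i' = g i} ≤ 2 * k := by
      by_cases hex : ∃ (i₀ : Fin N) (a : F), g i₀ = X - C a ∧
          2 * k ≤ Fintype.card {i // g i = X - C a}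
      · obtain ⟨i₀, a, ha, hc⟩ := hex
        refine ⟨a, fun i hi => ?_⟩
        by_contra hcon
        rw [not_le] at hcon
        by_cases hd : 2 ≤ (g i).natDegree
        · exact absurd (hA i hd) (by omega)
        · have h1 : (g i).natDegree = 1 := by
            have := hg2 i
            omega
          have h2 := hlin i h1
          have h3 : a ≠ -(g i).coeff 0 := by
            intro h4
            rw [← h4] at h2
            exact hi h2
          have h5 := hB i₀ i a (-(g i).coeff 0) ha h2 h3 hc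
          rw [← h2] at h5
          omega
      · push Not at hex
        refine ⟨0, fun i _ => ?_⟩
        by_cases hd : 2 ≤ (g i).natDegree
        · exact (hA i hd).le
        · have h1 : (g i).natDegree = 1 := by
            have := hg2 i
            omega
          have h2 := hlin i h1
          have h3 := hex i _ h2
          rw [← h2] at h3
          exact h3.le
    refine ⟨a, ?_⟩
    have h1 := caseC_h2 e he a (Finset.univ.filter fun i => g i ≠ X - C a) (fun i hi => by
      rw [Finset.mem_filter, not_and] at hi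
      exact not_not.1 (hi (Finset.mem_univ i))) hg1 hdeg
    refine h1.trans (Nat.mul_le_mul_right h ?_)
    have h2 := Finset.card_le_mul_card_image (f := g) (Finset.univ.filter fun i => g i ≠ X - C a)
      (2 * k) (by
        intro p hp
        obtain ⟨i, hi, rfl⟩ := Finset.mem_image.1 hp
        rw [Finset.mem_filter] at hi
        refine le_trans ?_ (ha i hi.2)
        rw [Fintype.card_subtype]
        apply Finset.card_le_card
        intro i' hi'
        rw [Finset.mem_filter] at hi' ⊢
        exact ⟨Finset.mem_univ _, hi'.2⟩)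
    refine h2.trans (Nat.mul_le_mul_left _ ?_)
    apply Finset.card_le_card
    intro p hp
    obtain ⟨i, hi, rfl⟩ := Finset.mem_image.1 hp
    rw [Set.Finite.mem_toFinset]
    exact hdeg i

end Pool.Agent.Helper70.GLn
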