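import Mathlib
import Pool.Agent.Helper13.Ded.Solv
import Pool.Agent.Helper94.Ded.Heil

/-!
# Project GL (MP_9fc8a5_nt): definitions and basic facts

`F` is a finite field with `q` elements, `V`, `A`, `B` are finite vector spaces over `F`.
-/

set_option autoImplicit false

open scoped BigOperators
open Module Pool.Agent.Helper13.Ded

namespace Pool.Agent.Helper70.GLn

/-- As `HP`, but the inner product with the trivial character of every subgroup is also
nonnegative. -/
structure LHP {G : Type*} [Group G] (θ : G → ℝ) : Prop where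
  conj : ∀ g h : G, θ (h * g * h⁻¹) = θ g
  inv : ∀ g : G, θ g⁻¹ = θ g
  pos : ∀ (K : Subgroup G) (ψ : K →* ℂˣ),
    0 ≤ (∑ᶠ k : K, (θ k : ℂ) * ((ψ k : ℂˣ) : ℂ)).re

lemma LHP.hp {G : Type*} [Group G] {θ : G → ℝ} (h : LHP θ) : HP θ :=
  ⟨h.conj, h.inv, fun K ψ _ => h.pos K ψ⟩

/-- The defect of a subgroup. -/
noncomputable def nn {G : Type*} [Group G] (θ : G → ℝ) (K : Subgroup G) : ℝ :=
  θ 1 - av (fun k : K => θ k)

section

variable {F V : Type} [Field F] [AddCommGroup V] [Module F V]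

/-- The group of all `g` with `(g - 1) V ⊆ W₁` and `g = 1` on `W₂`. -/
def EE (W₁ W₂ : Submodule F V) : Subgroup (SpecialLinearGroup F V) where
  carrier := {g | (∀ v, g v - v ∈ W₁) ∧ ∀ v ∈ W₂, g v = v}
  mul_mem' := by
    rintro g h ⟨hg1, hg2⟩ ⟨hh1, hh2⟩
    refine ⟨fun v => ?_, fun v hv => ?_⟩
    · have h1 : (g * h) v - v = (g (h v) - h v) + (h v - v) := by
        show g (h v) - v = _
        abel
      rw [h1]
      exact W₁.add_mem (hg1 _) (hh1 _)
    · show g (h v) = v
      rw [hh2 v hv, hg2 v hv]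
  one_mem' := ⟨fun v => by show v - v ∈ W₁; rw [sub_self]; exact W₁.zero_mem, fun v _ => rfl⟩
  inv_mem' := by
    rintro g ⟨hg1, hg2⟩
    have hgi : ∀ v, g (g⁻¹ v) = v := fun v => by
      show (g : V ≃ₗ[F] V) ((g : V ≃ₗ[F] V).symm v) = v
      exact LinearEquiv.apply_symm_apply _ _
    refine ⟨fun v => ?_, fun v hv => ?_⟩
    · have h1 := hg1 (g⁻¹ v)
      rw [hgi] at h1
      have h2 := W₁.neg_mem h1
      rwa [neg_sub] at h2
    · have h1 : g (g⁻¹ v) = g v := by rw [hgi, hg2 v hv]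
      exact (g : V ≃ₗ[F] V).injective h1

lemma mem_EE {W₁ W₂ : Submodule F V} {g : SpecialLinearGroup F V} :
    g ∈ EE W₁ W₂ ↔ (∀ v, g v - v ∈ W₁) ∧ ∀ v ∈ W₂, g v = v := Iff.rfl

/-- `W₁ ≤ W₂`, `dim W₁ ≥ R`, `codim W₂ ≥ R`. -/
def Big (R : ℕ) (W₁ W₂ : Submodule F V) : Prop :=
  W₁ ≤ W₂ ∧ R ≤ finrank F W₁ ∧ R + finrank F W₂ ≤ finrank F V

lemma inv_apply_self (g : SpecialLinearGroup F V) (v : V) : g (g⁻¹ v) = v := by
  show (g : V ≃ₗ[F] V) ((g : V ≃ₗ[F] V).symm v) = v
  exact LinearEquiv.apply_symm_apply _ _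

lemma sl_injective (g : SpecialLinearGroup F V) : Function.Injective (fun v => g v) :=
  (g : V ≃ₗ[F] V).injective

variable [Finite V]

/-- The group of the chain `c 0 ≤ c 1 ≤ ... ≤ c s`: all `g` with `g = 1` on `c 0`,
`(g - 1) c (i+1) ⊆ c i`, `(g - 1) V ⊆ c s`. -/
def KF (c : ℕ → Submodule F V) (s : ℕ) : Subgroup (SpecialLinearGroup F V) where
  carrier := {g | (∀ v ∈ c 0, g v = v) ∧
    (∀ i < s, ∀ v ∈ c (i + 1), g v - v ∈ c i ∧ g v ∈ c (i + 1)) ∧ ∀ v, g v - v ∈ c s}
  mul_mem' := by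
    rintro g h ⟨hg1, hg2, hg3⟩ ⟨hh1, hh2, hh3⟩
    refine ⟨fun v hv => ?_, fun i hi v hv => ?_, fun v => ?_⟩
    · show g (h v) = v
      rw [hh1 v hv, hg1 v hv]
    · have h1 : (g * h) v - v = (g (h v) - h v) + (h v - v) := by
        show g (h v) - v = _
        abel
      have h2 := hg2 i hi (h v) (hh2 i hi v hv).2
      rw [h1]
      exact ⟨(c i).add_mem h2.1 (hh2 i hi v hv).1, h2.2⟩
    · have h1 : (g * h) v - v = (g (h v) - h v) + (h v - v) := by
        show g (h v) - v = _
        abel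
      rw [h1]
      exact (c s).add_mem (hg3 _) (hh3 _)
  one_mem' := ⟨fun v _ => rfl, fun i _ v hv => ⟨by
    show v - v ∈ c i; rw [sub_self]; exact (c i).zero_mem, hv⟩, fun v => by
    show v - v ∈ c s; rw [sub_self]; exact (c s).zero_mem⟩
  inv_mem' := by
    rintro g ⟨hg1, hg2, hg3⟩
    refine ⟨fun v hv => ?_, fun i hi v hv => ?_, fun v => ?_⟩
    · have h1 : g (g⁻¹ v) = g v := by rw [inv_apply_self, hg1 v hv]
      exact sl_injective g h1
    · let f : c (i + 1) → c (i + 1) := fun u => ⟨g u, (hg2 i hi u u.2).2⟩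
      have hf : Function.Injective f := by
        intro a b hab
        have h1 : g a = g b := congrArg Subtype.val hab
        exact Subtype.ext (sl_injective g h1)
      obtain ⟨u, hu⟩ := (Finite.surjective_of_injective hf) ⟨v, hv⟩
      have hu' : g (u : V) = v := congrArg Subtype.val hu
      have h2 : g⁻¹ v = u := by
        apply sl_injective g
        show g (g⁻¹ v) = g u
        rw [inv_apply_self, hu']
      rw [h2]
      refine ⟨?_, u.2⟩
      have h3 := (c i).neg_mem (hg2 i hi u u.2).1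
      rw [neg_sub, hu'] at h3
      exact h3
    · have h1 := hg3 (g⁻¹ v)
      rw [inv_apply_self] at h1
      have h2 := (c s).neg_mem h1
      rwa [neg_sub] at h2

lemma mem_KF {c : ℕ → Submodule F V} {s : ℕ} {g : SpecialLinearGroup F V} :
    g ∈ KF c s ↔ (∀ v ∈ c 0, g v = v) ∧
      (∀ i < s, ∀ v ∈ c (i + 1), g v - v ∈ c i ∧ g v ∈ c (i + 1)) ∧ ∀ v, g v - v ∈ c s := Iff.rfl

end

instance finite_quot {F V : Type} [Field F] [AddCommGroup V] [Module F V] [Finite V]
    (W : Submodule F V) : Finite (V ⧸ W) := Finite.of_surjective W.mkQ W.mkQ_surjective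

instance finite_hom {F V W : Type} [Field F] [AddCommGroup V] [Module F V] [Finite V]
    [AddCommGroup W] [Module F W] [Finite W] : Finite (V →ₗ[F] W) :=
  Finite.of_injective (fun f : V →ₗ[F] W => (f : V → W)) DFunLike.coe_injective

instance finite_gl {F V W : Type} [Field F] [AddCommGroup V] [Module F V] [Finite V]
    [AddCommGroup W] [Module F W] [Finite W] : Finite (V ≃ₗ[F] W) :=
  Finite.of_injective (fun f : V ≃ₗ[F] W => (f : V → W)) DFunLike.coe_injective

instance finite_sl {F V : Type} [Field F] [AddCommGroup V] [Module F V] [Finite V] :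
    Finite (SpecialLinearGroup F V) :=
  Finite.of_injective (fun g : SpecialLinearGroup F V => (g : V ≃ₗ[F] V)) fun _ _ h =>
    Subtype.ext h

section levi

variable {F A B : Type} [Field F] [Finite F] [AddCommGroup A] [Module F A] [Finite A]
  [AddCommGroup B] [Module F B] [Finite B]

variable (F A B) in
/-- The Levi subgroup: pairs `(g, h)` with `det g * det h = 1`. -/
def Lev : Subgroup ((A ≃ₗ[F] A) × (B ≃ₗ[F] B)) where
  carrier := {l | LinearEquiv.det l.1 * LinearEquiv.det l.2 = 1}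
  mul_mem' := by
    intro a b ha hb
    show LinearEquiv.det (a.1 * b.1) * LinearEquiv.det (a.2 * b.2) = 1
    rw [map_mul, map_mul, mul_mul_mul_comm, ha, hb, one_mul]
  one_mem' := by
    show LinearEquiv.det (1 : A ≃ₗ[F] A) * LinearEquiv.det (1 : B ≃ₗ[F] B) = 1
    rw [map_one, map_one, one_mul]
  inv_mem' := by
    intro a ha
    show LinearEquiv.det (a.1⁻¹) * LinearEquiv.det (a.2⁻¹) = 1
    rw [map_inv, map_inv, ← mul_inv, ha, inv_one]

/-- The block diagonal matrices. -/
def dg : Lev F A B →* SpecialLinearGroup F (A × B) where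
  toFun l := ⟨LinearEquiv.prodCongr l.1.1 l.1.2, by
    apply Units.ext
    rw [LinearEquiv.coe_det]
    have h1 : ((LinearEquiv.prodCongr l.1.1 l.1.2 : (A × B) ≃ₗ[F] (A × B)) :
        (A × B) →ₗ[F] (A × B)) = LinearMap.prodMap (l.1.1 : A →ₗ[F] A) (l.1.2 : B →ₗ[F] B) := rfl
    rw [h1, LinearMap.det_prodMap, ← LinearEquiv.coe_det, ← LinearEquiv.coe_det]
    have h2 : LinearEquiv.det l.1.1 * LinearEquiv.det l.1.2 = 1 := l.2
    rw [← Units.val_mul, h2]⟩
  map_one' := rfl
  map_mul' _ _ := rfl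

lemma dg_apply (l : Lev F A B) (v : A × B) : dg l v = (l.1.1 v.1, l.1.2 v.2) := rfl

/-- The map `(a, b) ↦ (a + X b, b)`. -/
def shear (X : B →ₗ[F] A) : (A × B) ≃ₗ[F] (A × B) where
  toFun v := (v.1 + X v.2, v.2)
  invFun v := (v.1 - X v.2, v.2)
  map_add' v w := by
    ext
    · simp only [Prod.fst_add, Prod.snd_add, map_add]; abel
    · rfl
  map_smul' c v := by
    ext
    · simp
    · rfl
  left_inv v := by simp
  right_inv v := by simp

lemma shear_mul (X Y : B →ₗ[F] A) : shear X * shear Y = shear (X + Y) := by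
  ext v
  · show v.1 + Y v.2 + X v.2 = v.1 + (X v.2 + Y v.2)
    abel
  · rfl

lemma shear_zero : shear (0 : B →ₗ[F] A) = 1 := by
  ext v
  · show v.1 + (0 : B →ₗ[F] A) v.2 = v.1
    simp
  · rfl

lemma det_shear (X : B →ₗ[F] A) : LinearEquiv.det (shear X) = 1 := by
  obtain ⟨p, hp⟩ := CharP.exists F
  have hpp : p.Prime := CharP.char_is_prime F p
  have h1 : ∀ n : ℕ, shear X ^ n = shear (n • X) := by
    intro n
    induction n with
    | zero => rw [pow_zero, zero_smul, shear_zero]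
    | succ n ih => rw [pow_succ, ih, shear_mul, succ_nsmul]
  have h2 : shear X ^ p = 1 := by
    rw [h1, ← shear_zero]
    congr 1
    have : (p : F) • X = 0 := by rw [CharP.cast_eq_zero, zero_smul]
    rwa [Nat.cast_smul_eq_nsmul] at this
  have h3 : (LinearEquiv.det (shear X)) ^ p = 1 := by rw [← map_pow, h2, map_one]
  have : Fact p.Prime := ⟨hpp⟩
  apply Units.ext
  have h4 : ((LinearEquiv.det (shear X) : Fˣ) : F) ^ p = 1 := by
    rw [← Units.val_pow_eq_pow_val, h3, Units.val_one]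
  have h5 : (((LinearEquiv.det (shear X) : Fˣ) : F) - 1) ^ p = 0 := by
    rw [sub_pow_char, h4, one_pow, sub_self]
  exact sub_eq_zero.1 (pow_eq_zero_iff hpp.ne_zero |>.1 h5)

/-- The block unipotent matrices. -/
def uu : Multiplicative (B →ₗ[F] A) →* SpecialLinearGroup F (A × B) where
  toFun X := ⟨shear (Multiplicative.toAdd X), det_shear _⟩
  map_one' := Subtype.ext shear_zero
  map_mul' X Y := Subtype.ext (shear_mul _ _).symm

/-- `uu` as a function of linear maps. -/
def u1 (X : B →ₗ[F] A) : SpecialLinearGroup F (A × B) := uu (Multiplicative.ofAdd X)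

lemma u1_apply (X : B →ₗ[F] A) (v : A × B) : u1 X v = (v.1 + X v.2, v.2) := rfl

lemma u1_zero : u1 (0 : B →ₗ[F] A) = 1 := Subtype.ext shear_zero

lemma u1_add (X Y : B →ₗ[F] A) : u1 (X + Y) = u1 X * u1 Y := Subtype.ext (shear_mul X Y).symm

/-- The action of the Levi subgroup on the linear maps. -/
def act (l : Lev F A B) (X : B →ₗ[F] A) : B →ₗ[F] A :=
  (l.1.1 : A →ₗ[F] A) ∘ₗ X ∘ₗ (l.1.2.symm : B →ₗ[F] B)

lemma act_apply (l : Lev F A B) (X : B →ₗ[F] A) (b : B) :
    act l X b = l.1.1 (X (l.1.2.symm b)) := rfl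

lemma dg_mul_u1 (l : Lev F A B) (X : B →ₗ[F] A) : dg l * u1 X = u1 (act l X) * dg l := by
  ext v
  · show l.1.1 (v.1 + X v.2) = l.1.1 v.1 + l.1.1 (X (l.1.2.symm (l.1.2 v.2)))
    rw [LinearEquiv.symm_apply_apply, map_add]
  · rfl

lemma dg_conj_u1 (l : Lev F A B) (X : B →ₗ[F] A) : dg l * u1 X * (dg l)⁻¹ = u1 (act l X) := by
  rw [dg_mul_u1, mul_inv_cancel_right]

/-- The average over the cosets of the unipotent radical, as a function on the Levi subgroup. -/
noncomputable def Psi (θ : SpecialLinearGroup F (A × B) → ℝ) : Lev F A B → ℝ :=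
  fun l => av (fun X : B →ₗ[F] A => θ (dg l * u1 X))

/-- The defect of the unipotent radical. -/
noncomputable def NU (θ : SpecialLinearGroup F (A × B) → ℝ) : ℝ := θ 1 - Psi θ 1

/-- The standard additive character of `F`. -/
noncomputable def ps (F : Type) [Field F] [Finite F] : AddChar F ℂ :=
  AddChar.FiniteField.primitiveChar_to_Complex F

lemma ps_prim : (ps F).IsPrimitive := AddChar.FiniteField.primitiveChar_to_Complex_isPrimitive F

/-- The characters of the space of linear maps. -/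
noncomputable def ch (M : A →ₗ[F] B) : AddChar (B →ₗ[F] A) ℂ where
  toFun X := ps F (LinearMap.trace F B (M ∘ₗ X))
  map_zero_eq_one' := by rw [LinearMap.comp_zero, map_zero, AddChar.map_zero_eq_one]
  map_add_eq_mul' X Y := by rw [LinearMap.comp_add, map_add, AddChar.map_add_eq_mul]

lemma ch_apply (M : A →ₗ[F] B) (X : B →ₗ[F] A) :
    ch M X = ps F (LinearMap.trace F B (M ∘ₗ X)) := rfl

/-- The Fourier coefficients along the unipotent radical (real parts). -/
noncomputable def phi (θ : SpecialLinearGroup F (A × B) → ℝ) (M : A →ₗ[F] B) (l : Lev F A B) : ℝ :=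
  av (fun X : B →ₗ[F] A => θ (dg l * u1 X) * (ch M X).re)

end levi

end Pool.Agent.Helper70.GLn
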