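import Pool.Agent.Helper70.GLn.Defs

/-!
# GL-PS: the function `Psi` on the Levi subgroup (100-180 lines)

PROOF. Every element of `P = {dg l * u1 X}` is so in a unique way; `(dg l * u1 X) * (dg l' * u1 X') = dg (l l') * u1 (..)`
(`dg_mul_u1`, `u1_add`), so `P` is a subgroup and `π : P → Lev`, `dg l * u1 X ↦ l`, is a surjective homomorphism (or use the
semidirect product `Multiplicative (B →ₗ[F] A) ⋊ Lev` with its homomorphism to `SpecialLinearGroup F (A × B)`). `HP.comp`, `HP.push`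
(Helper13/Ded/Quot): `push π (θ|P) l = ∑_X θ (dg l * u1 X) = |B →ₗ A| * Psi θ l`; an `HP` function divided by a positive number is
`HP`. (Direct proof of `psi_hp` is also possible: for `K ≤ Lev` and `ψ` use the subgroup `KU K` and `pull`.)
`range_uu`: `u1 X v - v = (X v.2, 0)`; conversely `g ∈ EE` gives `g (a, b) = (a, b) + (g (0, b) - (0, b))`, so `g = u1 X` with
`X b = (g (0, b)).1`. `nn_range_uu`: `uu` is a bijection of `B →ₗ A` onto its range.
`nn_KU`: `(l, X) ↦ dg l * u1 X` is a bijection of `K × (B →ₗ A)` onto `KU K`, so `av_{KU K} θ = av_K (Psi θ)`.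
`psi_one_nonneg`: `LHP.pos` for `uu.range` and `ψ = 1`.
-/

set_option autoImplicit false

open Module Pool.Agent.Helper13.Ded

namespace Pool.Agent.Helper70.GLn

variable {F A B : Type} [Field F] [Finite F] [AddCommGroup A] [Module F A] [Finite A]
  [AddCommGroup B] [Module F B] [Finite B] {θ : SpecialLinearGroup F (A × B) → ℝ}

/-- The preimage of a subgroup of the Levi subgroup. -/
def KU (K : Subgroup (Lev F A B)) : Subgroup (SpecialLinearGroup F (A × B)) where
  carrier := {g | ∃ l ∈ K, ∃ X : B →ₗ[F] A, g = dg l * u1 X}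
  mul_mem' := by
    rintro _ _ ⟨l, hl, X, rfl⟩ ⟨l', hl', X', rfl⟩
    refine ⟨l * l', K.mul_mem hl hl', act l'⁻¹ X + X', ?_⟩
    rw [u1_add, map_mul]
    have h1 := dg_mul_u1 l'⁻¹ X
    rw [map_inv] at h1
    calc dg l * u1 X * (dg l' * u1 X') = dg l * dg l' * ((dg l')⁻¹ * u1 X * dg l') * u1 X' := by group
      _ = dg l * dg l' * (u1 (act l'⁻¹ X)) * u1 X' := by rw [h1]; group
      _ = _ := by group
  one_mem' := ⟨1, K.one_mem, 0, by rw [map_one, u1_zero, one_mul]⟩
  inv_mem' := by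
    rintro _ ⟨l, hl, X, rfl⟩
    refine ⟨l⁻¹, K.inv_mem hl, act l (-X), ?_⟩
    have h1 : (u1 X)⁻¹ = u1 (-X) := by
      rw [inv_eq_iff_mul_eq_one, ← u1_add, add_neg_cancel, u1_zero]
    have h2 := dg_mul_u1 l (-X)
    rw [mul_inv_rev, h1, map_inv]
    calc u1 (-X) * (dg l)⁻¹ = (dg l)⁻¹ * (dg l * u1 (-X)) * (dg l)⁻¹ := by group
      _ = (dg l)⁻¹ * u1 (act l (-X)) := by rw [h2]; group

private instance finLin_h40 : Finite (B →ₗ[F] A) :=
  Finite.of_injective (fun g : B →ₗ[F] A => (g : B → A)) DFunLike.coe_injective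

private instance finSL_h40 : Finite (SpecialLinearGroup F (A × B)) :=
  Finite.of_injective (fun g : SpecialLinearGroup F (A × B) => (fun v => g v))
    (fun g h hgh => SpecialLinearGroup.ext g h (congrFun hgh))

private instance finLev_h40 : Finite (Lev F A B) := by
  have fA : Finite (A ≃ₗ[F] A) := Finite.of_injective (fun g : A ≃ₗ[F] A => (g : A → A))
    DFunLike.coe_injective
  have fB : Finite (B ≃ₗ[F] B) := Finite.of_injective (fun g : B ≃ₗ[F] B => (g : B → B))
    DFunLike.coe_injective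
  infer_instance

private lemma dgu_apply_h40 (l : Lev F A B) (X : B →ₗ[F] A) (v : A × B) :
    (dg l * u1 X) v = (l.1.1 (v.1 + X v.2), l.1.2 v.2) := rfl

private lemma dgu_inj_h40 {l l' : Lev F A B} {X X' : B →ₗ[F] A}
    (h : dg l * u1 X = dg l' * u1 X') : l = l' ∧ X = X' := by
  have h0 : ∀ v : A × B, (l.1.1 (v.1 + X v.2), l.1.2 v.2) = (l'.1.1 (v.1 + X' v.2), l'.1.2 v.2) := by
    intro v
    rw [← dgu_apply_h40, ← dgu_apply_h40, h]
  have h1 : l.1.1 = l'.1.1 := by
    ext a
    have := congrArg Prod.fst (h0 (a, 0))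
    simpa using this
  have h2 : l.1.2 = l'.1.2 := by
    ext b
    exact congrArg Prod.snd (h0 (0, b))
  refine ⟨Subtype.ext (Prod.ext h1 h2), ?_⟩
  ext b
  have h3 := congrArg Prod.fst (h0 (0, b))
  simp only [zero_add] at h3
  rw [h1] at h3
  exact l'.1.1.injective h3

private noncomputable def piL_h40 : KU (⊤ : Subgroup (Lev F A B)) →* Lev F A B where
  toFun g := g.2.choose
  map_one' := by
    have h1 := (1 : KU (⊤ : Subgroup (Lev F A B))).2.choose_spec
    obtain ⟨-, X, hX⟩ := h1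
    have h2 : dg (1 : Lev F A B) * u1 (0 : B →ₗ[F] A) =
        dg (1 : KU (⊤ : Subgroup (Lev F A B))).2.choose * u1 X := by
      rw [← hX, map_one, u1_zero, one_mul]
      rfl
    exact (dgu_inj_h40 h2).1.symm
  map_mul' g g' := by
    obtain ⟨-, X, hX⟩ := g.2.choose_spec
    obtain ⟨-, X', hX'⟩ := g'.2.choose_spec
    obtain ⟨-, X'', hX''⟩ := (g * g').2.choose_spec
    have h1 := dg_mul_u1 (g'.2.choose)⁻¹ X
    rw [map_inv] at h1
    have h2 : dg (g.2.choose * g'.2.choose) * u1 (act (g'.2.choose)⁻¹ X + X') =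
        dg (g * g').2.choose * u1 X'' := by
      rw [← hX'']
      have h3 : ((g * g' : KU (⊤ : Subgroup (Lev F A B))) : SpecialLinearGroup F (A × B)) =
          (g : SpecialLinearGroup F (A × B)) * g' := rfl
      rw [h3]
      conv_rhs => rw [hX, hX']
      rw [u1_add, map_mul]
      calc dg g.2.choose * dg g'.2.choose * (u1 (act (g'.2.choose)⁻¹ X) * u1 X')
          = dg g.2.choose * dg g'.2.choose * (u1 (act (g'.2.choose)⁻¹ X) * (dg g'.2.choose)⁻¹ *
            dg g'.2.choose) * u1 X' := by group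
        _ = dg g.2.choose * dg g'.2.choose * ((dg g'.2.choose)⁻¹ * u1 X *
            dg g'.2.choose) * u1 X' := by rw [← h1]
        _ = _ := by group
    exact (dgu_inj_h40 h2).1.symm

private lemma piL_apply_h40 (l : Lev F A B) (X : B →ₗ[F] A)
    (h : dg l * u1 X ∈ KU (⊤ : Subgroup (Lev F A B))) : piL_h40 ⟨dg l * u1 X, h⟩ = l := by
  obtain ⟨-, X', hX'⟩ := h.choose_spec
  exact (dgu_inj_h40 hX').1.symm

private lemma HP_div_h40 {G : Type*} [Group G] [Finite G] {f : G → ℝ} (h : HP f) {c : ℝ}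
    (hc : 0 ≤ c) : HP (fun g => f g / c) where
  conj g k := by rw [h.conj]
  inv g := by rw [h.inv]
  pos K ψ hψ := by
    classical
    have := Fintype.ofFinite G
    have h1 := h.pos K ψ hψ
    rw [finsum_eq_sum_of_fintype] at h1 ⊢
    have h2 : ∑ k : K, ((f k / c : ℝ) : ℂ) * ((ψ k : ℂˣ) : ℂ) =
        ((c⁻¹ : ℝ) : ℂ) * ∑ k : K, (f k : ℂ) * ((ψ k : ℂˣ) : ℂ) := by
      rw [Finset.mul_sum]
      refine Finset.sum_congr rfl fun k _ => ?_
      push_cast
      ring
    rw [h2, Complex.re_ofReal_mul]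
    exact mul_nonneg (inv_nonneg.2 hc) h1

theorem psi_hp (h : HP θ) : HP (Psi θ) := by
  classical
  have h1 := (h.comp (KU (⊤ : Subgroup (Lev F A B))).subtype).push piL_h40 (by
    intro l
    have hm : dg l * u1 (0 : B →ₗ[F] A) ∈ KU (⊤ : Subgroup (Lev F A B)) :=
      ⟨l, trivial, 0, rfl⟩
    exact ⟨⟨_, hm⟩, piL_apply_h40 l 0 hm⟩)
  have h2 := HP_div_h40 h1 (c := (Nat.card (B →ₗ[F] A) : ℝ)) (Nat.cast_nonneg _)
  have h3 : (fun l => push piL_h40 (fun p : KU (⊤ : Subgroup (Lev F A B)) =>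
      θ ((KU (⊤ : Subgroup (Lev F A B))).subtype p)) l / (Nat.card (B →ₗ[F] A) : ℝ)) = Psi θ := by
    funext l
    unfold Psi av push
    congr 1
    have hm : ∀ X : B →ₗ[F] A, dg l * u1 X ∈ KU (⊤ : Subgroup (Lev F A B)) := fun X =>
      ⟨l, trivial, X, rfl⟩
    let e : (B →ₗ[F] A) ≃ {x : KU (⊤ : Subgroup (Lev F A B)) // piL_h40 x = l} :=
      Equiv.ofBijective (fun X => ⟨⟨dg l * u1 X, hm X⟩, piL_apply_h40 l X (hm X)⟩) (by
        constructor
        · intro X Y hXY
          have h4 := congrArg (fun z => ((z.1 : KU (⊤ : Subgroup (Lev F A B))) :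
            SpecialLinearGroup F (A × B))) hXY
          exact (dgu_inj_h40 h4).2
        · rintro ⟨⟨g, hg⟩, hgl⟩
          obtain ⟨l', -, X, rfl⟩ := hg
          rw [piL_apply_h40] at hgl
          subst hgl
          exact ⟨X, rfl⟩)
    rw [← finsum_comp_equiv e]
    rfl
  rwa [h3] at h2

/-- `A × 0` as a subspace of `A × B`. -/
def A0 (F A B : Type) [Field F] [AddCommGroup A] [Module F A] [AddCommGroup B] [Module F B] :
    Submodule F (A × B) := Submodule.prod ⊤ ⊥

theorem range_uu : (uu (F := F) (A := A) (B := B)).range = EE (A0 F A B) (A0 F A B) := by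
  ext g
  rw [mem_EE]
  constructor
  · rintro ⟨X, rfl⟩
    have h1 : ∀ v : A × B, (uu X) v = (v.1 + (Multiplicative.toAdd X) v.2, v.2) := fun v => rfl
    refine ⟨fun v => ?_, fun v hv => ?_⟩
    · rw [h1]
      refine Submodule.mem_prod.2 ⟨trivial, ?_⟩
      rw [Prod.snd_sub, sub_self]
      exact Submodule.zero_mem _
    · rw [h1]
      have h2 : v.2 = 0 := (Submodule.mem_prod.1 hv).2
      rw [h2, map_zero, add_zero]
      exact Prod.ext rfl h2.symm
  · rintro ⟨h1, h2⟩
    have hg2 : ∀ b : B, (g (0, b)).2 = b := by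
      intro b
      have h3 := (Submodule.mem_prod.1 (h1 (0, b))).2
      rw [Prod.snd_sub] at h3
      exact sub_eq_zero.1 ((Submodule.mem_bot F).1 h3)
    let X : B →ₗ[F] A := (LinearMap.fst F A B).comp
      (((g : (A × B) ≃ₗ[F] (A × B)) : (A × B) →ₗ[F] (A × B)).comp (LinearMap.inr F A B))
    have hX : ∀ b, X b = (g (0, b)).1 := fun b => rfl
    refine ⟨Multiplicative.ofAdd X, ?_⟩
    ext v
    · change v.1 + X v.2 = (g v).1
      have h3 : g v = g (v.1, 0) + g (0, v.2) := by
        have h4 : v = (v.1, (0 : B)) + ((0 : A), v.2) := by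
          ext <;> simp
        conv_lhs => rw [h4]
        exact map_add (g : (A × B) ≃ₗ[F] (A × B)) _ _
      rw [h3, h2 (v.1, 0) (Submodule.mem_prod.2 ⟨trivial, Submodule.zero_mem _⟩), Prod.fst_add, hX]
    · change v.2 = (g v).2
      have h3 : g v = g (v.1, 0) + g (0, v.2) := by
        have h4 : v = (v.1, (0 : B)) + ((0 : A), v.2) := by
          ext <;> simp
        conv_lhs => rw [h4]
        exact map_add (g : (A × B) ≃ₗ[F] (A × B)) _ _
      rw [h3, h2 (v.1, 0) (Submodule.mem_prod.2 ⟨trivial, Submodule.zero_mem _⟩), Prod.snd_add,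
        hg2, zero_add]

private lemma av_range_h40 : av (fun k : (uu (F := F) (A := A) (B := B)).range => θ k) =
    Psi θ 1 := by
  have hinj : Function.Injective (uu (F := F) (A := A) (B := B)) := by
    intro X Y hXY
    have h1 : dg (1 : Lev F A B) * u1 (Multiplicative.toAdd X) =
        dg (1 : Lev F A B) * u1 (Multiplicative.toAdd Y) :=
      congrArg (fun z => dg (1 : Lev F A B) * z) hXY
    exact (dgu_inj_h40 h1).2
  have h1 := av_comp_equiv (Multiplicative.ofAdd.trans (MonoidHom.ofInjective hinj).toEquiv)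
    (fun k : (uu (F := F) (A := A) (B := B)).range => θ k)
  rw [← h1]
  unfold Psi
  congr 1

theorem nn_range_uu : nn θ (uu (F := F) (A := A) (B := B)).range = NU θ := by
  unfold nn NU
  rw [av_range_h40]

private lemma av_prod_h40 {P Q : Type*} [Finite P] [Finite Q] (f : P → Q → ℝ) :
    av (fun z : P × Q => f z.1 z.2) = av (fun p => av (fun q => f p q)) := by
  classical
  have := Fintype.ofFinite P
  have := Fintype.ofFinite Q
  unfold av
  simp only [finsum_eq_sum_of_fintype]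
  rw [Fintype.sum_prod_type, Nat.card_prod, ← Finset.sum_div]
  push_cast
  rw [div_div, mul_comm]

theorem nn_KU (K : Subgroup (Lev F A B)) : nn θ (KU K) = NU θ + nn (Psi θ) K := by
  have h1 : av (fun k : KU K => θ k) = av (fun k : K => Psi θ k) := by
    have hm : ∀ z : K × (B →ₗ[F] A), dg (z.1 : Lev F A B) * u1 z.2 ∈ KU K := fun z =>
      ⟨z.1, z.1.2, z.2, rfl⟩
    let e : (K × (B →ₗ[F] A)) ≃ KU K :=
      Equiv.ofBijective (fun z => ⟨dg (z.1 : Lev F A B) * u1 z.2, hm z⟩) (by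
        constructor
        · rintro ⟨l, X⟩ ⟨l', X'⟩ h
          have h4 := dgu_inj_h40 (congrArg Subtype.val h)
          exact Prod.ext (Subtype.ext h4.1) h4.2
        · rintro ⟨g, hg⟩
          obtain ⟨l, hl, X, rfl⟩ := hg
          exact ⟨(⟨l, hl⟩, X), rfl⟩)
    rw [← av_comp_equiv e]
    exact av_prod_h40 (fun (l : K) (X : B →ₗ[F] A) => θ (dg (l : Lev F A B) * u1 X))
  unfold nn NU
  rw [h1]
  ring

theorem psi_one_nonneg (h : LHP θ) : 0 ≤ Psi θ 1 := by
  classical
  have := Fintype.ofFinite (uu (F := F) (A := A) (B := B)).range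
  rw [← av_range_h40]
  have h1 := h.pos (uu (F := F) (A := A) (B := B)).range 1
  rw [finsum_eq_sum_of_fintype] at h1
  unfold av
  rw [finsum_eq_sum_of_fintype]
  refine div_nonneg ?_ (Nat.cast_nonneg _)
  have h2 : ∑ k : (uu (F := F) (A := A) (B := B)).range, (θ k : ℂ) *
      (((1 : (uu (F := F) (A := A) (B := B)).range →* ℂˣ) k : ℂˣ) : ℂ) =
      ((∑ k : (uu (F := F) (A := A) (B := B)).range, θ k : ℝ) : ℂ) := by
    push_cast
    refine Finset.sum_congr rfl fun k _ => ?_
    rw [MonoidHom.one_apply, Units.val_one, mul_one]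
  rw [h2, Complex.ofReal_re] at h1
  exact h1

theorem NU_nonneg (h : HP θ) : 0 ≤ NU θ := by
  classical
  unfold NU Psi av
  have := Fintype.ofFinite (B →ₗ[F] A)
  rw [finsum_eq_sum_of_fintype, sub_nonneg, div_le_iff₀ (by exact_mod_cast Nat.card_pos)]
  calc ∑ X : B →ₗ[F] A, θ (dg 1 * u1 X) ≤ ∑ _X : B →ₗ[F] A, θ 1 :=
        Finset.sum_le_sum fun X _ => h.le_one _
    _ = θ 1 * Nat.card (B →ₗ[F] A) := by
        rw [Finset.sum_const, nsmul_eq_mul, Finset.card_univ, Nat.card_eq_fintype_card, mul_comm]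

end Pool.Agent.Helper70.GLn
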