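import Pool.Agent.Helper70.GLn.RK
import Pool.Agent.Helper70.GLn.PS

/-!
# GL-EM: the groups `EE W₁ W₂` inside `V` (120-180 lines)

PROOF. `exists_embed`: choose a complement `C` of `W₁` in `W₂` and a complement `D` of `W₂` in `V`; `V ≃ (W₁ × D) × C` and
`D ≃ V ⧸ W₂` (`Submodule.quotientEquivOfIsCompl`), so `V ≃ₗ[F] (W₁ × (V ⧸ W₂)) × C` =: `e`, with `e v = ((w, mkQ v), c)`; `j g` is
`e.symm ∘ (g × id) ∘ e`; its determinant is `1` (`LinearMap.det_prodMap`, `LinearEquiv.det_conj`, compare `dg` and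
`SpecialLinearGroup.congr_linearEquiv`). `j (u1 X)` adds `X (mkQ v)` to the `W₁`-component.
`X ↦ j (u1 X)` is a bijection of `(V ⧸ W₂) →ₗ[F] W₁` onto `EE W₁ W₂`: for `g ∈ EE W₁ W₂` the map `v ↦ g v - v` has values in `W₁` and
vanishes on `W₂`, so it factors through `V ⧸ W₂` (`Submodule.liftQ`). So `NU (θ ∘ j) = nn θ (EE W₁ W₂)`; `θ ∘ j` is `HP`
(`HP.comp`); the range of `X` and of `g - 1` have the same dimension. Apply `rk_up`, `rk_lo` with `A = W₁`, `B = V ⧸ W₂`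
(`finrank (V ⧸ W₂) = finrank V - finrank W₂`).
-/

set_option autoImplicit false

open Module Pool.Agent.Helper13.Ded

namespace Pool.Agent.Helper70.GLn

variable {F V : Type} [Field F] [Finite F] [AddCommGroup V] [Module F V] [Finite V]
  {θ : SpecialLinearGroup F V → ℝ}

omit [Finite F] [Finite V] in
private lemma em_split60 (W₁ W₂ : Submodule F V) (hW : W₁ ≤ W₂) :
    ∃ (r : V →ₗ[F] W₁) (s : (V ⧸ W₂) →ₗ[F] V), (∀ w : W₁, r w = w) ∧ (∀ q, W₂.mkQ (s q) = q) ∧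
      (∀ q, r (s q) = 0) := by
  obtain ⟨r, hr⟩ := W₁.subtype.exists_leftInverse_of_injective (by simp)
  obtain ⟨s, hs⟩ := W₂.mkQ.exists_rightInverse_of_surjective (by simp)
  have hr' : ∀ w : W₁, r w = w := fun w => LinearMap.congr_fun hr w
  have hs' : ∀ q, W₂.mkQ (s q) = q := fun q => LinearMap.congr_fun hs q
  refine ⟨r, s - W₁.subtype ∘ₗ r ∘ₗ s, hr', fun q => ?_, fun q => ?_⟩
  · have h0 : W₂.mkQ ((r (s q) : W₁) : V) = 0 := by
      rw [Submodule.mkQ_apply, Submodule.Quotient.mk_eq_zero]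
      exact hW (r (s q)).2
    rw [LinearMap.sub_apply, map_sub, hs']
    show q - W₂.mkQ ((r (s q) : W₁) : V) = q
    rw [h0, sub_zero]
  · rw [LinearMap.sub_apply, map_sub]
    show r (s q) - r ((r (s q) : W₁) : V) = 0
    rw [hr', sub_self]

theorem exists_embed (W₁ W₂ : Submodule F V) (hW : W₁ ≤ W₂) :
    ∃ j : SpecialLinearGroup F (W₁ × (V ⧸ W₂)) →* SpecialLinearGroup F V,
      ∀ (X : (V ⧸ W₂) →ₗ[F] W₁) (v : V), j (u1 X) v = v + (X (W₂.mkQ v) : V) := by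
  obtain ⟨r, s, hr, hs, hrs⟩ := em_split60 W₁ W₂ hW
  let pi' : V →ₗ[F] W₁ × (V ⧸ W₂) := r.prod W₂.mkQ
  let ii : W₁ × (V ⧸ W₂) →ₗ[F] V := W₁.subtype.coprod s
  have hpi : ∀ x, pi' (ii x) = x := by
    rintro ⟨w, q⟩
    have h0 : W₂.mkQ (w : V) = 0 := by
      rw [Submodule.mkQ_apply, Submodule.Quotient.mk_eq_zero]
      exact hW w.2
    show (r ((w : V) + s q), W₂.mkQ ((w : V) + s q)) = (w, q)
    rw [map_add, map_add, hr, hrs, hs, h0, add_zero, zero_add]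
  let C : Submodule F V := LinearMap.ker pi'
  let e : V ≃ₗ[F] (W₁ × (V ⧸ W₂)) × C :=
    { toFun := fun v => (pi' v, ⟨v - ii (pi' v), by
        rw [LinearMap.mem_ker, map_sub, hpi, sub_self]⟩)
      invFun := fun y => ii y.1 + y.2
      map_add' := fun v w => by
        refine Prod.ext (map_add _ _ _) (Subtype.ext ?_)
        show v + w - ii (pi' (v + w)) = (v - ii (pi' v)) + (w - ii (pi' w))
        rw [map_add, map_add]
        abel
      map_smul' := fun c v => by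
        refine Prod.ext (map_smul _ _ _) (Subtype.ext ?_)
        show c • v - ii (pi' (c • v)) = c • (v - ii (pi' v))
        rw [map_smul, map_smul, smul_sub]
      left_inv := fun v => by
        show ii (pi' v) + (v - ii (pi' v)) = v
        abel
      right_inv := fun y => by
        have h1 : pi' (y.2 : V) = 0 := y.2.2
        have h2 : pi' (ii y.1 + y.2) = y.1 := by rw [map_add, hpi, h1, add_zero]
        refine Prod.ext h2 (Subtype.ext ?_)
        show ii y.1 + y.2 - ii (pi' (ii y.1 + y.2)) = y.2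
        rw [h2]
        abel }
  let l : SpecialLinearGroup F (W₁ × (V ⧸ W₂)) →* Lev F (W₁ × (V ⧸ W₂)) C :=
    { toFun := fun g => ⟨((g : (W₁ × (V ⧸ W₂)) ≃ₗ[F] (W₁ × (V ⧸ W₂))), 1), by
        show LinearEquiv.det (g : (W₁ × (V ⧸ W₂)) ≃ₗ[F] (W₁ × (V ⧸ W₂))) * LinearEquiv.det 1 = 1
        rw [map_one, mul_one]
        exact g.2⟩
      map_one' := rfl
      map_mul' := fun g h => rfl }
  refine ⟨((SpecialLinearGroup.congr_linearEquiv e.symm).toMonoidHom.comp dg).comp l, ?_⟩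
  intro X v
  show ii (u1 X (pi' v)) + (v - ii (pi' v)) = v + (X (W₂.mkQ v) : V)
  rw [u1_apply]
  show ((r v + X (W₂.mkQ v) : W₁) : V) + s (W₂.mkQ v) + (v - ((r v : V) + s (W₂.mkQ v))) = _
  rw [Submodule.coe_add]
  abel

theorem ee_comm {W₁ W₂ : Submodule F V} (hW : W₁ ≤ W₂) :
    ∀ a ∈ EE W₁ W₂, ∀ b ∈ EE W₁ W₂, a * b = b * a := by
  have h : ∀ a ∈ EE W₁ W₂, ∀ b ∈ EE W₁ W₂, ∀ v, a (b v) = b v + (a v - v) := by
    intro a ha b hb v
    have h1 : a (b v - v) = b v - v := ha.2 _ (hW (hb.1 v))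
    have h2 : a (b v) = a (b v - v) + a v := by
      have h3 : a ((b v - v) + v) = a (b v - v) + a v := map_add (a : V ≃ₗ[F] V) _ _
      rwa [sub_add_cancel] at h3
    rw [h2, h1]
    abel
  intro a ha b hb
  ext v
  show a (b v) = b (a v)
  rw [h a ha b hb, h b hb a ha]
  abel

private lemma em_fin60 {U W : Type} [AddCommGroup U] [Module F U] [Finite U] [AddCommGroup W]
    [Module F W] [Finite W] : Finite (U →ₗ[F] W) := Finite.of_injective _ DFunLike.coe_injective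

private lemma em_finG60 {U : Type} [AddCommGroup U] [Module F U] [Finite U] :
    Finite (SpecialLinearGroup F U) :=
  Finite.of_injective (fun g v => g v) (fun g h hgh => by
    ext v
    exact congrFun hgh v)

/-- the summary -/
private lemma em_main60 (h : HP θ) {W₁ W₂ : Submodule F V} (hW : W₁ ≤ W₂) :
    ∃ θ' : SpecialLinearGroup F (W₁ × (V ⧸ W₂)) → ℝ, HP θ' ∧ NU θ' = nn θ (EE W₁ W₂) ∧
      ∀ g ∈ EE W₁ W₂, ∃ X : (V ⧸ W₂) →ₗ[F] W₁, θ' 1 - θ' (u1 X) = θ 1 - θ g ∧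
        finrank F (LinearMap.range X) =
          finrank F (LinearMap.range (((g : V ≃ₗ[F] V) : V →ₗ[F] V) - LinearMap.id)) := by
  obtain ⟨j, hj⟩ := exists_embed W₁ W₂ hW
  have : Finite (SpecialLinearGroup F (W₁ × (V ⧸ W₂))) := em_finG60
  have : Finite ((V ⧸ W₂) →ₗ[F] W₁) := em_fin60
  have hsurj : ∀ g ∈ EE W₁ W₂, ∃ X : (V ⧸ W₂) →ₗ[F] W₁, j (u1 X) = g ∧
      ∀ v, (X (W₂.mkQ v) : V) = g v - v := by
    intro g hg
    let f : V →ₗ[F] W₁ := LinearMap.codRestrict W₁ (((g : V ≃ₗ[F] V) : V →ₗ[F] V) - LinearMap.id)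
      (fun v => hg.1 v)
    let X : (V ⧸ W₂) →ₗ[F] W₁ := W₂.liftQ f (by
      intro v hv
      rw [LinearMap.mem_ker]
      apply Subtype.ext
      show g v - v = 0
      rw [hg.2 v hv, sub_self])
    have hX : ∀ v, (X (W₂.mkQ v) : V) = g v - v := fun v => rfl
    refine ⟨X, ?_, hX⟩
    ext v
    rw [hj, hX]
    abel
  have hmem : ∀ X : (V ⧸ W₂) →ₗ[F] W₁, j (u1 X) ∈ EE W₁ W₂ := by
    intro X
    refine ⟨fun v => ?_, fun v hv => ?_⟩
    · rw [hj, add_sub_cancel_left]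
      exact (X (W₂.mkQ v)).2
    · have h0 : W₂.mkQ v = 0 := by
        rw [Submodule.mkQ_apply, Submodule.Quotient.mk_eq_zero]
        exact hv
      rw [hj, h0, map_zero, Submodule.coe_zero, add_zero]
  have hbij : Function.Bijective (fun X : (V ⧸ W₂) →ₗ[F] W₁ =>
      (⟨j (u1 X), hmem X⟩ : EE W₁ W₂)) := by
    constructor
    · intro X Y hXY
      have h1 : j (u1 X) = j (u1 Y) := congrArg Subtype.val hXY
      apply LinearMap.ext
      intro q
      obtain ⟨v, rfl⟩ := W₂.mkQ_surjective q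
      have h2 : j (u1 X) v = j (u1 Y) v := by rw [h1]
      rw [hj, hj] at h2
      exact Subtype.ext (add_left_cancel h2)
    · rintro ⟨g, hg⟩
      obtain ⟨X, hX, -⟩ := hsurj g hg
      exact ⟨X, Subtype.ext hX⟩
  refine ⟨fun g => θ (j g), h.comp j, ?_, ?_⟩
  · unfold NU nn Psi
    simp only [map_one, one_mul]
    congr 1
    rw [← av_comp_equiv (Equiv.ofBijective _ hbij)]
    rfl
  · intro g hg
    obtain ⟨X, hX, hX2⟩ := hsurj g hg
    refine ⟨X, ?_, ?_⟩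
    · show θ (j 1) - θ (j (u1 X)) = θ 1 - θ g
      rw [map_one, hX]
    · rw [← Submodule.finrank_map_subtype_eq W₁ (LinearMap.range X)]
      have he : (LinearMap.range X).map W₁.subtype =
          LinearMap.range (((g : V ≃ₗ[F] V) : V →ₗ[F] V) - LinearMap.id) := ?_
      · rw [he]
      ext w
      rw [Submodule.mem_map, LinearMap.mem_range]
      constructor
      · rintro ⟨x, ⟨q, rfl⟩, rfl⟩
        obtain ⟨v, rfl⟩ := W₂.mkQ_surjective q
        exact ⟨v, (hX2 v).symm⟩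
      · rintro ⟨v, rfl⟩
        exact ⟨X (W₂.mkQ v), ⟨_, rfl⟩, hX2 v⟩

private lemma em_dim60 {W₁ W₂ : Submodule F V} (hW : Big 2 W₁ W₂) : 2 ≤ finrank F (V ⧸ W₂) := by
  have h1 := W₂.finrank_quotient_add_finrank
  have h2 := hW.2.2
  omega

theorem ee_up (h : HP θ) {W₁ W₂ : Submodule F V} (hW : Big 2 W₁ W₂) {g : SpecialLinearGroup F V}
    (hg : g ∈ EE W₁ W₂) :
    θ 1 - θ g ≤ (1 + 1 / (Nat.card F : ℝ) ^ (finrank F W₁ - 1)) * nn θ (EE W₁ W₂) := by
  obtain ⟨θ', h', hn, hex⟩ := em_main60 h hW.1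
  obtain ⟨X, hX, hr⟩ := hex g hg
  rw [← hX, ← hn]
  exact rk_up h' hW.2.1 (em_dim60 hW) X

theorem ee_lo (h : HP θ) {W₁ W₂ : Submodule F V} (hW : Big 2 W₁ W₂) {g : SpecialLinearGroup F V}
    (hg : g ∈ EE W₁ W₂) :
    (1 - 1 / (Nat.card F : ℝ) ^
        finrank F (LinearMap.range (((g : V ≃ₗ[F] V) : V →ₗ[F] V) - LinearMap.id)) -
      1 / (Nat.card F : ℝ) ^ (finrank F W₁ - 1)) * nn θ (EE W₁ W₂) ≤ θ 1 - θ g := by
  obtain ⟨θ', h', hn, hex⟩ := em_main60 h hW.1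
  obtain ⟨X, hX, hr⟩ := hex g hg
  rw [← hX, ← hn, ← hr]
  exact rk_lo h' hW.2.1 (em_dim60 hW) X

end Pool.Agent.Helper70.GLn
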