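import Pool.Agent.Helper70.GLn.GR2
import Pool.Agent.Helper70.GLn.EM

/-!
# GL-FL: chains of subspaces (120-180 lines)

PROOF. `nn_KF_le`: induction on `s` for all chains. `s = 0`: `KF c 0 = EE (c 0) (c 0)`. Step: `c' i = c (i + 1)`, `K = KF c (s+1)`,
`A = EE (c 0) (c 0)`, `B = KF c' s`. `A ≤ K`, `B ≤ K` (monotonicity); `A = {g ∈ K : g acts trivially on V / c 0}` and
`B = {g ∈ K : g = 1 on c 1}` are normal in `K` (`g` and `g⁻¹` preserve `c 0`, `c 1`). `K = A B`: for `g ∈ K` the map `v ↦ g v - v` on `c 1`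
has values in `c 0` and vanishes on `c 0`; extend it to a linear map `X : V → V` with range in `c 0` (`LinearMap.exists_extend`); `a = 1 + X`
(`exists_unip`; copy it here or import CM) is in `A`, `a = g` on `c 1`, and `a⁻¹ g ∈ B`. `A ⊓ B = EE (c 0) (c 1)`. `nn_sup` gives
`nn K ≤ nn A + nn B - nn (EE (c 0) (c 1))`; induction for `B`.
`KF_solvable`: every `g ∈ KF c s` satisfies `(g - 1)^(s+2) = 0`, hence `g ^ (p ^ k) = 1` for `p = char F`, `p ^ k ≥ s + 2`
(`add_pow_char_pow` for commuting endomorphisms, `sub_pow_char_pow_of_commute`), so `KF c s` is a `p`-group (`IsPGroup`), nilpotent and solvable.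
-/

set_option autoImplicit false

open Module Pool.Agent.Helper13.Ded

namespace Pool.Agent.Helper70.GLn

variable {F V : Type} [Field F] [Finite F] [AddCommGroup V] [Module F V] [Finite V]
  {θ : SpecialLinearGroup F V → ℝ}

omit [Finite F] in
private lemma finG_h2 : Finite (SpecialLinearGroup F V) :=
  Finite.of_injective (fun g v => g v) (fun g h hgh => by
    ext v
    exact congrFun hgh v)

omit [Finite F] in
private lemma KF_zero_h2 (c : ℕ → Submodule F V) : KF c 0 = EE (c 0) (c 0) := by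
  ext g
  rw [mem_KF, mem_EE]
  constructor
  · rintro ⟨h1, _, h3⟩
    exact ⟨h3, h1⟩
  · rintro ⟨h3, h1⟩
    exact ⟨h1, fun i hi => absurd hi (Nat.not_lt_zero i), h3⟩

omit [Finite F] in
private lemma A_le_h2 (c : ℕ → Submodule F V) (hc : Monotone c) (s : ℕ) :
    EE (c 0) (c 0) ≤ KF c (s + 1) := by
  intro g hg
  rw [mem_KF]
  refine ⟨hg.2, fun i _ v hv => ⟨hc (Nat.zero_le i) (hg.1 v), ?_⟩,
    fun v => hc (Nat.zero_le _) (hg.1 v)⟩
  have h1 := (c (i + 1)).add_mem (hc (Nat.zero_le _) (hg.1 v)) hv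
  rwa [sub_add_cancel] at h1

omit [Finite F] in
private lemma B_le_h2 (c : ℕ → Submodule F V) (hc : Monotone c) (s : ℕ) :
    KF (fun i => c (i + 1)) s ≤ KF c (s + 1) := by
  intro g hg
  rw [mem_KF] at hg ⊢
  obtain ⟨h1, h2, h3⟩ := hg
  refine ⟨fun v hv => h1 v (hc (Nat.zero_le 1) hv), fun i hi v hv => ?_, h3⟩
  cases i with
  | zero =>
    rw [h1 v hv, sub_self]
    exact ⟨(c 0).zero_mem, hv⟩
  | succ j => exact h2 j (by omega) v hv

omit [Finite F] in
private lemma mem_B_h2 (c : ℕ → Submodule F V) (s : ℕ) {g : SpecialLinearGroup F V}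
    (hg : g ∈ KF c (s + 1)) (h1 : ∀ v ∈ c 1, g v = v) : g ∈ KF (fun i => c (i + 1)) s := by
  rw [mem_KF] at hg ⊢
  exact ⟨h1, fun i hi v hv => hg.2.1 (i + 1) (by omega) v hv, hg.2.2⟩

omit [Finite F] in
private lemma inv_eq_h2 {g : SpecialLinearGroup F V} {v w : V} (h : g w = v) : g⁻¹ v = w := by
  apply sl_injective g
  show g (g⁻¹ v) = g w
  rw [inv_apply_self, h]

omit [Finite F] in
private lemma nA_h2 (c : ℕ → Submodule F V) (s : ℕ) :
    ∀ k ∈ KF c s, ∀ a ∈ EE (c 0) (c 0), k * a * k⁻¹ ∈ EE (c 0) (c 0) := by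
  intro k hk a ha
  rw [mem_KF] at hk
  refine ⟨fun v => ?_, fun v hv => ?_⟩
  · show k (a (k⁻¹ v)) - v ∈ c 0
    have h1 : k (a (k⁻¹ v)) - v = k (a (k⁻¹ v) - k⁻¹ v) := by
      have h2 : k (a (k⁻¹ v) - k⁻¹ v) = k (a (k⁻¹ v)) - k (k⁻¹ v) :=
        map_sub (k : V ≃ₗ[F] V) _ _
      rw [h2, inv_apply_self]
    rw [h1, hk.1 _ (ha.1 _)]
    exact ha.1 _
  · show k (a (k⁻¹ v)) = v
    rw [inv_eq_h2 (hk.1 v hv), ha.2 v hv, hk.1 v hv]

omit [Finite F] in
private lemma nB_h2 (c : ℕ → Submodule F V) (hc : Monotone c) (s : ℕ) :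
    ∀ k ∈ KF c (s + 1), ∀ b ∈ KF (fun i => c (i + 1)) s,
      k * b * k⁻¹ ∈ KF (fun i => c (i + 1)) s := by
  intro k hk b hb
  refine mem_B_h2 c s ((KF c (s + 1)).mul_mem ((KF c (s + 1)).mul_mem hk (B_le_h2 c hc s hb))
    ((KF c (s + 1)).inv_mem hk)) fun v hv => ?_
  show k (b (k⁻¹ v)) = v
  have h1 := (KF c (s + 1)).inv_mem hk
  rw [mem_KF] at h1
  have h2 := (h1.2.1 0 (Nat.succ_pos s) v hv).2
  rw [mem_KF] at hb
  rw [hb.1 _ h2, inv_apply_self]

private lemma prod_h2 (c : ℕ → Submodule F V) (hc : Monotone c) (s : ℕ) :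
    ∀ k ∈ KF c (s + 1), ∃ a ∈ EE (c 0) (c 0), ∃ b ∈ KF (fun i => c (i + 1)) s, k = a * b := by
  intro k hk
  have hk' := hk
  rw [mem_KF] at hk'
  obtain ⟨h1, h2, _⟩ := hk'
  let f₁ : c 1 →ₗ[F] c 0 := LinearMap.codRestrict (c 0)
    ((((k : V ≃ₗ[F] V) : V →ₗ[F] V) - LinearMap.id) ∘ₗ (c 1).subtype)
    (fun v => (h2 0 (Nat.succ_pos s) v v.2).1)
  have hf₁ : ∀ v : c 1, (f₁ v : V) = k (v : V) - v := fun v => rfl
  obtain ⟨g₁, hg₁⟩ := LinearMap.exists_extend f₁
  have hg₁' : ∀ v ∈ c 1, (g₁ v : V) = k v - v := fun v hv => by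
    have h3 := LinearMap.congr_fun hg₁ ⟨v, hv⟩
    have h4 : g₁ v = f₁ ⟨v, hv⟩ := h3
    rw [h4, hf₁]
  have hker : c 0 ≤ LinearMap.ker g₁ := by
    intro v hv
    rw [LinearMap.mem_ker]
    apply Subtype.ext
    rw [hg₁' v (hc (Nat.zero_le 1) hv), h1 v hv, sub_self]
    rfl
  obtain ⟨j, hj⟩ := exists_embed (F := F) (V := V) (c 0) (c 0) le_rfl
  let a := j (u1 ((c 0).liftQ g₁ hker))
  have ha : ∀ v, a v = v + (g₁ v : V) := fun v => hj _ v
  have haA : a ∈ EE (c 0) (c 0) := by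
    refine ⟨fun v => ?_, fun v hv => ?_⟩
    · rw [ha, add_sub_cancel_left]
      exact (g₁ v).2
    · rw [ha, LinearMap.mem_ker.1 (hker hv)]
      exact add_zero v
  refine ⟨a, haA, a⁻¹ * k, ?_, (mul_inv_cancel_left a k).symm⟩
  refine mem_B_h2 c s ((KF c (s + 1)).mul_mem ((KF c (s + 1)).inv_mem (A_le_h2 c hc s haA)) hk)
    fun v hv => ?_
  show a⁻¹ (k v) = v
  apply inv_eq_h2
  rw [ha, hg₁' v hv]
  abel

omit [Finite F] in
private lemma inf_h2 (c : ℕ → Submodule F V) (hc : Monotone c) (s : ℕ) :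
    EE (c 0) (c 0) ⊓ KF (fun i => c (i + 1)) s = EE (c 0) (c 1) := by
  ext g
  constructor
  · rintro ⟨h1, h2⟩
    have h3 : g ∈ KF (fun i => c (i + 1)) s := h2
    rw [mem_KF] at h3
    exact ⟨h1.1, h3.1⟩
  · rintro ⟨h1, h2⟩
    have h3 : g ∈ EE (c 0) (c 0) := ⟨h1, fun v hv => h2 v (hc (Nat.zero_le 1) hv)⟩
    exact ⟨h3, mem_B_h2 c s (A_le_h2 c hc s h3) h2⟩

theorem nn_KF_le (h : HP θ) (c : ℕ → Submodule F V) (hc : Monotone c) (s : ℕ) :
    nn θ (KF c s) ≤ nn θ (EE (c s) (c s)) +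
      ∑ i ∈ Finset.range s, (nn θ (EE (c i) (c i)) - nn θ (EE (c i) (c (i + 1)))) := by
  have := finG_h2 (F := F) (V := V)
  induction s generalizing c with
  | zero => rw [KF_zero_h2, Finset.sum_range_zero, add_zero]
  | succ s ih =>
    have h1 := nn_sup h (KF c (s + 1)) (EE (c 0) (c 0)) (KF (fun i => c (i + 1)) s)
      (A_le_h2 c hc s) (B_le_h2 c hc s) (nA_h2 c (s + 1)) (nB_h2 c hc s) (prod_h2 c hc s)
    rw [inf_h2 c hc s] at h1
    have h2 := ih (fun i => c (i + 1)) (fun i j hij => hc (by omega))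
    rw [Finset.sum_range_succ']
    linarith

theorem KF_solvable (c : ℕ → Submodule F V) (hc : Monotone c) (s : ℕ) :
    Group.IsSolvable (KF c s) := by
  induction s generalizing c with
  | zero =>
    rw [KF_zero_h2]
    refine Group.isSolvable_of_comm fun a b => Subtype.ext ?_
    exact ee_comm (le_refl (c 0)) (a : SpecialLinearGroup F V) a.2 (b : SpecialLinearGroup F V) b.2
  | succ s ih =>
    have ihB := ih (fun i => c (i + 1)) (fun i j hij => hc (by omega))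
    set K := KF c (s + 1) with hK
    set A := EE (c 0) (c 0) with hA
    set B := KF (fun i => c (i + 1)) s with hB
    have NA : (A.subgroupOf K).Normal := ⟨fun a ha k => by
      rw [Subgroup.mem_subgroupOf] at ha ⊢
      exact nA_h2 c (s + 1) _ k.2 _ ha⟩
    rw [Group.isSolvable_iff_subgroup_quotient (A.subgroupOf K)]
    constructor
    · refine Group.isSolvable_of_comm fun a b => Subtype.ext (Subtype.ext ?_)
      exact ee_comm (le_refl (c 0)) ((a : K) : SpecialLinearGroup F V)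
        (Subgroup.mem_subgroupOf.1 a.2) ((b : K) : SpecialLinearGroup F V)
        (Subgroup.mem_subgroupOf.1 b.2)
    · let φ : B →* K ⧸ A.subgroupOf K :=
        (QuotientGroup.mk' (A.subgroupOf K)).comp (Subgroup.inclusion (B_le_h2 c hc s))
      have hφ : Function.Surjective φ := by
        intro x
        obtain ⟨k, rfl⟩ := QuotientGroup.mk'_surjective _ x
        obtain ⟨a, ha, b, hb, hab⟩ := prod_h2 c hc s k k.2
        refine ⟨⟨b, hb⟩, ?_⟩
        have e1 : k = (⟨a, A_le_h2 c hc s ha⟩ : K) * (⟨b, B_le_h2 c hc s hb⟩ : K) :=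
          Subtype.ext hab
        have e2 : QuotientGroup.mk' (A.subgroupOf K) (⟨a, A_le_h2 c hc s ha⟩ : K) = 1 := by
          rw [← MonoidHom.mem_ker, QuotientGroup.ker_mk', Subgroup.mem_subgroupOf]
          exact ha
        rw [e1, map_mul, e2, one_mul]
        rfl
      exact Group.isSolvable_of_surjective hφ

end Pool.Agent.Helper70.GLn
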