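import Pool.Agent.Helper70.GLn.Defs

/-!
# GL-FO: Fourier analysis along the unipotent radical (120-200 lines)

PROOF. `ch_ne`: for `M ≠ 0` there is `X` with `ch M X ≠ 1`: choose `a` with `M a ≠ 0`, a functional `f` with `f (M a) = 1`, and
`X = c • (b ↦ f b • a)`, so that `trace (M ∘ X) = c` (rank one); `ps_prim` gives `c` with `ps F c ≠ 1`. So `M ↦ ch M` is injective
(`ch (M - M') = ch M * (ch M')⁻¹`) and bijective onto the characters of `B →ₗ[F] A` (`AddChar.card_eq`, and
`|A →ₗ B| = |B →ₗ A| = q^(ab)`); also `X ↦ (M ↦ ch M X)` is a nontrivial character for `X ≠ 0` (symmetric in `M`, `X`: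
`LinearMap.trace_comp_comm'`). `sum_ch`: the sum of a nontrivial character is `0`. `sum_phi`: insert the definition, exchange the sums,
`sum_ch` with real parts. `phi_zero`: `ch 0 = 1`. `phi_nonneg`: `HP.fp` for `uu` (or `pull`) with the character `ch M ≠ 0`.
`theta_u1`: `fourier_inv` (Helper13/Ded/Basic) for `f X = θ (u1 X)` and the bijection `M ↦ ch M`.
`phi_act`: `θ (u1 (act l X)) = θ (u1 X)` (`dg_conj_u1`), `ch (h M g⁻¹) (g X h⁻¹) = ch M X`. `phi_eq_zero`: replace `X` by
`act l⁻¹ Y + X - Y`...: `(u1 Y)⁻¹ * (dg l * u1 X) * u1 Y = dg l * u1 (X + Y - act l⁻¹ Y)`, so the function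
`X ↦ θ (dg l * u1 X)` is invariant under translation by `Z = Y - act l⁻¹ Y`; its Fourier coefficient at `ch M` vanishes if
`ch M Z ≠ 1` for some `Y`; if `ch M (Y) = ch M (act l⁻¹ Y)` for all `Y` then `M = h M g⁻¹` by injectivity (here the complex coefficient
vanishes; take real parts).
-/

set_option autoImplicit false

open Module Pool.Agent.Helper13.Ded

namespace Pool.Agent.Helper70.GLn

variable {F A B : Type} [Field F] [Finite F] [AddCommGroup A] [Module F A] [Finite A]
  [AddCommGroup B] [Module F B] [Finite B] {θ : SpecialLinearGroup F (A × B) → ℝ}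

/-- The action of the Levi subgroup on the parameters of the characters. -/
def cact (l : Lev F A B) (M : A →ₗ[F] B) : A →ₗ[F] B :=
  (l.1.2 : B →ₗ[F] B) ∘ₗ M ∘ₗ (l.1.1.symm : A →ₗ[F] A)

private lemma fo_fin60 {U W : Type} [AddCommGroup U] [Module F U] [Finite U] [AddCommGroup W]
    [Module F W] [Finite W] : Finite (U →ₗ[F] W) := Finite.of_injective _ DFunLike.coe_injective

private lemma fo_finG60 {U : Type} [AddCommGroup U] [Module F U] [Finite U] :
    Finite (SpecialLinearGroup F U) :=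
  Finite.of_injective (fun g v => g v) (fun g h hgh => by
    ext v
    exact congrFun hgh v)

private lemma fo_trace60 (f : B →ₗ[F] F) (a : A) (M : A →ₗ[F] B) :
    LinearMap.trace F B (M ∘ₗ (f.smulRight a)) = f (M a) := by
  have h : M ∘ₗ (f.smulRight a) = f.smulRight (M a) := by
    ext b
    simp
  rw [h, LinearMap.trace_smulRight]

private lemma fo_ne60 {M : A →ₗ[F] B} (hM : M ≠ 0) : ch M ≠ 1 := by
  obtain ⟨a, ha⟩ : ∃ a, M a ≠ 0 := by
    by_contra hcon
    push Not at hcon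
    exact hM (LinearMap.ext hcon)
  obtain ⟨f, hf⟩ : ∃ f : Module.Dual F B, f (M a) ≠ 0 := by
    by_contra hcon
    push Not at hcon
    exact ha ((Module.forall_dual_apply_eq_zero_iff F (M a)).1 hcon)
  intro h
  have h1 := ps_prim (F := F) one_ne_zero
  apply h1
  ext c
  have h2 : ch M (f.smulRight ((c * (f (M a))⁻¹) • a)) = 1 := by rw [h]; rfl
  rw [ch_apply, fo_trace60, map_smul, map_smul, smul_eq_mul, inv_mul_cancel_right₀ hf] at h2
  rw [AddChar.mulShift_apply, one_mul, h2]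
  rfl

private lemma fo_sub60 (M N : A →ₗ[F] B) (X : B →ₗ[F] A) : ch (M - N) X * ch N X = ch M X := by
  rw [ch_apply, ch_apply, ch_apply, ← AddChar.map_add_eq_mul, ← map_add, ← LinearMap.add_comp,
    sub_add_cancel]

private lemma fo_inj60 : Function.Injective (ch : (A →ₗ[F] B) → AddChar (B →ₗ[F] A) ℂ) := by
  have : Finite (B →ₗ[F] A) := fo_fin60
  intro M N h
  by_contra hMN
  refine fo_ne60 (sub_ne_zero.2 hMN) ?_
  ext X
  have h1 := fo_sub60 M N X
  rw [h] at h1
  have h2 : ch N X ≠ 0 := by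
    intro h0
    have := (ch N).norm_apply X
    rw [h0, norm_zero] at this
    exact zero_ne_one this
  rw [AddChar.one_apply]
  exact mul_right_cancel₀ h2 (by rw [h1, one_mul])

theorem ch_bijective : Function.Bijective (ch : (A →ₗ[F] B) → AddChar (B →ₗ[F] A) ℂ) := by
  classical
  have : Finite (A →ₗ[F] B) := fo_fin60
  have := Fintype.ofFinite (A →ₗ[F] B)
  have : Finite (B →ₗ[F] A) := fo_fin60
  have := Fintype.ofFinite (B →ₗ[F] A)
  rw [Fintype.bijective_iff_injective_and_card]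
  refine ⟨fo_inj60, ?_⟩
  rw [AddChar.card_eq, ← Nat.card_eq_fintype_card, ← Nat.card_eq_fintype_card,
    Module.natCard_eq_pow_finrank (K := F) (V := A →ₗ[F] B),
    Module.natCard_eq_pow_finrank (K := F) (V := B →ₗ[F] A),
    Module.finrank_linearMap, Module.finrank_linearMap, mul_comm]

theorem ch_act (l : Lev F A B) (M : A →ₗ[F] B) (X : B →ₗ[F] A) :
    ch (cact l M) (act l X) = ch M X := by
  rw [ch_apply, ch_apply]
  congr 1
  have h : cact l M ∘ₗ act l X = l.1.2.conj (M ∘ₗ X) := by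
    ext b
    rw [LinearEquiv.conj_apply]
    simp [cact, act]
  rw [h, LinearMap.trace_conj']

theorem sum_ch [Fintype (A →ₗ[F] B)] (X : B →ₗ[F] A) [Decidable (X = 0)] :
    ∑ M : A →ₗ[F] B, ch M X = if X = 0 then (Nat.card (B →ₗ[F] A) : ℂ) else 0 := by
  classical
  have : Finite (B →ₗ[F] A) := fo_fin60
  have := Fintype.ofFinite (B →ₗ[F] A)
  have h1 := Fintype.sum_bijective (ch : (A →ₗ[F] B) → AddChar (B →ₗ[F] A) ℂ) ch_bijective
    (fun M => ch M X) (fun χ => χ X) (fun M => rfl)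
  rw [h1, AddChar.sum_apply_eq_ite, Nat.card_eq_fintype_card]
  split_ifs <;> rfl

private lemma fo_act60 (l : Lev F A B) : Function.Bijective (act l : (B →ₗ[F] A) → (B →ₗ[F] A)) := by
  have : Finite (B →ₗ[F] A) := Finite.of_injective _ DFunLike.coe_injective
  rw [← Finite.injective_iff_bijective]
  intro X Y h
  ext b
  have h1 := LinearMap.congr_fun h (l.1.2 b)
  rw [act_apply, act_apply, LinearEquiv.symm_apply_apply] at h1
  exact l.1.1.injective h1

theorem sum_phi [Fintype (A →ₗ[F] B)] (θ : SpecialLinearGroup F (A × B) → ℝ) (l : Lev F A B) :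
    θ (dg l) = ∑ M : A →ₗ[F] B, phi θ M l := by
  classical
  have : Finite (B →ₗ[F] A) := fo_fin60
  have := Fintype.ofFinite (B →ₗ[F] A)
  have hc : (0:ℝ) < Nat.card (B →ₗ[F] A) := by exact_mod_cast Nat.card_pos
  unfold phi av
  rw [← Finset.sum_div, eq_div_iff hc.ne']
  simp_rw [finsum_eq_sum_of_fintype]
  rw [Finset.sum_comm]
  simp_rw [← Finset.mul_sum]
  have h1 : ∀ X : B →ₗ[F] A, ∑ M : A →ₗ[F] B, (ch M X).re =
      if X = 0 then (Nat.card (B →ₗ[F] A) : ℝ) else 0 := by
    intro X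
    have h2 := congrArg Complex.re (sum_ch (A := A) (B := B) X)
    rw [Complex.re_sum] at h2
    rw [h2]
    split_ifs
    · exact Complex.natCast_re _
    · exact Complex.zero_re
  simp_rw [h1]
  simp [u1_zero]

theorem phi_zero (θ : SpecialLinearGroup F (A × B) → ℝ) (l : Lev F A B) : phi θ 0 l = Psi θ l := by
  unfold phi Psi
  congr 1
  ext X
  rw [ch_apply, LinearMap.zero_comp, map_zero, AddChar.map_zero_eq_one, Complex.one_re, mul_one]

private lemma fo_hat60 (θ : SpecialLinearGroup F (A × B) → ℝ) (M : A →ₗ[F] B) :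
    phi θ M 1 = hat (fun X : B →ₗ[F] A => θ (u1 X)) (ch M) / Nat.card (B →ₗ[F] A) := by
  classical
  have : Finite (B →ₗ[F] A) := fo_fin60
  have := Fintype.ofFinite (B →ₗ[F] A)
  unfold phi av hat
  simp_rw [finsum_eq_sum_of_fintype]
  rw [Complex.re_sum]
  congr 1
  refine Finset.sum_congr rfl fun X _ => ?_
  rw [map_one, one_mul, Complex.re_ofReal_mul]

theorem phi_nonneg (h : HP θ) {M : A →ₗ[F] B} (hM : M ≠ 0) : 0 ≤ phi θ M 1 := by
  have : Finite (SpecialLinearGroup F (A × B)) := fo_finG60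
  have : Finite (B →ₗ[F] A) := fo_fin60
  rw [fo_hat60]
  refine div_nonneg ?_ (Nat.cast_nonneg _)
  refine (h.fp uu).pos (ch M) ?_
  rw [Set.mem_singleton_iff]
  exact fo_ne60 hM

theorem theta_u1 [Fintype (A →ₗ[F] B)] (h : HP θ) (Y : B →ₗ[F] A) :
    θ (u1 Y) = ∑ M : A →ₗ[F] B, phi θ M 1 * (ch M Y).re := by
  classical
  have : Finite (B →ₗ[F] A) := fo_fin60
  have := Fintype.ofFinite (B →ₗ[F] A)
  have hc : (0:ℝ) < Nat.card (B →ₗ[F] A) := by exact_mod_cast Nat.card_pos
  have : Finite (SpecialLinearGroup F (A × B)) := fo_finG60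
  have h1 := fourier_inv (fun X : B →ₗ[F] A => θ (u1 X)) (h.fp uu).inv Y
  have h2 := Fintype.sum_bijective (ch : (A →ₗ[F] B) → AddChar (B →ₗ[F] A) ℂ) ch_bijective
    (fun M => hat (fun X : B →ₗ[F] A => θ (u1 X)) (ch M) * (ch M Y).re)
    (fun χ => hat (fun X : B →ₗ[F] A => θ (u1 X)) χ * (χ Y).re) (fun M => rfl)
  rw [← h2, ← Nat.card_eq_fintype_card] at h1
  simp_rw [fo_hat60, div_mul_eq_mul_div]
  rw [← Finset.sum_div, ← h1, mul_div_cancel_left₀ _ hc.ne']

theorem phi_cact (h : HP θ) (l : Lev F A B) (M : A →ₗ[F] B) : phi θ (cact l M) 1 = phi θ M 1 := by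
  classical
  have : Finite (B →ₗ[F] A) := Finite.of_injective _ DFunLike.coe_injective
  unfold phi
  rw [← av_comp_equiv (Equiv.ofBijective _ (fo_act60 l))]
  congr 1
  ext X
  simp only [Equiv.ofBijective_apply]
  rw [ch_act, map_one, one_mul, one_mul, ← dg_conj_u1, h.conj]

theorem phi_eq_zero (h : HP θ) (l : Lev F A B) (M : A →ₗ[F] B) (hM : cact l M ≠ M) :
    phi θ M l = 0 := by
  classical
  have : Finite (B →ₗ[F] A) := fo_fin60
  have := Fintype.ofFinite (B →ₗ[F] A)
  obtain ⟨c, hc⟩ : ∃ c : ℂ, c = ∑ X : B →ₗ[F] A, (θ (dg l * u1 X) : ℂ) * ch M X := ⟨_, rfl⟩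
  have hact : ∀ Y, act l (act l⁻¹ Y) = Y := by
    intro Y
    ext b
    rw [act_apply, act_apply]
    show l.1.1 (l.1.1.symm (Y (l.1.2 (l.1.2.symm b)))) = Y b
    rw [LinearEquiv.apply_symm_apply, LinearEquiv.apply_symm_apply]
  have hinv : ∀ X Y : B →ₗ[F] A, θ (dg l * u1 (X + (Y - act l⁻¹ Y))) = θ (dg l * u1 X) := by
    intro X Y
    have e1 : u1 (-Y) * (dg l * u1 X) * (u1 (-Y))⁻¹ = dg l * u1 (X + (Y - act l⁻¹ Y)) := by
      have e2 : dg l * u1 (-(act l⁻¹ Y)) = u1 (-Y) * dg l := by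
        rw [dg_mul_u1]
        congr 2
        have : act l (-(act l⁻¹ Y)) = - act l (act l⁻¹ Y) := by
          ext b
          simp [act_apply]
        rw [this, hact]
      have e3 : (u1 (-Y) : SpecialLinearGroup F (A × B))⁻¹ = u1 Y := by
        rw [inv_eq_iff_mul_eq_one, ← u1_add, neg_add_cancel, u1_zero]
      rw [e3, ← mul_assoc, ← e2, mul_assoc, mul_assoc, ← u1_add, ← u1_add]
      congr 2
      abel
    rw [← e1, h.conj]
  have hc0 : c = 0 := by
    obtain ⟨Y, hY⟩ : ∃ Y : B →ₗ[F] A, ch M (Y - act l⁻¹ Y) ≠ 1 := by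
      by_contra hcon
      push Not at hcon
      apply hM
      apply fo_inj60
      ext Y
      have h1 := hcon Y
      have h2 : ch M Y = ch M (act l⁻¹ Y) := by
        have h3 : Y = (Y - act l⁻¹ Y) + act l⁻¹ Y := (sub_add_cancel _ _).symm
        nth_rewrite 1 [h3]
        rw [AddChar.map_add_eq_mul, h1, one_mul]
      rw [h2, ← ch_act l M (act l⁻¹ Y), hact]
    have h4 : c = c * ch M (Y - act l⁻¹ Y) := by
      nth_rewrite 1 [hc]
      rw [← Equiv.sum_comp (Equiv.addRight (Y - act l⁻¹ Y)), hc, Finset.sum_mul]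
      refine Finset.sum_congr rfl fun X _ => ?_
      rw [Equiv.coe_addRight, hinv, AddChar.map_add_eq_mul]
      ring
    have h5 : c * (1 - ch M (Y - act l⁻¹ Y)) = 0 := by
      rw [mul_sub, mul_one, ← h4, sub_self]
    rcases mul_eq_zero.1 h5 with h6 | h6
    · exact h6
    · exact absurd (sub_eq_zero.1 h6).symm hY
  unfold phi av
  rw [finsum_eq_sum_of_fintype]
  have h7 : ∑ X : B →ₗ[F] A, θ (dg l * u1 X) * (ch M X).re = c.re := by
    rw [hc, Complex.re_sum]
    refine Finset.sum_congr rfl fun X _ => ?_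
    rw [Complex.re_ofReal_mul]
  rw [h7, hc0, Complex.zero_re, zero_div]

end Pool.Agent.Helper70.GLn
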