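import Pool.Agent.Helper70.GLn.CY

/-!
# GL-FR: a semisimple element is conjugate to its `q`-th power (100-180 lines)

(Proof here: `cyclic` from CY gives `P = ∏ AdjoinRoot (g i)` with `g i` squarefree, so the algebras are reduced and the Frobenius map `a ↦ a ^ q` is an `F`-linear
bijection of each of them, which conjugates the multiplication by the root into its `q`-th power.)

PROOF. Induction on the dimension of `P` (for all `P`). `P = 0` is trivial. `X ^ m - 1` is separable, as `m ≠ 0` in `F` (`q` is a power of the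
characteristic `p`, so `p` does not divide `m`), hence squarefree, and `y` is semisimple (`Module.End.isSemisimple_of_squarefree_aeval_eq_zero`
or Maschke by averaging a projection): every `y`-invariant subspace has a `y`-invariant complement. Choose an invariant subspace `P₁ ≠ 0` of
minimal dimension and an invariant complement `P₂`; use the induction hypothesis for `y|P₂` (also `m`-th power `1`) and put `σ = σ₁ ⊕ σ₂`. On the irreducible `P₁`
choose `v ≠ 0`; every element of `P₁` is `f(y) v` with `f ∈ F[X]` (the set of these is invariant and not `0`). Define `σ₁ (f(y) v) = f(y) ^ q v`; well defined: if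
`f(y) v = 0` then `f(y) g(y) v = 0` for all `g`, so `f(y) = 0` on `P₁`. Additive: `(f(y) + g(y)) ^ q = f(y) ^ q + g(y) ^ q` (commuting elements of `End P₁`, `q` a
power of `p`), `F`-linear: `c ^ q = c`. Injective: `f(y) ^ q v = 0`, `f(y) v ≠ 0` would make `ker (f(y)|P₁)` a nonzero invariant proper subspace
(`f(y)` is not injective on `P₁`), contradiction with minimality. `σ₁ y (f(y) v) = y ^ q f(y) ^ q v = y ^ q σ₁ (f(y) v)`.
-/

set_option autoImplicit false

open Module Polynomial

namespace Pool.Agent.Helper70.GLn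

private lemma frob_one_h2 {F : Type} [Field F] [Fintype F] {g : F[X]} (hm : g.Monic)
    (hs : Squarefree g) : Function.Bijective (FiniteField.frobeniusAlgHom F (AdjoinRoot g)) := by
  have hq : Fintype.card F ≠ 0 := Fintype.card_ne_zero
  have hinj : Function.Injective (FiniteField.frobeniusAlgHom F (AdjoinRoot g)) := by
    rw [injective_iff_map_eq_zero]
    intro a ha
    have ha' : a ^ Fintype.card F = 0 := ha
    obtain ⟨p, rfl⟩ := AdjoinRoot.mk_surjective a
    rw [← map_pow, AdjoinRoot.mk_eq_zero, hs.dvd_pow_iff_dvd hq] at ha'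
    exact AdjoinRoot.mk_eq_zero.2 ha'
  have hfd : FiniteDimensional F (AdjoinRoot g) := (AdjoinRoot.powerBasis' hm).finite
  exact ⟨hinj, (LinearMap.injective_iff_surjective
    (f := (FiniteField.frobeniusAlgHom F (AdjoinRoot g)).toLinearMap)).1 hinj⟩

theorem exists_frob {F P : Type} [Field F] [Finite F] [AddCommGroup P] [Module F P] [Finite P]
    (y : P ≃ₗ[F] P) {m : ℕ} (hm : y ^ m = 1) (hc : m.Coprime (Nat.card F)) :
    ∃ σ : P ≃ₗ[F] P, σ * y * σ⁻¹ = y ^ (Nat.card F) := by
  classical
  have := Fintype.ofFinite F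
  obtain ⟨N, g, e, hg1, hg2, he⟩ := cyclic (y : P →ₗ[F] P)
  have hym : (y : P →ₗ[F] P) ^ m = 1 := by
    have h1 : ((y ^ m : P ≃ₗ[F] P) : P →ₗ[F] P) = (y : P →ₗ[F] P) ^ m := by
      induction m with
      | zero => rfl
      | succ n ih =>
        have h2 : ∀ k : ℕ, ((y ^ k : P ≃ₗ[F] P) : P →ₗ[F] P) = (y : P →ₗ[F] P) ^ k := by
          intro k
          induction k with
          | zero => rfl
          | succ k ihk =>
            rw [pow_succ, pow_succ, ← ihk]
            rfl
        exact h2 _
    rw [← h1, hm]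
    rfl
  have hmF : (m : F) ≠ 0 := by
    obtain ⟨p, hp⟩ := CharP.exists F
    have hpp : p.Prime := CharP.char_is_prime F p
    intro h0
    rw [CharP.cast_eq_zero_iff F p] at h0
    have h1 : p ∣ Nat.card F := by
      rw [Nat.card_eq_fintype_card]
      obtain ⟨n, _, hn⟩ := FiniteField.card F p
      rw [hn]
      exact dvd_pow_self p n.ne_zero
    have h2 := Nat.dvd_gcd h0 h1
    rw [hc.gcd_eq_one] at h2
    exact hpp.one_lt.ne' (Nat.dvd_one.1 h2)
  have hsep : (X ^ m - 1 : F[X]).Separable := X_pow_sub_one_separable_iff.2 hmF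
  have hgs : ∀ i, Squarefree (g i) := fun i =>
    (hsep.of_dvd (cyclic_dvd e he (f := X ^ m - 1) (by simp [hym]) i)).squarefree
  let φ : (i : Fin N) → AdjoinRoot (g i) ≃ₗ[F] AdjoinRoot (g i) := fun i =>
    LinearEquiv.ofBijective (FiniteField.frobeniusAlgHom F (AdjoinRoot (g i))).toLinearMap
      (frob_one_h2 (hg1 i) (hgs i))
  have hφ : ∀ i a, φ i a = a ^ Fintype.card F := fun i a => rfl
  let σ : P ≃ₗ[F] P := (e.trans (LinearEquiv.piCongrRight φ)).trans e.symm
  have hσ : ∀ v i, e (σ v) i = (e v i) ^ Fintype.card F := by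
    intro v i
    show e (e.symm (fun i => φ i (e v i))) i = _
    rw [LinearEquiv.apply_symm_apply, hφ]
  have hyk : ∀ (k : ℕ) v i, e ((y ^ k) v) i = AdjoinRoot.root (g i) ^ k * e v i := by
    intro k
    induction k with
    | zero => intro v i; simp
    | succ k ih =>
      intro v i
      rw [pow_succ', LinearEquiv.mul_apply]
      have h1 := he ((y ^ k) v) i
      have h2 : e (y ((y ^ k) v)) i = AdjoinRoot.root (g i) * e ((y ^ k) v) i := h1
      rw [h2, ih, pow_succ', mul_assoc]
  refine ⟨σ, ?_⟩
  rw [mul_inv_eq_iff_eq_mul]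
  ext v
  apply e.injective
  funext i
  rw [LinearEquiv.mul_apply, LinearEquiv.mul_apply, hσ, hyk, hσ, Nat.card_eq_fintype_card]
  have h1 : e (y v) i = AdjoinRoot.root (g i) * e v i := he v i
  rw [h1, mul_pow]

end Pool.Agent.Helper70.GLn
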