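import Pool.Agent.Helper70.GLn.GR1

/-!
# GL-FU: good elements (80-140 lines)

PROOF. `inc hG` is the inclusion of `SpecialLinearGroup F V` in `G`. Let `W` be from `Good`, `A = (EE W W).map (inc hG)`, a commutative group (for `a, b ∈ EE W W`: `a b v = v + (a v - v) + (b v - v)`,
as `a`, `b` are `1` on `W`), normalised by `g` (`g W ⊆ W`, hence `g⁻¹ W ⊆ W` as `W` is finite; `g a g⁻¹ v - v = g (a (g⁻¹ v) - g⁻¹ v) ∈ W`, determinant `1`).
`commSub A g = A`: the map `a ↦ a * (g * a⁻¹ * g⁻¹)` from `A` to itself is injective (a homomorphism of the commutative group `A`; if `a = g a g⁻¹` then `X v = a v - v` is linear, has values in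
`W`, vanishes on `W` and `g (X v) = X (g v)`, so `X = 0`, `a = 1`), so it is surjective. By `nn_commSub_le` for `G` and `θ`: `nn θ A ≤ θ 1 - θ g`, and
`nn (fun s => θ (inc hG s)) (EE W W) = nn θ A` (`inc` is injective: bijection of `EE W W` with `A`; `θ (inc 1) = θ 1`).
-/

set_option autoImplicit false

open Module Pool.Agent.Helper13.Ded Pool.Agent.Helper94.Ded

namespace Pool.Agent.Helper70.GLn

variable {F V : Type} [Field F] [Finite F] [AddCommGroup V] [Module F V] [Finite V]

/-- `g` is good: it leaves invariant a big subspace `W` and commutes with no nonzero map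
`V → V / W → W → V`. -/
def Good (R : ℕ) (g : V ≃ₗ[F] V) : Prop :=
  ∃ W : Submodule F V, Big R W W ∧ (∀ v ∈ W, g v ∈ W) ∧
    ∀ X : V →ₗ[F] V, (∀ v, X v ∈ W) → (∀ v ∈ W, X v = 0) → (∀ v, g (X v) = X (g v)) → X = 0

/-- The special linear group as a subgroup of `G`. -/
def inc {G : Subgroup (V ≃ₗ[F] V)} (hG : ∀ g : V ≃ₗ[F] V, LinearEquiv.det g = 1 → g ∈ G) :
    SpecialLinearGroup F V →* G where
  toFun s := ⟨(s : V ≃ₗ[F] V), hG _ s.2⟩
  map_one' := rfl
  map_mul' _ _ := rfl

omit [Finite F] [Finite V] in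
private lemma sl_add (s : SpecialLinearGroup F V) (v w : V) : s (v + w) = s v + s w :=
  (s : V ≃ₗ[F] V).map_add v w

omit [Finite F] [Finite V] in
private lemma ee_comm (W : Submodule F V) (s t : SpecialLinearGroup F V) (hs : s ∈ EE W W) (ht : t ∈ EE W W) :
    s * t = t * s := by
  have key : ∀ s t : SpecialLinearGroup F V, s ∈ EE W W → t ∈ EE W W → ∀ v, s (t v) = s v + (t v - v) := by
    intro s t hs ht v
    calc s (t v) = s (v + (t v - v)) := by congr 1; abel
      _ = s v + s (t v - v) := sl_add s _ _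
      _ = s v + (t v - v) := by rw [hs.2 _ (ht.1 v)]
  apply Subtype.ext
  apply LinearEquiv.ext
  intro v
  show s (t v) = t (s v)
  rw [key s t hs ht, key t s ht hs]
  abel

theorem good_le {G : Subgroup (V ≃ₗ[F] V)}
    (hG : ∀ g : V ≃ₗ[F] V, LinearEquiv.det g = 1 → g ∈ G) {θ : G → ℝ} (hθ : HP θ) {R : ℕ}
    (g : G) (hg : Good R (g : V ≃ₗ[F] V)) :
    ∃ W : Submodule F V, Big R W W ∧ nn (fun s => θ (inc hG s)) (EE W W) ≤ θ 1 - θ g := by
  classical
  obtain ⟨W, hbig, hgW, hX⟩ := hg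
  refine ⟨W, hbig, ?_⟩
  set g0 : V ≃ₗ[F] V := (g : V ≃ₗ[F] V) with hg0
  have hsymmW : ∀ v ∈ W, g0.symm v ∈ W := by
    intro v hv
    let f : W → W := fun u => ⟨g0 u, hgW u u.2⟩
    have hf : Function.Injective f := by
      intro a b hab
      have h1 : g0 a = g0 b := congrArg Subtype.val hab
      exact Subtype.ext (g0.injective h1)
    obtain ⟨u, hu⟩ := (Finite.surjective_of_injective hf) ⟨v, hv⟩
    have hu' : g0 (u : V) = v := congrArg Subtype.val hu
    rw [← hu', LinearEquiv.symm_apply_apply]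
    exact u.2
  have hinc : Function.Injective (inc hG) := by
    intro s t hst
    have h1 : ((inc hG s : G) : V ≃ₗ[F] V) = (inc hG t : G) := congrArg Subtype.val hst
    exact Subtype.ext h1
  set A : Subgroup G := (EE W W).map (inc hG) with hA
  have hB : ∀ a ∈ A, ∀ b ∈ A, a * b = b * a := by
    rintro _ ⟨s, hs, rfl⟩ _ ⟨t, ht, rfl⟩
    rw [← map_mul, ← map_mul, ee_comm W s t hs ht]
  have hgA : ∀ b ∈ A, g * b * g⁻¹ ∈ A := by
    rintro _ ⟨s, hs, rfl⟩
    have hdet : LinearEquiv.det (g0 * (s : V ≃ₗ[F] V) * g0⁻¹) = 1 := by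
      rw [map_mul, map_mul, s.2, mul_one, ← map_mul, mul_inv_cancel, map_one]
    refine ⟨⟨g0 * (s : V ≃ₗ[F] V) * g0⁻¹, hdet⟩, ⟨?_, ?_⟩, rfl⟩
    · intro v
      show g0 (s (g0.symm v)) - v ∈ W
      have h1 : g0 (s (g0.symm v)) - v = g0 (s (g0.symm v) - g0.symm v) := by
        rw [map_sub, LinearEquiv.apply_symm_apply]
      rw [h1]
      exact hgW _ (hs.1 _)
    · intro v hv
      show g0 (s (g0.symm v)) = v
      rw [hs.2 _ (hsymmW v hv), LinearEquiv.apply_symm_apply]
  -- elements of A commuting with g are trivial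
  have htriv : ∀ a ∈ A, a * g = g * a → a = 1 := by
    rintro _ ⟨s, hs, rfl⟩ hcom
    have hcom' : ∀ v, s (g0 v) = g0 (s v) := by
      intro v
      have h1 : (s : V ≃ₗ[F] V) * g0 = g0 * (s : V ≃ₗ[F] V) := congrArg Subtype.val hcom
      exact LinearEquiv.congr_fun h1 v
    have h0 := hX (((s : V ≃ₗ[F] V) : V →ₗ[F] V) - LinearMap.id) ?_ ?_ ?_
    · have h2 : s = 1 := by
        apply Subtype.ext
        apply LinearEquiv.ext
        intro v
        have h3 := LinearMap.congr_fun h0 v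
        have h4 : s v - v = 0 := h3
        exact sub_eq_zero.1 h4
      rw [h2, map_one]
    · intro v
      exact hs.1 v
    · intro v hv
      show s v - v = 0
      rw [hs.2 v hv, sub_self]
    · intro v
      show g0 (s v - v) = s (g0 v) - g0 v
      rw [map_sub, hcom']
  have hsub : commSub A g hB hgA = A := by
    apply le_antisymm
    · rintro _ ⟨b, hb, rfl⟩
      have e : b * g * b⁻¹ * g⁻¹ = b * (g * b⁻¹ * g⁻¹) := by group
      rw [e]
      exact A.mul_mem hb (hgA _ (A.inv_mem hb))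
    · intro a ha
      let f : A → A := fun b => ⟨b * g * (b : G)⁻¹ * g⁻¹, by
        have e : (b : G) * g * (b : G)⁻¹ * g⁻¹ = b * (g * (b : G)⁻¹ * g⁻¹) := by group
        rw [e]
        exact A.mul_mem b.2 (hgA _ (A.inv_mem b.2))⟩
      have hf : Function.Injective f := by
        intro b c hbc
        have h1 : (b : G) * g * (b : G)⁻¹ * g⁻¹ = c * g * (c : G)⁻¹ * g⁻¹ := congrArg Subtype.val hbc
        have h2 : (b : G) * g * (b : G)⁻¹ = c * g * (c : G)⁻¹ := mul_right_cancel h1
        have h3 : ((c : G)⁻¹ * b) * g = g * ((c : G)⁻¹ * b) := by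
          calc ((c : G)⁻¹ * b) * g = (c : G)⁻¹ * ((b : G) * g * (b : G)⁻¹) * b := by group
            _ = (c : G)⁻¹ * (c * g * (c : G)⁻¹) * b := by rw [h2]
            _ = g * ((c : G)⁻¹ * b) := by group
        have h4 := htriv _ (A.mul_mem (A.inv_mem c.2) b.2) h3
        exact Subtype.ext (inv_mul_eq_one.1 h4).symm
      obtain ⟨b, hb⟩ := (Finite.surjective_of_injective hf) ⟨a, ha⟩
      exact ⟨b, b.2, (congrArg Subtype.val hb).symm⟩
  have h5 := nn_commSub_le hθ A g hB hgA
  rw [hsub] at h5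
  refine le_trans (le_of_eq ?_) h5
  show θ (inc hG 1) - av (fun k : EE W W => θ (inc hG k)) = θ 1 - av (fun k : A => θ k)
  rw [map_one]
  congr 1
  have e := av_comp_equiv ((EE W W).equivMapOfInjective (inc hG) hinc).toEquiv (fun x : A => θ x)
  rw [← e]
  rfl

end Pool.Agent.Helper70.GLn
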