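import Pool.Agent.Helper70.GLn.GR1

/-!
# GL-GR2: modularity for normal subgroups (80-160 lines)

PROOF. Replace `G` by `K` (`HP.comp K.subtype`) and then divide by the normal subgroup `A ⊓ B` (`HP.push`, Helper13/Ded/Quot:
the pushed function is `|A ⊓ B|` times the average over the cosets; its value at `1` is `∑ θ` over `A ⊓ B`): so one may assume
`K = A * B`, `A ⊓ B = 1`, `A` and `B` commute elementwise (normal with trivial intersection) and `(a, b) ↦ a * b` is a
bijection. For commuting `a`, `b` consider the homomorphism from `Multiplicative (ZMod n × ZMod n)`, `n = |G|`, to `G`,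
`(i, j) ↦ a ^ i * b ^ j`; by `HP.fp` and `fourier_inv` (Helper13/Ded/Basic), with `χ (i, j) = α ^ i * β ^ j`,
`θ 1 + (θ (a b) + θ (a b⁻¹)) / 2 - θ a - θ b = (1/n²) ∑_χ (hat θ χ) (1 - Re α) (1 - Re β) ≥ 0`
(the term `χ = 0` vanishes, the other `hat θ χ` are `≥ 0`). Average over `a ∈ A`, `b ∈ B` (`b ↦ b⁻¹` is a bijection):
`θ 1 + av_K - av_A - av_B ≥ 0`, which is the claim when `A ⊓ B = 1`.
-/

set_option autoImplicit false

open Pool.Agent.Helper13.Ded Pool.Agent.Helper94.Ded

namespace Pool.Agent.Helper70.GLn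

variable {G : Type*} [Group G] [Finite G] {θ : G → ℝ}

private theorem fp_four_h36 {A : Type*} [AddCommGroup A] [Finite A] {f : A → ℝ}
    (hf : FP ({0} : Set (AddChar A ℂ)) f) (x y : A) :
    f x + f y ≤ f 0 + (f (x + y) + f (x - y)) / 2 := by
  classical
  have := Fintype.ofFinite A
  have hcard : (0 : ℝ) < (Fintype.card A : ℝ) := by exact_mod_cast Fintype.card_pos
  have e0 := fourier_inv f hf.inv 0
  have e1 := fourier_inv f hf.inv x
  have e2 := fourier_inv f hf.inv y
  have e3 := fourier_inv f hf.inv (x + y)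
  have e4 := fourier_inv f hf.inv (x - y)
  have key : ∀ χ : AddChar A ℂ, hat f χ * (χ x).re + hat f χ * (χ y).re ≤
      hat f χ * (χ 0).re + (hat f χ * (χ (x + y)).re + hat f χ * (χ (x - y)).re) / 2 := by
    intro χ
    have h1 : (χ (x + y)).re + (χ (x - y)).re = 2 * ((χ x).re * (χ y).re) := by
      rw [sub_eq_add_neg, AddChar.map_add_eq_mul, AddChar.map_add_eq_mul, ← conj_apply,
        Complex.mul_re, Complex.mul_re, Complex.conj_re, Complex.conj_im]
      ring
    have h2 : (χ 0).re = 1 := by rw [AddChar.map_zero_eq_one, Complex.one_re]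
    have h3 : ∀ z, (χ z).re ≤ 1 := fun z =>
      (Complex.re_le_norm _).trans (χ.norm_apply z).le
    have h4 : 0 ≤ hat f χ * ((1 - (χ x).re) * (1 - (χ y).re)) := by
      by_cases hχ : χ = 0
      · subst hχ
        simp
      · exact mul_nonneg (hf.pos χ hχ) (mul_nonneg (by linarith [h3 x]) (by linarith [h3 y]))
    have h5 : hat f χ * (χ (x + y)).re + hat f χ * (χ (x - y)).re =
        hat f χ * (2 * ((χ x).re * (χ y).re)) := by rw [← h1]; ring
    rw [h5, h2]
    linarith
  have h6 := Finset.sum_le_sum fun χ (_ : χ ∈ (Finset.univ : Finset (AddChar A ℂ))) => key χ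
  rw [Finset.sum_add_distrib, Finset.sum_add_distrib, ← Finset.sum_div, Finset.sum_add_distrib,
    ← e0, ← e1, ← e2, ← e3, ← e4] at h6
  have h7 : (Fintype.card A : ℝ) * (f x + f y) ≤
      (Fintype.card A : ℝ) * (f 0 + (f (x + y) + f (x - y)) / 2) := by linarith
  exact le_of_mul_le_mul_left h7 hcard

private theorem exists_pow_h36 (g : G) : ∃ q : Multiplicative (ZMod (Nat.card G)) →* G,
    ∀ i : ℤ, q (Multiplicative.ofAdd (i : ZMod (Nat.card G))) = g ^ i := by
  refine ⟨AddMonoidHom.toMultiplicativeLeft (ZMod.lift (Nat.card G)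
    ⟨zmultiplesHom (Additive G) (Additive.ofMul g), by
      simp [← ofMul_pow]⟩), fun i => ?_⟩
  simp

/-- The inequality for two commuting elements. -/
theorem four_point (h : HP θ) {a b : G} (hab : Commute a b) :
    θ a + θ b ≤ θ 1 + (θ (a * b) + θ (a * b⁻¹)) / 2 := by
  have : NeZero (Nat.card G) := ⟨Nat.card_pos.ne'⟩
  obtain ⟨qa, hqa⟩ := exists_pow_h36 a
  obtain ⟨qb, hqb⟩ := exists_pow_h36 b
  have hcomm : ∀ m n, Commute (qa m) (qb n) := by
    intro m n
    obtain ⟨i, hi⟩ := ZMod.intCast_surjective (Multiplicative.toAdd m)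
    obtain ⟨j, hj⟩ := ZMod.intCast_surjective (Multiplicative.toAdd n)
    have h1 : qa m = a ^ i := by rw [← hqa i, hi]; rfl
    have h2 : qb n = b ^ j := by rw [← hqb j, hj]; rfl
    rw [h1, h2]
    exact hab.zpow_zpow i j
  let q : Multiplicative (ZMod (Nat.card G) × ZMod (Nat.card G)) →* G :=
    (qa.noncommCoprod qb hcomm).comp (MulEquiv.prodMultiplicative _ _).toMonoidHom
  have hq : ∀ i j : ℤ, q (Multiplicative.ofAdd ((i : ZMod (Nat.card G)), (j : ZMod (Nat.card G)))) =
      a ^ i * b ^ j := by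
    intro i j
    rw [← hqa i, ← hqb j]
    rfl
  have hf := h.fp q
  have h1 := fp_four_h36 hf (1, 0) (0, 1)
  have c0 := hq 0 0
  have c1 := hq 1 0
  have c2 := hq 0 1
  have c3 := hq 1 1
  have c4 := hq 1 (-1)
  simp only [Int.cast_zero, Int.cast_one, Int.cast_neg, zpow_zero, zpow_one, mul_one, one_mul,
    zpow_neg] at c0 c1 c2 c3 c4
  have d0 : (0 : ZMod (Nat.card G) × ZMod (Nat.card G)) = (0, 0) := rfl
  have d3 : ((1, 0) : ZMod (Nat.card G) × ZMod (Nat.card G)) + (0, 1) = (1, 1) := by simp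
  have d4 : ((1, 0) : ZMod (Nat.card G) × ZMod (Nat.card G)) - (0, 1) = (1, -1) := by simp
  rw [d0, d3, d4] at h1
  simp only [c0, c1, c2, c3, c4] at h1
  exact h1

/-- The case of a trivial intersection. -/
private theorem av_disj_h36 {P : Type*} [Group P] [Finite P] {τ : P → ℝ} (h : HP τ) (A B : Subgroup P)
    (hA : A.Normal) (hB : B.Normal) (hd : Disjoint A B) (hK : ∀ k : P, ∃ a ∈ A, ∃ b ∈ B, k = a * b) :
    av (fun x : A => τ x) + av (fun x : B => τ x) ≤ τ 1 + av τ := by
  classical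
  have := Fintype.ofFinite P
  have hcomm : ∀ a ∈ A, ∀ b ∈ B, Commute a b := fun a ha b hb =>
    Subgroup.commute_of_normal_of_disjoint A B hA hB hd a b ha hb
  have hbij : Function.Bijective (fun x : A × B => (x.1 : P) * (x.2 : P)) := by
    constructor
    · rintro ⟨⟨a, ha⟩, ⟨b, hb⟩⟩ ⟨⟨a', ha'⟩, ⟨b', hb'⟩⟩ hab
      have hab' : a * b = a' * b' := hab
      have h1 : a'⁻¹ * a = b' * b⁻¹ := by
        rw [inv_mul_eq_iff_eq_mul, ← mul_assoc, ← hab', mul_assoc, mul_inv_cancel, mul_one]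
      have h2 : a'⁻¹ * a ∈ A := A.mul_mem (A.inv_mem ha') ha
      have h3 : a'⁻¹ * a ∈ B := by
        rw [h1]
        exact B.mul_mem hb' (B.inv_mem hb)
      have h4 : a'⁻¹ * a = 1 := Subgroup.disjoint_def.1 hd h2 h3
      have h5 : a = a' := (inv_mul_eq_one.1 h4).symm
      subst h5
      have h6 : b = b' := mul_left_cancel hab'
      subst h6
      rfl
    · intro k
      obtain ⟨a, ha, b, hb, rfl⟩ := hK k
      exact ⟨(⟨a, ha⟩, ⟨b, hb⟩), rfl⟩
  have hcA : (0 : ℝ) < Nat.card A := by exact_mod_cast Nat.card_pos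
  have hcB : (0 : ℝ) < Nat.card B := by exact_mod_cast Nat.card_pos
  have hcP : (Nat.card P : ℝ) = Nat.card A * Nat.card B := by
    rw [← Nat.card_congr (Equiv.ofBijective _ hbij), Nat.card_prod, Nat.cast_mul]
  have hsum : ∀ x : A × B, τ x.1 + τ x.2 ≤ τ 1 + (τ ((x.1 : P) * x.2) + τ ((x.1 : P) * (x.2 : P)⁻¹)) / 2 :=
    fun x => four_point h (hcomm _ x.1.2 _ x.2.2)
  have h1 := Finset.sum_le_sum fun x (_ : x ∈ (Finset.univ : Finset (A × B))) => hsum x
  have s1 : ∑ x : A × B, τ x.1 = Nat.card B * ∑ a : A, τ a := by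
    rw [Fintype.sum_prod_type]
    simp only [Finset.sum_const, Finset.card_univ, nsmul_eq_mul]
    rw [← Finset.mul_sum, Nat.card_eq_fintype_card]
  have s2 : ∑ x : A × B, τ x.2 = Nat.card A * ∑ b : B, τ b := by
    rw [Fintype.sum_prod_type]
    simp only [Finset.sum_const, Finset.card_univ, nsmul_eq_mul]
    rw [Nat.card_eq_fintype_card]
  have s3 : ∑ x : A × B, τ ((x.1 : P) * x.2) = ∑ p, τ p :=
    Fintype.sum_equiv (Equiv.ofBijective _ hbij) _ _ fun x => rfl
  have s4 : ∑ x : A × B, τ ((x.1 : P) * (x.2 : P)⁻¹) = ∑ p, τ p := by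
    rw [← s3]
    exact Fintype.sum_equiv (Equiv.prodCongr (Equiv.refl A) (Equiv.inv B)) _ _ fun x => rfl
  have s5 : ∑ _x : A × B, τ 1 = Nat.card A * Nat.card B * τ 1 := by
    rw [Finset.sum_const, Finset.card_univ, nsmul_eq_mul, ← Nat.card_eq_fintype_card,
      Nat.card_prod, Nat.cast_mul]
  rw [Finset.sum_add_distrib, Finset.sum_add_distrib, ← Finset.sum_div, Finset.sum_add_distrib,
    s1, s2, s3, s4, s5] at h1
  unfold av
  rw [finsum_eq_sum_of_fintype, finsum_eq_sum_of_fintype, finsum_eq_sum_of_fintype, hcP,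
    div_add_div _ _ hcA.ne' hcB.ne', add_comm (τ 1), ← sub_le_iff_le_add, ← sub_nonneg]
  have h2 : (∑ p, τ p) / (Nat.card A * Nat.card B) - (((∑ a : A, τ a) * Nat.card B +
      Nat.card A * ∑ b : B, τ b) / (Nat.card A * Nat.card B) - τ 1) =
      (Nat.card A * Nat.card B * τ 1 + ∑ p, τ p - (Nat.card B * ∑ a : A, τ a +
        Nat.card A * ∑ b : B, τ b)) / (Nat.card A * Nat.card B) := by
    field_simp
    ring
  rw [h2]
  apply div_nonneg _ (by positivity)
  linarith

theorem nn_sup (h : HP θ) (K A B : Subgroup G) (hA : A ≤ K) (hB : B ≤ K)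
    (nA : ∀ k ∈ K, ∀ a ∈ A, k * a * k⁻¹ ∈ A) (nB : ∀ k ∈ K, ∀ b ∈ B, k * b * k⁻¹ ∈ B)
    (hK : ∀ k ∈ K, ∃ a ∈ A, ∃ b ∈ B, k = a * b) :
    nn θ K + nn θ (A ⊓ B) ≤ nn θ A + nn θ B := by
  classical
  have NA : (A.subgroupOf K).Normal := ⟨fun a ha k => by
    rw [Subgroup.mem_subgroupOf] at ha ⊢
    exact nA _ k.2 _ ha⟩
  have NB : (B.subgroupOf K).Normal := ⟨fun a ha k => by
    rw [Subgroup.mem_subgroupOf] at ha ⊢
    exact nB _ k.2 _ ha⟩
  set A' := A.subgroupOf K with hA'
  set B' := B.subgroupOf K with hB'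
  set N := A' ⊓ B' with hN
  have NN : N.Normal := Subgroup.normal_inf_normal A' B'
  set π := QuotientGroup.mk' N with hπ
  have hπs : Function.Surjective π := QuotientGroup.mk'_surjective N
  have hker : π.ker = N := QuotientGroup.ker_mk' N
  have hHP : HP (push π (fun k : K => θ k)) := (h.comp K.subtype).push π hπs
  have cA : (A'.map π).comap π = A' := by
    rw [Subgroup.comap_map_eq, hker]
    exact sup_eq_left.2 inf_le_left
  have cB : (B'.map π).comap π = B' := by
    rw [Subgroup.comap_map_eq, hker]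
    exact sup_eq_left.2 inf_le_right
  have hdis : Disjoint (A'.map π) (B'.map π) := by
    rw [Subgroup.disjoint_def]
    intro x hx hx'
    obtain ⟨y, rfl⟩ := hπs x
    have h1 : y ∈ A' := by rw [← cA]; exact hx
    have h2 : y ∈ B' := by rw [← cB]; exact hx'
    have h3 : y ∈ π.ker := by rw [hker]; exact ⟨h1, h2⟩
    exact h3
  have hprod : ∀ k : K ⧸ N, ∃ a ∈ A'.map π, ∃ b ∈ B'.map π, k = a * b := by
    intro k
    obtain ⟨y, rfl⟩ := hπs k
    obtain ⟨a, ha, b, hb, hab⟩ := hK y y.2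
    refine ⟨π ⟨a, hA ha⟩, Subgroup.mem_map_of_mem π (Subgroup.mem_subgroupOf.2 ha),
      π ⟨b, hB hb⟩, Subgroup.mem_map_of_mem π (Subgroup.mem_subgroupOf.2 hb), ?_⟩
    rw [← map_mul]
    congr 1
    exact Subtype.ext hab
  have key := av_disj_h36 hHP (A'.map π) (B'.map π) (NA.map π hπs) (NB.map π hπs) hdis hprod
  have eA := av_push π hπs (fun k : K => θ k) (A'.map π)
  have eB := av_push π hπs (fun k : K => θ k) (B'.map π)
  have eT := av_push π hπs (fun k : K => θ k) ⊤
  have eN := av_push π hπs (fun k : K => θ k) ⊥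
  rw [cA] at eA
  rw [cB] at eB
  have e5 : av (fun x : (⊤ : Subgroup K) => θ x) = av (fun k : K => θ k) :=
    av_top (fun k : K => θ k)
  rw [Subgroup.comap_top, av_top, e5] at eT
  rw [MonoidHom.comap_bot, hker] at eN
  have e1 : av (fun k : (⊥ : Subgroup (K ⧸ N)) => push π (fun k : K => θ k) k) =
      push π (fun k : K => θ k) 1 := by
    unfold av
    rw [finsum_eq_sum_of_fintype]
    simp
    rfl
  rw [e1] at eN
  rw [eA, eB, eT, eN, hker, ← mul_add, ← mul_add] at key
  have hc : (0 : ℝ) < Nat.card N := by exact_mod_cast Nat.card_pos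
  have key2 := le_of_mul_le_mul_left key hc
  have f1 : av (fun x : A' => θ x) = av (fun x : A => θ x) :=
    av_comp_equiv (Subgroup.subgroupOfEquivOfLe hA).toEquiv (fun x : A => θ x)
  have f2 : av (fun x : B' => θ x) = av (fun x : B => θ x) :=
    av_comp_equiv (Subgroup.subgroupOfEquivOfLe hB).toEquiv (fun x : B => θ x)
  have f3 : av (fun x : N => θ x) = av (fun x : (A ⊓ B : Subgroup G) => θ x) := by
    have hNN : N = (A ⊓ B).subgroupOf K := rfl
    rw [hNN]
    exact av_comp_equiv (Subgroup.subgroupOfEquivOfLe (inf_le_left.trans hA)).toEquiv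
      (fun x : (A ⊓ B : Subgroup G) => θ x)
  unfold nn
  have g1 : av (fun x : A' => (fun k : K => θ k) x) = av (fun x : A => θ x) := f1
  have g2 : av (fun x : B' => (fun k : K => θ k) x) = av (fun x : B => θ x) := f2
  have g3 : av (fun x : N => (fun k : K => θ k) x) = av (fun x : (A ⊓ B : Subgroup G) => θ x) := f3
  rw [g1, g2, g3] at key2
  linarith

end Pool.Agent.Helper70.GLn
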