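import Pool.Agent.Helper70.GLn.GR2

/-!
# GL-GR3: commuting elements (80-150 lines)

PROOF. `nn_prod_le`: induction on `t`; for commuting families the group `K = closure (range y)` is commutative
(`closure_comm`, Helper94/Ded/Comm), `K = A * B` with `A` = closure of the first `t` elements and `B = zpowers (y last)`;
`nn_sup` with `nn_nonneg` gives `nn K ≤ nn A + nn B`, so `nn (closure (range y)) ≤ ∑ nn (zpowers (y i))`; finally `nn_mono_comm` for
`zpowers x ≤ closure (range y)`. (State and prove the bound for the closure first.)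
`nn_le_of_wreath`: `Y = closure {w^i y w^-i : i : ℕ}` is commutative (`closure_comm`) and `w Y w⁻¹ ⊆ Y` (`closure_conj`).
`y₁ = w y w⁻¹`. `c = y * y₁⁻¹ = y * w * y⁻¹ * w⁻¹ ∈ commSub Y w`, so `nn (zpowers c) ≤ nn (commSub Y w) ≤ θ 1 - θ w`
(`nn_mono_comm`, `nn_commSub_le`). `τ c τ⁻¹ = y ^ q * y₁⁻¹ =: c'` and `nn (zpowers c') = nn (zpowers c)` (`nn_conj`,
`MonoidHom.map_zpowers`). `c` and `c'` commute (both in `Y`), `c' * c⁻¹ = y ^ (q - 1)` and `y` is a power of
`y ^ (q - 1)` (coprimality), so `y ∈ closure {c, c'}`; `nn_prod_le` for the two elements.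
-/

set_option autoImplicit false

open Pool.Agent.Helper13.Ded Pool.Agent.Helper94.Ded

namespace Pool.Agent.Helper70.GLn

variable {G : Type*} [Group G] [Finite G] {θ : G → ℝ}

private theorem nn_closure_h88 (h : HP θ) {t : ℕ} (y : Fin t → G)
    (hc : ∀ i j, Commute (y i) (y j)) :
    nn θ (Subgroup.closure (Set.range y)) ≤ ∑ i, nn θ (Subgroup.zpowers (y i)) := by
  classical
  induction t with
  | zero =>
    have e : Subgroup.closure (Set.range y) = ⊥ := by
      rw [Set.range_eq_empty, Subgroup.closure_empty]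
    rw [e, Finset.univ_eq_empty, Finset.sum_empty]
    unfold nn av
    rw [finsum_eq_sum_of_fintype]
    simp
    exact le_refl _
  | succ t ih =>
    have hcc : ∀ a ∈ Subgroup.closure (Set.range y), ∀ b ∈ Subgroup.closure (Set.range y),
        a * b = b * a := by
      apply closure_comm
      rintro _ ⟨i, rfl⟩ _ ⟨j, rfl⟩
      exact hc i j
    set A := Subgroup.closure (Set.range fun i : Fin t => y i.castSucc) with hA
    set B := Subgroup.zpowers (y (Fin.last t)) with hB
    have hAK : A ≤ Subgroup.closure (Set.range y) := by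
      apply Subgroup.closure_mono
      rintro _ ⟨i, rfl⟩
      exact ⟨i.castSucc, rfl⟩
    have hBK : B ≤ Subgroup.closure (Set.range y) := by
      rw [hB, Subgroup.zpowers_le]
      exact Subgroup.subset_closure ⟨_, rfl⟩
    have h1 := nn_sup h (Subgroup.closure (Set.range y)) A B hAK hBK
      (fun k hk a ha => by
        rw [hcc k hk a (hAK ha), mul_inv_cancel_right]
        exact ha)
      (fun k hk a ha => by
        rw [hcc k hk a (hBK ha), mul_inv_cancel_right]
        exact ha)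
      (fun k hk => by
        induction hk using Subgroup.closure_induction with
        | mem x hx =>
          obtain ⟨i, rfl⟩ := hx
          refine Fin.lastCases ?_ (fun j => ?_) i
          · exact ⟨1, A.one_mem, _, Subgroup.mem_zpowers _, (one_mul _).symm⟩
          · exact ⟨_, Subgroup.subset_closure ⟨j, rfl⟩, 1, B.one_mem, (mul_one _).symm⟩
        | one => exact ⟨1, A.one_mem, 1, B.one_mem, (one_mul _).symm⟩
        | mul x z _ _ hx hz =>
          obtain ⟨a, ha, b, hb, rfl⟩ := hx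
          obtain ⟨a', ha', b', hb', rfl⟩ := hz
          refine ⟨a * a', A.mul_mem ha ha', b * b', B.mul_mem hb hb', ?_⟩
          have := hcc b (hBK hb) a' (hAK ha')
          rw [mul_assoc, ← mul_assoc b, this, mul_assoc, mul_assoc]
        | inv x _ hx =>
          obtain ⟨a, ha, b, hb, rfl⟩ := hx
          refine ⟨a⁻¹, A.inv_mem ha, b⁻¹, B.inv_mem hb, ?_⟩
          rw [mul_inv_rev]
          exact hcc _ (hBK (B.inv_mem hb)) _ (hAK (A.inv_mem ha)))
    have h2 := nn_nonneg h (A ⊓ B)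
    have h3 := ih (fun i => y i.castSucc) (fun i j => hc _ _)
    rw [Fin.sum_univ_castSucc]
    linarith

theorem nn_prod_le (h : HP θ) {t : ℕ} (y : Fin t → G) (hc : ∀ i j, Commute (y i) (y j)) (x : G)
    (hx : x ∈ Subgroup.closure (Set.range y)) :
    nn θ (Subgroup.zpowers x) ≤ ∑ i, nn θ (Subgroup.zpowers (y i)) := by
  refine le_trans (nn_mono_comm h (K' := Subgroup.closure (Set.range y)) ?_ ?_)
    (nn_closure_h88 h y hc)
  · rw [Subgroup.zpowers_le]
    exact hx
  · apply closure_comm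
    rintro _ ⟨i, rfl⟩ _ ⟨j, rfl⟩
    exact hc i j

theorem nn_le_of_wreath (h : HP θ) {q : ℕ} (hq : 2 ≤ q) (w y τ : G)
    (hc : ∀ i j : ℕ, Commute (w ^ i * y * (w ^ i)⁻¹) (w ^ j * y * (w ^ j)⁻¹))
    (hτ : τ * y * τ⁻¹ = y ^ q) (hτ1 : Commute τ (w * y * w⁻¹))
    (hco : (orderOf y).Coprime (q - 1)) :
    nn θ (Subgroup.zpowers y) ≤ 2 * (θ 1 - θ w) := by
  set Y := Subgroup.closure (Set.range fun i : ℕ => w ^ i * y * (w ^ i)⁻¹) with hY
  have hYc : ∀ a ∈ Y, ∀ b ∈ Y, a * b = b * a := by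
    apply closure_comm
    rintro _ ⟨i, rfl⟩ _ ⟨j, rfl⟩
    exact hc i j
  have hYw : ∀ a ∈ Y, w * a * w⁻¹ ∈ Y := by
    apply closure_conj
    rintro _ ⟨i, rfl⟩
    refine ⟨i + 1, ?_⟩
    show w ^ (i + 1) * y * (w ^ (i + 1))⁻¹ = w * (w ^ i * y * (w ^ i)⁻¹) * w⁻¹
    rw [pow_succ']
    group
  have hyY : y ∈ Y := Subgroup.subset_closure ⟨0, by simp⟩
  have hy1 : w * y * w⁻¹ ∈ Y := hYw y hyY
  set c := y * (w * y * w⁻¹)⁻¹ with hcdef
  set c' := y ^ q * (w * y * w⁻¹)⁻¹ with hcdef'
  have hcY : c ∈ Y := Y.mul_mem hyY (Y.inv_mem hy1)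
  have hcY' : c' ∈ Y := Y.mul_mem (Y.pow_mem hyY q) (Y.inv_mem hy1)
  have h1 : nn θ (Subgroup.zpowers c) ≤ θ 1 - θ w := by
    refine le_trans (nn_mono_comm h (K' := commSub Y w hYc hYw) ?_ ?_)
      (nn_commSub_le h Y w hYc hYw)
    · rw [Subgroup.zpowers_le]
      refine ⟨y, hyY, ?_⟩
      rw [hcdef]
      group
    · intro a ha b hb
      exact hYc a (commSub_le ha) b (commSub_le hb)
  have h2 : nn θ (Subgroup.zpowers c') = nn θ (Subgroup.zpowers c) := by
    rw [← nn_conj h τ (Subgroup.zpowers c), MonoidHom.map_zpowers]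
    congr 2
    show c' = τ * c * τ⁻¹
    have e1 : τ * c * τ⁻¹ = (τ * y * τ⁻¹) * (τ * (w * y * w⁻¹) * τ⁻¹)⁻¹ := by
      rw [hcdef]
      group
    rw [e1, hτ, hτ1.eq, mul_inv_cancel_right]
  have h3 : c' * c⁻¹ = y ^ (q - 1) := by
    have e1 : c' * c⁻¹ = y ^ q * y⁻¹ := by
      rw [hcdef, hcdef']
      group
    rw [e1, mul_inv_eq_iff_eq_mul, ← pow_succ, Nat.sub_add_cancel (by omega)]
  obtain ⟨m, hm⟩ := exists_pow_eq_self_of_coprime (x := y) (n := q - 1) hco.symm
  have h4 := nn_prod_le h ![c, c'] (by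
    intro i j
    have hh : ∀ i : Fin 2, (![c, c'] : Fin 2 → G) i ∈ Y := by
      intro i
      fin_cases i
      · exact hcY
      · exact hcY'
    exact hYc _ (hh i) _ (hh j)) y (by
    rw [← hm, ← h3]
    apply Subgroup.pow_mem
    apply Subgroup.mul_mem
    · exact Subgroup.subset_closure ⟨1, rfl⟩
    · apply Subgroup.inv_mem
      exact Subgroup.subset_closure ⟨0, rfl⟩)
  rw [Fin.sum_univ_two] at h4
  have h5 : nn θ (Subgroup.zpowers ((![c, c'] : Fin 2 → G) 0)) = nn θ (Subgroup.zpowers c) := rfl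
  have h6 : nn θ (Subgroup.zpowers ((![c, c'] : Fin 2 → G) 1)) = nn θ (Subgroup.zpowers c') := rfl
  rw [h5, h6, h2] at h4
  linarith

end Pool.Agent.Helper70.GLn
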