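import Pool.Agent.Helper70.GLn.FO

/-!
# GL-LH: the Fourier coefficients on the stabiliser (100-160 lines)

`Γ` acts through `ι : Γ → Lev` and fixes `M ≠ 0`.
PROOF. `f γ = phi θ M (ι γ) = av_X θ (dg (ι γ) * u1 X) * Re (ch M X)`. `conj`: conjugation by `dg (ι δ)` maps
`dg (ι γ) * u1 X` to `dg (ι (δ γ δ⁻¹)) * u1 (act (ι δ) X)` and `ch M (act (ι δ) X) = ch M X` (`ch_act`, `cact (ι δ) M = M`). `inv`:
`(dg l * u1 X)⁻¹ = dg l⁻¹ * u1 (act l (-X))`, `Re (ch M (-X)) = Re (ch M X)`. `pos`: for `K ≤ Γ`, `ψ : K → ℂˣ` let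
`S = Multiplicative (B →ₗ[F] A) ⋊ K` (semidirect product, action by `act`; or the set of pairs) with the homomorphism
`s = (X, k) ↦ u1 X * dg (ι k)` to `SpecialLinearGroup F (A × B)` and the characters `χ± (X, k) = (ch M (± X)) * ψ k` (homomorphisms,
because `ch M` is invariant under `K`; nontrivial, because `ch M ≠ 1` for `M ≠ 0`). By `HP.comp` and `HP.pos` (or `pull`)
`0 ≤ Re ∑_{X, k} θ (u1 X * dg (ι k)) * ch M (± X) * ψ k`; add the two inequalities: `ch M X + ch M (-X) = 2 Re (ch M X)`,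
and `u1 X * dg l = dg l * u1 (act l⁻¹ X)`.
`abs_phi_le`: an `LHP` function `f` on a finite group satisfies `|f γ| ≤ f 1`: on the cyclic group `zpowers γ` all Fourier coefficients are
nonnegative (`fourier_inv`, as in `HP.le_one`), apply this to `Γ = zpowers l`, `ι` the inclusion.
-/

set_option autoImplicit false

open Module Pool.Agent.Helper13.Ded

namespace Pool.Agent.Helper70.GLn

private lemma sum_nonneg65 {G P : Type*} [Group G] [Group P] [Finite P] {θ : G → ℝ} (h : LHP θ)
    (q : P →* G) : 0 ≤ ∑ᶠ p, θ (q p) := by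
  classical
  have := Fintype.ofFinite P
  have : Fintype q.range := Fintype.ofFinite _
  have h1 := h.pos q.range 1
  rw [finsum_eq_sum_of_fintype] at h1 ⊢
  have h2 := sum_comp_hom q.rangeRestrict q.rangeRestrict_surjective (fun k : q.range => θ k)
  have h3 : ∑ p, θ (q p) = Nat.card q.rangeRestrict.ker • ∑ k : q.range, θ k := by
    rw [← h2]
    rfl
  rw [h3, nsmul_eq_mul]
  refine mul_nonneg (Nat.cast_nonneg _) ?_
  rw [Complex.re_sum] at h1
  simpa using h1

theorem LHP.abs_le {G : Type*} [Group G] [Finite G] {θ : G → ℝ} (h : LHP θ) (g : G) :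
    |θ g| ≤ θ 1 := by
  classical
  have := Fintype.ofFinite G
  set n := orderOf g with hn
  have hn0 : 0 < n := orderOf_pos g
  haveI : NeZero n := ⟨hn0.ne'⟩
  let q : Multiplicative (ZMod n) →* G :=
    AddMonoidHom.toMultiplicativeLeft (ZMod.lift n ⟨zmultiplesHom (Additive G) (Additive.ofMul g), by
      simp [hn, ← ofMul_pow, pow_orderOf_eq_one]⟩)
  have hq : ∀ i : ℤ, q (Multiplicative.ofAdd (i : ZMod n)) = g ^ i := by
    intro i
    simp [q]
  have hf := h.hp.fp q
  set f : ZMod n → ℝ := fun a => θ (q (Multiplicative.ofAdd a)) with hfdef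
  have e0 := fourier_inv f hf.inv 0
  have e1 := fourier_inv f hf.inv 1
  have h0 : f 0 = θ 1 := by simp [hfdef]
  have h1 : f 1 = θ g := by
    have := hq 1
    simp only [Int.cast_one, zpow_one] at this
    simp [hfdef, this]
  have hcard : (0 : ℝ) < (Fintype.card (ZMod n) : ℝ) := by
    exact_mod_cast Fintype.card_pos
  have hpos : ∀ χ : AddChar (ZMod n) ℂ, 0 ≤ hat f χ := by
    intro χ
    by_cases hχ : χ = 0
    · subst hχ
      have h2 := sum_nonneg65 h q
      unfold hat
      rw [finsum_eq_sum_of_fintype] at h2 ⊢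
      rw [Complex.re_sum]
      have h3 : ∑ a : ZMod n, ((f a : ℂ) * (0 : AddChar (ZMod n) ℂ) a).re =
          ∑ p : Multiplicative (ZMod n), θ (q p) := by
        refine Fintype.sum_equiv Multiplicative.ofAdd _ _ (fun a => ?_)
        simp [hfdef]
      rw [h3]
      exact h2
    · exact hf.pos χ hχ
  have key : |(Fintype.card (ZMod n) : ℝ) * f 1| ≤ (Fintype.card (ZMod n) : ℝ) * f 0 := by
    rw [e0, e1]
    refine (Finset.abs_sum_le_sum_abs _ _).trans (Finset.sum_le_sum fun χ _ => ?_)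
    rw [abs_mul, abs_of_nonneg (hpos χ), AddChar.map_zero_eq_one, Complex.one_re]
    refine mul_le_mul_of_nonneg_left ?_ (hpos χ)
    calc |(χ 1).re| ≤ ‖χ 1‖ := Complex.abs_re_le_norm _
      _ = 1 := χ.norm_apply 1
  rw [h0, h1, abs_mul, abs_of_pos hcard] at key
  exact le_of_mul_le_mul_left key hcard

variable {F A B : Type} [Field F] [Finite F] [AddCommGroup A] [Module F A] [Finite A]
  [AddCommGroup B] [Module F B] [Finite B] {θ : SpecialLinearGroup F (A × B) → ℝ}

private lemma fin65 {U W : Type} [AddCommGroup U] [Module F U] [Finite U] [AddCommGroup W]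
    [Module F W] [Finite W] : Finite (U →ₗ[F] W) := Finite.of_injective _ DFunLike.coe_injective

private lemma act_bij65 (l : Lev F A B) :
    Function.Bijective (act l : (B →ₗ[F] A) → (B →ₗ[F] A)) := by
  have : Finite (B →ₗ[F] A) := fin65
  rw [← Finite.injective_iff_bijective]
  intro X Y h
  ext b
  have h1 := LinearMap.congr_fun h (l.1.2 b)
  rw [act_apply, act_apply, LinearEquiv.symm_apply_apply] at h1
  exact l.1.1.injective h1

private lemma act_add65 (l : Lev F A B) (X Y : B →ₗ[F] A) : act l (X + Y) = act l X + act l Y := by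
  ext b
  simp [act_apply]

private lemma act_neg65 (l : Lev F A B) (X : B →ₗ[F] A) : act l (-X) = -act l X := by
  ext b
  simp [act_apply]

private lemma act_mul65 (l l' : Lev F A B) (X : B →ₗ[F] A) : act (l * l') X = act l (act l' X) := by
  ext b
  rfl

private lemma act_one65 (X : B →ₗ[F] A) : act (1 : Lev F A B) X = X := by
  ext b
  rfl

private lemma ch_inv65 {l : Lev F A B} {M : A →ₗ[F] B} (hl : cact l M = M) (X : B →ₗ[F] A) :
    ch M (act l X) = ch M X := by
  have h1 := ch_act l M X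
  rwa [hl] at h1

private lemma ch_neg65 (M : A →ₗ[F] B) (X : B →ₗ[F] A) : ch M (-X) = (starRingEnd ℂ) (ch M X) := by
  have : Finite (B →ₗ[F] A) := fin65
  exact (conj_apply (ch M) X).symm

private lemma ch_negM65 (M : A →ₗ[F] B) (X : B →ₗ[F] A) :
    ch (-M) X = (starRingEnd ℂ) (ch M X) := by
  rw [← ch_neg65, ch_apply, ch_apply, LinearMap.neg_comp, LinearMap.comp_neg]

private lemma u1_neg65 (X : B →ₗ[F] A) : (u1 (-X) : SpecialLinearGroup F (A × B)) = (u1 X)⁻¹ := by
  rw [eq_inv_iff_mul_eq_one, ← u1_add, neg_add_cancel, u1_zero]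

/-- the action of a group mapping to the Levi subgroup -/
private def actA65 {Γ : Type} [Group Γ] (ι : Γ →* Lev F A B) :
    Γ →* MulAut (Multiplicative (B →ₗ[F] A)) where
  toFun γ :=
    { toFun := fun X => Multiplicative.ofAdd (act (ι γ) (Multiplicative.toAdd X))
      invFun := fun X => Multiplicative.ofAdd (act (ι γ)⁻¹ (Multiplicative.toAdd X))
      left_inv := fun X => by
        show Multiplicative.ofAdd (act (ι γ)⁻¹ (act (ι γ) (Multiplicative.toAdd X))) = X
        rw [← act_mul65, inv_mul_cancel, act_one65]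
        rfl
      right_inv := fun X => by
        show Multiplicative.ofAdd (act (ι γ) (act (ι γ)⁻¹ (Multiplicative.toAdd X))) = X
        rw [← act_mul65, mul_inv_cancel, act_one65]
        rfl
      map_mul' := fun X Y => by
        show Multiplicative.ofAdd (act (ι γ) (Multiplicative.toAdd X + Multiplicative.toAdd Y)) = _
        rw [act_add65]
        rfl }
  map_one' := by
    refine MulEquiv.ext fun X => ?_
    show Multiplicative.ofAdd (act (ι 1) (Multiplicative.toAdd X)) = X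
    rw [map_one, act_one65]
    rfl
  map_mul' γ δ := by
    refine MulEquiv.ext fun X => ?_
    show Multiplicative.ofAdd (act (ι (γ * δ)) (Multiplicative.toAdd X)) =
      Multiplicative.ofAdd (act (ι γ) (act (ι δ) (Multiplicative.toAdd X)))
    rw [map_mul, act_mul65]

private lemma ne_one65 {M : A →ₗ[F] B} (hM : M ≠ 0) : ∃ X, ch M X ≠ 1 := by
  by_contra hcon
  push Not at hcon
  apply hM
  apply ch_bijective.1
  ext X
  rw [hcon X, ch_apply, LinearMap.zero_comp, map_zero, AddChar.map_zero_eq_one]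

private lemma pos65 (h : HP θ) {Γ : Type} [Group Γ] [Finite Γ] (ι : Γ →* Lev F A B)
    {M : A →ₗ[F] B} (hM : M ≠ 0) (hι : ∀ γ, cact (ι γ) M = M) (K : Subgroup Γ) (ψ : K →* ℂˣ) :
    0 ≤ (∑ᶠ z : (B →ₗ[F] A) × K, (θ (u1 z.1 * dg (ι z.2)) : ℂ) *
      (ch M z.1 * ((ψ z.2 : ℂˣ) : ℂ))).re := by
  have f1 : Finite (B →ₗ[F] A) := fin65
  have f2 : Finite (Multiplicative (B →ₗ[F] A)) := f1
  set φ : K →* MulAut (Multiplicative (B →ₗ[F] A)) := (actA65 ι).comp K.subtype with hφ
  have f3 : Finite (Multiplicative (B →ₗ[F] A) ⋊[φ] K) :=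
    Finite.of_equiv _ SemidirectProduct.equivProd.symm
  set χ0 : Multiplicative (B →ₗ[F] A) →* ℂˣ := (AddChar.toMonoidHom (ch M)).toHomUnits with hχ0
  have hχv : ∀ X : Multiplicative (B →ₗ[F] A), ((χ0 X : ℂˣ) : ℂ) = ch M (Multiplicative.toAdd X) := by
    intro X
    rfl
  let q : Multiplicative (B →ₗ[F] A) ⋊[φ] K →* SpecialLinearGroup F (A × B) :=
    SemidirectProduct.lift uu ((dg.comp ι).comp K.subtype) (by
      intro k
      refine MonoidHom.ext fun X => ?_
      show u1 (act (ι k) (Multiplicative.toAdd X)) = dg (ι k) * u1 (Multiplicative.toAdd X) * (dg (ι k))⁻¹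
      rw [dg_conj_u1])
  let χ : Multiplicative (B →ₗ[F] A) ⋊[φ] K →* ℂˣ :=
    SemidirectProduct.lift χ0 ψ (by
      intro k
      refine MonoidHom.ext fun X => ?_
      show χ0 (Multiplicative.ofAdd (act (ι k) (Multiplicative.toAdd X))) = ψ k * χ0 X * (ψ k)⁻¹
      rw [mul_right_comm, mul_inv_cancel, one_mul]
      apply Units.ext
      rw [hχv, hχv, toAdd_ofAdd, ch_inv65 (hι _)])
  obtain ⟨X0, hX0⟩ := ne_one65 hM
  have hχ1 : ∃ p, χ p ≠ 1 := by
    refine ⟨SemidirectProduct.inl (Multiplicative.ofAdd X0), ?_⟩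
    intro h1
    rw [SemidirectProduct.lift_inl] at h1
    apply hX0
    have h2 := congrArg (Units.val) h1
    rw [hχv] at h2
    exact h2
  have h1 := pull (θ := θ) (fun _ => True)
      (fun K' ψ' hk _ => h.pos K' ψ' (by
        rintro rfl
        obtain ⟨k, hk⟩ := hk
        exact hk rfl)) q trivial χ hχ1
  have h2 : (∑ᶠ p, (θ (q p) : ℂ) * ((χ p : ℂˣ) : ℂ)) =
      ∑ᶠ z : (B →ₗ[F] A) × K, (θ (u1 z.1 * dg (ι z.2)) : ℂ) *
      (ch M z.1 * ((ψ z.2 : ℂˣ) : ℂ)) := by
    let e : (B →ₗ[F] A) × K ≃ Multiplicative (B →ₗ[F] A) ⋊[φ] K :=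
      (Equiv.prodCongr Multiplicative.ofAdd (Equiv.refl K)).trans SemidirectProduct.equivProd.symm
    rw [← finsum_comp_equiv e]
    refine finsum_congr fun z => ?_
    rfl
  rw [h2] at h1
  exact h1

theorem phi_lhp (h : HP θ) {Γ : Type} [Group Γ] [Finite Γ] (ι : Γ →* Lev F A B)
    {M : A →ₗ[F] B} (hM : M ≠ 0) (hι : ∀ γ, cact (ι γ) M = M) : LHP (fun γ => phi θ M (ι γ)) := by
  classical
  have f1 : Finite (B →ₗ[F] A) := fin65
  have f1' := Fintype.ofFinite (B →ₗ[F] A)
  refine ⟨?_, ?_, ?_⟩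
  · intro g d
    show phi θ M (ι (d * g * d⁻¹)) = phi θ M (ι g)
    unfold phi
    rw [← av_comp_equiv (Equiv.ofBijective _ (act_bij65 (ι d)))]
    congr 1
    ext X
    simp only [Equiv.ofBijective_apply]
    rw [ch_inv65 (hι d)]
    congr 1
    have e1 : dg (ι (d * g * d⁻¹)) * u1 (act (ι d) X) =
        dg (ι d) * (dg (ι g) * u1 X) * (dg (ι d))⁻¹ := by
      rw [← dg_conj_u1, map_mul, map_mul, map_inv, map_mul, map_mul, map_inv]
      group
    rw [e1, h.conj]
  · intro g
    show phi θ M (ι g⁻¹) = phi θ M (ι g)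
    unfold phi
    rw [← av_comp_equiv ((Equiv.neg (B →ₗ[F] A)).trans (Equiv.ofBijective _ (act_bij65 (ι g))))]
    congr 1
    ext X
    simp only [Equiv.trans_apply, Equiv.neg_apply, Equiv.ofBijective_apply]
    rw [ch_inv65 (hι g), ch_neg65, Complex.conj_re]
    congr 1
    have e1 : dg (ι g⁻¹) * u1 (act (ι g) (-X)) = (dg (ι g) * u1 X)⁻¹ := by
      rw [← dg_conj_u1, map_inv, map_inv, u1_neg65]
      group
    rw [e1, h.inv]
  · intro K ψ
    have f2 := Fintype.ofFinite K
    have hc : (0:ℝ) < Nat.card (B →ₗ[F] A) := by exact_mod_cast Nat.card_pos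
    have hM' : -M ≠ 0 := neg_ne_zero.2 hM
    have hι' : ∀ γ, cact (ι γ) (-M) = -M := by
      intro γ
      have h1 : cact (ι γ) (-M) = -cact (ι γ) M := by
        ext a
        simp [cact]
      rw [h1, hι]
    have p1 := pos65 h ι hM hι K ψ
    have p2 := pos65 h ι hM' hι' K ψ
    rw [finsum_eq_sum_of_fintype] at p1 p2 ⊢
    have key : ∀ k : K, ((Nat.card (B →ₗ[F] A) : ℝ) : ℂ) * ((phi θ M (ι k) : ℝ) : ℂ) =
        ∑ X : B →ₗ[F] A, (θ (u1 X * dg (ι k)) : ℂ) * ((ch M X + ch (-M) X) / 2) := by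
      intro k
      have e1 : (Nat.card (B →ₗ[F] A) : ℝ) * phi θ M (ι k) =
          ∑ X : B →ₗ[F] A, θ (dg (ι k) * u1 X) * (ch M X).re := by
        unfold phi av
        rw [finsum_eq_sum_of_fintype, mul_div_cancel₀ _ hc.ne']
      have e2 : ∑ X : B →ₗ[F] A, θ (dg (ι k) * u1 X) * (ch M X).re =
          ∑ X : B →ₗ[F] A, θ (u1 X * dg (ι k)) * (ch M X).re := by
        refine Fintype.sum_bijective _ (act_bij65 (ι k)) _ _ (fun X => ?_)
        rw [dg_mul_u1, ch_inv65 (hι k)]
      rw [← Complex.ofReal_mul, e1, e2, Complex.ofReal_sum]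
      refine Finset.sum_congr rfl fun X _ => ?_
      rw [Complex.ofReal_mul, Complex.re_eq_add_conj, ch_negM65]
    have hsum : ((Nat.card (B →ₗ[F] A) : ℝ) : ℂ) * ∑ k : K, ((phi θ M (ι k) : ℝ) : ℂ) * ((ψ k : ℂˣ) : ℂ) =
        ((∑ z : (B →ₗ[F] A) × K, (θ (u1 z.1 * dg (ι z.2)) : ℂ) * (ch M z.1 * ((ψ z.2 : ℂˣ) : ℂ))) +
        ∑ z : (B →ₗ[F] A) × K, (θ (u1 z.1 * dg (ι z.2)) : ℂ) * (ch (-M) z.1 * ((ψ z.2 : ℂˣ) : ℂ))) / 2 := by
      rw [Finset.mul_sum, ← Finset.sum_add_distrib, Fintype.sum_prod_type_right, Finset.sum_div]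
      refine Finset.sum_congr rfl fun k _ => ?_
      rw [← mul_assoc, key k, Finset.sum_mul, Finset.sum_div]
      refine Finset.sum_congr rfl fun X _ => ?_
      ring
    have hre := congrArg Complex.re hsum
    rw [Complex.re_ofReal_mul] at hre
    have h3 : 0 ≤ (Nat.card (B →ₗ[F] A) : ℝ) *
        (∑ k : K, ((phi θ M (ι k) : ℝ) : ℂ) * ((ψ k : ℂˣ) : ℂ)).re := by
      rw [hre]
      have e4 : ∀ z : ℂ, (z / 2).re = z.re / 2 := by
        intro z
        have : z / 2 = z / ((2 : ℝ) : ℂ) := by norm_num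
        rw [this, Complex.div_ofReal_re]
      rw [e4, Complex.add_re]
      linarith
    exact nonneg_of_mul_nonneg_right h3 hc

theorem abs_phi_le (h : HP θ) {M : A →ₗ[F] B} (hM : M ≠ 0) (l : Lev F A B) (hl : cact l M = M) :
    |phi θ M l| ≤ phi θ M 1 := by
  have fA : Finite (A ≃ₗ[F] A) := Finite.of_injective _ DFunLike.coe_injective
  have fB : Finite (B ≃ₗ[F] B) := Finite.of_injective _ DFunLike.coe_injective
  have hmul : ∀ l l' : Lev F A B, cact (l * l') M = cact l (cact l' M) := fun l l' => rfl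
  let St : Subgroup (Lev F A B) :=
    { carrier := {l | cact l M = M}
      mul_mem' := by
        intro a b ha hb
        show cact (a * b) M = M
        rw [hmul, show cact b M = M from hb, show cact a M = M from ha]
      one_mem' := rfl
      inv_mem' := by
        intro a ha
        show cact a⁻¹ M = M
        have h1 : cact (a⁻¹ * a) M = cact a⁻¹ (cact a M) := hmul _ _
        rw [inv_mul_cancel, show cact a M = M from ha] at h1
        rw [← h1]
        rfl }
  have h1 := phi_lhp h (Γ := St) St.subtype hM (fun γ => γ.2)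
  have h2 := h1.abs_le ⟨l, hl⟩
  exact h2

end Pool.Agent.Helper70.GLn
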