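import Pool.Agent.Helper70.GLn.PS

/-!
# Project GL: elements of the Levi subgroup (proved)
-/

set_option autoImplicit false

open Module Pool.Agent.Helper13.Ded

namespace Pool.Agent.Helper70.GLn

section

variable {F A : Type} [Field F] [Finite F] [AddCommGroup A] [Module F A] [Finite A]

theorem unit_eq_one {u : Fˣ} {m : ℕ} (hm : u ^ m = 1) (hc : m.Coprime (Nat.card F - 1)) : u = 1 := by
  have h1 : u ^ (Nat.card F - 1) = 1 := by
    rw [← Nat.card_units]
    exact pow_card_eq_one'
  have h2 : orderOf u ∣ m := orderOf_dvd_of_pow_eq_one hm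
  have h3 : orderOf u ∣ Nat.card F - 1 := orderOf_dvd_of_pow_eq_one h1
  have h4 : orderOf u = 1 := Nat.dvd_one.1 (hc ▸ Nat.dvd_gcd h2 h3)
  exact orderOf_eq_one_iff.1 h4

theorem det_eq_one {y : A ≃ₗ[F] A} {m : ℕ} (hm : y ^ m = 1) (hc : m.Coprime (Nat.card F - 1)) :
    LinearEquiv.det y = 1 :=
  unit_eq_one (by rw [← map_pow, hm, map_one]) hc

end

section

variable {F A B : Type} [Field F] [Finite F] [AddCommGroup A] [Module F A] [Finite A]
  [AddCommGroup B] [Module F B] [Finite B]

/-- An element of the Levi subgroup acting on `A`. -/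
def lvA (y : A ≃ₗ[F] A) (hy : LinearEquiv.det y = 1) : Lev F A B :=
  ⟨(y, 1), by
    show LinearEquiv.det y * LinearEquiv.det (1 : B ≃ₗ[F] B) = 1
    rw [hy, map_one, one_mul]⟩

/-- An element of the Levi subgroup acting on `B`. -/
def lvB (z : B ≃ₗ[F] B) (hz : LinearEquiv.det z = 1) : Lev F A B :=
  ⟨(1, z), by
    show LinearEquiv.det (1 : A ≃ₗ[F] A) * LinearEquiv.det z = 1
    rw [hz, map_one, one_mul]⟩

end

end Pool.Agent.Helper70.GLn
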