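import Mathlib

/-!
# Project GL: from matrices to linear equivalences (proved)
-/

set_option autoImplicit false

namespace Pool.Agent.Helper70.GLn

/-- Invertible matrices as linear equivalences. -/
noncomputable def mx (F : Type) [Field F] (n : ℕ) :
    (Matrix (Fin n) (Fin n) F)ˣ ≃* ((Fin n → F) ≃ₗ[F] (Fin n → F)) :=
  (Matrix.GeneralLinearGroup.toLin (n := Fin n) (R := F)).trans
    (LinearMap.GeneralLinearGroup.generalLinearEquiv F (Fin n → F))

lemma mx_coe {F : Type} [Field F] {n : ℕ} (g : (Matrix (Fin n) (Fin n) F)ˣ) :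
    ((mx F n g : (Fin n → F) ≃ₗ[F] (Fin n → F)) : (Fin n → F) →ₗ[F] (Fin n → F)) =
      Matrix.toLin' g.1 := by
  unfold mx
  rw [MulEquiv.trans_apply, LinearMap.GeneralLinearGroup.generalLinearEquiv_to_linearMap]
  rfl

lemma mx_det {F : Type} [Field F] {n : ℕ} (g : (Matrix (Fin n) (Fin n) F)ˣ) :
    LinearEquiv.det (mx F n g) = 1 ↔ g.1.det = 1 := by
  rw [Units.ext_iff, LinearEquiv.coe_det, mx_coe, LinearMap.det_toLin', Units.val_one]

theorem linear_conv {F : Type} [Field F] {n : ℕ} {Q : Type*} [Group Q]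
    (G : Subgroup (Matrix (Fin n) (Fin n) F)ˣ) (ρ : G →* Q)
    (h1 : ∀ g : (Matrix (Fin n) (Fin n) F)ˣ, g.1.det = 1 → g ∈ G) (hρ : Function.Surjective ρ)
    (hk : ∀ g : G, ρ g = 1 → ∃ a : F, g.1.1 = a • 1) :
    ∃ (G' : Subgroup ((Fin n → F) ≃ₗ[F] (Fin n → F))) (ρ' : G' →* Q),
      (∀ g : (Fin n → F) ≃ₗ[F] (Fin n → F), LinearEquiv.det g = 1 → g ∈ G') ∧
      Function.Surjective ρ' ∧
      ∀ g : G', ρ' g = 1 → ∃ a : F, ∀ v, (g : (Fin n → F) ≃ₗ[F] (Fin n → F)) v = a • v := by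
  let E := mx F n
  let i : G ≃* G.map E.toMonoidHom := E.subgroupMap G
  refine ⟨G.map E.toMonoidHom, ρ.comp i.symm.toMonoidHom, ?_, ?_, ?_⟩
  · intro g hg
    obtain ⟨x, rfl⟩ := E.surjective g
    exact ⟨x, h1 x ((mx_det x).1 hg), rfl⟩
  · exact hρ.comp i.symm.surjective
  · intro g hg
    obtain ⟨x, rfl⟩ := i.surjective g
    have h2 : ρ x = 1 := by
      have h3 : (ρ.comp i.symm.toMonoidHom) (i x) = ρ (i.symm (i x)) := rfl
      rw [h3, i.symm_apply_apply] at hg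
      exact hg
    obtain ⟨a, ha⟩ := hk x h2
    refine ⟨a, fun v => ?_⟩
    have h4 : ((i x : G.map E.toMonoidHom) : (Fin n → F) ≃ₗ[F] (Fin n → F)) = mx F n x.1 := rfl
    rw [h4]
    have h5 : (mx F n x.1) v = Matrix.toLin' x.1.1 v := by rw [← mx_coe]; rfl
    rw [h5, ha, Matrix.toLin'_apply, Matrix.smul_mulVec, Matrix.one_mulVec]

end Pool.Agent.Helper70.GLn
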