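import Pool.Agent.Helper70.GLn.FU

/-!
# GL-PB: the structure of the elements which are not good (100-180 lines)

PROOF. For coprime `a`, `b` with `a * b = minpoly F g` (or any multiple killing `g`): `V = ker a(g) ⊕ ker b(g)` (`Polynomial.sup_ker_aeval_eq_ker_aeval_mul_of_coprime`,
`Polynomial.disjoint_ker_aeval_of_isCoprime`), both invariant. CLAIM: if `finrank (ker a(g)) ≥ R` and `finrank (ker b(g)) ≥ R` then `g` is good with `W = ker a(g)`: `codim W = finrank (ker b(g))`; let `X`
have values in `W`, vanish on `W` and commute with `g`; for `v ∈ ker b(g)`: `b(g) (X v) = X (b(g) v) = 0` and `a(g) (X v) = 0`, so `X v = 0` (Bezout). So `X = 0`.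
Now let `g` be not good, `R ≥ 1` (for `R = 0` everything is good with `W = ⊥`). For coprime `a`, `b` with `a * b = minpoly`: `finrank (ker a(g)) ≥ R` implies
`finrank (ker b(g)) < R`. Prove by strong induction on `natDegree a`: if `a * b = minpoly`, `a`, `b` coprime, `finrank (ker a(g)) ≥ R`, then there are an irreducible monic `f`, `k` and `b'` with
`f ^ k * b' = minpoly` coprime and `finrank (ker (f ^ k)(g)) ≥ R`. If `a` is (up to a unit) a power of an irreducible polynomial done (`a` is not a unit as its kernel is not `0`); otherwise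
`a = a₁ * a₂` with coprime non-units; `finrank (ker a(g)) > finrank V - R ≥ 2 R`, is the sum of the two dimensions, so one of them is `≥ R`; replace `a` by this `aᵢ`.
Start with `a = minpoly`, `b = 1`. The result: `V₁ = ker (f ^ k)(g)`, `V₂ = ker b'(g)`, `finrank V₂ < R`.
-/

set_option autoImplicit false

open Module Polynomial

namespace Pool.Agent.Helper70.GLn

variable {F V : Type} [Field F] [Finite F] [AddCommGroup V] [Module F V] [Finite V]

omit [Finite F] [Finite V] in
private lemma aeval_comm_h40 {φ X : V →ₗ[F] V} (h : ∀ v, φ (X v) = X (φ v)) (p : F[X]) (v : V) :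
    aeval φ p (X v) = X (aeval φ p v) := by
  have h1 : Commute φ X := LinearMap.ext h
  have h2 : Commute (aeval φ p) X := by
    induction p using Polynomial.induction_on' with
    | add p q hp hq => rw [map_add]; exact hp.add_left hq
    | monomial n a =>
      rw [aeval_monomial]
      exact (Algebra.commute_algebraMap_left a X).mul_left (h1.pow_left n)
  exact LinearMap.congr_fun h2 v

omit [Finite F] [Finite V] in
private lemma isCompl_h40 {φ : V →ₗ[F] V} {a b : F[X]} (hab : IsCoprime a b)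
    (h0 : aeval φ (a * b) = 0) :
    IsCompl (LinearMap.ker (aeval φ a)) (LinearMap.ker (aeval φ b)) := by
  refine ⟨Polynomial.disjoint_ker_aeval_of_isCoprime φ hab, ?_⟩
  rw [codisjoint_iff, Polynomial.sup_ker_aeval_eq_ker_aeval_mul_of_coprime φ hab, h0]
  exact LinearMap.ker_zero

omit [Finite F] in
private lemma good_h40 {R : ℕ} {g : V ≃ₗ[F] V} {a b : F[X]} (hab : IsCoprime a b)
    (h0 : aeval (g : V →ₗ[F] V) (a * b) = 0)
    (ha : R ≤ finrank F (LinearMap.ker (aeval (g : V →ₗ[F] V) a)))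
    (hb : R ≤ finrank F (LinearMap.ker (aeval (g : V →ₗ[F] V) b))) : Good R g := by
  have hc := isCompl_h40 hab h0
  have hd := Submodule.finrank_add_eq_of_isCompl hc
  refine ⟨LinearMap.ker (aeval (g : V →ₗ[F] V) a), ⟨le_refl _, ha, ?_⟩, ?_, ?_⟩
  · rw [← hd, add_comm]
    exact Nat.add_le_add_left hb _
  · intro v hv
    rw [LinearMap.mem_ker] at hv ⊢
    have h1 := aeval_comm_h40 (φ := (g : V →ₗ[F] V)) (X := (g : V →ₗ[F] V)) (fun _ => rfl) a v
    rw [hv, map_zero] at h1
    exact h1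
  · intro X hX1 hX2 hX3
    ext v
    have hv : v ∈ LinearMap.ker (aeval (g : V →ₗ[F] V) a) ⊔
        LinearMap.ker (aeval (g : V →ₗ[F] V) b) := by
      rw [hc.sup_eq_top]
      trivial
    obtain ⟨w, hw, u, hu, rfl⟩ := Submodule.mem_sup.1 hv
    rw [map_add, hX2 w hw, zero_add]
    have h1 : X u ∈ LinearMap.ker (aeval (g : V →ₗ[F] V) b) := by
      rw [LinearMap.mem_ker] at hu ⊢
      rw [aeval_comm_h40 (φ := (g : V →ₗ[F] V)) (X := X) hX3 b u, hu, map_zero]
    have h2 : X u ∈ LinearMap.ker (aeval (g : V →ₗ[F] V) a) ⊓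
        LinearMap.ker (aeval (g : V →ₗ[F] V) b) := ⟨hX1 u, h1⟩
    rw [hc.inf_eq_bot] at h2
    exact (Submodule.mem_bot F).1 h2

omit [Finite F] in
private lemma step_h40 {R : ℕ} (hR0 : 1 ≤ R) (hR : 3 * R ≤ finrank F V) (g : V ≃ₗ[F] V)
    (hg : ¬ Good R g) (n : ℕ) : ∀ a b : F[X], a ≠ 0 → a.natDegree ≤ n → IsCoprime a b →
    aeval (g : V →ₗ[F] V) (a * b) = 0 →
    R ≤ finrank F (LinearMap.ker (aeval (g : V →ₗ[F] V) a)) →
    ∃ f : F[X], f.Monic ∧ Irreducible f ∧ ∃ (k : ℕ) (b' : F[X]), IsCoprime (f ^ k) b' ∧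
      aeval (g : V →ₗ[F] V) (f ^ k * b') = 0 ∧
      R ≤ finrank F (LinearMap.ker (aeval (g : V →ₗ[F] V) (f ^ k))) := by
  induction n with
  | zero =>
    intro a b ha hn hab h0 hr
    exfalso
    have hu : IsUnit a := Polynomial.isUnit_iff_degree_eq_zero.2 (by
      rw [Polynomial.degree_eq_natDegree ha, Nat.le_zero.1 hn]
      rfl)
    have h1 : IsUnit (aeval (g : V →ₗ[F] V) a) := hu.map _
    have h2 : LinearMap.ker (aeval (g : V →ₗ[F] V) a) = ⊥ :=
      LinearMap.ker_eq_bot.2 ((Module.End.isUnit_iff _).1 h1).1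
    rw [h2, finrank_bot] at hr
    omega
  | succ n ih =>
    intro a b ha hn hab h0 hr
    by_cases hu : IsUnit a
    · exfalso
      have h1 : IsUnit (aeval (g : V →ₗ[F] V) a) := hu.map _
      have h2 : LinearMap.ker (aeval (g : V →ₗ[F] V) a) = ⊥ :=
        LinearMap.ker_eq_bot.2 ((Module.End.isUnit_iff _).1 h1).1
      rw [h2, finrank_bot] at hr
      omega
    obtain ⟨f, hfm, hfi, hfa⟩ := Polynomial.exists_monic_irreducible_factor a hu
    obtain ⟨c, hc1, hc2⟩ :=
      (FiniteMultiplicity.of_not_isUnit hfi.not_isUnit ha).exists_eq_pow_mul_and_not_dvd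
    set k := multiplicity f a with hk
    have hk0 : k ≠ 0 := by
      intro h
      rw [h, pow_zero, one_mul] at hc1
      rw [hc1] at hfa
      exact hc2 hfa
    have hc0 : c ≠ 0 := by
      rintro rfl
      exact hc2 (dvd_zero f)
    have hcop : IsCoprime (f ^ k) c := (hfi.coprime_iff_not_dvd.2 hc2).pow_left
    have hfb : IsCoprime (f ^ k) b := by
      rw [hc1] at hab
      exact hab.of_mul_left_left
    have hcb : IsCoprime c b := by
      rw [hc1] at hab
      exact hab.of_mul_left_right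
    by_cases hlt : R ≤ finrank F (LinearMap.ker (aeval (g : V →ₗ[F] V) (f ^ k)))
    · refine ⟨f, hfm, hfi, k, c * b, hcop.mul_right hfb, ?_, hlt⟩
      rw [← mul_assoc, ← hc1]
      exact h0
    · refine ih c (f ^ k * b) hc0 ?_ (hcop.symm.mul_right hcb) ?_ ?_
      · have h1 : a.natDegree = k * f.natDegree + c.natDegree := by
          conv_lhs => rw [hc1]
          rw [Polynomial.natDegree_mul (pow_ne_zero _ hfi.ne_zero) hc0, Polynomial.natDegree_pow]
        have h2 : 1 ≤ k * f.natDegree :=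
          Nat.mul_pos (Nat.pos_of_ne_zero hk0) hfi.natDegree_pos
        omega
      · have h1 : c * (f ^ k * b) = a * b := by
          conv_rhs => rw [hc1]
          ring
        rw [h1]
        exact h0
      · have h1 := Submodule.finrank_add_eq_of_isCompl (isCompl_h40 hab h0)
        have h2 : finrank F (LinearMap.ker (aeval (g : V →ₗ[F] V) b)) < R := by
          by_contra hcon
          exact hg (good_h40 hab h0 hr (not_lt.1 hcon))
        have h3 : LinearMap.ker (aeval (g : V →ₗ[F] V) (f ^ k)) ⊔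
            LinearMap.ker (aeval (g : V →ₗ[F] V) c) = LinearMap.ker (aeval (g : V →ₗ[F] V) a) := by
          rw [Polynomial.sup_ker_aeval_eq_ker_aeval_mul_of_coprime _ hcop, ← hc1]
        have h4 := Submodule.finrank_add_le_finrank_add_finrank
          (LinearMap.ker (aeval (g : V →ₗ[F] V) (f ^ k))) (LinearMap.ker (aeval (g : V →ₗ[F] V) c))
        rw [h3] at h4
        omega

theorem bad_struct {R : ℕ} (hR : 3 * R ≤ finrank F V) (g : V ≃ₗ[F] V) (hg : ¬ Good R g) :
    ∃ f : F[X], f.Monic ∧ Irreducible f ∧ ∃ V₁ V₂ : Submodule F V, IsCompl V₁ V₂ ∧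
      (∀ v ∈ V₁, g v ∈ V₁) ∧ (∀ v ∈ V₂, g v ∈ V₂) ∧ finrank F V₂ < R ∧
      ∃ k : ℕ, ∀ v ∈ V₁, (aeval (g : V →ₗ[F] V) f ^ k) v = 0 := by
  have hR0 : 1 ≤ R := by
    by_contra hcon
    have h0 : R = 0 := by omega
    subst h0
    refine hg ⟨⊥, ⟨le_refl _, Nat.zero_le _, ?_⟩, ?_, ?_⟩
    · rw [finrank_bot]
      exact Nat.zero_le _
    · intro v hv
      rw [Submodule.mem_bot] at hv ⊢
      rw [hv, map_zero]
    · intro X hX _ _
      ext v
      exact (Submodule.mem_bot F).1 (hX v)
  have hint : IsIntegral F (g : V →ₗ[F] V) := Algebra.IsIntegral.isIntegral _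
  obtain ⟨f, hfm, hfi, k, b, hfb, h0, hr⟩ := step_h40 hR0 hR g hg _ (minpoly F (g : V →ₗ[F] V)) 1
    (minpoly.ne_zero hint) (le_refl _) isCoprime_one_right
    (by rw [mul_one]; exact minpoly.aeval F _)
    (by rw [minpoly.aeval, LinearMap.ker_zero, finrank_top]; omega)
  have hinv : ∀ p : F[X], ∀ v ∈ LinearMap.ker (aeval (g : V →ₗ[F] V) p),
      g v ∈ LinearMap.ker (aeval (g : V →ₗ[F] V) p) := by
    intro p v hv
    rw [LinearMap.mem_ker] at hv ⊢
    have h1 := aeval_comm_h40 (φ := (g : V →ₗ[F] V)) (X := (g : V →ₗ[F] V)) (fun _ => rfl) p v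
    rw [hv, map_zero] at h1
    exact h1
  refine ⟨f, hfm, hfi, LinearMap.ker (aeval (g : V →ₗ[F] V) (f ^ k)),
    LinearMap.ker (aeval (g : V →ₗ[F] V) b), isCompl_h40 hfb h0, hinv _, hinv _, ?_, k, ?_⟩
  · by_contra hcon
    exact hg (good_h40 hfb h0 hr (not_lt.1 hcon))
  · intro v hv
    rw [← map_pow]
    exact hv

end Pool.Agent.Helper70.GLn
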