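import Pool.Agent.Helper70.GLn.PM

/-!
# GL-PI: primary elements in small dimension (120-200 lines)

PROOF. `prim_irr`: `d = natDegree f = finrank V ≥ 1`. Fix `v ≠ 0`. If `f(g)` is nilpotent then the charpoly of `g` (degree `d`) divides a power of `f` up to..., precisely: `minpoly g` divides a power of `f`
and `charpoly g`, so it is associated to `f`, and `f(g) = 0`; hence the annihilator of `v` is `(f)` and `v, g v, ..., g^(d-1) v` is a basis of `V`; `g` is determined by this basis, because
`g^d v` is a linear combination of it determined by `f`. So the number of these `g` is at most the number of bases (families `Fin d → V`, linearly independent) with first vector `v`.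
Linear equivalences `g ∈ GL(V)` correspond to bases (fix a basis `b` with first vector `v`; `g ↦ g ∘ b`); those with `g v = v`... : the number of bases with first vector `v` is
`#{g ∈ GL(V) : g v = v} = |GL(V)| / (q^d - 1)` (`GL(V)` is transitive on the `q^d - 1` nonzero vectors; orbit-stabiliser, or `card` of fibres of `g ↦ g v`).
(Also possible: let `GL(V)` act on the set of pairs, double counting `(g, γ)`.)
`prim_lt`: `g₀ (s, t) = (t, s + c t)` with `c ∈ {0, 1}`, `c ≠ 2 a`, is invertible and `(g₀ - a)^k ≠ 0` for all `k`: otherwise `(g₀ - a)^2 = 0` (nilpotent on a space of dimension 2), but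
`(g₀ - a)^2 (1, 0) = (a² + 1, c - 2 a) ≠ 0`. So the set of the primary elements is a proper subset.
-/

set_option autoImplicit false

open Module Polynomial

namespace Pool.Agent.Helper70.GLn

section

variable {F V : Type} [Field F] [Finite F] [AddCommGroup V] [Module F V] [Finite V]

omit [Finite F] in
/-- `f(g) = 0` -/
private lemma aeval_zero_h2 {f : F[X]} (hf : Irreducible f) (hd : finrank F V = f.natDegree)
    {g : V ≃ₗ[F] V} (hg : Prm f g) : aeval (g : V →ₗ[F] V) f = 0 := by
  obtain ⟨k, hk⟩ := hg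
  have hnt : Nontrivial V := by
    apply Module.nontrivial_of_finrank_pos (R := F)
    rw [hd]
    exact hf.natDegree_pos
  have h1 : minpoly F (g : V →ₗ[F] V) ∣ f ^ k := minpoly.dvd F _ (by rw [map_pow, hk])
  obtain ⟨i, _, hi⟩ := (dvd_prime_pow hf.prime k).1 h1
  have hint : IsIntegral F (g : V →ₗ[F] V) := Algebra.IsIntegral.isIntegral _
  have h2 : (minpoly F (g : V →ₗ[F] V)).natDegree = i * f.natDegree := by
    rw [natDegree_eq_of_degree_eq (degree_eq_degree_of_associated hi), natDegree_pow]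
  have h3 : (minpoly F (g : V →ₗ[F] V)).natDegree ≤ f.natDegree := by
    rw [← hd, ← LinearMap.charpoly_natDegree (g : V →ₗ[F] V)]
    exact natDegree_le_of_dvd (LinearMap.minpoly_dvd_charpoly _)
      (LinearMap.charpoly_monic _).ne_zero
  have h4 := minpoly.natDegree_pos hint
  have hfp := hf.natDegree_pos
  have h5 : i = 1 := by
    have h6 : i ≠ 0 := by
      rintro rfl
      rw [zero_mul] at h2
      omega
    have h7 : ¬ 2 ≤ i := by
      intro h8
      have : 2 * f.natDegree ≤ i * f.natDegree := Nat.mul_le_mul_right _ h8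
      omega
    omega
  rw [h5, pow_one] at hi
  obtain ⟨u, hu⟩ := hi
  rw [← hu, map_mul, minpoly.aeval, zero_mul]

omit [Finite F] in
/-- The equivalence `AdjoinRoot f ≃ V` given by a vector. -/
private lemma exists_E_h2 {f : F[X]} (hf : Irreducible f) (hd : finrank F V = f.natDegree)
    {g : V ≃ₗ[F] V} (hg : Prm f g) {w : V} (hw : w ≠ 0) :
    ∃ E : AdjoinRoot f ≃ₗ[F] V, E 1 = w ∧ ∀ a, E (AdjoinRoot.root f * a) = g (E a) := by
  have h0 := aeval_zero_h2 hf hd hg
  let Φ : (F[X] ⧸ Ideal.span {f}) →ₐ[F] Module.End F V :=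
    Ideal.Quotient.liftₐ (Ideal.span {f}) (aeval (g : V →ₗ[F] V)) (by
      intro a ha
      rw [Ideal.mem_span_singleton] at ha
      obtain ⟨b, rfl⟩ := ha
      rw [map_mul, h0, zero_mul])
  have hΦ : ∀ a : F[X], Φ (Ideal.Quotient.mk (Ideal.span {f}) a) = aeval (g : V →ₗ[F] V) a :=
    fun a => rfl
  let Ψ : AdjoinRoot f →ₗ[F] Module.End F V := Φ.toLinearMap
  have hΨ : ∀ a : F[X], Ψ (AdjoinRoot.mk f a) = aeval (g : V →ₗ[F] V) a := fun a => rfl
  let ψ : AdjoinRoot f →ₗ[F] V := (LinearMap.applyₗ w) ∘ₗ Ψ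
  have hψ : ∀ a : F[X], ψ (AdjoinRoot.mk f a) = aeval (g : V →ₗ[F] V) a w := fun a => rfl
  have hinj : Function.Injective ψ := by
    rw [← LinearMap.ker_eq_bot, LinearMap.ker_eq_bot']
    intro z hz
    obtain ⟨a, rfl⟩ := AdjoinRoot.mk_surjective z
    rw [AdjoinRoot.mk_eq_zero]
    by_contra hfa
    obtain ⟨b, c, hbc⟩ := (Irreducible.coprime_iff_not_dvd hf).2 hfa
    rw [hψ] at hz
    apply hw
    have h1 : aeval (g : V →ₗ[F] V) (b * f + c * a) w = w := by
      rw [hbc, map_one]
      rfl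
    rw [← h1, map_add, map_mul, map_mul, h0, mul_zero, zero_add, Module.End.mul_apply, hz,
      map_zero]
  have hfin : Finite (AdjoinRoot f) := Finite.of_injective ψ hinj
  have hrk : finrank F (AdjoinRoot f) = finrank F V := by
    rw [hd]
    exact finrank_quotient_span_eq_natDegree
  refine ⟨LinearEquiv.ofBijective ψ ⟨hinj,
    (LinearMap.injective_iff_surjective_of_finrank_eq_finrank hrk).1 hinj⟩, ?_, ?_⟩
  · show ψ 1 = w
    rw [← map_one (AdjoinRoot.mk f), hψ, map_one]
    rfl
  · intro z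
    obtain ⟨a, rfl⟩ := AdjoinRoot.mk_surjective z
    show ψ (AdjoinRoot.root f * AdjoinRoot.mk f a) = g (ψ (AdjoinRoot.mk f a))
    rw [← AdjoinRoot.mk_X, ← map_mul, hψ, hψ, map_mul, aeval_X, Module.End.mul_apply]
    rfl

end

theorem prim_irr {F V : Type} [Field F] [Finite F] [AddCommGroup V] [Module F V] [Finite V]
    {f : F[X]} (hf : Irreducible f) (hd : finrank F V = f.natDegree) :
    NP f V * (Nat.card F ^ f.natDegree - 1) ≤ GLc F V := by
  classical
  by_cases hemp : IsEmpty {g : V ≃ₗ[F] V // Prm f g}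
  · have h0 : NP f V = 0 := by
      unfold NP
      exact Nat.card_of_isEmpty
    rw [h0, zero_mul]
    exact Nat.zero_le _
  rw [not_isEmpty_iff] at hemp
  obtain ⟨g₀, hg₀⟩ := hemp
  have hnt : Nontrivial V := by
    apply Module.nontrivial_of_finrank_pos (R := F)
    rw [hd]
    exact hf.natDegree_pos
  obtain ⟨w₀, hw₀⟩ := exists_ne (0 : V)
  obtain ⟨E₀, _, _⟩ := exists_E_h2 hf hd hg₀ hw₀
  have hGL : GLc F V = Nat.card (AdjoinRoot f ≃ₗ[F] V) :=
    Nat.card_congr
      { toFun := fun γ => E₀.trans γ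
        invFun := fun E => E₀.symm.trans E
        left_inv := fun γ => by ext v; simp
        right_inv := fun E => by ext v; simp }
  have hfinE : Finite (AdjoinRoot f ≃ₗ[F] V) := by
    have : Finite (AdjoinRoot f) := Finite.of_injective E₀ E₀.injective
    exact Finite.of_injective _ DFunLike.coe_injective
  have hV : Nat.card {w : V // w ≠ 0} = Nat.card F ^ f.natDegree - 1 := by
    rw [← hd, ← Module.natCard_eq_pow_finrank (K := F) (V := V)]
    have h1 : Nat.card ({0}ᶜ : Set V) = Nat.card V - 1 := by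
      rw [Nat.card_coe_set_eq, Set.ncard_compl, Set.ncard_singleton]
    exact h1
  rw [hGL, ← hV]
  unfold NP
  rw [← Nat.card_prod]
  choose E hE1 hE2 using fun x : {g : V ≃ₗ[F] V // Prm f g} × {w : V // w ≠ 0} =>
    exists_E_h2 hf hd x.1.2 x.2.2
  refine Nat.card_le_card_of_injective E ?_
  rintro ⟨⟨g, hg⟩, ⟨w, hw⟩⟩ ⟨⟨g', hg'⟩, ⟨w', hw'⟩⟩ h
  have h1 := hE1 (⟨g, hg⟩, ⟨w, hw⟩)
  have h1' := hE1 (⟨g', hg'⟩, ⟨w', hw'⟩)
  have h2 := hE2 (⟨g, hg⟩, ⟨w, hw⟩)
  have h2' := hE2 (⟨g', hg'⟩, ⟨w', hw'⟩)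
  rw [← h] at h1' h2'
  have h3 : w = w' := h1.symm.trans h1'
  have h4 : g = g' := by
    ext z
    obtain ⟨a, rfl⟩ := (E (⟨g, hg⟩, ⟨w, hw⟩)).surjective z
    exact (h2 a).symm.trans (h2' a)
  subst h3 h4
  rfl

theorem prim_lt {F : Type} [Field F] [Finite F] (a : F) :
    NP (X - C a) (F × F) < GLc F (F × F) := by
  classical
  have hfin : Finite ((F × F) ≃ₗ[F] (F × F)) := Finite.of_injective _ DFunLike.coe_injective
  obtain ⟨c, hc⟩ : ∃ c : F, c - 2 * a ≠ 0 := by
    by_cases h : (0 : F) - 2 * a = 0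
    · refine ⟨1, fun h1 => ?_⟩
      rw [zero_sub, neg_eq_zero] at h
      rw [h, sub_zero] at h1
      exact one_ne_zero h1
    · exact ⟨0, h⟩
  let g₀ : (F × F) ≃ₗ[F] (F × F) :=
    { toFun := fun u => (u.2, u.1 + c * u.2)
      invFun := fun u => (u.2 - c * u.1, u.1)
      map_add' := fun u v => by
        ext
        · rfl
        · simp only [Prod.fst_add, Prod.snd_add]; ring
      map_smul' := fun r u => by
        ext
        · rfl
        · simp only [Prod.smul_fst, Prod.smul_snd, smul_eq_mul, RingHom.id_apply]; ring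
      left_inv := fun u => by ext <;> simp
      right_inv := fun u => by ext <;> simp }
  have hdec : (g₀ : (F × F) →ₗ[F] (F × F)) =
      LinearMap.inl F F F ∘ₗ LinearMap.snd F F F + LinearMap.inr F F F ∘ₗ LinearMap.fst F F F +
        c • (LinearMap.inr F F F ∘ₗ LinearMap.snd F F F) := by
    refine LinearMap.ext fun u => ?_
    show (u.2, u.1 + c * u.2) = ((u.2, 0) : F × F) + (0, u.1) + c • (0, u.2)
    ext <;> simp
  have htr : LinearMap.trace F (F × F) (g₀ : (F × F) →ₗ[F] (F × F)) = c := by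
    have t1 := LinearMap.trace_comp_comm' (LinearMap.snd F F F) (LinearMap.inl F F F)
    have t2 := LinearMap.trace_comp_comm' (LinearMap.fst F F F) (LinearMap.inr F F F)
    have t3 := LinearMap.trace_comp_comm' (LinearMap.snd F F F) (LinearMap.inr F F F)
    rw [hdec, map_add, map_add, map_smul, t1, t2, t3]
    have e1 : LinearMap.snd F F F ∘ₗ LinearMap.inl F F F = 0 := rfl
    have e2 : LinearMap.fst F F F ∘ₗ LinearMap.inr F F F = 0 := rfl
    have e3 : LinearMap.snd F F F ∘ₗ LinearMap.inr F F F = LinearMap.id := rfl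
    rw [e1, e2, e3, map_zero, LinearMap.trace_id, finrank_self]
    simp
  refine Finite.card_subtype_lt (x := g₀) ?_
  rintro ⟨k, hk⟩
  have h1 : aeval (g₀ : (F × F) →ₗ[F] (F × F)) (X - C a) =
      (g₀ : (F × F) →ₗ[F] (F × F)) - a • (1 : Module.End F (F × F)) := by
    rw [map_sub, aeval_X, aeval_C, Algebra.algebraMap_eq_smul_one]
  have h2 : IsNilpotent ((g₀ : (F × F) →ₗ[F] (F × F)) - a • (1 : Module.End F (F × F))) :=
    ⟨k, by rw [← h1]; exact hk⟩
  have h3 := LinearMap.isNilpotent_trace_of_isNilpotent h2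
  rw [map_sub, map_smul, LinearMap.trace_one, htr, Module.finrank_prod, finrank_self] at h3
  apply hc
  have h4 := h3.eq_zero
  rw [← h4, smul_eq_mul]
  push_cast
  ring

end Pool.Agent.Helper70.GLn
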