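import Pool.Agent.Helper70.GLn.CJ

/-!
# GL-PM: primary elements of the general linear group (200-300 lines; may be split)

PROOF. `exists_inv`: induction on `j` (for all `V`): `j = 0`: `W = ⊥`. For `j ≥ 1`: `V ≠ 0` and `f(g)` is nilpotent, so there is `v ≠ 0` with `f(g) v = 0`; the cyclic subspace
`C = {a(g) v : a ∈ F[X]}` is isomorphic to `F[X] / (f)` (the annihilator of `v` contains `f` and is proper, `f` is irreducible), dimension `natDegree f`
(for instance the span of `g^i v`, `i < natDegree f`). Apply the induction hypothesis for `j - 1` to `V ⧸ C` with the induced map (also `f(ḡ)^k = 0`,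
`finrank (V ⧸ C) = finrank V - natDegree f`) and take the preimage (`comap mkQ`).
`prim_dvd`: the same induction (strong induction on `finrank V`; if `V ≠ 0` divide by a cyclic subspace of dimension `natDegree f`).
`prim_mul`: `Γ = GL(A × B)`, `P` = the stabiliser of `A × 0`, `S` = the set of all `g ∈ P` with `f(g)` nilpotent (invariant under conjugation by `P`). Every `g ∈ Γ` with `f(g)`
nilpotent leaves invariant a subspace `W` of dimension `finrank A` (`exists_inv`, `finrank A = j * natDegree f`), and there is `γ ∈ Γ` with `γ (A × 0) = W`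
(extend a linear equivalence, complements of the same dimension), so `γ⁻¹ g γ ∈ S`. `conj_card`: `NP f (A × B) * |P| ≤ |Γ| * |S|`. `P` is in bijection with
`GL(A) × GL(B) × (B →ₗ A)`: `g (a, b) = (g₁ a + X b, g₂ b)` (only `≥` is needed: this formula defines an injection of the product into `P`); for `g ∈ S` the three parts are determined by
`g` and `f(g₁)`, `f(g₂)` are nilpotent (`f(g)` restricted to `A × 0` and modulo `A × 0`), so `|S| ≤ NP f A * NP f B * |B →ₗ A|`. Cancel `|B →ₗ A| > 0`.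
`gl_congr`, `np_congr`: conjugation by `e`.
-/

set_option autoImplicit false

open Module Polynomial

namespace Pool.Agent.Helper70.GLn

/-- The order of the general linear group. -/
noncomputable def GLc (F V : Type) [Field F] [AddCommGroup V] [Module F V] : ℕ :=
  Nat.card (V ≃ₗ[F] V)

/-- `f(g)` is nilpotent. -/
def Prm {F V : Type} [Field F] [AddCommGroup V] [Module F V] (f : F[X]) (g : V ≃ₗ[F] V) : Prop :=
  ∃ k : ℕ, aeval (g : V →ₗ[F] V) f ^ k = 0

/-- The number of elements with `f(g)` nilpotent. -/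
noncomputable def NP {F : Type} [Field F] (f : F[X]) (V : Type) [AddCommGroup V] [Module F V] : ℕ :=
  Nat.card {g : V ≃ₗ[F] V // Prm f g}

section prel

variable {F U V W : Type} [Field F] [AddCommGroup U] [Module F U] [AddCommGroup V] [Module F V]
  [AddCommGroup W] [Module F W]

private lemma aeval_tw_h2 {x : U →ₗ[F] U} {y : V →ₗ[F] V} (T : U →ₗ[F] V)
    (h : ∀ u, T (x u) = y (T u)) (p : F[X]) (u : U) : T (aeval x p u) = aeval y p (T u) := by
  induction p using Polynomial.induction_on' with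
  | add p q hp hq =>
    rw [map_add, map_add, LinearMap.add_apply, LinearMap.add_apply, map_add, hp, hq]
  | monomial n a =>
    rw [aeval_monomial, aeval_monomial]
    show T (a • ((x ^ n) u)) = a • ((y ^ n) (T u))
    rw [map_smul]
    congr 1
    induction n with
    | zero => rfl
    | succ n ih => rw [pow_succ', pow_succ', Module.End.mul_apply, Module.End.mul_apply, h, ih]

private lemma aeval_mem_h2 {x : V →ₗ[F] V} {W : Submodule F V} (h : ∀ v ∈ W, x v ∈ W) (p : F[X])
    {v : V} (hv : v ∈ W) : aeval x p v ∈ W := by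
  induction p using Polynomial.induction_on' with
  | add p q hp hq =>
    rw [map_add, LinearMap.add_apply]
    exact W.add_mem hp hq
  | monomial n a =>
    rw [aeval_monomial]
    show a • ((x ^ n) v) ∈ W
    apply W.smul_mem
    induction n with
    | zero => exact hv
    | succ n ih => rw [pow_succ', Module.End.mul_apply]; exact h _ ih

private lemma prm_tw_inj_h2 {f : F[X]} {x : U ≃ₗ[F] U} {y : V ≃ₗ[F] V} (T : U →ₗ[F] V)
    (h : ∀ u, T (x u) = y (T u)) (hT : Function.Injective T) (hy : Prm f y) : Prm f x := by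
  obtain ⟨k, hk⟩ := hy
  refine ⟨k, ?_⟩
  ext u
  apply hT
  rw [← map_pow] at hk ⊢
  rw [aeval_tw_h2 (y := (y : V →ₗ[F] V)) T h, hk]
  simp

private lemma prm_tw_surj_h2 {f : F[X]} {x : U ≃ₗ[F] U} {y : V ≃ₗ[F] V} (T : U →ₗ[F] V)
    (h : ∀ u, T (x u) = y (T u)) (hT : Function.Surjective T) (hx : Prm f x) : Prm f y := by
  obtain ⟨k, hk⟩ := hx
  refine ⟨k, ?_⟩
  ext v
  obtain ⟨u, rfl⟩ := hT v
  rw [← map_pow] at hk ⊢
  rw [← aeval_tw_h2 (x := (x : U →ₗ[F] U)) T h, hk]
  simp

end prel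

variable {F V : Type} [Field F] [Finite F] [AddCommGroup V] [Module F V] [Finite V]

omit [Finite F] [Finite V] in
theorem gl_congr {V' : Type} [AddCommGroup V'] [Module F V'] (e : V ≃ₗ[F] V') :
    GLc F V = GLc F V' :=
  Nat.card_congr
    { toFun := fun g => (e.symm.trans g).trans e
      invFun := fun g => (e.trans g).trans e.symm
      left_inv := fun g => by ext v; simp
      right_inv := fun g => by ext v; simp }

omit [Finite F] [Finite V] in
theorem np_congr {V' : Type} [AddCommGroup V'] [Module F V'] (e : V ≃ₗ[F] V') (f : F[X]) :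
    NP f V = NP f V' := by
  refine Nat.card_congr
    { toFun := fun g => ⟨(e.symm.trans g.1).trans e, ?_⟩
      invFun := fun g => ⟨(e.trans g.1).trans e.symm, ?_⟩
      left_inv := fun g => ?_
      right_inv := fun g => ?_ }
  · exact prm_tw_surj_h2 (x := g.1) (e : V →ₗ[F] V') (fun u => by simp) e.surjective g.2
  · exact prm_tw_surj_h2 (x := g.1) (e.symm : V' →ₗ[F] V) (fun u => by simp) e.symm.surjective g.2
  · apply Subtype.ext
    ext v
    simp
  · apply Subtype.ext
    ext v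
    simp

omit [Finite F] in
private lemma step_h2 {f : F[X]} (hf : Irreducible f) {g : V ≃ₗ[F] V} (hg : Prm f g)
    {W : Submodule F V} (hW : ∀ v ∈ W, g v ∈ W) (hW' : W ≠ ⊤) :
    ∃ W' : Submodule F V, (∀ v ∈ W', g v ∈ W') ∧ finrank F W' = finrank F W + f.natDegree := by
  obtain ⟨k, hk⟩ := hg
  obtain ⟨v, hv, hv'⟩ : ∃ v, v ∉ W ∧ aeval (g : V →ₗ[F] V) f v ∈ W := by
    by_contra hcon
    push Not at hcon
    obtain ⟨v, hv⟩ : ∃ v, v ∉ W := by
      by_contra hc
      push Not at hc
      exact hW' (eq_top_iff.2 fun v _ => hc v)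
    have h1 : ∀ n : ℕ, (aeval (g : V →ₗ[F] V) f ^ n) v ∉ W := by
      intro n
      induction n with
      | zero => exact hv
      | succ n ih => rw [pow_succ', Module.End.mul_apply]; exact hcon _ ih
    apply h1 k
    rw [hk]
    exact W.zero_mem
  let ψ : F[X] →ₗ[F] V ⧸ W :=
    W.mkQ ∘ₗ (LinearMap.applyₗ v) ∘ₗ (aeval (g : V →ₗ[F] V)).toLinearMap
  have hψ : ∀ p, ψ p = W.mkQ (aeval (g : V →ₗ[F] V) p v) := fun p => rfl
  have hψ0 : ∀ p, ψ p = 0 ↔ aeval (g : V →ₗ[F] V) p v ∈ W := by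
    intro p
    rw [hψ, Submodule.mkQ_apply, Submodule.Quotient.mk_eq_zero]
  have hinv : ∀ (p : F[X]) {u : V}, u ∈ W → aeval (g : V →ₗ[F] V) p u ∈ W :=
    fun p u hu => aeval_mem_h2 (x := (g : V →ₗ[F] V)) hW p hu
  have hker : LinearMap.ker ψ = (Ideal.span {f}).restrictScalars F := by
    ext p
    rw [LinearMap.mem_ker, hψ0, Submodule.restrictScalars_mem, Ideal.mem_span_singleton]
    constructor
    · intro hp
      by_contra hfp
      have hcop : IsCoprime f p := (Irreducible.coprime_iff_not_dvd hf).2 hfp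
      obtain ⟨a, b, hab⟩ := hcop
      apply hv
      have h1 : aeval (g : V →ₗ[F] V) (a * f + b * p) v = v := by
        rw [hab, map_one]
        rfl
      rw [← h1, map_add, map_mul, map_mul, LinearMap.add_apply, Module.End.mul_apply,
        Module.End.mul_apply]
      exact W.add_mem (hinv _ hv') (hinv _ hp)
    · rintro ⟨a, rfl⟩
      rw [mul_comm, map_mul, Module.End.mul_apply]
      exact hinv _ hv'
  have hrk : finrank F (LinearMap.range ψ) = f.natDegree := by
    rw [← finrank_quotient_span_eq_natDegree (f := f)]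
    refine (LinearEquiv.finrank_eq (ψ.quotKerEquivRange)).symm.trans ?_
    exact LinearEquiv.finrank_eq ((Submodule.quotEquivOfEq _ _ hker).trans
      (Submodule.Quotient.restrictScalarsEquiv F (Ideal.span {f})))
  let W' := Submodule.comap W.mkQ (LinearMap.range ψ)
  have hle : W ≤ W' := by
    intro u hu
    show W.mkQ u ∈ LinearMap.range ψ
    rw [Submodule.mkQ_apply, (Submodule.Quotient.mk_eq_zero W).2 hu]
    exact Submodule.zero_mem _
  refine ⟨W', ?_, ?_⟩
  · rintro u ⟨p, hp⟩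
    refine ⟨X * p, ?_⟩
    rw [hψ] at hp ⊢
    rw [map_mul, aeval_X, Module.End.mul_apply]
    rw [← sub_eq_zero, ← map_sub, Submodule.mkQ_apply, Submodule.Quotient.mk_eq_zero] at hp ⊢
    have h1 := hW _ hp
    rwa [map_sub] at h1
  · let ρ : W' →ₗ[F] V ⧸ W := W.mkQ ∘ₗ W'.subtype
    have h1 := LinearMap.finrank_range_add_finrank_ker ρ
    have h2 : LinearMap.range ρ = LinearMap.range ψ := by
      rw [LinearMap.range_comp, Submodule.range_subtype]
      exact Submodule.map_comap_eq_of_surjective W.mkQ_surjective _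
    have h3 : finrank F (LinearMap.ker ρ) = finrank F W := by
      have h4 : LinearMap.ker ρ = Submodule.comap W'.subtype W := by
        rw [LinearMap.ker_comp, Submodule.ker_mkQ]
      rw [h4]
      exact LinearEquiv.finrank_eq (Submodule.comapSubtypeEquivOfLe hle)
    rw [h2, h3, hrk] at h1
    rw [← h1, add_comm]

omit [Finite F] in
theorem exists_inv {f : F[X]} (hf : Irreducible f) {g : V ≃ₗ[F] V} (hg : Prm f g) {j : ℕ}
    (hj : j * f.natDegree ≤ finrank F V) :
    ∃ W : Submodule F V, (∀ v ∈ W, g v ∈ W) ∧ finrank F W = j * f.natDegree := by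
  induction j with
  | zero =>
    refine ⟨⊥, fun v hv => ?_, by rw [finrank_bot, zero_mul]⟩
    rw [Submodule.mem_bot] at hv ⊢
    rw [hv, map_zero]
  | succ j ih =>
    have hd : 0 < f.natDegree := hf.natDegree_pos
    obtain ⟨W, hW, hWd⟩ := ih (by nlinarith)
    have hne : W ≠ ⊤ := by
      rintro rfl
      rw [finrank_top] at hWd
      nlinarith
    obtain ⟨W', hW', hWd'⟩ := step_h2 hf hg hW hne
    exact ⟨W', hW', by rw [hWd', hWd]; ring⟩

omit [Finite F] in
theorem prim_dvd {f : F[X]} (hf : Irreducible f) {g : V ≃ₗ[F] V} (hg : Prm f g) :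
    f.natDegree ∣ finrank F V := by
  have hd : 0 < f.natDegree := hf.natDegree_pos
  obtain ⟨W, hW, hWd⟩ := exists_inv hf hg (j := finrank F V / f.natDegree)
    (Nat.div_mul_le_self _ _)
  by_cases hne : W = ⊤
  · subst hne
    rw [finrank_top] at hWd
    exact ⟨_, hWd.trans (mul_comm _ _)⟩
  · exfalso
    obtain ⟨W', _, hWd'⟩ := step_h2 hf hg hW hne
    have h1 := Submodule.finrank_le W'
    rw [hWd', hWd] at h1
    have h2 := Nat.lt_div_mul_add hd (a := finrank F V)
    omega

section mul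

variable {A B : Type} [AddCommGroup A] [Module F A] [Finite A] [AddCommGroup B]
    [Module F B] [Finite B]

/-- The stabiliser of `A × 0`. -/
private def stab_h2 (F A B : Type) [Field F] [AddCommGroup A] [Module F A] [AddCommGroup B]
    [Module F B] [Finite A] : Subgroup ((A × B) ≃ₗ[F] (A × B)) where
  carrier := {g | ∀ a, (g (a, 0)).2 = 0}
  mul_mem' := by
    intro g h hg hh a
    have h1 : h (a, 0) = ((h (a, 0)).1, 0) := Prod.ext rfl (hh a)
    show (g (h (a, 0))).2 = 0
    rw [h1]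
    exact hg _
  one_mem' := fun a => rfl
  inv_mem' := by
    intro g hg a
    let φ : A → A := fun x => (g (x, 0)).1
    have hφ : ∀ x, g (x, 0) = (φ x, 0) := fun x => Prod.ext rfl (hg x)
    have hinj : Function.Injective φ := by
      intro x y hxy
      have h1 : g (x, 0) = g (y, 0) := by rw [hφ, hφ, hxy]
      exact congrArg Prod.fst (g.injective h1)
    obtain ⟨x, hx⟩ := Finite.surjective_of_injective hinj a
    have h1 : g⁻¹ (a, 0) = (x, 0) := by
      show g.symm (a, 0) = (x, 0)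
      rw [LinearEquiv.symm_apply_eq, hφ, hx]
    rw [h1]

omit [Finite F] [Finite B] in
private lemma stab_fst_h2 {g : (A × B) ≃ₗ[F] (A × B)} (hg : g ∈ stab_h2 F A B) (a : A) :
    g (a, 0) = ((g (a, 0)).1, 0) := Prod.ext rfl (hg a)

omit [Finite F] [Finite B] in
private lemma stab_symm_h2 {g : (A × B) ≃ₗ[F] (A × B)} (hg : g ∈ stab_h2 F A B) (a : A) :
    g.symm (a, 0) = ((g.symm (a, 0)).1, 0) :=
  Prod.ext rfl ((stab_h2 F A B).inv_mem hg a)

omit [Finite F] [Finite B] in
private lemma parts_h2 {g : (A × B) ≃ₗ[F] (A × B)} (hg : g ∈ stab_h2 F A B) :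
    ∃ (g₁ : A ≃ₗ[F] A) (g₂ : B ≃ₗ[F] B) (X : B →ₗ[F] A),
      ∀ v : A × B, g v = (g₁ v.1 + X v.2, g₂ v.2) := by
  let g₁ : A →ₗ[F] A := LinearMap.fst F A B ∘ₗ (g : (A × B) →ₗ[F] (A × B)) ∘ₗ LinearMap.inl F A B
  let g₁' : A →ₗ[F] A :=
    LinearMap.fst F A B ∘ₗ (g.symm : (A × B) →ₗ[F] (A × B)) ∘ₗ LinearMap.inl F A B
  let g₂ : B →ₗ[F] B := LinearMap.snd F A B ∘ₗ (g : (A × B) →ₗ[F] (A × B)) ∘ₗ LinearMap.inr F A B
  let g₂' : B →ₗ[F] B :=
    LinearMap.snd F A B ∘ₗ (g.symm : (A × B) →ₗ[F] (A × B)) ∘ₗ LinearMap.inr F A B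
  have e1 : ∀ a, g (a, 0) = (g₁ a, 0) := stab_fst_h2 hg
  have e1' : ∀ a, g.symm (a, 0) = (g₁' a, 0) := stab_symm_h2 hg
  have e2 : ∀ b, (g (0, b)).2 = g₂ b := fun b => rfl
  have e2' : ∀ b, (g.symm (0, b)).2 = g₂' b := fun b => rfl
  have s : ∀ v : A × B, v = (v.1, 0) + (0, v.2) := fun v => by ext <;> simp
  have e3 : ∀ v, (g v).2 = g₂ v.2 := by
    intro v
    conv_lhs => rw [s v, map_add, Prod.snd_add, e1, e2]
    exact zero_add _
  have e3' : ∀ v, (g.symm v).2 = g₂' v.2 := by
    intro v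
    conv_lhs => rw [s v, map_add, Prod.snd_add, e1', e2']
    exact zero_add _
  refine ⟨LinearEquiv.ofLinear g₁ g₁' ?_ ?_, LinearEquiv.ofLinear g₂ g₂' ?_ ?_,
    LinearMap.fst F A B ∘ₗ (g : (A × B) →ₗ[F] (A × B)) ∘ₗ LinearMap.inr F A B, ?_⟩
  · ext a
    show (g (g₁' a, 0)).1 = a
    rw [← e1', LinearEquiv.apply_symm_apply]
  · ext a
    show (g.symm (g₁ a, 0)).1 = a
    rw [← e1, LinearEquiv.symm_apply_apply]
  · ext b
    show g₂ (g₂' b) = b
    rw [← e2', ← e3, LinearEquiv.apply_symm_apply]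
  · ext b
    show g₂' (g₂ b) = b
    rw [← e2, ← e3', LinearEquiv.symm_apply_apply]
  · intro v
    refine Prod.ext ?_ (e3 v)
    conv_lhs => rw [s v, map_add, Prod.fst_add, e1]
    rfl

/-- Block triangular maps. -/
private def tri_h2 (g₁ : A ≃ₗ[F] A) (g₂ : B ≃ₗ[F] B) (X : B →ₗ[F] A) :
    (A × B) ≃ₗ[F] (A × B) where
  toFun v := (g₁ v.1 + X v.2, g₂ v.2)
  invFun v := (g₁.symm (v.1 - X (g₂.symm v.2)), g₂.symm v.2)
  map_add' v w := by
    ext
    · simp only [Prod.fst_add, Prod.snd_add, map_add]; abel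
    · simp
  map_smul' c v := by
    ext
    · simp
    · simp
  left_inv v := by simp
  right_inv v := by simp

omit [Finite F] in
private lemma card_stab_h2 : GLc F A * GLc F B * Nat.card (B →ₗ[F] A) ≤ Nat.card (stab_h2 F A B) := by
  have hfin : Finite ((A × B) ≃ₗ[F] (A × B)) := Finite.of_injective _ DFunLike.coe_injective
  unfold GLc
  rw [← Nat.card_prod, ← Nat.card_prod]
  refine Nat.card_le_card_of_injective (fun x => ⟨tri_h2 x.1.1 x.1.2 x.2, fun a => ?_⟩) ?_
  · show x.1.2 0 = 0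
    exact map_zero _
  · rintro ⟨⟨g₁, g₂⟩, X⟩ ⟨⟨g₁', g₂'⟩, X'⟩ h
    have h0 : tri_h2 g₁ g₂ X = tri_h2 g₁' g₂' X' := congrArg Subtype.val h
    have h1 : ∀ v : A × B, (g₁ v.1 + X v.2, g₂ v.2) = (g₁' v.1 + X' v.2, g₂' v.2) :=
      fun v => LinearEquiv.congr_fun h0 v
    have h2 : g₁ = g₁' := by
      ext a
      have h3 := congrArg Prod.fst (h1 (a, 0))
      simpa using h3
    have h4 : g₂ = g₂' := by
      ext b
      exact congrArg Prod.snd (h1 (0, b))
    have h5 : X = X' := by
      ext b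
      have h3 := congrArg Prod.fst (h1 (0, b))
      simpa using h3
    rw [h2, h4, h5]

omit [Finite F] in
private lemma card_S_h2 (f : F[X]) :
    Nat.card {g : (A × B) ≃ₗ[F] (A × B) | g ∈ stab_h2 F A B ∧ Prm f g} ≤
      NP f A * NP f B * Nat.card (B →ₗ[F] A) := by
  have hfin : Finite (A ≃ₗ[F] A) := Finite.of_injective _ DFunLike.coe_injective
  have hfin2 : Finite (B ≃ₗ[F] B) := Finite.of_injective _ DFunLike.coe_injective
  have hfin3 : Finite (B →ₗ[F] A) := Finite.of_injective _ DFunLike.coe_injective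
  unfold NP
  rw [← Nat.card_prod, ← Nat.card_prod]
  have hp : ∀ g : {g : (A × B) ≃ₗ[F] (A × B) | g ∈ stab_h2 F A B ∧ Prm f g},
      ∃ x : ({g : A ≃ₗ[F] A // Prm f g} × {g : B ≃ₗ[F] B // Prm f g}) × (B →ₗ[F] A),
        ∀ v : A × B, (g : (A × B) ≃ₗ[F] (A × B)) v = (x.1.1.1 v.1 + x.2 v.2, x.1.2.1 v.2) := by
    rintro ⟨g, hg, hP⟩
    obtain ⟨g₁, g₂, X, hX⟩ := parts_h2 hg
    refine ⟨((⟨g₁, ?_⟩, ⟨g₂, ?_⟩), X), hX⟩
    · refine prm_tw_inj_h2 (y := g) (LinearMap.inl F A B) (fun u => ?_) LinearMap.inl_injective hP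
      show (g₁ u, (0 : B)) = g (u, 0)
      rw [hX]
      simp
    · refine prm_tw_surj_h2 (x := g) (LinearMap.snd F A B) (fun u => ?_) LinearMap.snd_surjective hP
      show (g u).2 = g₂ u.2
      rw [hX]
  choose x hx using hp
  refine Nat.card_le_card_of_injective x ?_
  intro g g' h
  apply Subtype.ext
  ext1 v
  rw [hx g v, hx g' v, h]

end mul

omit [Finite F] in
theorem prim_mul {A B : Type} [AddCommGroup A] [Module F A] [Finite A] [AddCommGroup B]
    [Module F B] [Finite B] {f : F[X]} (hf : Irreducible f) (hd : f.natDegree ∣ finrank F A) :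
    NP f (A × B) * (GLc F A * GLc F B) ≤ GLc F (A × B) * (NP f A * NP f B) := by
  have hfin : Finite ((A × B) ≃ₗ[F] (A × B)) := Finite.of_injective _ DFunLike.coe_injective
  have hfin3 : Finite (B →ₗ[F] A) := Finite.of_injective _ DFunLike.coe_injective
  set S : Set ((A × B) ≃ₗ[F] (A × B)) := {g | g ∈ stab_h2 F A B ∧ Prm f g} with hS
  have h1 := conj_card (stab_h2 F A B) S (by
    rintro p hp s ⟨hs, hs'⟩
    refine ⟨(stab_h2 F A B).mul_mem ((stab_h2 F A B).mul_mem hp hs)
      ((stab_h2 F A B).inv_mem hp), ?_⟩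
    refine prm_tw_surj_h2 (x := s) (p : (A × B) →ₗ[F] (A × B)) (fun u => ?_) p.surjective hs'
    show p (s u) = p (s (p.symm (p u)))
    rw [LinearEquiv.symm_apply_apply])
  have h2 : NP f (A × B) ≤ Nat.card {g : (A × B) ≃ₗ[F] (A × B) //
      ∃ γ : (A × B) ≃ₗ[F] (A × B), ∃ s ∈ S, g = γ * s * γ⁻¹} := by
    refine Nat.card_le_card_of_injective (fun g => ⟨g.1, ?_⟩) (fun g g' h => ?_)
    · obtain ⟨j, hj⟩ := hd
      obtain ⟨W, hW, hWd⟩ := exists_inv hf g.2 (j := j) (by
        rw [mul_comm, ← hj, Module.finrank_prod]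
        exact Nat.le_add_right _ _)
      have hrank : finrank F (LinearMap.range (LinearMap.inl F A B)) = finrank F W := by
        rw [LinearMap.finrank_range_of_inj LinearMap.inl_injective, hWd, hj, mul_comm]
      obtain ⟨γ, hγ⟩ := Submodule.exists_linearEquiv_restrict_eq
        (LinearEquiv.ofFinrankEq (LinearMap.range (LinearMap.inl F A B)) W hrank)
      have k1 : ∀ a, γ (a, 0) ∈ W := by
        intro a
        have h3 := hγ ⟨(a, 0), ⟨a, rfl⟩⟩
        rw [← h3]
        exact Subtype.coe_prop _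
      have k2 : ∀ w ∈ W, (γ.symm w).2 = 0 := by
        intro w hw
        obtain ⟨y, hy⟩ := (LinearEquiv.ofFinrankEq (LinearMap.range (LinearMap.inl F A B)) W
          hrank).surjective ⟨w, hw⟩
        have h3 := hγ y
        rw [hy] at h3
        have h4 : γ.symm w = y := by
          rw [LinearEquiv.symm_apply_eq]
          exact h3
        obtain ⟨a, ha⟩ := y.2
        rw [h4, ← ha]
        rfl
      refine ⟨γ, γ⁻¹ * g.1 * γ, ⟨fun a => ?_, ?_⟩, by group⟩
      · exact k2 _ (hW _ (k1 a))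
      · refine prm_tw_surj_h2 (x := g.1) (γ.symm : (A × B) →ₗ[F] (A × B)) (fun u => ?_)
          γ.symm.surjective g.2
        show γ.symm (g.1 u) = γ.symm (g.1 (γ (γ.symm u)))
        rw [LinearEquiv.apply_symm_apply]
    · exact Subtype.ext (congrArg (fun x => x.1) h)
  have h3 := card_stab_h2 (F := F) (A := A) (B := B)
  have h4 := card_S_h2 (F := F) (A := A) (B := B) f
  have hpos : 0 < Nat.card (B →ₗ[F] A) := Nat.card_pos
  refine Nat.le_of_mul_le_mul_right ?_ hpos
  calc NP f (A × B) * (GLc F A * GLc F B) * Nat.card (B →ₗ[F] A)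
      = NP f (A × B) * (GLc F A * GLc F B * Nat.card (B →ₗ[F] A)) := by ring
    _ ≤ _ := Nat.mul_le_mul h2 h3
    _ ≤ _ := h1
    _ ≤ Nat.card ((A × B) ≃ₗ[F] (A × B)) * (NP f A * NP f B * Nat.card (B →ₗ[F] A)) :=
        Nat.mul_le_mul_left _ h4
    _ = GLc F (A × B) * (NP f A * NP f B) * Nat.card (B →ₗ[F] A) := by
        unfold GLc
        ring

end Pool.Agent.Helper70.GLn
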