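import Pool.Agent.Helper70.GLn.PS

/-!
# GL-TP: transport along a linear equivalence (60-120 lines)

PROOF. `tr e` is conjugation by `e` (compare `SpecialLinearGroup.congr_linearEquiv`, or build it from `LinearEquiv.det_conj`). `tr e` maps `EE (A0) (A0)` bijectively onto
`EE (A0.comap e) (A0.comap e)`, so the averages agree; `range_uu`, `nn_range_uu`. `exists_lev`: `x` has determinant `1` and `e x e⁻¹ = prodCongr y z`, so
`det y * det z = 1` (`LinearMap.det_prodMap`, `LinearEquiv.det_conj`).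
`tr e` is injective, so `orderOf (dg l) = orderOf x`, and `dg` is injective, so `orderOf l = orderOf x`.
-/

set_option autoImplicit false

open Module Pool.Agent.Helper13.Ded

namespace Pool.Agent.Helper70.GLn

variable {F V A B : Type} [Field F] [Finite F] [AddCommGroup V] [Module F V] [Finite V]
  [AddCommGroup A] [Module F A] [Finite A] [AddCommGroup B] [Module F B] [Finite B]

theorem exists_tr (e : V ≃ₗ[F] A × B) :
    ∃ t : SpecialLinearGroup F (A × B) →* SpecialLinearGroup F V,
      (∀ g v, t g v = e.symm (g (e v))) ∧ Function.Bijective t :=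
  ⟨(SpecialLinearGroup.congr_linearEquiv e.symm).toMonoidHom, fun _ _ => rfl,
    (SpecialLinearGroup.congr_linearEquiv e.symm).bijective⟩

private theorem mem_tr_h27 (e : V ≃ₗ[F] A × B) (t : SpecialLinearGroup F (A × B) →* SpecialLinearGroup F V)
    (ht : ∀ g v, t g v = e.symm (g (e v))) (g : SpecialLinearGroup F (A × B)) :
    t g ∈ EE ((A0 F A B).comap (e : V →ₗ[F] A × B)) ((A0 F A B).comap (e : V →ₗ[F] A × B)) ↔
      g ∈ EE (A0 F A B) (A0 F A B) := by
  have h1 : ∀ v, e (t g v - v) = g (e v) - e v := by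
    intro v
    rw [ht, map_sub, LinearEquiv.apply_symm_apply]
  rw [mem_EE, mem_EE]
  constructor
  · rintro ⟨h2, h3⟩
    refine ⟨fun v => ?_, fun v hv => ?_⟩
    · have h4 : e (t g (e.symm v) - e.symm v) ∈ A0 F A B := h2 (e.symm v)
      rwa [h1, LinearEquiv.apply_symm_apply] at h4
    · have h4 := h3 (e.symm v) (by
        change e (e.symm v) ∈ A0 F A B
        rwa [LinearEquiv.apply_symm_apply])
      rw [ht, LinearEquiv.apply_symm_apply] at h4
      exact e.symm.injective h4
  · rintro ⟨h2, h3⟩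
    refine ⟨fun v => ?_, fun v hv => ?_⟩
    · change e (t g v - v) ∈ A0 F A B
      rw [h1]
      exact h2 _
    · have h4 : g (e v) = e v := h3 (e v) hv
      rw [ht, h4, LinearEquiv.symm_apply_apply]

theorem nn_tr (e : V ≃ₗ[F] A × B) (t : SpecialLinearGroup F (A × B) →* SpecialLinearGroup F V)
    (ht : ∀ g v, t g v = e.symm (g (e v))) (hb : Function.Bijective t)
    (θ : SpecialLinearGroup F V → ℝ) :
    nn θ (EE ((A0 F A B).comap (e : V →ₗ[F] A × B)) ((A0 F A B).comap (e : V →ₗ[F] A × B))) =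
      NU (fun g => θ (t g)) := by
  rw [← nn_range_uu, range_uu]
  unfold nn
  have h1 : (fun g => θ (t g)) 1 = θ 1 := by
    change θ (t 1) = θ 1
    rw [map_one]
  rw [h1]
  congr 1
  let f : EE (A0 F A B) (A0 F A B) ≃
      EE ((A0 F A B).comap (e : V →ₗ[F] A × B)) ((A0 F A B).comap (e : V →ₗ[F] A × B)) :=
    Equiv.ofBijective (fun g => ⟨t g, (mem_tr_h27 e t ht g).2 g.2⟩) (by
      constructor
      · intro g h hgh
        have h1 : t g = t h := congrArg Subtype.val hgh
        exact Subtype.ext (hb.1 h1)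
      · rintro ⟨x, hx⟩
        obtain ⟨g, rfl⟩ := hb.2 x
        exact ⟨⟨g, (mem_tr_h27 e t ht g).1 hx⟩, rfl⟩)
  exact (av_comp_equiv f (fun k => θ k)).symm

private theorem finrank_A0_h27 : finrank F (A0 F A B) = finrank F A := by
  have h1 : A0 F A B = LinearMap.range (LinearMap.inl F A B) := by
    ext v
    unfold A0
    rw [Submodule.mem_prod, LinearMap.mem_range]
    constructor
    · rintro ⟨-, h⟩
      rw [Submodule.mem_bot] at h
      exact ⟨v.1, Prod.ext rfl h.symm⟩
    · rintro ⟨a, rfl⟩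
      exact ⟨trivial, rfl⟩
  rw [h1, LinearMap.finrank_range_of_inj LinearMap.inl_injective]

theorem big_comap (e : V ≃ₗ[F] A × B) {R : ℕ} (ha : R ≤ finrank F A) (hb : R ≤ finrank F B) :
    Big R ((A0 F A B).comap (e : V →ₗ[F] A × B)) ((A0 F A B).comap (e : V →ₗ[F] A × B)) := by
  have h1 : finrank F ((A0 F A B).comap (e : V →ₗ[F] A × B)) = finrank F A := by
    rw [← finrank_A0_h27 (F := F) (A := A) (B := B)]
    exact (e.ofSubmodule' (A0 F A B)).finrank_eq
  have h2 : finrank F V = finrank F A + finrank F B := by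
    rw [e.finrank_eq, Module.finrank_prod]
  exact ⟨le_rfl, by rw [h1]; exact ha, by rw [h1, h2]; omega⟩

private theorem dg_inj_h27 : Function.Injective (dg (F := F) (A := A) (B := B)) := by
  intro l l' h
  have h1 : ∀ v : A × B, (l.1.1 v.1, l.1.2 v.2) = (l'.1.1 v.1, l'.1.2 v.2) := fun v => by
    rw [← dg_apply, ← dg_apply, h]
  apply Subtype.ext
  refine Prod.ext ?_ ?_
  · ext a
    exact congrArg Prod.fst (h1 (a, 0))
  · ext b
    exact congrArg Prod.snd (h1 (0, b))

theorem exists_lev (e : V ≃ₗ[F] A × B) (t : SpecialLinearGroup F (A × B) →* SpecialLinearGroup F V)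
    (ht : ∀ g v, t g v = e.symm (g (e v))) (hb : Function.Bijective t)
    (x : SpecialLinearGroup F V) (y : A ≃ₗ[F] A) (z : B ≃ₗ[F] B)
    (hx : ∀ v, e (x v) = (y (e v).1, z (e v).2)) :
    ∃ l : Lev F A B, l.1 = (y, z) ∧ t (dg l) = x ∧ orderOf l = orderOf x := by
  have h0 : LinearEquiv.prodCongr y z = (e.symm ≪≫ₗ (x : V ≃ₗ[F] V)) ≪≫ₗ e := by
    apply LinearEquiv.ext
    intro v
    have h1 := hx (e.symm v)
    rw [LinearEquiv.apply_symm_apply] at h1
    exact h1.symm
  have hdet : LinearEquiv.det (LinearEquiv.prodCongr y z) = 1 := by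
    rw [h0, LinearEquiv.det_conj]
    exact x.2
  have hdet2 : LinearEquiv.det y * LinearEquiv.det z = 1 := by
    apply Units.ext
    have h1 := congrArg Units.val hdet
    rw [LinearEquiv.coe_det] at h1
    have h2 : ((LinearEquiv.prodCongr y z : (A × B) ≃ₗ[F] (A × B)) :
        (A × B) →ₗ[F] (A × B)) = LinearMap.prodMap (y : A →ₗ[F] A) (z : B →ₗ[F] B) := rfl
    rw [h2, LinearMap.det_prodMap, ← LinearEquiv.coe_det, ← LinearEquiv.coe_det] at h1
    rw [Units.val_mul, h1]
  let l : Lev F A B := ⟨(y, z), hdet2⟩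
  have h3 : t (dg l) = x := by
    apply SpecialLinearGroup.ext
    intro v
    rw [ht, dg_apply]
    have h4 : (l.1.1 (e v).1, l.1.2 (e v).2) = e (x v) := (hx v).symm
    rw [h4, LinearEquiv.symm_apply_apply]
  refine ⟨l, rfl, h3, ?_⟩
  rw [← h3, orderOf_injective t hb.1, orderOf_injective dg dg_inj_h27]

end Pool.Agent.Helper70.GLn
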