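import Pool.Agent.Helper70.GLn.SM
import Pool.Agent.Helper70.GLn.AL
import Pool.Agent.Helper70.GLn.TP

/-!
# GL-PT: the iteration (proved)
-/

set_option autoImplicit false

open Module Pool.Agent.Helper13.Ded

namespace Pool.Agent.Helper70.GLn

/-- The upper bound for the defect of every element of bounded order. -/
def PP (F : Type) [Field F] [Finite F] (h : ℕ) (κ : ℝ) (R n0 : ℕ) : Prop :=
  ∀ (V : Type) [AddCommGroup V] [Module F V] [Finite V], n0 ≤ finrank F V →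
    ∀ θ : SpecialLinearGroup F V → ℝ, HP θ → ∀ x : SpecialLinearGroup F V, orderOf x ≤ h →
    (orderOf x).Coprime (Nat.card F - 1) →
    ∃ W : Submodule F V, Big R W W ∧ θ 1 - θ x ≤ (1 + κ) * nn θ (EE W W)

theorem qq_of_pp {F : Type} [Field F] [Finite F] {h R n0 : ℕ} {κ : ℝ} (hκ : 0 ≤ κ)
    (hP : PP F h κ R n0) : QQ F h κ n0 := by
  intro V _ _ _ hV φ hφ x hx hc
  obtain ⟨W, -, hW⟩ := hP V hV φ hφ.hp x hx hc
  have h1 : 0 ≤ av (fun k : EE W W => φ k) := by
    unfold av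
    refine div_nonneg ?_ (Nat.cast_nonneg _)
    have h2 := hφ.pos (EE W W) 1
    have h3 : (∑ᶠ k : EE W W, (φ k : ℂ) * (((1 : EE W W →* ℂˣ) k : ℂˣ) : ℂ))
        = ((∑ᶠ k : EE W W, φ k : ℝ) : ℂ) := by
      have := Fintype.ofFinite (EE W W)
      rw [finsum_eq_sum_of_fintype, finsum_eq_sum_of_fintype]
      push_cast
      exact Finset.sum_congr rfl fun k _ => by simp
    rw [h3, Complex.ofReal_re] at h2
    exact h2
  have h4 : nn φ (EE W W) ≤ φ 1 := by
    unfold nn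
    linarith
  have h5 : (1 + κ) * nn φ (EE W W) ≤ (1 + κ) * φ 1 :=
    mul_le_mul_of_nonneg_left h4 (by linarith)
  nlinarith [h5, hW]

lemma exists_big {F V : Type} [Field F] [Finite F] [AddCommGroup V] [Module F V] [Finite V]
    {R : ℕ} (hR : 2 * R ≤ finrank F V) : ∃ W : Submodule F V, Big R W W := by
  obtain ⟨f, hf⟩ := exists_linearIndependent_of_le_finrank (R := F) (M := V) (n := R) (by omega)
  have h1 := finrank_span_eq_card hf
  rw [Fintype.card_fin] at h1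
  exact ⟨Submodule.span F (Set.range f), le_rfl, h1.ge, by omega⟩

lemma nonsc_finrank {F E : Type} [Field F] [AddCommGroup E] [Module F E] [Finite E]
    {x₀ : E ≃ₗ[F] E} (hx : Nonsc x₀) : 1 ≤ finrank F E := by
  obtain ⟨S, hS⟩ := hx
  by_contra h0
  have h1 : finrank F E = 0 := by omega
  have : Subsingleton E := finrank_zero_iff.1 h1
  exact hS (LinearMap.ext fun v => Subsingleton.elim _ _)

theorem pp_of_qq (F : Type) [Field F] [Finite F] {h n0 : ℕ} {κ ε : ℝ} (hκ : 0 ≤ κ) (hε : 0 < ε)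
    (hQ : QQ F h κ n0) (R : ℕ) : ∃ n1 : ℕ, PP F h (κ / 2 + ε) R n1 := by
  obtain ⟨k₀, hk₀⟩ := large F hε h
  obtain ⟨K, hK⟩ := decomp F h (max k₀ R)
  obtain ⟨m1, hm1⟩ := small_step F (K := K) hκ hε hQ
  obtain ⟨m0, hm0⟩ := hK (max m1 R)
  refine ⟨max m0 (2 * R), ?_⟩
  intro V _ _ _ hV θ hθ x hx hc
  have ho : orderOf ((x : V ≃ₗ[F] V)) = orderOf x :=
    orderOf_injective (SpecialLinearGroup.toLinearEquiv : SpecialLinearGroup F V →* V ≃ₗ[F] V)
      SpecialLinearGroup.toLinearEquiv_injective x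
  rcases hm0 V (le_trans (le_max_left _ _) hV) (x : V ≃ₗ[F] V) (by rw [ho]; exact hx)
    (by rw [ho]; exact hc) with h1 | h1 | h1
  · obtain ⟨W, hW⟩ := exists_big (F := F) (V := V) (R := R) (le_trans (le_max_right _ _) hV)
    refine ⟨W, hW, ?_⟩
    have h2 : x = 1 := Subtype.ext h1
    rw [h2, sub_self]
    exact mul_nonneg (by linarith) (nn_nonneg hθ _)
  · obtain ⟨E, A', _, _, _, _, _, _, e, x₀, x', hns, hex⟩ := h1
    obtain ⟨t, ht, hb⟩ := exists_tr e
    let y : ((Fin (max k₀ R) → E) × A') ≃ₗ[F] ((Fin (max k₀ R) → E) × A') :=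
      LinearEquiv.prodCongr (LinearEquiv.piCongrRight fun _ => x₀) x'
    let z : (Fin (max k₀ R) → E) ≃ₗ[F] (Fin (max k₀ R) → E) :=
      LinearEquiv.piCongrRight fun _ => x₀
    obtain ⟨l, hl1, hl2, hl3⟩ := exists_lev e t ht hb x y z (fun v => hex v)
    have hE := nonsc_finrank hns
    have hB : max k₀ R ≤ finrank F (Fin (max k₀ R) → E) := by
      rw [finrank_pi_fintype]
      simp only [Finset.sum_const, Finset.card_univ, Fintype.card_fin, smul_eq_mul]
      exact Nat.le_mul_of_pos_right _ hE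
    have hA : max k₀ R ≤ finrank F ((Fin (max k₀ R) → E) × A') := by
      rw [finrank_prod]
      omega
    refine ⟨_, big_comap e (le_trans (le_max_right _ _) hA) (le_trans (le_max_right _ _) hB), ?_⟩
    rw [nn_tr e t ht hb θ]
    have hθ' : HP (fun g => θ (t g)) := hθ.comp t
    have h2 := hk₀ (max k₀ R) (le_max_left _ _) E A' x₀ x' hns (fun g => θ (t g)) hθ' l
      (fun v => by rw [hl1]; rfl) (fun f => by rw [hl1]; rfl) (by rw [hl3]; exact hx)
      (by rw [hl3]; exact hc)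
    rw [map_one, hl2] at h2
    refine le_trans h2 (mul_le_mul_of_nonneg_right (by linarith) (NU_nonneg hθ'))
  · obtain ⟨A, B, _, _, _, _, _, _, e, z, hA, hB, hz, hr, hex⟩ := h1
    obtain ⟨t, ht, hb⟩ := exists_tr e
    obtain ⟨l, hl1, hl2, hl3⟩ := exists_lev e t ht hb x 1 z (fun v => hex v)
    refine ⟨_, big_comap e (le_trans (le_max_right _ _) hA) (le_trans (le_max_right _ _) hB), ?_⟩
    rw [nn_tr e t ht hb θ]
    have hθ' : HP (fun g => θ (t g)) := hθ.comp t
    have h2 := hm1 A B (fun g => θ (t g)) hθ' l (by rw [hl1]) (by rw [hl1]; exact hz)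
      (by rw [hl1]; exact hr) (by rw [hl3]; exact hx) (by rw [hl3]; exact hc)
      (le_trans (le_max_left _ _) hA) (le_trans (le_max_left _ _) hB)
    rw [map_one, hl2] at h2
    refine le_trans h2 (mul_le_mul_of_nonneg_right (by linarith) (NU_nonneg hθ'))

theorem qq_all (F : Type) [Field F] [Finite F] (h : ℕ) (n : ℕ) :
    ∀ δ : ℝ, 0 < δ → ∃ n0 : ℕ, QQ F h ((1 / 2) ^ n + δ) n0 := by
  induction n with
  | zero =>
    intro δ hδ
    refine ⟨0, ?_⟩
    intro V _ _ _ _ φ hφ x _ _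
    have h1 := hφ.abs_le x
    have h2 := hφ.abs_le 1
    have h3 : 0 ≤ φ 1 := le_trans (abs_nonneg _) h1
    have h4 := (abs_le.1 h1).1
    have h5 : 0 ≤ δ * φ 1 := mul_nonneg hδ.le h3
    rw [pow_zero, add_mul, one_mul]
    linarith
  | succ n ih =>
    intro δ hδ
    obtain ⟨n0, h0⟩ := ih δ hδ
    have hp : (0 : ℝ) ≤ (1 / 2) ^ n := by positivity
    obtain ⟨n1, h1⟩ := pp_of_qq F (by linarith) (half_pos hδ) h0 0
    refine ⟨n1, ?_⟩
    have h2 : ((1 / 2 : ℝ) ^ n + δ) / 2 + δ / 2 = (1 / 2) ^ (n + 1) + δ := by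
      rw [pow_succ]
      ring
    rw [h2] at h1
    exact qq_of_pp (by positivity) h1

/-- The upper bound for the defect of every element of bounded order prime to `q - 1`. -/
theorem pp_all (F : Type) [Field F] [Finite F] (h R : ℕ) {ε : ℝ} (hε : 0 < ε) :
    ∃ n0 : ℕ, PP F h ε R n0 := by
  obtain ⟨n, hn⟩ := exists_pow_lt_of_lt_one (half_pos hε) (by norm_num : (1 / 2 : ℝ) < 1)
  obtain ⟨n0, h0⟩ := qq_all F h n (ε / 2) (half_pos hε)
  obtain ⟨n1, h1⟩ := pp_of_qq F (by positivity) (half_pos hε) h0 R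
  refine ⟨n1, ?_⟩
  intro V _ _ _ hV θ hθ x hx hc
  obtain ⟨W, hW, hle⟩ := h1 V hV θ hθ x hx hc
  exact ⟨W, hW, hle.trans (mul_le_mul_of_nonneg_right (by linarith) (nn_nonneg hθ _))⟩

end Pool.Agent.Helper70.GLn
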