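import Pool.Agent.Helper70.GLn.FO
import Pool.Agent.Helper70.GLn.AT

/-!
# GL-RK: the rank inequalities (100-160 lines)

PROOF. `c_M = phi θ M 1`. By `theta_u1` (for `Y = 0` and `Y = X`) and `phi_zero`, `θ 1 - θ (u1 X) = ∑_{M ≠ 0} c_M (1 - Re ch M X)`,
`NU θ = ∑_{M ≠ 0} c_M`, `c_M ≥ 0` (`phi_nonneg`). `θ (u1 (g X h⁻¹)) = θ (u1 X)` for `g ∈ SL(A)`, `h ∈ SL(B)` (`dg_conj_u1`
with `l = (g, h)`), so `θ 1 - θ (u1 X) = ∑_{M ≠ 0} c_M (1 - E_{g,h} Re ch M (g X h))`, `ch M (g X h) = ps (trace_A (g ∘ (X h M)))`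
(`LinearMap.trace_comp_comm'`). For fixed `h`: if `X h M ≠ 0` then `|E_g ps (trace (g X h M))| ≤ 1 / q^(a-1)` (`avg_trace`);
if `X h M = 0` it is `1`. So the average is `≥ - 1/q^(a-1)` (first inequality) and `≤ P_h (X h M = 0) + 1/q^(a-1)`. Choose `v` with
`M v ≠ 0`: `P_h (X h M = 0) ≤ P_h (h (M v) ∈ ker X)`, by `card_vec` with `S = ker X \ {0}` it is
`(q^(b-r) - 1) / (q^b - 1) ≤ q^(-r)`, `r = rank X`. This is the second inequality.
-/

set_option autoImplicit false

open Module Pool.Agent.Helper13.Ded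

namespace Pool.Agent.Helper70.GLn

variable {F A B : Type} [Field F] [Finite F] [AddCommGroup A] [Module F A] [Finite A]
  [AddCommGroup B] [Module F B] [Finite B] {θ : SpecialLinearGroup F (A × B) → ℝ}

private lemma rk_fin60 {U W : Type} [AddCommGroup U] [Module F U] [Finite U] [AddCommGroup W]
    [Module F W] [Finite W] : Finite (U →ₗ[F] W) := Finite.of_injective _ DFunLike.coe_injective

private lemma rk_finG60 {U : Type} [AddCommGroup U] [Module F U] [Finite U] :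
    Finite (SpecialLinearGroup F U) :=
  Finite.of_injective (fun g v => g v) (fun g h hgh => by
    ext v
    exact congrFun hgh v)

/-- the pair `(g, h)` as an element of the Levi subgroup -/
private def rk_l60 (g : SpecialLinearGroup F A) (h : SpecialLinearGroup F B) : Lev F A B :=
  ⟨((g : A ≃ₗ[F] A), ((h⁻¹ : SpecialLinearGroup F B) : B ≃ₗ[F] B)), by
    show LinearEquiv.det (g : A ≃ₗ[F] A) *
      LinearEquiv.det ((h⁻¹ : SpecialLinearGroup F B) : B ≃ₗ[F] B) = 1
    rw [g.2, (h⁻¹).2, mul_one]⟩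

private lemma rk_act60 (g : SpecialLinearGroup F A) (h : SpecialLinearGroup F B)
    (X : B →ₗ[F] A) : act (rk_l60 g h) X = (g : A →ₗ[F] A) ∘ₗ X ∘ₗ (h : B →ₗ[F] B) := rfl

private lemma rk_theta60 (hθ : HP θ) (g : SpecialLinearGroup F A) (h : SpecialLinearGroup F B)
    (X : B →ₗ[F] A) :
    θ (u1 ((g : A →ₗ[F] A) ∘ₗ X ∘ₗ (h : B →ₗ[F] B))) = θ (u1 X) := by
  rw [← rk_act60, ← dg_conj_u1, hθ.conj]

private lemma rk_q60 : (0:ℝ) < Nat.card F := by exact_mod_cast Nat.card_pos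

private lemma rk_T60 [Fintype (SpecialLinearGroup F A)] (ha : 2 ≤ finrank F A) (N : A →ₗ[F] A)
    [Decidable (N = 0)] :
    -((Nat.card (SpecialLinearGroup F A) : ℝ) / (Nat.card F : ℝ) ^ (finrank F A - 1)) ≤
      (∑ g : SpecialLinearGroup F A, ps F (LinearMap.trace F A ((g : A →ₗ[F] A) ∘ₗ N))).re ∧
    (∑ g : SpecialLinearGroup F A, ps F (LinearMap.trace F A ((g : A →ₗ[F] A) ∘ₗ N))).re ≤
      (Nat.card (SpecialLinearGroup F A) : ℝ) * (if N = 0 then 1 else 0) +
        (Nat.card (SpecialLinearGroup F A) : ℝ) / (Nat.card F : ℝ) ^ (finrank F A - 1) := by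
  have hq : (0:ℝ) < (Nat.card F : ℝ) ^ (finrank F A - 1) := pow_pos rk_q60 _
  have hG : (0:ℝ) ≤ (Nat.card (SpecialLinearGroup F A) : ℝ) /
      (Nat.card F : ℝ) ^ (finrank F A - 1) := by positivity
  by_cases hN : N = 0
  · subst hN
    have h1 : (∑ g : SpecialLinearGroup F A,
        ps F (LinearMap.trace F A ((g : A →ₗ[F] A) ∘ₗ (0 : A →ₗ[F] A)))).re =
        (Nat.card (SpecialLinearGroup F A) : ℝ) := by
      simp [LinearMap.comp_zero, AddChar.map_zero_eq_one, Nat.card_eq_fintype_card]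
    have h2 : (0:ℝ) ≤ (Nat.card (SpecialLinearGroup F A) : ℝ) := Nat.cast_nonneg _
    rw [h1, if_pos rfl, mul_one]
    constructor <;> linarith
  · rw [if_neg hN, mul_zero, zero_add]
    have h1 := avg_trace ha hN
    rw [← le_div_iff₀ hq] at h1
    have h2 := (Complex.abs_re_le_norm _).trans h1
    exact abs_le.1 h2

private lemma rk_card60 [Fintype (SpecialLinearGroup F B)] (hb : 2 ≤ finrank F B)
    {M : A →ₗ[F] B} (hM : M ≠ 0) (X : B →ₗ[F] A)
    [∀ h : SpecialLinearGroup F B, Decidable (X ∘ₗ (h : B →ₗ[F] B) ∘ₗ M = 0)] :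
    (∑ h : SpecialLinearGroup F B, if X ∘ₗ (h : B →ₗ[F] B) ∘ₗ M = 0 then (1:ℝ) else 0) ≤
      (Nat.card (SpecialLinearGroup F B) : ℝ) *
        (1 / (Nat.card F : ℝ) ^ finrank F (LinearMap.range X)) := by
  classical
  obtain ⟨a, ha⟩ : ∃ a, M a ≠ 0 := by
    by_contra hcon
    push Not at hcon
    exact hM (LinearMap.ext hcon)
  let S : Set B := {y | y ≠ 0 ∧ X y = 0}
  have h1 := card_vec hb ha S (fun h => h.1 rfl)
  have hsum : (∑ h : SpecialLinearGroup F B, if X ∘ₗ (h : B →ₗ[F] B) ∘ₗ M = 0 then (1:ℝ) else 0) ≤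
      (Nat.card {g : SpecialLinearGroup F B // g (M a) ∈ S} : ℝ) := by
    rw [Finset.sum_boole, Nat.card_eq_fintype_card, Fintype.card_subtype]
    refine Nat.cast_le.2 (Finset.card_le_card ?_)
    intro h hh
    rw [Finset.mem_filter] at hh ⊢
    refine ⟨Finset.mem_univ _, ?_, ?_⟩
    · intro h0
      apply ha
      apply sl_injective h
      show h (M a) = h 0
      rw [h0]
      exact ((h : B ≃ₗ[F] B).map_zero).symm
    · exact LinearMap.congr_fun hh.2 a
  have hB : Nat.card B = Nat.card F ^ finrank F B := Module.natCard_eq_pow_finrank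
  have hK : Nat.card (LinearMap.ker X) = Nat.card F ^ finrank F (LinearMap.ker X) :=
    Module.natCard_eq_pow_finrank
  have hrn := LinearMap.finrank_range_add_finrank_ker X
  have hS : Nat.card S + 1 = Nat.card (LinearMap.ker X) := by
    have e : Nat.card (LinearMap.ker X) = Nat.card ((LinearMap.ker X : Set B)) := rfl
    have e2 : (LinearMap.ker X : Set B) = insert 0 S := by
      ext y
      simp only [SetLike.mem_coe, LinearMap.mem_ker, Set.mem_insert_iff, S, Set.mem_setOf_eq]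
      constructor
      · intro h
        by_cases hy : y = 0
        · exact Or.inl hy
        · exact Or.inr ⟨hy, h⟩
      · rintro (h | h)
        · rw [h, map_zero]
        · exact h.2
    rw [e, e2, Nat.card_coe_set_eq, Nat.card_coe_set_eq,
      Set.ncard_insert_of_notMem (fun h => h.1 rfl) (Set.toFinite S)]
  have hq := rk_q60 (F := F)
  have hq1 : 1 < Nat.card F := Finite.one_lt_card
  refine hsum.trans ?_
  have hB1 : 1 < Nat.card B := by
    rw [hB]
    exact Nat.one_lt_pow (by omega) hq1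
  have h2 : (Nat.card {g : SpecialLinearGroup F B // g (M a) ∈ S} : ℝ) *
      ((Nat.card F : ℝ) ^ finrank F B - 1) = (Nat.card (SpecialLinearGroup F B) : ℝ) *
        ((Nat.card F : ℝ) ^ finrank F (LinearMap.ker X) - 1) := by
    have h3 := congrArg (Nat.cast : ℕ → ℝ) h1
    rw [Nat.cast_mul, Nat.cast_mul, Nat.cast_sub hB1.le, hB] at h3
    have h4 : (Nat.card S : ℝ) = (Nat.card F : ℝ) ^ finrank F (LinearMap.ker X) - 1 := by
      have h5 := congrArg (Nat.cast : ℕ → ℝ) hS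
      rw [hK] at h5
      push_cast at h5
      linarith
    rw [h4] at h3
    push_cast at h3
    exact h3
  have hpos : (0:ℝ) < (Nat.card F : ℝ) ^ finrank F B - 1 := by
    have : (1:ℝ) < (Nat.card F : ℝ) ^ finrank F B := by
      rw [hB] at hB1
      exact_mod_cast hB1
    linarith
  have hr : (0:ℝ) < (Nat.card F : ℝ) ^ finrank F (LinearMap.range X) := pow_pos hq _
  have hr1 : (1:ℝ) ≤ (Nat.card F : ℝ) ^ finrank F (LinearMap.range X) :=
    one_le_pow₀ (by exact_mod_cast hq1.le)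
  have hprod : (Nat.card F : ℝ) ^ finrank F B =
      (Nat.card F : ℝ) ^ finrank F (LinearMap.range X) *
        (Nat.card F : ℝ) ^ finrank F (LinearMap.ker X) := by
    rw [← pow_add, hrn]
  refine le_of_mul_le_mul_right ?_ hpos
  rw [h2, mul_assoc]
  refine mul_le_mul_of_nonneg_left ?_ (Nat.cast_nonneg _)
  rw [hprod, one_div, mul_sub, ← mul_assoc, inv_mul_cancel₀ hr.ne', one_mul, mul_one]
  have : ((Nat.card F : ℝ) ^ finrank F (LinearMap.range X))⁻¹ ≤ 1 := inv_le_one_of_one_le₀ hr1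
  linarith

private lemma rk_ch60 (M : A →ₗ[F] B) (X : B →ₗ[F] A) (g : SpecialLinearGroup F A)
    (h : SpecialLinearGroup F B) : ch M ((g : A →ₗ[F] A) ∘ₗ X ∘ₗ (h : B →ₗ[F] B)) =
      ps F (LinearMap.trace F A ((g : A →ₗ[F] A) ∘ₗ (X ∘ₗ (h : B →ₗ[F] B) ∘ₗ M))) := by
  rw [ch_apply, LinearMap.trace_comp_comm']
  rfl

/-- the two inequalities for an arbitrary pair of bounds -/
private lemma rk_key60 (hθ : HP θ) (X : B →ₗ[F] A) [Fintype (SpecialLinearGroup F A)]
    [Fintype (SpecialLinearGroup F B)] {lo hi : ℝ}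
    (hb : ∀ M : A →ₗ[F] B, M ≠ 0 →
      lo ≤ 1 - (∑ h : SpecialLinearGroup F B, (∑ g : SpecialLinearGroup F A,
        ps F (LinearMap.trace F A ((g : A →ₗ[F] A) ∘ₗ (X ∘ₗ (h : B →ₗ[F] B) ∘ₗ M)))).re) /
          ((Nat.card (SpecialLinearGroup F A) : ℝ) * Nat.card (SpecialLinearGroup F B)) ∧
      1 - (∑ h : SpecialLinearGroup F B, (∑ g : SpecialLinearGroup F A,
        ps F (LinearMap.trace F A ((g : A →ₗ[F] A) ∘ₗ (X ∘ₗ (h : B →ₗ[F] B) ∘ₗ M)))).re) /
          ((Nat.card (SpecialLinearGroup F A) : ℝ) * Nat.card (SpecialLinearGroup F B)) ≤ hi) :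
    lo * NU θ ≤ θ 1 - θ (u1 X) ∧ θ 1 - θ (u1 X) ≤ hi * NU θ := by
  classical
  have : Finite (A →ₗ[F] B) := rk_fin60
  have := Fintype.ofFinite (A →ₗ[F] B)
  obtain ⟨D, hD⟩ : ∃ D : (A →ₗ[F] B) → ℝ, ∀ M, D M =
      1 - (∑ h : SpecialLinearGroup F B, (∑ g : SpecialLinearGroup F A,
        ps F (LinearMap.trace F A ((g : A →ₗ[F] A) ∘ₗ (X ∘ₗ (h : B →ₗ[F] B) ∘ₗ M)))).re) /
          ((Nat.card (SpecialLinearGroup F A) : ℝ) * Nat.card (SpecialLinearGroup F B)) :=
    ⟨_, fun _ => rfl⟩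
  simp_rw [← hD] at hb
  have hG : (0:ℝ) < Nat.card (SpecialLinearGroup F A) := by exact_mod_cast Nat.card_pos
  have hH : (0:ℝ) < Nat.card (SpecialLinearGroup F B) := by exact_mod_cast Nat.card_pos
  have h1 : θ 1 = ∑ M : A →ₗ[F] B, phi θ M 1 := by
    have := sum_phi θ (1 : Lev F A B)
    rwa [map_one] at this
  have h2 : θ (u1 X) = ∑ M : A →ₗ[F] B, phi θ M 1 * (1 - D M) := by
    have e1 : ∀ (h : SpecialLinearGroup F B) (g : SpecialLinearGroup F A), θ (u1 X) =
        ∑ M : A →ₗ[F] B, phi θ M 1 * (ps F (LinearMap.trace F A ((g : A →ₗ[F] A) ∘ₗ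
          (X ∘ₗ (h : B →ₗ[F] B) ∘ₗ M)))).re := by
      intro h g
      rw [← rk_theta60 hθ g h X, theta_u1 hθ]
      refine Finset.sum_congr rfl fun M _ => ?_
      rw [rk_ch60]
    have e2 : ∑ _h : SpecialLinearGroup F B, ∑ _g : SpecialLinearGroup F A, θ (u1 X) =
        (Nat.card (SpecialLinearGroup F A) : ℝ) * Nat.card (SpecialLinearGroup F B) *
          θ (u1 X) := by
      simp only [Finset.sum_const, Finset.card_univ, nsmul_eq_mul, Nat.card_eq_fintype_card]
      ring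
    have e3 : ∑ _h : SpecialLinearGroup F B, ∑ _g : SpecialLinearGroup F A, θ (u1 X) =
        ∑ M : A →ₗ[F] B, phi θ M 1 * (∑ h : SpecialLinearGroup F B,
          (∑ g : SpecialLinearGroup F A, ps F (LinearMap.trace F A ((g : A →ₗ[F] A) ∘ₗ
            (X ∘ₗ (h : B →ₗ[F] B) ∘ₗ M)))).re) := by
      have e4 : ∀ h : SpecialLinearGroup F B, ∑ _g : SpecialLinearGroup F A, θ (u1 X) =
          ∑ M : A →ₗ[F] B, phi θ M 1 * (∑ g : SpecialLinearGroup F A,
            ps F (LinearMap.trace F A ((g : A →ₗ[F] A) ∘ₗ (X ∘ₗ (h : B →ₗ[F] B) ∘ₗ M)))).re := by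
        intro h
        rw [Finset.sum_congr rfl (fun g _ => e1 h g), Finset.sum_comm]
        refine Finset.sum_congr rfl fun M _ => ?_
        rw [Complex.re_sum, Finset.mul_sum]
      rw [Finset.sum_congr rfl (fun h _ => e4 h), Finset.sum_comm]
      refine Finset.sum_congr rfl fun M _ => ?_
      rw [Finset.mul_sum]
    rw [e2] at e3
    have hGH : (0:ℝ) < (Nat.card (SpecialLinearGroup F A) : ℝ) *
      Nat.card (SpecialLinearGroup F B) := mul_pos hG hH
    rw [mul_comm, ← eq_div_iff hGH.ne', Finset.sum_div] at e3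
    rw [e3]
    refine Finset.sum_congr rfl fun M _ => ?_
    rw [hD]
    ring
  have h3 : θ 1 - θ (u1 X) = ∑ M : A →ₗ[F] B, phi θ M 1 * D M := by
    rw [h1, h2, ← Finset.sum_sub_distrib]
    refine Finset.sum_congr rfl fun M _ => ?_
    ring
  have hD0 : D 0 = 0 := by
    rw [hD]
    have e : ∀ h : SpecialLinearGroup F B, (∑ g : SpecialLinearGroup F A,
        ps F (LinearMap.trace F A ((g : A →ₗ[F] A) ∘ₗ (X ∘ₗ (h : B →ₗ[F] B) ∘ₗ
          (0 : A →ₗ[F] B))))).re = (Nat.card (SpecialLinearGroup F A) : ℝ) := by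
      intro h
      simp [LinearMap.comp_zero, AddChar.map_zero_eq_one, Nat.card_eq_fintype_card]
    simp_rw [e]
    rw [Finset.sum_const, Finset.card_univ, nsmul_eq_mul, ← Nat.card_eq_fintype_card, mul_comm,
      div_self (mul_pos hG hH).ne', sub_self]
  have hNU : ∀ c : ℝ, c * NU θ = ∑ M : A →ₗ[F] B, (if M = 0 then 0 else c * phi θ M 1) := by
    intro c
    have e : ∀ M : A →ₗ[F] B, (if M = 0 then 0 else c * phi θ M 1) =
        c * phi θ M 1 - (if M = 0 then c * phi θ M 1 else 0) := by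
      intro M
      split_ifs <;> ring
    rw [Finset.sum_congr rfl (fun M _ => e M), Finset.sum_sub_distrib, ← Finset.mul_sum, ← h1,
      Finset.sum_ite_eq' Finset.univ (0 : A →ₗ[F] B) (fun M => c * phi θ M 1),
      if_pos (Finset.mem_univ _), phi_zero, NU]
    ring
  rw [hNU, hNU, h3]
  constructor
  · refine Finset.sum_le_sum fun M _ => ?_
    split_ifs with hM
    · rw [hM, hD0, mul_zero]
    · rw [mul_comm]
      exact mul_le_mul_of_nonneg_left (hb M hM).1 (phi_nonneg hθ hM)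
  · refine Finset.sum_le_sum fun M _ => ?_
    split_ifs with hM
    · rw [hM, hD0, mul_zero]
    · rw [mul_comm (phi θ M 1)]
      exact mul_le_mul_of_nonneg_right (hb M hM).2 (phi_nonneg hθ hM)

private lemma rk_both60 (hθ : HP θ) (ha : 2 ≤ finrank F A) (hb : 2 ≤ finrank F B)
    (X : B →ₗ[F] A) :
    (1 - 1 / (Nat.card F : ℝ) ^ finrank F (LinearMap.range X) -
      1 / (Nat.card F : ℝ) ^ (finrank F A - 1)) * NU θ ≤ θ 1 - θ (u1 X) ∧
    θ 1 - θ (u1 X) ≤ (1 + 1 / (Nat.card F : ℝ) ^ (finrank F A - 1)) * NU θ := by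
  classical
  have : Finite (SpecialLinearGroup F A) := rk_finG60
  have : Finite (SpecialLinearGroup F B) := rk_finG60
  have := Fintype.ofFinite (SpecialLinearGroup F A)
  have := Fintype.ofFinite (SpecialLinearGroup F B)
  have hG : (0:ℝ) < Nat.card (SpecialLinearGroup F A) := by exact_mod_cast Nat.card_pos
  have hH : (0:ℝ) < Nat.card (SpecialLinearGroup F B) := by exact_mod_cast Nat.card_pos
  refine rk_key60 hθ X fun M hM => ?_
  obtain ⟨S, hS⟩ : ∃ S : ℝ, S = ∑ h : SpecialLinearGroup F B, (∑ g : SpecialLinearGroup F A,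
        ps F (LinearMap.trace F A ((g : A →ₗ[F] A) ∘ₗ (X ∘ₗ (h : B →ₗ[F] B) ∘ₗ M)))).re :=
    ⟨_, rfl⟩
  rw [← hS]
  obtain ⟨κ, hκ⟩ : ∃ κ : ℝ, κ = 1 / (Nat.card F : ℝ) ^ (finrank F A - 1) := ⟨_, rfl⟩
  have h1 : -(κ * (Nat.card (SpecialLinearGroup F A) * Nat.card (SpecialLinearGroup F B))) ≤ S := by
    have e : ∑ _h : SpecialLinearGroup F B, -((Nat.card (SpecialLinearGroup F A) : ℝ) /
        (Nat.card F : ℝ) ^ (finrank F A - 1)) ≤ S := by
      rw [hS]
      exact Finset.sum_le_sum fun h _ => (rk_T60 ha _).1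
    refine le_trans (le_of_eq ?_) e
    rw [Finset.sum_const, Finset.card_univ, nsmul_eq_mul, ← Nat.card_eq_fintype_card, hκ]
    ring
  have h2 : S ≤ (1 / (Nat.card F : ℝ) ^ finrank F (LinearMap.range X) + κ) *
      (Nat.card (SpecialLinearGroup F A) * Nat.card (SpecialLinearGroup F B)) := by
    have e : S ≤ ∑ h : SpecialLinearGroup F B, ((Nat.card (SpecialLinearGroup F A) : ℝ) *
        (if X ∘ₗ (h : B →ₗ[F] B) ∘ₗ M = 0 then 1 else 0) +
        (Nat.card (SpecialLinearGroup F A) : ℝ) / (Nat.card F : ℝ) ^ (finrank F A - 1)) := by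
      rw [hS]
      exact Finset.sum_le_sum fun h _ => (rk_T60 ha _).2
    refine e.trans ?_
    rw [Finset.sum_add_distrib, ← Finset.mul_sum, Finset.sum_const, Finset.card_univ,
      nsmul_eq_mul, ← Nat.card_eq_fintype_card]
    have e2 := mul_le_mul_of_nonneg_left (rk_card60 hb hM X) hG.le
    have e3 : (Nat.card (SpecialLinearGroup F B) : ℝ) *
        ((Nat.card (SpecialLinearGroup F A) : ℝ) / (Nat.card F : ℝ) ^ (finrank F A - 1)) =
        κ * (Nat.card (SpecialLinearGroup F A) * Nat.card (SpecialLinearGroup F B)) := by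
      rw [hκ]
      ring
    rw [e3]
    nlinarith [e2]
  rw [← hκ]
  have hGH := mul_pos hG hH
  constructor
  · have := (div_le_iff₀ hGH).2 h2
    linarith
  · have h3 : -κ ≤ S / ((Nat.card (SpecialLinearGroup F A) : ℝ) *
        Nat.card (SpecialLinearGroup F B)) := by
      rw [le_div_iff₀ hGH]
      linarith
    linarith

theorem rk_up (h : HP θ) (ha : 2 ≤ finrank F A) (hb : 2 ≤ finrank F B) (X : B →ₗ[F] A) :
    θ 1 - θ (u1 X) ≤ (1 + 1 / (Nat.card F : ℝ) ^ (finrank F A - 1)) * NU θ :=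
  (rk_both60 h ha hb X).2

theorem rk_lo (h : HP θ) (ha : 2 ≤ finrank F A) (hb : 2 ≤ finrank F B) (X : B →ₗ[F] A) :
    (1 - 1 / (Nat.card F : ℝ) ^ finrank F (LinearMap.range X) -
      1 / (Nat.card F : ℝ) ^ (finrank F A - 1)) * NU θ ≤ θ 1 - θ (u1 X) :=
  (rk_both60 h ha hb X).1

end Pool.Agent.Helper70.GLn
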