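import Pool.Agent.Helper70.GLn.FR

/-!
# GL-WR: the wreath configuration (120-200 lines)

PROOF. Model: `M = (ZMod p → P) × Q'` (or `Fin p`, `p ≥ 2`), `Q' = Fin d → F` with `d = finrank A - p * finrank P`. Let `σ₀` be from `exists_frob` for `y|P`
(`(y|P)^m = 1`). In the model let `yM (f, c) = (f with value at 0 replaced by y (f 0), c)`, `wM (f, c) = (i ↦ f (i - 1), c)`,
`σM (f, c) = (f with value at 0 replaced by σ₀ (f 0), c)`. Then: `wM ^ p = 1`, so `(wM - 1) ^ p = wM ^ p - 1 = 0` (`sub_pow_char_of_commute`);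
`ker (wM - 1)` contains the `(constant function, c)`, dimension `≥ dim P + d` and `p * (dim P + d) ≥ dim A`; `wM^i yM wM^-i` acts by `y` on the coordinate `i mod p`
only, so these commute; `σM yM σM⁻¹ = yM ^ q`; `wM yM wM⁻¹` acts on the coordinate `1 ≠ 0`, so it commutes with `σM`.
Transport: there is `e : A ≃ₗ[F] M` with `e (y a) = yM (e a)`: the restriction of `e` to `P` is the inclusion at the coordinate `0` and `e` maps `Q` onto
the elements with `f 0 = 0` (same dimension `finrank A - finrank P`; `LinearEquiv.ofFinrankEq`, `Submodule.prodEquivOfIsCompl`). Take `w = e⁻¹ wM e`, `σ = e⁻¹ σM e`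
(the group isomorphism `LinearEquiv.conj`-like between `A ≃ₗ A` and `M ≃ₗ M`).
-/

set_option autoImplicit false

open Module

namespace Pool.Agent.Helper70.GLn

private theorem unip70 {F A : Type} [Field F] [AddCommGroup A] [Module F A] {p : ℕ}
    (hp : p.Prime) [CharP F p] {v : A ≃ₗ[F] A} (hv : v ^ p = 1) :
    ((v : A →ₗ[F] A) - LinearMap.id) ^ p = 0 := by
  have h1 : (1 : Module.End F A) + ((v : A →ₗ[F] A) - LinearMap.id) = (v : A →ₗ[F] A) := by
    have : (LinearMap.id : A →ₗ[F] A) = 1 := rfl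
    rw [this]
    abel
  have hc : Commute (1 : Module.End F A) ((v : A →ₗ[F] A) - LinearMap.id) := Commute.one_left _
  obtain ⟨r, hr⟩ := hc.exists_add_pow_prime_pow_eq hp 1
  have h3 : (p : Module.End F A) = 0 := by
    ext v
    rw [Module.End.natCast_apply, ← Nat.cast_smul_eq_nsmul F, CharP.cast_eq_zero, zero_smul]
    rfl
  have h4 : ∀ n : ℕ, ((v ^ n : A ≃ₗ[F] A) : A →ₗ[F] A) = (v : A →ₗ[F] A) ^ n := by
    intro n
    induction n with
    | zero => rfl
    | succ n ih => rw [pow_succ, pow_succ, ← ih]; rfl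
  rw [pow_one] at hr
  rw [h1, h3, ← h4, hv] at hr
  simp only [zero_mul, one_pow, add_zero] at hr
  have h5 : (1 : Module.End F A) = 1 + ((v : A →ₗ[F] A) - LinearMap.id) ^ p := hr
  exact (left_eq_add.1 h5)

section model

variable {F P : Type} [Field F] [AddCommGroup P] [Module F P] (p d : ℕ)

/-- The operator at one coordinate. -/
private def atc70 (i : ZMod p) : (P ≃ₗ[F] P) →*
    (((ZMod p → P) × (Fin d → F)) ≃ₗ[F] ((ZMod p → P) × (Fin d → F))) where
  toFun τ := LinearEquiv.prodCongr
    (LinearEquiv.piCongrRight fun j => if j = i then τ else LinearEquiv.refl F P)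
    (LinearEquiv.refl F _)
  map_one' := by
    refine LinearEquiv.ext fun v => Prod.ext ?_ rfl
    funext j
    show (if j = i then (1 : P ≃ₗ[F] P) else LinearEquiv.refl F P) (v.1 j) = v.1 j
    split_ifs <;> rfl
  map_mul' a b := by
    refine LinearEquiv.ext fun v => Prod.ext ?_ rfl
    funext j
    show (if j = i then (a * b) else LinearEquiv.refl F P) (v.1 j) =
      (if j = i then a else LinearEquiv.refl F P)
        ((if j = i then b else LinearEquiv.refl F P) (v.1 j))
    split_ifs <;> rfl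

private lemma atc_apply70 (i : ZMod p) (τ : P ≃ₗ[F] P) (v : (ZMod p → P) × (Fin d → F)) :
    atc70 (F := F) p d i τ v = ((fun j => if j = i then τ (v.1 j) else v.1 j), v.2) := by
  refine Prod.ext ?_ rfl
  funext j
  show (if j = i then τ else LinearEquiv.refl F P) (v.1 j) = if j = i then τ (v.1 j) else v.1 j
  split_ifs <;> rfl

/-- The cyclic shift. -/
private def shf70 : ((ZMod p → P) × (Fin d → F)) ≃ₗ[F] ((ZMod p → P) × (Fin d → F)) :=
  LinearEquiv.prodCongr (LinearEquiv.funCongrLeft F P (Equiv.subRight (1 : ZMod p)))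
    (LinearEquiv.refl F _)

private lemma shf_apply70 (v : (ZMod p → P) × (Fin d → F)) :
    shf70 (F := F) p d v = ((fun j => v.1 (j - 1)), v.2) := rfl

private lemma shf_pow70 (k : ℕ) (v : (ZMod p → P) × (Fin d → F)) :
    (shf70 (F := F) p d ^ k) v = ((fun j => v.1 (j - k)), v.2) := by
  induction k generalizing v with
  | zero => simp
  | succ k ih =>
    rw [pow_succ]
    show (shf70 (F := F) p d ^ k) (shf70 (F := F) p d v) = _
    rw [ih, shf_apply70]
    refine Prod.ext ?_ rfl
    funext j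
    show v.1 (j - k - 1) = v.1 (j - ((k + 1 : ℕ) : ZMod p))
    congr 1
    push_cast
    ring

private lemma shf_conj70 (k : ℕ) (τ : P ≃ₗ[F] P) :
    shf70 (F := F) p d ^ k * atc70 p d 0 τ * (shf70 (F := F) p d ^ k)⁻¹ = atc70 p d k τ := by
  rw [mul_inv_eq_iff_eq_mul]
  refine LinearEquiv.ext fun v => ?_
  show (shf70 (F := F) p d ^ k) (atc70 p d 0 τ v) = atc70 p d k τ ((shf70 (F := F) p d ^ k) v)
  rw [shf_pow70, atc_apply70, atc_apply70, shf_pow70]
  refine Prod.ext ?_ rfl
  funext j
  show (if j - (k : ZMod p) = 0 then τ (v.1 (j - k)) else v.1 (j - k)) =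
    if j = (k : ZMod p) then τ (v.1 (j - k)) else v.1 (j - k)
  simp only [sub_eq_zero]

private lemma atc_comm70 (i j : ZMod p) (τ : P ≃ₗ[F] P) :
    Commute (atc70 (F := F) p d i τ) (atc70 p d j τ) := by
  refine LinearEquiv.ext fun v => ?_
  show atc70 p d i τ (atc70 p d j τ v) = atc70 p d j τ (atc70 p d i τ v)
  simp only [atc_apply70]
  refine Prod.ext ?_ rfl
  funext k
  show (if k = i then τ (if k = j then τ (v.1 k) else v.1 k) else
    if k = j then τ (v.1 k) else v.1 k) = if k = j then τ (if k = i then τ (v.1 k) else v.1 k) else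
      if k = i then τ (v.1 k) else v.1 k
  split_ifs <;> rfl

private lemma atc_comm'70 {i j : ZMod p} (hij : i ≠ j) (τ σ : P ≃ₗ[F] P) :
    Commute (atc70 (F := F) p d i σ) (atc70 p d j τ) := by
  refine LinearEquiv.ext fun v => ?_
  show atc70 p d i σ (atc70 p d j τ v) = atc70 p d j τ (atc70 p d i σ v)
  simp only [atc_apply70]
  refine Prod.ext ?_ rfl
  funext k
  show (if k = i then σ (if k = j then τ (v.1 k) else v.1 k) else
    if k = j then τ (v.1 k) else v.1 k) = if k = j then τ (if k = i then σ (v.1 k) else v.1 k) else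
      if k = i then σ (v.1 k) else v.1 k
  by_cases h1 : k = i
  · have h2 : k ≠ j := fun h => hij (h1.symm.trans h)
    simp [h1, hij]
  · simp [h1]

/-- Splitting off the coordinate `0`. -/
private def spl70 : (ZMod p → P) ≃ₗ[F] (P × ({i : ZMod p // i ≠ 0} → P)) where
  toFun f := (f 0, fun i => f i)
  map_add' _ _ := rfl
  map_smul' _ _ := rfl
  invFun u := fun i => if h : i = 0 then u.1 else u.2 ⟨i, h⟩
  left_inv f := by
    funext i
    by_cases h : i = 0
    · simp [h]
    · simp [h]
  right_inv u := by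
    refine Prod.ext ?_ ?_
    · simp
    · funext i
      have := i.2
      simp [this]

end model

theorem wreath {F A : Type} [Field F] [Finite F] [AddCommGroup A] [Module F A] [Finite A] {p : ℕ}
    [Fact p.Prime] [CharP F p] (y : A ≃ₗ[F] A) {m : ℕ} (hm : y ^ m = 1)
    (hc : m.Coprime (Nat.card F)) (P Q : Submodule F A) (hPQ : IsCompl P Q)
    (hP : ∀ v ∈ P, y v ∈ P) (hQ : ∀ v ∈ Q, y v = v) (hd : p * finrank F P ≤ finrank F A) :
    ∃ w σ : A ≃ₗ[F] A, ((w : A →ₗ[F] A) - LinearMap.id) ^ p = 0 ∧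
      finrank F A ≤ p * finrank F (LinearMap.ker ((w : A →ₗ[F] A) - LinearMap.id)) ∧
      (∀ i j : ℕ, Commute (w ^ i * y * (w ^ i)⁻¹) (w ^ j * y * (w ^ j)⁻¹)) ∧
      σ * y * σ⁻¹ = y ^ (Nat.card F) ∧ Commute σ (w * y * w⁻¹) := by
  have hp : p.Prime := Fact.out
  have hz : NeZero p := ⟨hp.ne_zero⟩
  -- the restriction of `y`
  let y₀ : P →ₗ[F] P := (y : A →ₗ[F] A).restrict hP
  have hy₀ : Function.Injective y₀ := by
    intro a b hab
    exact Subtype.ext (y.injective (congrArg Subtype.val hab))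
  let yP : P ≃ₗ[F] P := LinearEquiv.ofBijective y₀ (Finite.injective_iff_bijective.1 hy₀)
  have hyP : ∀ u : P, ((yP u : P) : A) = y u := fun u => rfl
  have hyPn : ∀ n : ℕ, ∀ u : P, (((yP ^ n) u : P) : A) = (y ^ n) u := by
    intro n
    induction n with
    | zero => intro u; rfl
    | succ n ih =>
      intro u
      rw [pow_succ, pow_succ]
      show (((yP ^ n) (yP u) : P) : A) = (y ^ n) (y u)
      rw [ih, hyP]
  have hyPm : yP ^ m = 1 := by
    refine LinearEquiv.ext fun u => Subtype.ext ?_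
    rw [hyPn, hm]
    rfl
  obtain ⟨σ₀, hσ₀⟩ := exists_frob yP hyPm hc
  -- the transport
  obtain ⟨d, hd'⟩ := Nat.exists_eq_add_of_le hd
  have hQfin : finrank F P + finrank F Q = finrank F A := Submodule.finrank_add_eq_of_isCompl hPQ
  have hspl := (spl70 (F := F) (P := P) p).finrank_eq
  rw [finrank_prod, finrank_pi_fintype] at hspl
  simp only [Finset.sum_const, Finset.card_univ, ZMod.card, smul_eq_mul] at hspl
  have hQ' : finrank F Q = finrank F (({i : ZMod p // i ≠ 0} → P) × (Fin d → F)) := by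
    rw [finrank_prod, finrank_pi, Fintype.card_fin]
    omega
  let eQ : Q ≃ₗ[F] (({i : ZMod p // i ≠ 0} → P) × (Fin d → F)) := LinearEquiv.ofFinrankEq _ _ hQ'
  let D : (P × Q) ≃ₗ[F] A := Submodule.prodEquivOfIsCompl P Q hPQ
  let e : A ≃ₗ[F] (ZMod p → P) × (Fin d → F) :=
    D.symm.trans (((LinearEquiv.refl F P).prodCongr eQ).trans
      ((LinearEquiv.prodAssoc F P ({i : ZMod p // i ≠ 0} → P) (Fin d → F)).symm.trans
        ((spl70 (F := F) (P := P) p).symm.prodCongr (LinearEquiv.refl F _))))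
  have heD : ∀ (u : P) (v : Q), e (D (u, v)) =
      ((fun i => if h : i = 0 then u else (eQ v).1 ⟨i, h⟩), (eQ v).2) := by
    intro u v
    show ((spl70 (F := F) (P := P) p).symm.prodCongr (LinearEquiv.refl F _))
      ((LinearEquiv.prodAssoc F P ({i : ZMod p // i ≠ 0} → P) (Fin d → F)).symm
        (((LinearEquiv.refl F P).prodCongr eQ) (D.symm (D (u, v))))) = _
    rw [LinearEquiv.symm_apply_apply]
    rfl
  have hey : ∀ a, e (y a) = atc70 (F := F) p d 0 yP (e a) := by
    intro a
    obtain ⟨⟨u, v⟩, rfl⟩ := D.surjective a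
    have h1 : y (D (u, v)) = D (yP u, v) := by
      show y (D (u, v)) = D (yP u, v)
      rw [Submodule.coe_prodEquivOfIsCompl', Submodule.coe_prodEquivOfIsCompl', map_add,
        hQ v v.2]
      rfl
    rw [h1, heD, heD, atc_apply70]
    refine Prod.ext ?_ rfl
    funext j
    by_cases hj : j = 0
    · simp [hj]
    · simp [hj]
  let Φ : (((ZMod p → P) × (Fin d → F)) ≃ₗ[F] ((ZMod p → P) × (Fin d → F))) →* (A ≃ₗ[F] A) :=
    { toFun := fun g => (e.trans g).trans e.symm
      map_one' := by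
        refine LinearEquiv.ext fun a => ?_
        show e.symm (e a) = a
        exact e.symm_apply_apply a
      map_mul' := fun g h => by
        refine LinearEquiv.ext fun a => ?_
        show e.symm (g (h (e a))) = e.symm (g (e (e.symm (h (e a)))))
        rw [e.apply_symm_apply] }
  have hΦy : Φ (atc70 (F := F) p d 0 yP) = y := by
    refine LinearEquiv.ext fun a => ?_
    show e.symm (atc70 (F := F) p d 0 yP (e a)) = y a
    rw [← hey, e.symm_apply_apply]
  have hshp : shf70 (F := F) (P := P) p d ^ p = 1 := by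
    refine LinearEquiv.ext fun v => ?_
    rw [shf_pow70]
    simp
  refine ⟨Φ (shf70 p d), Φ (atc70 p d 0 σ₀), ?_, ?_, ?_, ?_, ?_⟩
  · apply unip70 hp
    rw [← map_pow, hshp, map_one]
  · let c : (P × (Fin d → F)) →ₗ[F] ((ZMod p → P) × (Fin d → F)) :=
      LinearMap.prodMap (LinearMap.pi fun _ => LinearMap.id) LinearMap.id
    let g : (P × (Fin d → F)) →ₗ[F]
        LinearMap.ker (((Φ (shf70 p d) : A ≃ₗ[F] A) : A →ₗ[F] A) - LinearMap.id) :=
      LinearMap.codRestrict _ ((e.symm : _ →ₗ[F] A) ∘ₗ c) (by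
        intro v
        rw [LinearMap.mem_ker, LinearMap.sub_apply, sub_eq_zero]
        show e.symm (shf70 (F := F) p d (e (e.symm (c v)))) = e.symm (c v)
        rw [e.apply_symm_apply]
        rfl)
    have hg : Function.Injective g := by
      intro a b hab
      have h0 : ((g a : LinearMap.ker (((Φ (shf70 p d) : A ≃ₗ[F] A) : A →ₗ[F] A) -
          LinearMap.id)) : A) = g b := by rw [hab]
      have h1 : e.symm (c a) = e.symm (c b) := h0
      have h2 : c a = c b := e.symm.injective h1
      have h3 : (c a).1 0 = (c b).1 0 := by rw [h2]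
      have h4 : (c a).2 = (c b).2 := by rw [h2]
      exact Prod.ext h3 h4
    have h1 := LinearMap.finrank_le_finrank_of_injective hg
    rw [finrank_prod, finrank_pi, Fintype.card_fin] at h1
    calc finrank F A = p * finrank F P + d := hd'
      _ ≤ p * finrank F P + p * d := Nat.add_le_add_left (Nat.le_mul_of_pos_left _ hp.pos) _
      _ = p * (finrank F P + d) := by ring
      _ ≤ _ := Nat.mul_le_mul_left _ h1
  · intro i j
    have h1 : ∀ k : ℕ, Φ (shf70 p d) ^ k * y * (Φ (shf70 p d) ^ k)⁻¹ = Φ (atc70 p d k yP) := by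
      intro k
      rw [← shf_conj70, map_mul, map_mul, map_inv, map_pow, hΦy]
    rw [h1, h1]
    exact (atc_comm70 p d i j yP).map Φ
  · have h1 : Φ (atc70 p d 0 σ₀) * y * (Φ (atc70 p d 0 σ₀))⁻¹ =
        Φ (atc70 p d 0 (σ₀ * yP * σ₀⁻¹)) := by
      rw [map_mul, map_mul, map_mul, map_mul, map_inv, map_inv, hΦy]
    rw [h1, hσ₀, map_pow, map_pow, hΦy]
  · have h1 : Φ (shf70 p d) * y * (Φ (shf70 p d))⁻¹ = Φ (atc70 p d 1 yP) := by
      have h2 := shf_conj70 (F := F) p d 1 yP
      rw [pow_one, Nat.cast_one] at h2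
      rw [← h2, map_mul, map_mul, map_inv, hΦy]
    rw [h1]
    have h01 : (0 : ZMod p) ≠ 1 := by
      have : Fact (1 < p) := ⟨hp.one_lt⟩
      exact zero_ne_one
    exact (atc_comm'70 p d h01 yP σ₀).map Φ

end Pool.Agent.Helper70.GLn
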