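import Pool.Agent.Helper70.GLn.UP
import Pool.Agent.Helper70.GLn.GR3
import Pool.Agent.Helper70.GLn.LV
import Pool.Agent.Helper70.GLn.WR
import Pool.Agent.Helper70.GLn.DC

/-!
# GL-SL1: semisimple elements of one factor of the Levi subgroup (120-200 lines)

PROOF (for `ss_left`; `ss_right` is the same with the roles of the factors exchanged). `p = char F`, `q = |F|`, `Ψ = Psi θ` is `HP` (`psi_hp`). Let `R₁` be from `psi_unip`
with `ε / (4 * p * h + 4)` and `s = p` and let `R = max (p * R₁) (2 * p * h) + 1`. `pieces` for `y` gives `z r` (`r < 2 p m`, `2 p m ≤ 2 p h`), with `z r ^ m = 1`, so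
`det (z r) = 1` (`det_eq_one`) and `lvA (z r)` makes sense; `lvA` is multiplicative, so `lvA y` is in the closure of the `lvA (z r)`, and `nn_prod_le` gives
`nn Ψ (zpowers (lvA y)) ≤ ∑ r, nn Ψ (zpowers (lvA (z r)))`. For each `r` use `wreath` for `z r`, `P r`, `Q r`: `w`, `σ`; `w` is unipotent so `det w = 1` (its order is
a power of `p`: `w ^ p = 1` from `(w - 1) ^ p = 0`, and `p` is coprime to `q - 1`; `det_eq_one`); choose `η : B ≃ₗ B` with `det η = (det σ)⁻¹` (exists for `B ≠ 0`; the scaling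
of one coordinate) and put `τ = (σ, η) ∈ Lev`. Then `nn_le_of_wreath` for `Ψ`, `lvA w`, `lvA (z r)`, `τ` gives
`nn Ψ (zpowers (lvA (z r))) ≤ 2 (Ψ 1 - Ψ (lvA w)) ≤ 2 ε / (4 p h + 4) * NU θ` by `psi_unip` (the fixed space of `w` on `A` has dimension `≥ finrank A / p ≥ R₁`, the one of `1` on
`B` is `B`). The order of `lvA (z r)` divides `m`, coprime to `q - 1`. Sum over `r`. (`NU θ ≥ 0`: `NU_nonneg`.)
-/

set_option autoImplicit false

open Module Pool.Agent.Helper13.Ded

namespace Pool.Agent.Helper70.GLn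

section SL1

variable {F A B : Type} [Field F] [Finite F] [AddCommGroup A] [Module F A] [Finite A]
  [AddCommGroup B] [Module F B] [Finite B]

private lemma exists_det70 (hB : 1 ≤ finrank F B) (u : Fˣ) :
    ∃ η : B ≃ₗ[F] B, LinearEquiv.det η = u := by
  obtain ⟨n, hn⟩ := Nat.exists_eq_add_of_le hB
  have h1 : finrank F B = finrank F (F × (Fin n → F)) := by
    rw [finrank_prod, finrank_self, finrank_pi, Fintype.card_fin, hn]
  let e : B ≃ₗ[F] F × (Fin n → F) := LinearEquiv.ofFinrankEq _ _ h1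
  let f : (F × (Fin n → F)) ≃ₗ[F] (F × (Fin n → F)) :=
    LinearEquiv.prodCongr (LinearEquiv.smulOfUnit u) (LinearEquiv.refl _ _)
  refine ⟨(e.trans f).trans e.symm, ?_⟩
  have h2 : LinearEquiv.det ((e.trans f).trans e.symm) = LinearEquiv.det f :=
    LinearEquiv.det_conj f e.symm
  rw [h2]
  apply Units.ext
  rw [LinearEquiv.coe_det]
  have h3 : ((f : (F × (Fin n → F)) ≃ₗ[F] (F × (Fin n → F))) :
      (F × (Fin n → F)) →ₗ[F] (F × (Fin n → F))) =
      LinearMap.prodMap ((u : F) • LinearMap.id) LinearMap.id := rfl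
  rw [h3, LinearMap.det_prodMap, LinearMap.det_smul, LinearMap.det_id, LinearMap.det_id,
    finrank_self, pow_one, mul_one, mul_one]

/-- `lvA` as a homomorphism. -/
private def lA70 : SpecialLinearGroup F A →* Lev F A B where
  toFun s := lvA s.1 s.2
  map_one' := rfl
  map_mul' a b := Subtype.ext (Prod.ext rfl (mul_one (1 : B ≃ₗ[F] B)).symm)

/-- `lvB` as a homomorphism. -/
private def lB70 : SpecialLinearGroup F B →* Lev F A B where
  toFun s := lvB s.1 s.2
  map_one' := rfl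
  map_mul' a b := Subtype.ext (Prod.ext (mul_one (1 : A ≃ₗ[F] A)).symm rfl)

private lemma mem_closure70 {t : ℕ} (z : Fin t → SpecialLinearGroup F A)
    (y : SpecialLinearGroup F A)
    (hy : (y : A ≃ₗ[F] A) ∈ Subgroup.closure (Set.range fun r => ((z r : A ≃ₗ[F] A)))) :
    y ∈ Subgroup.closure (Set.range z) := by
  let i : SpecialLinearGroup F A →* (A ≃ₗ[F] A) := SpecialLinearGroup.toLinearEquiv
  have h1 : (Set.range fun r => ((z r : A ≃ₗ[F] A))) = i '' Set.range z := by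
    rw [← Set.range_comp]
    rfl
  rw [h1, ← MonoidHom.map_closure] at hy
  obtain ⟨w, hw, hwy⟩ := hy
  have : w = y := SpecialLinearGroup.toLinearEquiv_injective hwy
  rw [← this]
  exact hw

private lemma cop70 {p k : ℕ} (hp : p.Prime) [CharP F p] : (p ^ k).Coprime (Nat.card F - 1) := by
  refine Nat.Coprime.pow_left k ((Nat.Prime.coprime_iff_not_dvd hp).2 ?_)
  intro hd
  have := Fintype.ofFinite F
  have : Fact p.Prime := ⟨hp⟩
  have h1 : p ∣ Nat.card F := by
    obtain ⟨n, -, hn⟩ := FiniteField.card F p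
    rw [Nat.card_eq_fintype_card, hn]
    exact dvd_pow_self p n.pos.ne'
  have h2 : 1 ≤ Nat.card F := Nat.card_pos
  have h3 : p ∣ Nat.card F - (Nat.card F - 1) := Nat.dvd_sub h1 hd
  have h4 : Nat.card F - (Nat.card F - 1) = 1 := by omega
  rw [h4] at h3
  exact hp.one_lt.ne' (Nat.dvd_one.1 h3)

private lemma det_unip70 {p : ℕ} (hp : p.Prime) [CharP F p] {w : A ≃ₗ[F] A} {s : ℕ}
    (hw : ((w : A →ₗ[F] A) - LinearMap.id) ^ s = 0) : LinearEquiv.det w = 1 :=
  det_eq_one (pow_eq_one6 hp hw) (cop70 hp)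

private lemma fin_ker70 {R : ℕ} (h : R ≤ finrank F B) :
    R ≤ finrank F (LinearMap.ker (((1 : B ≃ₗ[F] B) : B →ₗ[F] B) - LinearMap.id)) := by
  have h1 : LinearMap.ker (((1 : B ≃ₗ[F] B) : B →ₗ[F] B) - LinearMap.id) = ⊤ := by
    rw [show ((1 : B ≃ₗ[F] B) : B →ₗ[F] B) - LinearMap.id = 0 from sub_self _,
      LinearMap.ker_zero]
  rw [h1, finrank_top]
  exact h

end SL1

theorem ss_left (F : Type) [Field F] [Finite F] {ε : ℝ} (hε : 0 < ε) (h : ℕ) : ∃ R : ℕ,
    ∀ (A B : Type) [AddCommGroup A] [Module F A] [Finite A] [AddCommGroup B] [Module F B]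
    [Finite B] (θ : SpecialLinearGroup F (A × B) → ℝ), HP θ →
    ∀ (y : A ≃ₗ[F] A) (hy : LinearEquiv.det y = 1) (m : ℕ), 0 < m → m ≤ h → y ^ m = 1 →
    m.Coprime (Nat.card F) → m.Coprime (Nat.card F - 1) → R ≤ finrank F A → R ≤ finrank F B →
    nn (Psi θ) (Subgroup.zpowers (lvA y hy)) ≤ ε * NU θ := by
  obtain ⟨p, hpF⟩ := CharP.exists F
  have hp : p.Prime := CharP.char_is_prime F p
  have hpf : Fact p.Prime := ⟨hp⟩
  have hε1 : 0 < ε / (4 * p * h + 4) := by positivity
  obtain ⟨R₁, hR₁⟩ := psi_unip F hε1 p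
  refine ⟨max (p * R₁) (2 * p * h) + R₁ + 1, ?_⟩
  intro A B _ _ _ _ _ _ θ hθ y hy m hm0 hmh hym hcq hcq1 hA hB
  have hΨ : HP (Psi θ) := psi_hp hθ
  have hNU := NU_nonneg hθ
  have b1 : p * R₁ ≤ finrank F A := by omega
  have b2 : 2 * p * m ≤ finrank F A := by
    have : 2 * p * m ≤ 2 * p * h := Nat.mul_le_mul_left _ hmh
    omega
  have b3 : R₁ ≤ finrank F B := by omega
  have b4 : 1 ≤ finrank F B := by omega
  obtain ⟨z, P, Q, hzc, hPQ, hzP, hzQ, hPd, hzm, hyc⟩ := pieces y hym hm0 hp.pos b2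
  let zs : Fin (2 * p * m) → SpecialLinearGroup F A := fun r =>
    ⟨z r, det_eq_one (hzm r) hcq1⟩
  have hmem := mem_closure70 zs ⟨y, hy⟩ hyc
  let lh : SpecialLinearGroup F A →* Lev F A B := lA70
  have hmem2 : lvA y hy ∈ Subgroup.closure (Set.range fun r => lh (zs r)) := by
    have h1 : (Set.range fun r => lh (zs r)) = lh '' Set.range zs := by
      rw [← Set.range_comp]
      rfl
    rw [h1, ← MonoidHom.map_closure]
    exact ⟨⟨y, hy⟩, hmem, rfl⟩
  have hcomm : ∀ i j, Commute (lh (zs i)) (lh (zs j)) := by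
    intro i j
    have h1 : Commute (zs i) (zs j) := Subtype.ext (hzc i j)
    exact h1.map lh
  have h1 := nn_prod_le hΨ (fun r => lh (zs r)) hcomm (lvA y hy) hmem2
  have hone : (p : ℝ) ≠ 0 := by exact_mod_cast hp.ne_zero
  have h2 : ∀ r, nn (Psi θ) (Subgroup.zpowers (lh (zs r))) ≤
      2 * (ε / (4 * p * h + 4) * NU θ) := by
    intro r
    obtain ⟨w, σ, hw1, hw2, hw3, hσ, hσw⟩ := wreath (z r) (hzm r) hcq (P r) (Q r) (hPQ r)
      (hzP r) (hzQ r) (hPd r)
    have hdw : LinearEquiv.det w = 1 := det_unip70 hp hw1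
    obtain ⟨η, hη⟩ := exists_det70 (F := F) (B := B) b4 (LinearEquiv.det σ)⁻¹
    let τ : Lev F A B := ⟨(σ, η), by
      show LinearEquiv.det σ * LinearEquiv.det η = 1
      rw [hη, mul_inv_cancel]⟩
    let ws : SpecialLinearGroup F A := ⟨w, hdw⟩
    have e1 : Psi θ 1 - Psi θ (lh ws) ≤ ε / (4 * p * h + 4) * NU θ := by
      refine hR₁ A B θ hθ (lh ws) hw1 ?_ ?_ ?_
      · show ((((1 : B ≃ₗ[F] B)) : B →ₗ[F] B) - LinearMap.id) ^ p = 0
        rw [show (((1 : B ≃ₗ[F] B)) : B →ₗ[F] B) - LinearMap.id = 0 from sub_self _]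
        exact zero_pow hp.ne_zero
      · refine Nat.le_of_mul_le_mul_left (b1.trans hw2) hp.pos
      · exact fin_ker70 b3
    have e2 : nn (Psi θ) (Subgroup.zpowers (lh (zs r))) ≤
        2 * (Psi θ 1 - Psi θ (lh ws)) := by
      refine nn_le_of_wreath hΨ (q := Nat.card F) (Finite.one_lt_card) (lh ws) (lh (zs r)) τ
        ?_ ?_ ?_ ?_
      · intro i j
        have h3 : Commute (ws ^ i * zs r * (ws ^ i)⁻¹) (ws ^ j * zs r * (ws ^ j)⁻¹) := by
          apply SpecialLinearGroup.toLinearEquiv_injective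
          simp only [map_mul, map_inv, map_pow]
          exact hw3 i j
        have h4 := h3.map lh
        simp only [map_mul, map_inv, map_pow] at h4
        exact h4
      · show τ * lh (zs r) * τ⁻¹ = lh (zs r) ^ (Nat.card F)
        apply Subtype.ext
        refine Prod.ext hσ ?_
        show η * 1 * η⁻¹ = (1 : B ≃ₗ[F] B) ^ (Nat.card F)
        rw [mul_one, mul_inv_cancel, one_pow]
      · show τ * (lh ws * lh (zs r) * (lh ws)⁻¹) = (lh ws * lh (zs r) * (lh ws)⁻¹) * τ
        apply Subtype.ext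
        refine Prod.ext hσw ?_
        show η * (1 * 1 * (1 : B ≃ₗ[F] B)⁻¹) = (1 * 1 * (1 : B ≃ₗ[F] B)⁻¹) * η
        simp
      · have h3 : (lh (zs r)) ^ m = 1 := by
          rw [← map_pow]
          have h4 : zs r ^ m = 1 := by
            apply SpecialLinearGroup.toLinearEquiv_injective
            rw [map_pow, map_one]
            exact hzm r
          rw [h4, map_one]
        exact Nat.Coprime.coprime_dvd_left (orderOf_dvd_of_pow_eq_one h3) hcq1
    exact e2.trans (mul_le_mul_of_nonneg_left e1 (by norm_num))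
  have h3 : nn (Psi θ) (Subgroup.zpowers (lvA y hy)) ≤
      (2 * p * m : ℕ) * (2 * (ε / (4 * p * h + 4) * NU θ)) := by
    refine h1.trans ((Finset.sum_le_sum fun r _ => h2 r).trans (le_of_eq ?_))
    rw [Finset.sum_const, Finset.card_univ, Fintype.card_fin, nsmul_eq_mul]
  refine h3.trans ?_
  have h4 : ((2 * p * m : ℕ) : ℝ) * (2 * (ε / (4 * p * h + 4) * NU θ)) =
      (4 * p * m / (4 * p * h + 4)) * (ε * NU θ) := by
    push_cast
    field_simp
    ring
  rw [h4]
  have h5 : (4 * (p : ℝ) * m / (4 * p * h + 4)) ≤ 1 := by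
    rw [div_le_one (by positivity)]
    have : (m : ℝ) ≤ h := by exact_mod_cast hmh
    have : 4 * (p : ℝ) * m ≤ 4 * p * h := mul_le_mul_of_nonneg_left this (by positivity)
    linarith
  have h6 : 0 ≤ ε * NU θ := mul_nonneg hε.le hNU
  nlinarith

theorem ss_right (F : Type) [Field F] [Finite F] {ε : ℝ} (hε : 0 < ε) (h : ℕ) : ∃ R : ℕ,
    ∀ (A B : Type) [AddCommGroup A] [Module F A] [Finite A] [AddCommGroup B] [Module F B]
    [Finite B] (θ : SpecialLinearGroup F (A × B) → ℝ), HP θ →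
    ∀ (y : B ≃ₗ[F] B) (hy : LinearEquiv.det y = 1) (m : ℕ), 0 < m → m ≤ h → y ^ m = 1 →
    m.Coprime (Nat.card F) → m.Coprime (Nat.card F - 1) → R ≤ finrank F A → R ≤ finrank F B →
    nn (Psi θ) (Subgroup.zpowers (lvB y hy)) ≤ ε * NU θ := by
  obtain ⟨p, hpF⟩ := CharP.exists F
  have hp : p.Prime := CharP.char_is_prime F p
  have hpf : Fact p.Prime := ⟨hp⟩
  have hε1 : 0 < ε / (4 * p * h + 4) := by positivity
  obtain ⟨R₁, hR₁⟩ := psi_unip F hε1 p
  refine ⟨max (p * R₁) (2 * p * h) + R₁ + 1, ?_⟩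
  intro A B _ _ _ _ _ _ θ hθ y hy m hm0 hmh hym hcq hcq1 hA hB
  have hΨ : HP (Psi θ) := psi_hp hθ
  have hNU := NU_nonneg hθ
  have b1 : p * R₁ ≤ finrank F B := by omega
  have b2 : 2 * p * m ≤ finrank F B := by
    have : 2 * p * m ≤ 2 * p * h := Nat.mul_le_mul_left _ hmh
    omega
  have b3 : R₁ ≤ finrank F A := by omega
  have b4 : 1 ≤ finrank F A := by omega
  obtain ⟨z, P, Q, hzc, hPQ, hzP, hzQ, hPd, hzm, hyc⟩ := pieces y hym hm0 hp.pos b2
  let zs : Fin (2 * p * m) → SpecialLinearGroup F B := fun r =>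
    ⟨z r, det_eq_one (hzm r) hcq1⟩
  have hmem := mem_closure70 zs ⟨y, hy⟩ hyc
  let lh : SpecialLinearGroup F B →* Lev F A B := lB70
  have hmem2 : lvB y hy ∈ Subgroup.closure (Set.range fun r => lh (zs r)) := by
    have h1 : (Set.range fun r => lh (zs r)) = lh '' Set.range zs := by
      rw [← Set.range_comp]
      rfl
    rw [h1, ← MonoidHom.map_closure]
    exact ⟨⟨y, hy⟩, hmem, rfl⟩
  have hcomm : ∀ i j, Commute (lh (zs i)) (lh (zs j)) := by
    intro i j
    have h1 : Commute (zs i) (zs j) := Subtype.ext (hzc i j)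
    exact h1.map lh
  have h1 := nn_prod_le hΨ (fun r => lh (zs r)) hcomm (lvB y hy) hmem2
  have hone : (p : ℝ) ≠ 0 := by exact_mod_cast hp.ne_zero
  have h2 : ∀ r, nn (Psi θ) (Subgroup.zpowers (lh (zs r))) ≤
      2 * (ε / (4 * p * h + 4) * NU θ) := by
    intro r
    obtain ⟨w, σ, hw1, hw2, hw3, hσ, hσw⟩ := wreath (z r) (hzm r) hcq (P r) (Q r) (hPQ r)
      (hzP r) (hzQ r) (hPd r)
    have hdw : LinearEquiv.det w = 1 := det_unip70 hp hw1
    obtain ⟨η, hη⟩ := exists_det70 (F := F) (B := A) b4 (LinearEquiv.det σ)⁻¹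
    let τ : Lev F A B := ⟨(η, σ), by
      show LinearEquiv.det η * LinearEquiv.det σ = 1
      rw [hη, inv_mul_cancel]⟩
    let ws : SpecialLinearGroup F B := ⟨w, hdw⟩
    have e1 : Psi θ 1 - Psi θ (lh ws) ≤ ε / (4 * p * h + 4) * NU θ := by
      refine hR₁ A B θ hθ (lh ws) ?_ hw1 ?_ ?_
      · show ((((1 : A ≃ₗ[F] A)) : A →ₗ[F] A) - LinearMap.id) ^ p = 0
        rw [show (((1 : A ≃ₗ[F] A)) : A →ₗ[F] A) - LinearMap.id = 0 from sub_self _]
        exact zero_pow hp.ne_zero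
      · exact fin_ker70 b3
      · refine Nat.le_of_mul_le_mul_left (b1.trans hw2) hp.pos
    have e2 : nn (Psi θ) (Subgroup.zpowers (lh (zs r))) ≤
        2 * (Psi θ 1 - Psi θ (lh ws)) := by
      refine nn_le_of_wreath hΨ (q := Nat.card F) (Finite.one_lt_card) (lh ws) (lh (zs r)) τ
        ?_ ?_ ?_ ?_
      · intro i j
        have h3 : Commute (ws ^ i * zs r * (ws ^ i)⁻¹) (ws ^ j * zs r * (ws ^ j)⁻¹) := by
          apply SpecialLinearGroup.toLinearEquiv_injective
          simp only [map_mul, map_inv, map_pow]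
          exact hw3 i j
        have h4 := h3.map lh
        simp only [map_mul, map_inv, map_pow] at h4
        exact h4
      · show τ * lh (zs r) * τ⁻¹ = lh (zs r) ^ (Nat.card F)
        apply Subtype.ext
        refine Prod.ext ?_ hσ
        show η * 1 * η⁻¹ = (1 : A ≃ₗ[F] A) ^ (Nat.card F)
        rw [mul_one, mul_inv_cancel, one_pow]
      · show τ * (lh ws * lh (zs r) * (lh ws)⁻¹) = (lh ws * lh (zs r) * (lh ws)⁻¹) * τ
        apply Subtype.ext
        refine Prod.ext ?_ hσw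
        show η * (1 * 1 * (1 : A ≃ₗ[F] A)⁻¹) = (1 * 1 * (1 : A ≃ₗ[F] A)⁻¹) * η
        simp
      · have h3 : (lh (zs r)) ^ m = 1 := by
          rw [← map_pow]
          have h4 : zs r ^ m = 1 := by
            apply SpecialLinearGroup.toLinearEquiv_injective
            rw [map_pow, map_one]
            exact hzm r
          rw [h4, map_one]
        exact Nat.Coprime.coprime_dvd_left (orderOf_dvd_of_pow_eq_one h3) hcq1
    exact e2.trans (mul_le_mul_of_nonneg_left e1 (by norm_num))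
  have h3 : nn (Psi θ) (Subgroup.zpowers (lvB y hy)) ≤
      (2 * p * m : ℕ) * (2 * (ε / (4 * p * h + 4) * NU θ)) := by
    refine h1.trans ((Finset.sum_le_sum fun r _ => h2 r).trans (le_of_eq ?_))
    rw [Finset.sum_const, Finset.card_univ, Fintype.card_fin, nsmul_eq_mul]
  refine h3.trans ?_
  have h4 : ((2 * p * m : ℕ) : ℝ) * (2 * (ε / (4 * p * h + 4) * NU θ)) =
      (4 * p * m / (4 * p * h + 4)) * (ε * NU θ) := by
    push_cast
    field_simp
    ring
  rw [h4]
  have h5 : (4 * (p : ℝ) * m / (4 * p * h + 4)) ≤ 1 := by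
    rw [div_le_one (by positivity)]
    have : (m : ℝ) ≤ h := by exact_mod_cast hmh
    have : 4 * (p : ℝ) * m ≤ 4 * p * h := mul_le_mul_of_nonneg_left this (by positivity)
    linarith
  have h6 : 0 ≤ ε * NU θ := mul_nonneg hε.le hNU
  nlinarith

end Pool.Agent.Helper70.GLn
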