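import Pool.Agent.Helper70.GLn.SL1

/-!
# GL-SS: all elements of the Levi subgroup of bounded order prime to `q - 1` (100-160 lines)

PROOF. `p = char F`, `n = orderOf x = p ^ k * m` with `m` prime to `p`. There are powers `u` and `s` of `x` with `x = u * s`, `u ^ (p ^ k) = 1`, `s ^ m = 1` (Bezout). `nn_prod_le`
for the two commuting elements `u`, `s`: `nn Ψ (zpowers x) ≤ nn Ψ (zpowers u) + nn Ψ (zpowers s)`, `Ψ = Psi θ` (`psi_hp`).
Unipotent part: `u = (uA, uB)`, `(uA - 1) ^ (p ^ k) = uA ^ (p ^ k) - 1 = 0` (`sub_pow_char_pow_of_commute`), `p ^ k ≤ n ≤ h`, so `(uA - 1) ^ h = 0` and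
`finrank A ≤ h * finrank (ker (uA - 1))` (a nilpotent map with `N ^ h = 0` has `finrank (ker N) ≥ finrank A / h`: `finrank (ker N^(j+1)) ≤ finrank (ker N^j) + finrank (ker N)`);
the same for every power of `u`. `psi_unip` with `s = h` and `ε₁` gives `Ψ 1 - Ψ v ≤ ε₁ NU` for all `v ∈ zpowers u`, so `nn Ψ (zpowers u) ≤ ε₁ NU` (average).
Semisimple part: `s = (sA, sB)`, `sA ^ m = 1`, `m` divides `n`, so it is prime to `q - 1` and to `q`; `det sA = det sB = 1` (`det_eq_one`);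
`s = lvA sA * lvB sB`, commuting; `nn_prod_le` and `ss_left`, `ss_right` give `nn Ψ (zpowers s) ≤ 2 ε₁ NU`.
Finally `Ψ 1 - Ψ x ≤ |zpowers x| * nn Ψ (zpowers x) ≤ h * 3 ε₁ NU` (`sub_le_card_nn`); take `ε₁ = ε / (3 h + 3)` and `R = (h + 1) * max ...`.
-/

set_option autoImplicit false

open Module Pool.Agent.Helper13.Ded

namespace Pool.Agent.Helper70.GLn

private theorem le_av_h27 {P : Type*} [Finite P] [Nonempty P] (f : P → ℝ) (c : ℝ)
    (hf : ∀ p, c ≤ f p) : c ≤ av f := by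
  classical
  have := Fintype.ofFinite P
  unfold av
  have hc : (0 : ℝ) < Nat.card P := by exact_mod_cast Nat.card_pos
  rw [le_div_iff₀ hc, finsum_eq_sum_of_fintype, Nat.card_eq_fintype_card]
  have h1 : ∑ _p : P, c ≤ ∑ p, f p := Finset.sum_le_sum fun p _ => hf p
  rw [Finset.sum_const, Finset.card_univ, nsmul_eq_mul] at h1
  linarith

private theorem ker_pow_h27 {F A : Type} [Field F] [AddCommGroup A] [Module F A] [Finite A]
    (N : Module.End F A) (j : ℕ) :
    finrank F (LinearMap.ker (N ^ j)) ≤ j * finrank F (LinearMap.ker N) := by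
  have hfA : Module.Finite F A := Module.Finite.of_finite
  induction j with
  | zero =>
    have h1 : LinearMap.ker (N ^ 0) = ⊥ := by
      rw [pow_zero]
      exact LinearMap.ker_id
    rw [h1, finrank_bot, zero_mul]
  | succ j ih =>
    let f : LinearMap.ker (N ^ (j + 1)) →ₗ[F] A := (N ^ j).domRestrict (LinearMap.ker (N ^ (j + 1)))
    have h1 := LinearMap.finrank_range_add_finrank_ker f
    have h2 : LinearMap.range f ≤ LinearMap.ker N := by
      rintro _ ⟨v, rfl⟩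
      rw [LinearMap.mem_ker]
      have h3 : ∀ a : A, (N ^ (j + 1)) a = 0 → N ((N ^ j) a) = 0 := by
        intro a ha
        rw [pow_succ', Module.End.mul_apply] at ha
        exact ha
      exact h3 _ v.2
    have h3 : finrank F (LinearMap.range f) ≤ finrank F (LinearMap.ker N) :=
      Submodule.finrank_mono h2
    let g : LinearMap.ker f →ₗ[F] LinearMap.ker (N ^ j) :=
      LinearMap.codRestrict (LinearMap.ker (N ^ j))
        ((LinearMap.ker (N ^ (j + 1))).subtype.comp (LinearMap.ker f).subtype)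
        (fun v => v.2)
    have hg : Function.Injective g := by
      intro a b hab
      have h4 : ((a : LinearMap.ker (N ^ (j + 1))) : A) = ((b : LinearMap.ker (N ^ (j + 1))) : A) :=
        congrArg (fun x : LinearMap.ker (N ^ j) => (x : A)) hab
      exact Subtype.ext (Subtype.ext h4)
    have h4 := LinearMap.finrank_le_finrank_of_injective hg
    rw [Nat.succ_mul]
    omega

private theorem unip_h27 {F A : Type} [Field F] [AddCommGroup A] [Module F A] {p : ℕ}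
    (hp : p.Prime) [CharP F p] {k : ℕ} {v : A ≃ₗ[F] A} (hv : v ^ (p ^ k) = 1) :
    ((v : A →ₗ[F] A) - LinearMap.id) ^ (p ^ k) = 0 := by
  have h1 : (1 : Module.End F A) + ((v : A →ₗ[F] A) - LinearMap.id) = (v : A →ₗ[F] A) := by
    have : (LinearMap.id : A →ₗ[F] A) = 1 := rfl
    rw [this]
    abel
  have hc : Commute (1 : Module.End F A) ((v : A →ₗ[F] A) - LinearMap.id) := Commute.one_left _
  obtain ⟨r, hr⟩ := hc.exists_add_pow_prime_pow_eq hp k
  have h3 : (p : Module.End F A) = 0 := by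
    ext v
    rw [Module.End.natCast_apply, ← Nat.cast_smul_eq_nsmul F, CharP.cast_eq_zero, zero_smul]
    rfl
  have h4 : ∀ n : ℕ, ((v ^ n : A ≃ₗ[F] A) : A →ₗ[F] A) = (v : A →ₗ[F] A) ^ n := by
    intro n
    induction n with
    | zero => rfl
    | succ n ih => rw [pow_succ, pow_succ, ← ih]; rfl
  rw [h1, h3, ← h4, hv] at hr
  simp only [zero_mul, one_pow, add_zero] at hr
  have h5 : (1 : Module.End F A) = 1 + ((v : A →ₗ[F] A) - LinearMap.id) ^ (p ^ k) := hr
  exact (left_eq_add.1 h5)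

private theorem fin_ker_h27 {F A : Type} [Field F] [AddCommGroup A] [Module F A] [Finite A]
    {N : Module.End F A} {h R : ℕ} (hh : 0 < h) (hN : N ^ h = 0) (hR : h * R ≤ finrank F A) :
    R ≤ finrank F (LinearMap.ker N) := by
  have h1 := ker_pow_h27 N h
  rw [hN, LinearMap.ker_zero, finrank_top] at h1
  exact Nat.le_of_mul_le_mul_left (hR.trans h1) hh

theorem ss (F : Type) [Field F] [Finite F] {ε : ℝ} (hε : 0 < ε) (h : ℕ) : ∃ R : ℕ,
    ∀ (A B : Type) [AddCommGroup A] [Module F A] [Finite A] [AddCommGroup B] [Module F B]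
    [Finite B] (θ : SpecialLinearGroup F (A × B) → ℝ), HP θ → ∀ x : Lev F A B,
    orderOf x ≤ h → (orderOf x).Coprime (Nat.card F - 1) → R ≤ finrank F A → R ≤ finrank F B →
    Psi θ 1 - Psi θ x ≤ ε * NU θ := by
  obtain ⟨p, hpF⟩ := CharP.exists F
  have hp : p.Prime := CharP.char_is_prime F p
  obtain ⟨ε₁, hε₁⟩ : ∃ ε₁ : ℝ, ε₁ = ε / (3 * h + 3) := ⟨_, rfl⟩
  have hε₁0 : 0 < ε₁ := by rw [hε₁]; positivity
  obtain ⟨R₁, hR₁⟩ := psi_unip F hε₁0 h
  obtain ⟨R₂, hR₂⟩ := ss_left F hε₁0 h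
  obtain ⟨R₃, hR₃⟩ := ss_right F hε₁0 h
  refine ⟨max (h * R₁) (max R₂ R₃), ?_⟩
  intro A B _ _ _ _ _ _ θ hθ x hxh hxc hA hB
  have hx0 : 0 < orderOf x := orderOf_pos x
  have hh : 0 < h := lt_of_lt_of_le hx0 hxh
  have hΨ := psi_hp hθ
  have hN0 : 0 ≤ NU θ := NU_nonneg hθ
  have hA1 : h * R₁ ≤ finrank F A := (le_max_left _ _).trans hA
  have hB1 : h * R₁ ≤ finrank F B := (le_max_left _ _).trans hB
  have hA2 : R₂ ≤ finrank F A := ((le_max_left _ _).trans (le_max_right _ _)).trans hA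
  have hB2 : R₂ ≤ finrank F B := ((le_max_left _ _).trans (le_max_right _ _)).trans hB
  have hA3 : R₃ ≤ finrank F A := ((le_max_right _ _).trans (le_max_right _ _)).trans hA
  have hB3 : R₃ ≤ finrank F B := ((le_max_right _ _).trans (le_max_right _ _)).trans hB
  obtain ⟨k, m, hpm, hn⟩ := Nat.exists_eq_pow_mul_and_not_dvd hx0.ne' p hp.ne_one
  have hm0 : 0 < m := by
    rcases Nat.eq_zero_or_pos m with h0 | h0
    · rw [h0, mul_zero] at hn
      omega
    · exact h0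
  have hpk0 : 0 < p ^ k := pow_pos hp.pos _
  have hmn : m ≤ h := (Nat.le_of_dvd hx0 ⟨p ^ k, by rw [hn, mul_comm]⟩).trans hxh
  have hpkn : p ^ k ≤ h := (Nat.le_of_dvd hx0 ⟨m, hn⟩).trans hxh
  have hmp : m.Coprime p := ((Nat.Prime.coprime_iff_not_dvd hp).2 hpm).symm
  have hmpk : m.Coprime (p ^ k) := hmp.pow_right k
  have hmq1 : m.Coprime (Nat.card F - 1) :=
    Nat.Coprime.coprime_dvd_left ⟨p ^ k, by rw [hn, mul_comm]⟩ hxc
  have hmq : m.Coprime (Nat.card F) := by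
    have := Fintype.ofFinite F
    obtain ⟨j, -, hj⟩ := FiniteField.card F p
    rw [Nat.card_eq_fintype_card, hj]
    exact hmp.pow_right _
  -- the two parts
  have hbez : (m : ℤ) * m.gcdA (p ^ k) + (p ^ k : ℕ) * m.gcdB (p ^ k) = 1 := by
    rw [← Nat.gcd_eq_gcd_ab]
    exact_mod_cast hmpk
  obtain ⟨u, hu⟩ : ∃ u : Lev F A B, u = x ^ ((m : ℤ) * m.gcdA (p ^ k)) := ⟨_, rfl⟩
  obtain ⟨s, hs⟩ : ∃ s : Lev F A B, s = x ^ ((p ^ k : ℕ) * m.gcdB (p ^ k)) := ⟨_, rfl⟩
  have hus : x = u * s := by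
    rw [hu, hs, ← zpow_add, hbez, zpow_one]
  have hxn : x ^ ((orderOf x : ℕ) : ℤ) = 1 := by
    rw [zpow_natCast, pow_orderOf_eq_one]
  have hupk : u ^ (p ^ k) = 1 := by
    rw [← zpow_natCast, hu, ← zpow_mul]
    have e1 : (m : ℤ) * m.gcdA (p ^ k) * ((p ^ k : ℕ) : ℤ) = ((orderOf x : ℕ) : ℤ) * m.gcdA (p ^ k) := by
      rw [hn]
      push_cast
      ring
    rw [e1, zpow_mul, hxn, one_zpow]
  have hsm : s ^ m = 1 := by
    rw [← zpow_natCast, hs, ← zpow_mul]
    have e1 : ((p ^ k : ℕ) : ℤ) * m.gcdB (p ^ k) * (m : ℤ) = ((orderOf x : ℕ) : ℤ) * m.gcdB (p ^ k) := by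
      rw [hn]
      push_cast
      ring
    rw [e1, zpow_mul, hxn, one_zpow]
  have hcus : Commute u s := by
    rw [hu, hs]
    exact (Commute.refl x).zpow_zpow _ _
  have h1 := nn_prod_le hΨ ![u, s] (by
    intro i j
    fin_cases i <;> fin_cases j
    · exact Commute.refl _
    · exact hcus
    · exact hcus.symm
    · exact Commute.refl _) x (by
    rw [hus]
    exact Subgroup.mul_mem _ (Subgroup.subset_closure ⟨0, rfl⟩) (Subgroup.subset_closure ⟨1, rfl⟩))
  rw [Fin.sum_univ_two] at h1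
  have h1' : nn (Psi θ) (Subgroup.zpowers x) ≤
      nn (Psi θ) (Subgroup.zpowers u) + nn (Psi θ) (Subgroup.zpowers s) := h1
  -- the unipotent part
  have hunip : nn (Psi θ) (Subgroup.zpowers u) ≤ ε₁ * NU θ := by
    have h2 : ∀ v : Subgroup.zpowers u, Psi θ 1 - ε₁ * NU θ ≤ Psi θ v := by
      rintro ⟨v, hv⟩
      have hvpk : v ^ (p ^ k) = 1 := by
        obtain ⟨i, rfl⟩ := Subgroup.mem_zpowers_iff.1 hv
        rw [← zpow_natCast, ← zpow_mul, mul_comm, zpow_mul, zpow_natCast, hupk, one_zpow]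
      have hv1 : v.1.1 ^ (p ^ k) = 1 := congrArg (fun l : Lev F A B => l.1.1) hvpk
      have hv2 : v.1.2 ^ (p ^ k) = 1 := congrArg (fun l : Lev F A B => l.1.2) hvpk
      have hz1 : ((v.1.1 : A →ₗ[F] A) - LinearMap.id) ^ h = 0 := pow_eq_zero_of_le hpkn (unip_h27 hp hv1)
      have hz2 : ((v.1.2 : B →ₗ[F] B) - LinearMap.id) ^ h = 0 := pow_eq_zero_of_le hpkn (unip_h27 hp hv2)
      have h3 := hR₁ A B θ hθ v hz1 hz2 (fin_ker_h27 hh hz1 hA1) (fin_ker_h27 hh hz2 hB1)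
      show Psi θ 1 - ε₁ * NU θ ≤ Psi θ v
      linarith
    have h3 := le_av_h27 (fun v : Subgroup.zpowers u => Psi θ v) _ h2
    unfold nn
    linarith
  -- the semisimple part
  have hs1 : s.1.1 ^ m = 1 := congrArg (fun l : Lev F A B => l.1.1) hsm
  have hs2 : s.1.2 ^ m = 1 := congrArg (fun l : Lev F A B => l.1.2) hsm
  have hd1 : LinearEquiv.det s.1.1 = 1 := det_eq_one hs1 hmq1
  have hd2 : LinearEquiv.det s.1.2 = 1 := det_eq_one hs2 hmq1
  have hsAB : s = lvA s.1.1 hd1 * lvB s.1.2 hd2 := by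
    apply Subtype.ext
    apply Prod.ext
    · exact (mul_one s.1.1).symm
    · exact (one_mul s.1.2).symm
  have hcAB : Commute (lvA s.1.1 hd1 : Lev F A B) (lvB s.1.2 hd2) := by
    apply Subtype.ext
    apply Prod.ext
    · exact (mul_one s.1.1).trans (one_mul s.1.1).symm
    · exact (one_mul s.1.2).trans (mul_one s.1.2).symm
  have hss : nn (Psi θ) (Subgroup.zpowers s) ≤ 2 * (ε₁ * NU θ) := by
    have h2 := nn_prod_le hΨ ![(lvA s.1.1 hd1 : Lev F A B), lvB s.1.2 hd2] (by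
      intro i j
      fin_cases i <;> fin_cases j
      · exact Commute.refl _
      · exact hcAB
      · exact hcAB.symm
      · exact Commute.refl _) s (by
      have h3 : (lvA s.1.1 hd1 : Lev F A B) * lvB s.1.2 hd2 ∈
          Subgroup.closure (Set.range ![(lvA s.1.1 hd1 : Lev F A B), lvB s.1.2 hd2]) :=
        Subgroup.mul_mem _ (Subgroup.subset_closure ⟨0, rfl⟩) (Subgroup.subset_closure ⟨1, rfl⟩)
      rwa [← hsAB] at h3)
    rw [Fin.sum_univ_two] at h2
    have h2' : nn (Psi θ) (Subgroup.zpowers s) ≤ nn (Psi θ) (Subgroup.zpowers (lvA s.1.1 hd1)) +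
      nn (Psi θ) (Subgroup.zpowers (lvB s.1.2 hd2)) := h2
    have h3 := hR₂ A B θ hθ s.1.1 hd1 m hm0 hmn hs1 hmq hmq1 hA2 hB2
    have h4 := hR₃ A B θ hθ s.1.2 hd2 m hm0 hmn hs2 hmq hmq1 hA3 hB3
    linarith
  have h5 := sub_le_card_nn hΨ (Subgroup.zpowers x) x (Subgroup.mem_zpowers x)
  rw [Nat.card_zpowers] at h5
  have h6 := nn_nonneg hΨ (Subgroup.zpowers x)
  have h7 : (orderOf x : ℝ) ≤ h := by exact_mod_cast hxh
  have h8 : nn (Psi θ) (Subgroup.zpowers x) ≤ 3 * (ε₁ * NU θ) := by linarith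
  have h9 : (h : ℝ) * (3 * (ε₁ * NU θ)) ≤ ε * NU θ := by
    have h10 : (h : ℝ) * (3 * ε₁) ≤ ε := by
      have h11 : ε₁ * (3 * h + 3) = ε := by
        rw [hε₁]
        field_simp
      nlinarith
    calc (h : ℝ) * (3 * (ε₁ * NU θ)) = (h : ℝ) * (3 * ε₁) * NU θ := by ring
      _ ≤ ε * NU θ := mul_le_mul_of_nonneg_right h10 hN0
  calc Psi θ 1 - Psi θ x ≤ (orderOf x : ℝ) * nn (Psi θ) (Subgroup.zpowers x) := h5
    _ ≤ (h : ℝ) * (3 * (ε₁ * NU θ)) := mul_le_mul h7 h8 h6 (Nat.cast_nonneg _)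
    _ ≤ _ := h9

end Pool.Agent.Helper70.GLn
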