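import Pool.Agent.Helper70.GLn.Defs

/-!
# GL-TR: transitivity of the special linear group (100-160 lines)

PROOF. `exists_sl_apply`: extend `v` and `w` to bases; the linear map `g₀` with `g₀ v = w` mapping one basis to the other is invertible;
correct the determinant by a map which fixes `w` and multiplies another basis vector by a scalar (`dim ≥ 2`). Alternatively with
transvections (`LinearEquiv.transvection`, determinant 1, Mathlib.LinearAlgebra.Transvection.Basic): if `v - w ≠ 0` and there is a functional `f` with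
`f v = 1`, `f (w - v) = 0`, take `1 + f ⊗ (w - v)`; in general go through a third vector.
`exists_sl_dual`: for functionals `f, f' ≠ 0`: choose `v, v'` with `f v = 1`, `f' v' = 1` and a linear equivalence
`ker f' ≃ ker f` (same dimension), so `g₀` with `f ∘ g₀ = f'`, `g₀ v' = v`; correct the determinant on `ker f'` (dimension `≥ 1`).
`card_vec`: the group acts transitively on the nonzero vectors, so all fibres of `g ↦ g v` over nonzero vectors have the
same cardinality `|SL| / (|V| - 1)`. `card_dual` in the same way (`|V →ₗ F| = |V|`).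
-/

set_option autoImplicit false

open Module Pool.Agent.Helper13.Ded

namespace Pool.Agent.Helper70.GLn

variable {F V : Type} [Field F] [Finite F] [AddCommGroup V] [Module F V] [Finite V]

omit [Finite F] [Finite V] in
private lemma exists_dual_one_h2 {v u : V} (h : v ∉ Submodule.span F {u}) :
    ∃ f : V →ₗ[F] F, f v = 1 ∧ f u = 0 := by
  obtain ⟨f, hf, hf'⟩ := Submodule.exists_le_ker_of_notMem h
  refine ⟨(f v)⁻¹ • f, ?_, ?_⟩
  · rw [LinearMap.smul_apply, smul_eq_mul, inv_mul_cancel₀ hf]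
  · have : f u = 0 := hf' (Submodule.mem_span_singleton_self u)
    rw [LinearMap.smul_apply, this, smul_zero]

omit [Finite F] [Finite V] in
private lemma exists_sl_of_notMem_h2 {v w : V} (hv : v ≠ 0) (h : w ∉ Submodule.span F {v}) :
    ∃ g : SpecialLinearGroup F V, g v = w := by
  have h1 : v ∉ Submodule.span F {w - v} := by
    intro hm
    obtain ⟨c, hc⟩ := Submodule.mem_span_singleton.1 hm
    have hc0 : c ≠ 0 := by
      rintro rfl
      rw [zero_smul] at hc
      exact hv hc.symm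
    apply h
    rw [Submodule.mem_span_singleton]
    refine ⟨1 + c⁻¹, ?_⟩
    have : w - v = c⁻¹ • v := by
      rw [← hc, smul_smul, inv_mul_cancel₀ hc0, one_smul, hc]
    rw [add_smul, one_smul, ← this]
    abel
  obtain ⟨f, hf1, hf2⟩ := exists_dual_one_h2 h1
  refine ⟨⟨LinearEquiv.transvection hf2, LinearEquiv.transvection.det_eq_one hf2⟩, ?_⟩
  show LinearEquiv.transvection hf2 v = w
  rw [LinearEquiv.transvection.apply, hf1, one_smul]
  abel

omit [Finite F] in
private lemma exists_notMem_h2 {W : Type} [AddCommGroup W] [Module F W] [FiniteDimensional F W]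
    (hW : 2 ≤ finrank F W) (v : W) : ∃ u : W, u ∉ Submodule.span F {v} := by
  by_contra hcon
  push Not at hcon
  have h1 : Submodule.span F {v} = ⊤ := by
    rw [eq_top_iff]
    intro u _
    exact hcon u
  have h2 := finrank_span_le_card (R := F) ({v} : Set W)
  rw [h1, finrank_top] at h2
  simp at h2
  omega

theorem exists_sl_apply (hV : 2 ≤ finrank F V) {v w : V} (hv : v ≠ 0) (hw : w ≠ 0) :
    ∃ g : SpecialLinearGroup F V, g v = w := by
  by_cases h : w ∈ Submodule.span F {v}
  · obtain ⟨u, hu⟩ := exists_notMem_h2 hV v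
    obtain ⟨g₁, hg₁⟩ := exists_sl_of_notMem_h2 hv hu
    obtain ⟨c, hc⟩ := Submodule.mem_span_singleton.1 h
    have hu0 : u ≠ 0 := fun h0 => hu (h0 ▸ Submodule.zero_mem _)
    have h2 : w ∉ Submodule.span F {u} := by
      intro hm
      obtain ⟨d, hd⟩ := Submodule.mem_span_singleton.1 hm
      have hd0 : d ≠ 0 := by
        rintro rfl
        rw [zero_smul] at hd
        exact hw hd.symm
      apply hu
      rw [Submodule.mem_span_singleton]
      refine ⟨d⁻¹ * c, ?_⟩
      rw [mul_smul, hc, ← hd, smul_smul, inv_mul_cancel₀ hd0, one_smul]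
    obtain ⟨g₂, hg₂⟩ := exists_sl_of_notMem_h2 hu0 h2
    exact ⟨g₂ * g₁, by
      show g₂ (g₁ v) = w
      rw [hg₁, hg₂]⟩
  · exact exists_sl_of_notMem_h2 hv h

omit [Finite F] [Finite V] in
private lemma exists_sl_dual_of_notMem_h2 {f f' : V →ₗ[F] F} (hf : f ≠ 0)
    (h : f' ∉ Submodule.span F {f}) :
    ∃ g : SpecialLinearGroup F V, f ∘ₗ (g : V →ₗ[F] V) = f' := by
  have h1 : ∃ u, (f' - f) u = 0 ∧ f u ≠ 0 := by
    by_contra hcon
    push Not at hcon
    have hne : f' - f ≠ 0 := by
      intro h0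
      apply h
      rw [sub_eq_zero.1 h0]
      exact Submodule.mem_span_singleton_self _
    obtain ⟨z, hz⟩ : ∃ z, (f' - f) z ≠ 0 := by
      by_contra hc
      push Not at hc
      exact hne (LinearMap.ext hc)
    have h2 : ∀ x, f x = ((f' - f) x) * (((f' - f) z)⁻¹ * f z) := by
      intro x
      have h3 := hcon (x - ((f' - f) x * ((f' - f) z)⁻¹) • z) (by
        rw [map_sub, map_smul, smul_eq_mul, mul_assoc, inv_mul_cancel₀ hz, mul_one, sub_self])
      rw [map_sub, map_smul, smul_eq_mul, sub_eq_zero] at h3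
      rw [h3, mul_assoc]
    have hz0 : ((f' - f) z)⁻¹ * f z ≠ 0 := by
      intro h0
      apply hf
      ext x
      rw [h2 x, h0, mul_zero]
      rfl
    apply h
    rw [Submodule.mem_span_singleton]
    refine ⟨1 + (((f' - f) z)⁻¹ * f z)⁻¹, ?_⟩
    ext x
    rw [LinearMap.smul_apply, smul_eq_mul, add_mul, one_mul]
    have h4 : (f' - f) x = (((f' - f) z)⁻¹ * f z)⁻¹ * f x := by
      rw [h2 x, mul_comm ((f' - f) x), ← mul_assoc, inv_mul_cancel₀ hz0, one_mul]
    rw [← h4, LinearMap.sub_apply]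
    ring
  obtain ⟨u, hu1, hu2⟩ := h1
  have hu3 : (f' - f) ((f u)⁻¹ • u) = 0 := by rw [map_smul, hu1, smul_zero]
  refine ⟨⟨LinearEquiv.transvection hu3, LinearEquiv.transvection.det_eq_one hu3⟩, ?_⟩
  ext x
  show f (LinearEquiv.transvection hu3 x) = f' x
  rw [LinearEquiv.transvection.apply, map_add, map_smul, map_smul, smul_eq_mul, smul_eq_mul,
    inv_mul_cancel₀ hu2, mul_one, LinearMap.sub_apply]
  ring

theorem exists_sl_dual (hV : 2 ≤ finrank F V) {f f' : V →ₗ[F] F} (hf : f ≠ 0) (hf' : f' ≠ 0) :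
    ∃ g : SpecialLinearGroup F V, f ∘ₗ (g : V →ₗ[F] V) = f' := by
  by_cases h : f' ∈ Submodule.span F {f}
  · have hV' : 2 ≤ finrank F (V →ₗ[F] F) := by
      have := Subspace.dual_finrank_eq (K := F) (V := V)
      rw [show finrank F (V →ₗ[F] F) = finrank F V from this]
      exact hV
    obtain ⟨u, hu⟩ := exists_notMem_h2 hV' f
    obtain ⟨g₁, hg₁⟩ := exists_sl_dual_of_notMem_h2 hf hu
    obtain ⟨c, hc⟩ := Submodule.mem_span_singleton.1 h
    have hu0 : u ≠ 0 := fun h0 => hu (h0 ▸ Submodule.zero_mem _)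
    have h2 : f' ∉ Submodule.span F {u} := by
      intro hm
      obtain ⟨d, hd⟩ := Submodule.mem_span_singleton.1 hm
      have hd0 : d ≠ 0 := by
        rintro rfl
        rw [zero_smul] at hd
        exact hf' hd.symm
      apply hu
      rw [Submodule.mem_span_singleton]
      refine ⟨d⁻¹ * c, ?_⟩
      rw [mul_smul, hc, ← hd, smul_smul, inv_mul_cancel₀ hd0, one_smul]
    obtain ⟨g₂, hg₂⟩ := exists_sl_dual_of_notMem_h2 hu0 h2
    refine ⟨g₁ * g₂, ?_⟩
    rw [← hg₂, ← hg₁]
    rfl
  · exact exists_sl_dual_of_notMem_h2 hf h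

private lemma card_fib_h2 {α β : Type} [Finite α] [Finite β] (f : α → β) (S : Set β) (N : ℕ)
    (h : ∀ w ∈ S, Nat.card {a // f a = w} = N) : Nat.card {a // f a ∈ S} = Nat.card S * N := by
  classical
  have : Fintype S := Fintype.ofFinite S
  let e : {a // f a ∈ S} ≃ Σ w : S, {a // f a = w} :=
    { toFun := fun a => ⟨⟨f a, a.2⟩, ⟨a, rfl⟩⟩
      invFun := fun x => ⟨x.2.1, by rw [x.2.2]; exact x.1.2⟩
      left_inv := fun a => rfl
      right_inv := by
        rintro ⟨⟨w, hw⟩, ⟨a, ha⟩⟩
        dsimp at ha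
        subst ha
        rfl }
  rw [Nat.card_congr e, Nat.card_sigma]
  have h2 : ∀ w : S, Nat.card {a // f a = (w : β)} = N := fun w => h w w.2
  simp only [h2]
  rw [Finset.sum_const, Finset.card_univ, ← Nat.card_eq_fintype_card, smul_eq_mul]

private lemma card_trans_h2 {α β : Type} [Finite α] [Finite β] [Zero β] (f : α → β)
    (h0 : ∀ a, f a ≠ 0) (N : ℕ) (h : ∀ w : β, w ≠ 0 → Nat.card {a // f a = w} = N) (S : Set β)
    (hS : (0 : β) ∉ S) :
    Nat.card {a // f a ∈ S} * (Nat.card β - 1) = Nat.card α * Nat.card S := by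
  have h1 := card_fib_h2 f S N (fun w hw => h w (fun hw0 => hS (hw0 ▸ hw)))
  have h2 := card_fib_h2 f ({0}ᶜ) N (fun w hw => h w hw)
  have h3 : Nat.card {a // f a ∈ ({0}ᶜ : Set β)} = Nat.card α :=
    Nat.card_congr (Equiv.subtypeUnivEquiv fun a => h0 a)
  have h4 : Nat.card ({0}ᶜ : Set β) = Nat.card β - 1 := by
    rw [Nat.card_coe_set_eq, Set.ncard_compl, Set.ncard_singleton]
  rw [h3, h4] at h2
  rw [h1, h2]
  ring

theorem card_vec (hV : 2 ≤ finrank F V) {v : V} (hv : v ≠ 0) (S : Set V) (hS : (0 : V) ∉ S) :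
    Nat.card {g : SpecialLinearGroup F V // g v ∈ S} * (Nat.card V - 1) =
      Nat.card (SpecialLinearGroup F V) * Nat.card S := by
  have : Finite (V ≃ₗ[F] V) := Finite.of_injective (fun e : V ≃ₗ[F] V => (e : V → V))
    DFunLike.coe_injective
  refine card_trans_h2 (fun g : SpecialLinearGroup F V => g v) ?_
    (Nat.card {g : SpecialLinearGroup F V // g v = v}) ?_ S hS
  · intro g hg
    apply hv
    apply sl_injective g
    show g v = g 0
    rw [hg]
    exact ((g : V ≃ₗ[F] V).map_zero).symm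
  · intro w hw
    obtain ⟨g₀, hg₀⟩ := exists_sl_apply hV hv hw
    refine Nat.card_congr
      { toFun := fun g => ⟨g₀⁻¹ * g.1, ?_⟩
        invFun := fun g => ⟨g₀ * g.1, ?_⟩
        left_inv := ?_
        right_inv := ?_ }
    · show g₀⁻¹ (g.1 v) = v
      rw [g.2]
      apply sl_injective g₀
      show g₀ (g₀⁻¹ w) = g₀ v
      rw [inv_apply_self, hg₀]
    · show g₀ (g.1 v) = w
      rw [g.2, hg₀]
    · intro g
      exact Subtype.ext (mul_inv_cancel_left g₀ g.1)
    · intro g
      exact Subtype.ext (inv_mul_cancel_left g₀ g.1)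

theorem card_dual (hV : 2 ≤ finrank F V) {f : V →ₗ[F] F} (hf : f ≠ 0) (S : Set (V →ₗ[F] F))
    (hS : (0 : V →ₗ[F] F) ∉ S) :
    Nat.card {g : SpecialLinearGroup F V // f ∘ₗ (g : V →ₗ[F] V) ∈ S} * (Nat.card V - 1) =
      Nat.card (SpecialLinearGroup F V) * Nat.card S := by
  have : Finite (V ≃ₗ[F] V) := Finite.of_injective (fun e : V ≃ₗ[F] V => (e : V → V))
    DFunLike.coe_injective
  have hfin : Finite (V →ₗ[F] F) := Finite.of_injective (fun e : V →ₗ[F] F => (e : V → F))
    DFunLike.coe_injective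
  have hcard : Nat.card V = Nat.card (V →ₗ[F] F) :=
    Nat.card_congr (LinearEquiv.ofFinrankEq V (V →ₗ[F] F)
      (Subspace.dual_finrank_eq (K := F) (V := V)).symm).toEquiv
  rw [hcard]
  refine card_trans_h2 (fun g : SpecialLinearGroup F V => f ∘ₗ (g : V →ₗ[F] V)) ?_
    (Nat.card {g : SpecialLinearGroup F V // f ∘ₗ (g : V →ₗ[F] V) = f}) ?_ S hS
  · intro g hg
    apply hf
    ext x
    have h1 := LinearMap.congr_fun hg (g⁻¹ x)
    have h2 : f (g (g⁻¹ x)) = 0 := h1
    rw [inv_apply_self] at h2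
    exact h2
  · intro w hw
    obtain ⟨g₀, hg₀⟩ := exists_sl_dual hV hf hw
    refine Nat.card_congr
      { toFun := fun g => ⟨g.1 * g₀⁻¹, ?_⟩
        invFun := fun g => ⟨g.1 * g₀, ?_⟩
        left_inv := ?_
        right_inv := ?_ }
    · ext x
      have h1 := LinearMap.congr_fun g.2 (g₀⁻¹ x)
      have h2 := LinearMap.congr_fun hg₀ (g₀⁻¹ x)
      have h1' : f (g.1 (g₀⁻¹ x)) = w (g₀⁻¹ x) := h1
      have h2' : f (g₀ (g₀⁻¹ x)) = w (g₀⁻¹ x) := h2
      rw [inv_apply_self] at h2'
      show f (g.1 (g₀⁻¹ x)) = f x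
      rw [h1', h2']
    · rw [← hg₀]
      ext x
      exact LinearMap.congr_fun g.2 (g₀ x)
    · intro g
      exact Subtype.ext (inv_mul_cancel_right g.1 g₀)
    · intro g
      exact Subtype.ext (mul_inv_cancel_right g.1 g₀)

end Pool.Agent.Helper70.GLn
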