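import Pool.Agent.Helper70.GLn.PS
import Pool.Agent.Helper70.GLn.FO
import Pool.Agent.Helper70.GLn.TR

/-!
# GL-SM1: averages over orbits of the Fourier coefficients (100-180 lines)

PROOF. `c M = phi θ M 1`, `q = |F|`, `b = finrank B`. `nu_eq`: `theta_u1` with `Y = 0` (`u1 0 = 1`, `ch M 0 = 1`) and `phi_zero`. For `g ∈ SL(B)` the pair `(1, g)` is in `Lev` (`lvB` in LV, or
directly) and `cact (1, g) M = g ∘ M`, so `c (g ∘ M) = c M` (`phi_cact`), and `M ↦ g ∘ M` is a bijection. Hence for every set `T` of maps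
`∑_{M ∈ T} c M = ∑_M c M * #{g : g ∘ M ∈ T} / |SL(B)|`.
`sum_in`: choose a functional `f ≠ 0` with `Z ≤ ker f`. If `g ∘ M ∈ T` then `f ∘ g` vanishes on `range M`; `card_dual` with `S` = the nonzero functionals vanishing on `range M`,
`|S| = q ^ (b - r) - 1`, `r = finrank (range M)`: `#{g : g ∘ M ∈ T} ≤ |SL| (q ^ (b - r) - 1) / (q ^ b - 1) ≤ |SL| q ^ (-r) ≤ |SL| q ^ (-J)`, and it is `0` unless `M ≠ 0`, `r ≥ J`.
`sum_meet`: if `range (g ∘ M) ⊓ D ≠ ⊥` there is `v ∈ range M`, `v ≠ 0`, with `g v ∈ D \ {0}`; by `card_vec` each `v` contributes `|SL| (|D| - 1) / (q ^ b - 1)`, and there are less than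
`q ^ J` such `v`. (`c M ≥ 0` for `M ≠ 0`: `phi_nonneg`.)
-/

set_option autoImplicit false

open Module Pool.Agent.Helper13.Ded

namespace Pool.Agent.Helper70.GLn

variable {F A B : Type} [Field F] [Finite F] [AddCommGroup A] [Module F A] [Finite A]
  [AddCommGroup B] [Module F B] [Finite B] {θ : SpecialLinearGroup F (A × B) → ℝ}

/-- the element `(1, g)` of the Levi subgroup -/
private def lg24 (g : SpecialLinearGroup F B) : Lev F A B :=
  ⟨(1, (g : B ≃ₗ[F] B)), by
    show LinearEquiv.det (1 : A ≃ₗ[F] A) * LinearEquiv.det (g : B ≃ₗ[F] B) = 1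
    rw [map_one, one_mul]
    exact g.2⟩

private lemma phi24 (h : HP θ) (g : SpecialLinearGroup F B) (M : A →ₗ[F] B) :
    phi θ ((g : B →ₗ[F] B) ∘ₗ M) 1 = phi θ M 1 := by
  rw [← phi_cact h (lg24 g) M]
  rfl

private lemma comp_inj24 (g : SpecialLinearGroup F B) :
    Function.Injective (fun M : A →ₗ[F] B => (g : B →ₗ[F] B) ∘ₗ M) := by
  intro M M' hMM
  ext a
  apply sl_injective g
  exact LinearMap.congr_fun hMM a

open Classical in
theorem nu_eq [Fintype (A →ₗ[F] B)] (h : HP θ) :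
    NU θ = ∑ M : A →ₗ[F] B, if M = 0 then 0 else phi θ M 1 := by
  have h1 := theta_u1 h (0 : B →ₗ[F] A)
  have h2 : ∀ M : A →ₗ[F] B, phi θ M 1 * (ch M (0 : B →ₗ[F] A)).re = phi θ M 1 := by
    intro M
    rw [AddChar.map_zero_eq_one, Complex.one_re, mul_one]
  rw [u1_zero, Finset.sum_congr rfl fun M _ => h2 M] at h1
  unfold NU
  rw [h1, ← phi_zero]
  have h3 : ∀ M : A →ₗ[F] B, (if M = 0 then 0 else phi θ M 1) =
      phi θ M 1 - (if M = 0 then phi θ (0 : A →ₗ[F] B) 1 else 0) := by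
    intro M
    by_cases hM : M = 0
    · rw [if_pos hM, if_pos hM, hM, sub_self]
    · rw [if_neg hM, if_neg hM, sub_zero]
  rw [Finset.sum_congr rfl fun M _ => h3 M, Finset.sum_sub_distrib,
    Finset.sum_ite_eq' Finset.univ (0 : A →ₗ[F] B), if_pos (Finset.mem_univ _)]

private lemma avg24 [Fintype (A →ₗ[F] B)] (h : HP θ) (T : (A →ₗ[F] B) → Prop) [DecidablePred T]
    (hT0 : ¬ T 0) (C D : ℝ)
    (hcount : ∀ M : A →ₗ[F] B, M ≠ 0 →
      (Nat.card {g : SpecialLinearGroup F B // T ((g : B →ₗ[F] B) ∘ₗ M)} : ℝ) * C ≤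
        D * Nat.card (SpecialLinearGroup F B)) :
    (∑ M : A →ₗ[F] B, if T M then phi θ M 1 else 0) * C ≤ D * NU θ := by
  classical
  have := Fintype.ofFinite (SpecialLinearGroup F B)
  have hN : (0 : ℝ) < Nat.card (SpecialLinearGroup F B) := by exact_mod_cast Nat.card_pos
  have h1 : ∀ g : SpecialLinearGroup F B, (∑ M : A →ₗ[F] B, if T M then phi θ M 1 else 0) =
      ∑ M : A →ₗ[F] B, if T ((g : B →ₗ[F] B) ∘ₗ M) then phi θ M 1 else 0 := by
    intro g
    have hbij : Function.Bijective (fun M : A →ₗ[F] B => (g : B →ₗ[F] B) ∘ₗ M) :=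
      (Finite.injective_iff_bijective).1 (comp_inj24 g)
    rw [← Fintype.sum_bijective _ hbij
      (fun M : A →ₗ[F] B => if T ((g : B →ₗ[F] B) ∘ₗ M) then
        phi θ ((g : B →ₗ[F] B) ∘ₗ M) 1 else 0) (fun M => if T M then phi θ M 1 else 0)
        (fun M => rfl)]
    refine Finset.sum_congr rfl fun M _ => ?_
    rw [phi24 h]
  have h2 : (Nat.card (SpecialLinearGroup F B) : ℝ) *
      (∑ M : A →ₗ[F] B, if T M then phi θ M 1 else 0) =
      ∑ M : A →ₗ[F] B, phi θ M 1 *
        (Nat.card {g : SpecialLinearGroup F B // T ((g : B →ₗ[F] B) ∘ₗ M)} : ℝ) := by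
    rw [Nat.card_eq_fintype_card, ← nsmul_eq_mul, ← Finset.card_univ, ← Finset.sum_const,
      Finset.sum_congr rfl (fun g _ => h1 g), Finset.sum_comm]
    refine Finset.sum_congr rfl fun M _ => ?_
    rw [Nat.card_eq_fintype_card, Fintype.card_subtype, ← Finset.sum_filter, Finset.sum_const,
      nsmul_eq_mul, mul_comm]
  have h3 : ∀ M : A →ₗ[F] B, phi θ M 1 *
      (Nat.card {g : SpecialLinearGroup F B // T ((g : B →ₗ[F] B) ∘ₗ M)} : ℝ) * C ≤
      (if M = 0 then 0 else phi θ M 1) * (D * Nat.card (SpecialLinearGroup F B)) := by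
    intro M
    by_cases hM : M = 0
    · subst hM
      rw [if_pos rfl]
      have hempty : IsEmpty {g : SpecialLinearGroup F B //
          T ((g : B →ₗ[F] B) ∘ₗ (0 : A →ₗ[F] B))} := by
        refine ⟨fun g => ?_⟩
        have := g.2
        rw [LinearMap.comp_zero] at this
        exact hT0 this
      rw [Nat.card_of_isEmpty]
      simp
    · rw [if_neg hM, mul_assoc]
      exact mul_le_mul_of_nonneg_left (hcount M hM) (phi_nonneg h hM)
  have h4 : (Nat.card (SpecialLinearGroup F B) : ℝ) *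
      ((∑ M : A →ₗ[F] B, if T M then phi θ M 1 else 0) * C) ≤
      Nat.card (SpecialLinearGroup F B) * (D * NU θ) := by
    rw [← mul_assoc, h2, Finset.sum_mul]
    refine (Finset.sum_le_sum fun M _ => h3 M).trans (le_of_eq ?_)
    rw [← Finset.sum_mul, ← nu_eq h]
    ring
  exact le_of_mul_le_mul_left h4 hN

private lemma finrank24 (g : SpecialLinearGroup F B) (M : A →ₗ[F] B) :
    finrank F (LinearMap.range ((g : B →ₗ[F] B) ∘ₗ M)) = finrank F (LinearMap.range M) := by
  rw [LinearMap.range_comp]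
  exact LinearEquiv.finrank_map_eq (g : B ≃ₗ[F] B) (LinearMap.range M)

private lemma q24 : (1 : ℝ) < (Nat.card F : ℝ) := by
  exact_mod_cast Finite.one_lt_card

private lemma qB24 (hb : 2 ≤ finrank F B) : (0 : ℝ) < (Nat.card F : ℝ) ^ finrank F B - 1 := by
  have h1 := one_lt_pow₀ (q24 (F := F)) (n := finrank F B) (by omega)
  linarith

private lemma cardB24 : Nat.card B = Nat.card F ^ finrank F B := Module.natCard_eq_pow_finrank

private lemma castB24 : ((Nat.card B - 1 : ℕ) : ℝ) = (Nat.card F : ℝ) ^ finrank F B - 1 := by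
  have h1 : 1 ≤ Nat.card B := Nat.card_pos
  rw [Nat.cast_sub h1, cardB24 (F := F)]
  push_cast
  ring

/-- the number of nonzero elements of a finite subspace -/
private lemma ncard24 {W : Type} [AddCommGroup W] [Module F W] [Finite W] (P : Submodule F W) :
    Nat.card ((P : Set W) \ {0} : Set W) + 1 = Nat.card F ^ finrank F P := by
  rw [Nat.card_coe_set_eq, Set.ncard_sdiff_singleton_add_one P.zero_mem (Set.toFinite _),
    ← Nat.card_coe_set_eq]
  exact Module.natCard_eq_pow_finrank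

open Classical in
theorem sum_in [Fintype (A →ₗ[F] B)] (h : HP θ) (hb : 2 ≤ finrank F B) (Z : Submodule F B)
    (hZ : Z ≠ ⊤) (J : ℕ) :
    (∑ M : A →ₗ[F] B, if M ≠ 0 ∧ LinearMap.range M ≤ Z ∧ J ≤ finrank F (LinearMap.range M)
      then phi θ M 1 else 0) ≤ 1 / (Nat.card F : ℝ) ^ J * NU θ := by
  have hq := q24 (F := F)
  have hqJ : (0 : ℝ) < (Nat.card F : ℝ) ^ J := by positivity
  have key := avg24 h (fun M : A →ₗ[F] B => M ≠ 0 ∧ LinearMap.range M ≤ Z ∧
    J ≤ finrank F (LinearMap.range M)) (fun h0 => h0.1 rfl) ((Nat.card F : ℝ) ^ J) 1 (by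
    intro M _
    have hN : (0 : ℝ) < Nat.card (SpecialLinearGroup F B) := by exact_mod_cast Nat.card_pos
    rcases isEmpty_or_nonempty {g : SpecialLinearGroup F B // (g : B →ₗ[F] B) ∘ₗ M ≠ 0 ∧
      LinearMap.range ((g : B →ₗ[F] B) ∘ₗ M) ≤ Z ∧
      J ≤ finrank F (LinearMap.range ((g : B →ₗ[F] B) ∘ₗ M))} with hem | ⟨⟨g0, hg0⟩⟩
    · rw [Nat.card_of_isEmpty, Nat.cast_zero, zero_mul, one_mul]
      exact hN.le
    · have hr : J ≤ finrank F (LinearMap.range M) := by
        rw [← finrank24 g0 M]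
        exact hg0.2.2
      obtain ⟨f, hf, hfZ⟩ := Submodule.exists_le_ker_of_lt_top Z (lt_top_iff_ne_top.2 hZ)
      set W := LinearMap.range M with hW
      have hfinD : Finite (Dual F B) := Finite.of_injective (fun e : B →ₗ[F] F => (e : B → F))
        DFunLike.coe_injective
      have hs1 := ncard24 (F := F) (W := Dual F B) W.dualAnnihilator
      have hs2 := Subspace.finrank_add_finrank_dualAnnihilator_eq W
      have hcd := card_dual hb hf ((W.dualAnnihilator : Set (Dual F B)) \ {0})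
        (fun h0 => h0.2 rfl)
      have hle : Nat.card {g : SpecialLinearGroup F B // (g : B →ₗ[F] B) ∘ₗ M ≠ 0 ∧
          LinearMap.range ((g : B →ₗ[F] B) ∘ₗ M) ≤ Z ∧
          J ≤ finrank F (LinearMap.range ((g : B →ₗ[F] B) ∘ₗ M))} ≤
          Nat.card {g : SpecialLinearGroup F B // f ∘ₗ (g : B →ₗ[F] B) ∈
            ((W.dualAnnihilator : Set (Dual F B)) \ {0})} := by
        refine Nat.card_le_card_of_injective (fun g => ⟨g.1, ?_, ?_⟩) ?_
        · show f ∘ₗ (g.1 : B →ₗ[F] B) ∈ W.dualAnnihilator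
          rw [Submodule.mem_dualAnnihilator]
          intro w hw
          obtain ⟨a, rfl⟩ := hw
          exact hfZ (g.2.2.1 ⟨a, rfl⟩)
        · intro h0
          apply hf
          ext x
          have h1 := LinearMap.congr_fun h0 (g.1⁻¹ x)
          have h2 : f (g.1 (g.1⁻¹ x)) = 0 := h1
          rw [inv_apply_self] at h2
          exact h2
        · intro g g' hgg
          exact Subtype.ext (Subtype.mk.inj hgg)
      set n := Nat.card {g : SpecialLinearGroup F B // f ∘ₗ (g : B →ₗ[F] B) ∈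
            ((W.dualAnnihilator : Set (Dual F B)) \ {0})} with hn
      set sN := Nat.card ((W.dualAnnihilator : Set (Dual F B)) \ {0} : Set (Dual F B)) with hsN
      have e1 : (n : ℝ) * ((Nat.card F : ℝ) ^ finrank F B - 1) =
          Nat.card (SpecialLinearGroup F B) * (sN : ℝ) := by
        rw [← castB24]
        exact_mod_cast hcd
      have e2 : ((sN : ℝ) + 1) * (Nat.card F : ℝ) ^ finrank F W = (Nat.card F : ℝ) ^ finrank F B := by
        have h1 : (sN : ℝ) + 1 = (Nat.card F : ℝ) ^ finrank F W.dualAnnihilator := by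
          exact_mod_cast hs1
        rw [h1, ← pow_add, add_comm, hs2]
      have hb1 := qB24 (F := F) (B := B) hb
      have hqr : (1 : ℝ) ≤ (Nat.card F : ℝ) ^ finrank F W := one_le_pow₀ hq.le
      have e3 : (n : ℝ) * (Nat.card F : ℝ) ^ finrank F W ≤ Nat.card (SpecialLinearGroup F B) := by
        have h1 : ((n : ℝ) * (Nat.card F : ℝ) ^ finrank F W) * ((Nat.card F : ℝ) ^ finrank F B - 1) ≤
            Nat.card (SpecialLinearGroup F B) * ((Nat.card F : ℝ) ^ finrank F B - 1) := by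
          have h2 : ((n : ℝ) * (Nat.card F : ℝ) ^ finrank F W) *
              ((Nat.card F : ℝ) ^ finrank F B - 1) =
              Nat.card (SpecialLinearGroup F B) *
                ((Nat.card F : ℝ) ^ finrank F B - (Nat.card F : ℝ) ^ finrank F W) := by
            calc ((n : ℝ) * (Nat.card F : ℝ) ^ finrank F W) * ((Nat.card F : ℝ) ^ finrank F B - 1)
                = ((n : ℝ) * ((Nat.card F : ℝ) ^ finrank F B - 1)) *
                  (Nat.card F : ℝ) ^ finrank F W := by ring
              _ = _ := by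
                  rw [e1]
                  linear_combination (Nat.card (SpecialLinearGroup F B) : ℝ) * e2
          rw [h2]
          exact mul_le_mul_of_nonneg_left (by linarith) hN.le
        exact le_of_mul_le_mul_right h1 hb1
      rw [one_mul]
      calc _ ≤ (n : ℝ) * (Nat.card F : ℝ) ^ J := by
            refine mul_le_mul_of_nonneg_right ?_ hqJ.le
            exact_mod_cast hle
        _ ≤ (n : ℝ) * (Nat.card F : ℝ) ^ finrank F W := by
            refine mul_le_mul_of_nonneg_left ?_ (Nat.cast_nonneg _)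
            exact pow_le_pow_right₀ hq.le hr
        _ ≤ _ := e3)
  rw [one_mul] at key
  rw [div_mul_eq_mul_div, one_mul, le_div_iff₀ hqJ]
  exact key

open Classical in
theorem sum_meet [Fintype (A →ₗ[F] B)] (h : HP θ) (hb : 2 ≤ finrank F B) (D : Submodule F B)
    (J : ℕ) :
    (∑ M : A →ₗ[F] B, if M ≠ 0 ∧ LinearMap.range M ⊓ D ≠ ⊥ ∧ finrank F (LinearMap.range M) ≤ J
      then phi θ M 1 else 0) * ((Nat.card F : ℝ) ^ finrank F B - 1) ≤
      (Nat.card F : ℝ) ^ (J + finrank F D) * NU θ := by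
  have hq := q24 (F := F)
  have hb1 := qB24 (F := F) (B := B) hb
  refine avg24 h (fun M : A →ₗ[F] B => M ≠ 0 ∧ LinearMap.range M ⊓ D ≠ ⊥ ∧
    finrank F (LinearMap.range M) ≤ J) (fun h0 => h0.1 rfl) _ _ ?_
  intro M _
  have hN : (0 : ℝ) < Nat.card (SpecialLinearGroup F B) := by exact_mod_cast Nat.card_pos
  rcases isEmpty_or_nonempty {g : SpecialLinearGroup F B // (g : B →ₗ[F] B) ∘ₗ M ≠ 0 ∧
    LinearMap.range ((g : B →ₗ[F] B) ∘ₗ M) ⊓ D ≠ ⊥ ∧
    finrank F (LinearMap.range ((g : B →ₗ[F] B) ∘ₗ M)) ≤ J} with hem | ⟨⟨g0, hg0⟩⟩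
  · rw [Nat.card_of_isEmpty, Nat.cast_zero, zero_mul]
    positivity
  · have hr : finrank F (LinearMap.range M) ≤ J := by
      rw [← finrank24 g0 M]
      exact hg0.2.2
    set W := LinearMap.range M with hW
    have := Fintype.ofFinite (SpecialLinearGroup F B)
    have := Fintype.ofFinite B
    set Wf : Finset B := Finset.univ.filter (fun v => v ∈ W ∧ v ≠ 0) with hWf
    have hWc : (Wf.card : ℝ) ≤ (Nat.card F : ℝ) ^ J := by
      have h1 : Wf.card ≤ Nat.card W := by
        rw [Nat.card_eq_fintype_card, Fintype.card_subtype]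
        refine Finset.card_le_card fun v hv => ?_
        rw [hWf, Finset.mem_filter] at hv
        exact Finset.mem_filter.2 ⟨Finset.mem_univ _, hv.2.1⟩
      have h2 : Nat.card W = Nat.card F ^ finrank F W := Module.natCard_eq_pow_finrank
      rw [h2] at h1
      have h3 : (Wf.card : ℝ) ≤ (Nat.card F : ℝ) ^ finrank F W := by exact_mod_cast h1
      exact h3.trans (pow_le_pow_right₀ hq.le hr)
    have hsub : (Finset.univ.filter (fun g : SpecialLinearGroup F B =>
        (g : B →ₗ[F] B) ∘ₗ M ≠ 0 ∧ LinearMap.range ((g : B →ₗ[F] B) ∘ₗ M) ⊓ D ≠ ⊥ ∧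
        finrank F (LinearMap.range ((g : B →ₗ[F] B) ∘ₗ M)) ≤ J)) ⊆
        Wf.biUnion (fun v => Finset.univ.filter (fun g : SpecialLinearGroup F B =>
          g v ∈ ((D : Set B) \ {0}))) := by
      intro g hg
      rw [Finset.mem_filter] at hg
      obtain ⟨x, hx, hx0⟩ := Submodule.exists_mem_ne_zero_of_ne_bot hg.2.2.1
      obtain ⟨⟨a, ha⟩, hxD⟩ := Submodule.mem_inf.1 hx
      have ha' : g (M a) = x := ha
      rw [Finset.mem_biUnion]
      refine ⟨M a, ?_, ?_⟩
      · rw [hWf, Finset.mem_filter]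
        refine ⟨Finset.mem_univ _, ⟨a, rfl⟩, ?_⟩
        intro h0
        apply hx0
        rw [← ha', h0]
        exact (g : B ≃ₗ[F] B).map_zero
      · rw [Finset.mem_filter]
        refine ⟨Finset.mem_univ _, ?_, ?_⟩
        · rw [ha']
          exact hxD
        · rw [ha']
          exact hx0
    have hcount : ∀ v ∈ Wf, ((Finset.univ.filter (fun g : SpecialLinearGroup F B =>
          g v ∈ ((D : Set B) \ {0}))).card : ℝ) * ((Nat.card F : ℝ) ^ finrank F B - 1) ≤
          Nat.card (SpecialLinearGroup F B) * (Nat.card F : ℝ) ^ finrank F D := by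
      intro v hv
      rw [hWf, Finset.mem_filter] at hv
      have h1 := card_vec hb hv.2.2 ((D : Set B) \ {0}) (fun h0 => h0.2 rfl)
      have h2 := ncard24 (F := F) D
      have h3 : Nat.card {g : SpecialLinearGroup F B // g v ∈ ((D : Set B) \ {0})} =
          (Finset.univ.filter (fun g : SpecialLinearGroup F B =>
            g v ∈ ((D : Set B) \ {0}))).card := by
        rw [Nat.card_eq_fintype_card, Fintype.card_subtype]
      rw [h3] at h1
      have h4 : ((Finset.univ.filter (fun g : SpecialLinearGroup F B =>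
          g v ∈ ((D : Set B) \ {0}))).card : ℝ) * ((Nat.card F : ℝ) ^ finrank F B - 1) =
          Nat.card (SpecialLinearGroup F B) *
            (Nat.card ((D : Set B) \ {0} : Set B) : ℝ) := by
        rw [← castB24]
        exact_mod_cast h1
      rw [h4]
      refine mul_le_mul_of_nonneg_left ?_ hN.le
      have h5 : (Nat.card ((D : Set B) \ {0} : Set B) : ℝ) + 1 =
          (Nat.card F : ℝ) ^ finrank F D := by exact_mod_cast h2
      linarith
    have hcard : Nat.card {g : SpecialLinearGroup F B // (g : B →ₗ[F] B) ∘ₗ M ≠ 0 ∧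
        LinearMap.range ((g : B →ₗ[F] B) ∘ₗ M) ⊓ D ≠ ⊥ ∧
        finrank F (LinearMap.range ((g : B →ₗ[F] B) ∘ₗ M)) ≤ J} =
        (Finset.univ.filter (fun g : SpecialLinearGroup F B =>
        (g : B →ₗ[F] B) ∘ₗ M ≠ 0 ∧ LinearMap.range ((g : B →ₗ[F] B) ∘ₗ M) ⊓ D ≠ ⊥ ∧
        finrank F (LinearMap.range ((g : B →ₗ[F] B) ∘ₗ M)) ≤ J)).card := by
      rw [Nat.card_eq_fintype_card, Fintype.card_subtype]
    have hle : ((Finset.univ.filter (fun g : SpecialLinearGroup F B =>
        (g : B →ₗ[F] B) ∘ₗ M ≠ 0 ∧ LinearMap.range ((g : B →ₗ[F] B) ∘ₗ M) ⊓ D ≠ ⊥ ∧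
        finrank F (LinearMap.range ((g : B →ₗ[F] B) ∘ₗ M)) ≤ J)).card : ℝ) ≤
        ∑ v ∈ Wf, ((Finset.univ.filter (fun g : SpecialLinearGroup F B =>
          g v ∈ ((D : Set B) \ {0}))).card : ℝ) := by
      have h1 := (Finset.card_le_card hsub).trans Finset.card_biUnion_le
      exact_mod_cast h1
    show (Nat.card {g : SpecialLinearGroup F B // (g : B →ₗ[F] B) ∘ₗ M ≠ 0 ∧
        LinearMap.range ((g : B →ₗ[F] B) ∘ₗ M) ⊓ D ≠ ⊥ ∧
        finrank F (LinearMap.range ((g : B →ₗ[F] B) ∘ₗ M)) ≤ J} : ℝ) * _ ≤ _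
    rw [hcard]
    calc _ ≤ (∑ v ∈ Wf, ((Finset.univ.filter (fun g : SpecialLinearGroup F B =>
          g v ∈ ((D : Set B) \ {0}))).card : ℝ)) * ((Nat.card F : ℝ) ^ finrank F B - 1) :=
          mul_le_mul_of_nonneg_right hle hb1.le
      _ = ∑ v ∈ Wf, ((Finset.univ.filter (fun g : SpecialLinearGroup F B =>
          g v ∈ ((D : Set B) \ {0}))).card : ℝ) * ((Nat.card F : ℝ) ^ finrank F B - 1) := by
          rw [Finset.sum_mul]
      _ ≤ ∑ _v ∈ Wf, (Nat.card (SpecialLinearGroup F B) : ℝ) *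
          (Nat.card F : ℝ) ^ finrank F D := Finset.sum_le_sum hcount
      _ = (Wf.card : ℝ) * (Nat.card (SpecialLinearGroup F B) *
          (Nat.card F : ℝ) ^ finrank F D) := by
          rw [Finset.sum_const, nsmul_eq_mul]
      _ ≤ (Nat.card F : ℝ) ^ J * (Nat.card (SpecialLinearGroup F B) *
          (Nat.card F : ℝ) ^ finrank F D) :=
          mul_le_mul_of_nonneg_right hWc (by positivity)
      _ = _ := by
          rw [pow_add]
          ring

end Pool.Agent.Helper70.GLn
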