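import Pool.Agent.Helper70.GLn.CM
import Pool.Agent.Helper70.GLn.FL

/-!
# GL-UP: unipotent elements of the Levi subgroup (120-180 lines)

PROOF. `s ≥ 1` without loss of generality. `wA = w.1.1`, `wB = w.1.2`. Chain in `V = A × B`: `c i = ker ((wA - 1)^(i+1)) × 0` for
`i < s` (so `c (s-1) = A × 0`), `c (s - 1 + i) = A × range ((wB - 1)^(s - i))` for `1 ≤ i ≤ s - 1`, constant afterwards;
`S = 2s - 2` is the last index (for `s = 1` the chain is just `A × 0`); monotone. For `g = dg (w^k) * u1 X`: `g ∈ KF c S`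
(it suffices to treat `dg w` and `u1 X`). All `c i` contain `ker (wA - 1) × 0` (dimension `≥ R`) and are contained in
`A × range (wB - 1)` (codimension `finrank (ker (wB - 1)) ≥ R`) or in `A × 0` when `s = 1`, so the pairs `(c i, c i)`,
`(c i, c (i+1))` are `Big R`, also `(A0, A0)`. By `nn_KF_le` and `nn_compare` with `ε'`, `nn θ (KF c S) ≤ NU (1 + ε') + S (ε' (1+ε')) NU`
(`range_uu`, `nn_range_uu`: `nn θ (EE A0 A0) = NU θ`). `KU (zpowers w) ≤ KF c S`, `nn_mono` with `KF_solvable`, `nn_KU`: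
`NU + nn (Psi θ) (zpowers w) ≤ nn θ (KF c S)`. So `nn (Psi θ) (zpowers w) ≤ 3 s ε' (1+ε') NU`. `sub_le_card_nn` for `Psi θ`
(`psi_hp`) and the order of `w` is at most `s * |F|` (`w^(p^k) = 1` for the least `p^k ≥ s`, `p^k ≤ s p`).
Choose `ε'` small.
-/

set_option autoImplicit false

open Module Pool.Agent.Helper13.Ded

namespace Pool.Agent.Helper70.GLn

section UP6

variable {F A B : Type} [Field F] [AddCommGroup A] [Module F A] [AddCommGroup B] [Module F B]

/-- The chain `ker ((wA - 1)^(i+1)) × range ((wB - 1)^(2 s + 1 - i))`. -/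
def ch6 (NA : A →ₗ[F] A) (NB : B →ₗ[F] B) (s i : ℕ) : Submodule F (A × B) :=
  (LinearMap.ker (NA ^ (i + 1))).prod (LinearMap.range (NB ^ (2 * s + 1 - i)))

lemma mem_ch6 {NA : A →ₗ[F] A} {NB : B →ₗ[F] B} {s i : ℕ} {v : A × B} :
    v ∈ ch6 NA NB s i ↔ (NA ^ (i + 1)) v.1 = 0 ∧ ∃ u, (NB ^ (2 * s + 1 - i)) u = v.2 := by
  rw [ch6, Submodule.mem_prod, LinearMap.mem_ker, LinearMap.mem_range]

lemma ch6_mono (NA : A →ₗ[F] A) (NB : B →ₗ[F] B) (s : ℕ) : Monotone (ch6 NA NB s) := by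
  refine monotone_nat_of_le_succ fun i v hv => ?_
  rw [mem_ch6] at hv ⊢
  obtain ⟨h1, u, hu⟩ := hv
  refine ⟨?_, ?_⟩
  · rw [pow_succ', Module.End.mul_apply, h1, map_zero]
  · by_cases hi : i < 2 * s + 1
    · refine ⟨NB u, ?_⟩
      have h2 : 2 * s + 1 - i = (2 * s + 1 - (i + 1)) + 1 := by omega
      rw [← hu, h2, pow_succ, Module.End.mul_apply]
    · refine ⟨v.2, ?_⟩
      have h2 : 2 * s + 1 - (i + 1) = 0 := by omega
      rw [h2, pow_zero]
      rfl

lemma mem_KF6 {V : Type} [AddCommGroup V] [Module F V] [Finite V] {c : ℕ → Submodule F V}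
    (hc : Monotone c) {s : ℕ} {g : SpecialLinearGroup F V}
    (h0 : ∀ v ∈ c 0, g v = v) (h1 : ∀ i < s, ∀ v ∈ c (i + 1), g v - v ∈ c i)
    (h2 : ∀ v, g v - v ∈ c s) : g ∈ KF c s :=
  mem_KF.2 ⟨h0, fun i hi v hv => ⟨h1 i hi v hv, by
    have h3 := (c (i + 1)).add_mem (hc (Nat.le_succ i) (h1 i hi v hv)) hv
    rwa [sub_add_cancel] at h3⟩, h2⟩

variable [Finite F] [Finite A] [Finite B]

lemma u1_mem6 {NA : A →ₗ[F] A} {NB : B →ₗ[F] B} {s : ℕ} (hA : NA ^ s = 0) (hB : NB ^ s = 0)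
    (X : B →ₗ[F] A) : u1 X ∈ KF (ch6 NA NB s) (2 * s) := by
  have hzA : ∀ m, s ≤ m → NA ^ m = 0 := fun m hm => pow_eq_zero_of_le hm hA
  have hzB : ∀ m, s ≤ m → NB ^ m = 0 := fun m hm => pow_eq_zero_of_le hm hB
  have hsub : ∀ v : A × B, u1 X v - v = (X v.2, 0) := fun v => by
    rw [u1_apply]
    ext
    · show v.1 + X v.2 - v.1 = X v.2
      abel
    · show v.2 - v.2 = 0
      abel
  refine mem_KF6 (ch6_mono NA NB s) ?_ ?_ ?_
  · intro v hv
    rw [mem_ch6] at hv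
    obtain ⟨-, u, hu⟩ := hv
    rw [hzB _ (by omega), LinearMap.zero_apply] at hu
    rw [← sub_eq_zero, hsub, ← hu, map_zero]
    rfl
  · intro i hi v hv
    rw [mem_ch6] at hv
    obtain ⟨-, u, hu⟩ := hv
    rw [hsub, mem_ch6]
    refine ⟨?_, 0, map_zero _⟩
    by_cases hs : s ≤ i
    · rw [hzA _ (by omega), LinearMap.zero_apply]
    · rw [hzB _ (by omega), LinearMap.zero_apply] at hu
      show (NA ^ (i + 1)) (X v.2) = 0
      rw [← hu, map_zero, map_zero]
  · intro v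
    rw [hsub, mem_ch6]
    refine ⟨?_, 0, map_zero _⟩
    rw [hzA _ (by omega), LinearMap.zero_apply]

lemma dg_mem6 {s : ℕ} (w : Lev F A B)
    (hA : ((w.1.1 : A →ₗ[F] A) - LinearMap.id) ^ s = 0)
    (hB : ((w.1.2 : B →ₗ[F] B) - LinearMap.id) ^ s = 0) :
    dg w ∈ KF (ch6 ((w.1.1 : A →ₗ[F] A) - LinearMap.id) ((w.1.2 : B →ₗ[F] B) - LinearMap.id) s)
      (2 * s) := by
  set NA : A →ₗ[F] A := (w.1.1 : A →ₗ[F] A) - LinearMap.id with hNA
  set NB : B →ₗ[F] B := (w.1.2 : B →ₗ[F] B) - LinearMap.id with hNB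
  have hzA : ∀ m, s ≤ m → NA ^ m = 0 := fun m hm => pow_eq_zero_of_le hm hA
  have hzB : ∀ m, s ≤ m → NB ^ m = 0 := fun m hm => pow_eq_zero_of_le hm hB
  have hsub : ∀ v : A × B, dg w v - v = (NA v.1, NB v.2) := fun v => by
    rw [dg_apply]
    rfl
  refine mem_KF6 (ch6_mono NA NB s) ?_ ?_ ?_
  · intro v hv
    rw [mem_ch6] at hv
    obtain ⟨h1, u, hu⟩ := hv
    rw [hzB _ (by omega), LinearMap.zero_apply] at hu
    rw [zero_add, pow_one] at h1
    rw [← sub_eq_zero, hsub, ← hu, map_zero, h1]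
    rfl
  · intro i hi v hv
    rw [mem_ch6] at hv
    obtain ⟨h1, u, hu⟩ := hv
    rw [hsub, mem_ch6]
    refine ⟨?_, u, ?_⟩
    · show (NA ^ (i + 1)) (NA v.1) = 0
      rw [← Module.End.mul_apply, ← pow_succ]
      exact h1
    · show (NB ^ (2 * s + 1 - i)) u = NB v.2
      have h2 : 2 * s + 1 - i = (2 * s + 1 - (i + 1)) + 1 := by omega
      rw [← hu, h2, pow_succ', Module.End.mul_apply]
  · intro v
    rw [hsub, mem_ch6]
    refine ⟨?_, v.2, ?_⟩
    · rw [hzA _ (by omega), LinearMap.zero_apply]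
    · show (NB ^ (2 * s + 1 - 2 * s)) v.2 = NB v.2
      have h2 : 2 * s + 1 - 2 * s = 1 := by omega
      rw [h2, pow_one]

omit [Finite F] [Finite B] [Finite A] in
lemma pow_eq_one6 {p : ℕ} (hp : p.Prime) [CharP F p] {s : ℕ} {w : A ≃ₗ[F] A}
    (hw : ((w : A →ₗ[F] A) - LinearMap.id) ^ s = 0) : w ^ (p ^ s) = 1 := by
  have h1 : (1 : Module.End F A) + ((w : A →ₗ[F] A) - LinearMap.id) = (w : A →ₗ[F] A) := by
    have : (LinearMap.id : A →ₗ[F] A) = 1 := rfl
    rw [this]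
    abel
  have hc : Commute (1 : Module.End F A) ((w : A →ₗ[F] A) - LinearMap.id) := Commute.one_left _
  obtain ⟨r, hr⟩ := hc.exists_add_pow_prime_pow_eq hp s
  have h2 : ((w : A →ₗ[F] A) - LinearMap.id) ^ (p ^ s) = 0 :=
    pow_eq_zero_of_le (Nat.lt_pow_self hp.one_lt).le hw
  have h3 : (p : Module.End F A) = 0 := by
    ext v
    rw [Module.End.natCast_apply, ← Nat.cast_smul_eq_nsmul F, CharP.cast_eq_zero, zero_smul]
    rfl
  rw [h1, h2, h3] at hr
  simp only [zero_mul, one_pow, add_zero] at hr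
  have h4 : ∀ n : ℕ, ((w ^ n : A ≃ₗ[F] A) : A →ₗ[F] A) = (w : A →ₗ[F] A) ^ n := by
    intro n
    induction n with
    | zero => rfl
    | succ n ih => rw [pow_succ, pow_succ, ← ih]; rfl
  apply LinearEquiv.toLinearMap_injective
  rw [h4]
  exact hr

omit [Finite F] [Finite B] [Finite A] in
lemma card_zpowers6 {p : ℕ} (hp : p.Prime) [CharP F p] {s : ℕ} (w : Lev F A B)
    (hA : ((w.1.1 : A →ₗ[F] A) - LinearMap.id) ^ s = 0)
    (hB : ((w.1.2 : B →ₗ[F] B) - LinearMap.id) ^ s = 0) :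
    Nat.card (Subgroup.zpowers w) ≤ p ^ s := by
  rw [Nat.card_zpowers]
  refine orderOf_le_of_pow_eq_one (pow_pos hp.pos _) ?_
  apply Subtype.ext
  apply Prod.ext
  · exact pow_eq_one6 hp hA
  · exact pow_eq_one6 hp hB

omit [Finite F] in
lemma big6 {NA : A →ₗ[F] A} {NB : B →ₗ[F] B} {R : ℕ} (hkA : R ≤ finrank F (LinearMap.ker NA))
    (hkB : R ≤ finrank F (LinearMap.ker NB)) {W₁ W₂ : Submodule F (A × B)}
    (h1 : (LinearMap.ker NA).prod ⊥ ≤ W₁) (h12 : W₁ ≤ W₂)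
    (h2 : W₂ ≤ (⊤ : Submodule F A).prod (LinearMap.range NB)) : Big R W₁ W₂ := by
  have hfA : Module.Finite F A := Module.Finite.of_finite
  have hfB : Module.Finite F B := Module.Finite.of_finite
  refine ⟨h12, ?_, ?_⟩
  · let f : LinearMap.ker NA →ₗ[F] W₁ := LinearMap.codRestrict W₁
      ((LinearMap.inl F A B).comp (LinearMap.ker NA).subtype) (fun v => h1 ⟨v.2, rfl⟩)
    have hf : Function.Injective f := by
      intro a b hab
      have h3 := congrArg (fun x : W₁ => (x : A × B).1) hab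
      exact Subtype.ext h3
    exact hkA.trans (LinearMap.finrank_le_finrank_of_injective hf)
  · let f : W₂ →ₗ[F] A × LinearMap.range NB := LinearMap.prod
      ((LinearMap.fst F A B).comp W₂.subtype)
      (LinearMap.codRestrict (LinearMap.range NB) ((LinearMap.snd F A B).comp W₂.subtype)
        (fun v => (h2 v.2).2))
    have hf : Function.Injective f := by
      intro a b hab
      have h3 := congrArg (fun x : A × LinearMap.range NB => x.1) hab
      have h4 := congrArg (fun x : A × LinearMap.range NB => (x.2 : B)) hab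
      exact Subtype.ext (Prod.ext h3 h4)
    have h3 := LinearMap.finrank_le_finrank_of_injective hf
    rw [Module.finrank_prod] at h3 ⊢
    have h4 := LinearMap.finrank_range_add_finrank_ker NB
    omega

end UP6

theorem psi_unip (F : Type) [Field F] [Finite F] {ε : ℝ} (hε : 0 < ε) (s : ℕ) : ∃ R : ℕ,
    ∀ (A B : Type) [AddCommGroup A] [Module F A] [Finite A] [AddCommGroup B] [Module F B]
    [Finite B] (θ : SpecialLinearGroup F (A × B) → ℝ), HP θ → ∀ w : Lev F A B,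
    ((w.1.1 : A →ₗ[F] A) - LinearMap.id) ^ s = 0 → ((w.1.2 : B →ₗ[F] B) - LinearMap.id) ^ s = 0 →
    R ≤ finrank F (LinearMap.ker ((w.1.1 : A →ₗ[F] A) - LinearMap.id)) →
    R ≤ finrank F (LinearMap.ker ((w.1.2 : B →ₗ[F] B) - LinearMap.id)) →
    Psi θ 1 - Psi θ w ≤ ε * NU θ := by
  obtain ⟨p, hp'⟩ := CharP.exists F
  have hp : p.Prime := CharP.char_is_prime F p
  set C : ℝ := (p : ℝ) ^ s with hC
  have hC0 : 0 < C := pow_pos (by exact_mod_cast hp.pos) _
  have hs0 : (0 : ℝ) ≤ (s : ℝ) := Nat.cast_nonneg s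
  have hD0 : 0 < C * (1 + 4 * (s : ℝ)) := by positivity
  set δ : ℝ := min 1 (ε / (C * (1 + 4 * (s : ℝ)))) with hδ
  have hδ0 : 0 < δ := lt_min one_pos (div_pos hε hD0)
  have hδ1 : δ ≤ 1 := min_le_left _ _
  have hδ2 : δ * (C * (1 + 4 * (s : ℝ))) ≤ ε := by
    have h1 : δ ≤ ε / (C * (1 + 4 * (s : ℝ))) := min_le_right _ _
    rwa [le_div_iff₀ hD0] at h1
  obtain ⟨R, -, hR⟩ := nn_compare F hδ0
  refine ⟨R, ?_⟩
  intro A B _ _ _ _ _ _ θ hθ w hwA hwB hkA hkB
  have fSL : Finite (SpecialLinearGroup F (A × B)) :=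
    Finite.of_injective (fun g : SpecialLinearGroup F (A × B) => (fun v => g v))
      (fun g h hgh => SpecialLinearGroup.ext g h (congrFun hgh))
  have fA : Finite (A ≃ₗ[F] A) := Finite.of_injective (fun g : A ≃ₗ[F] A => (g : A → A))
    DFunLike.coe_injective
  have fB : Finite (B ≃ₗ[F] B) := Finite.of_injective (fun g : B ≃ₗ[F] B => (g : B → B))
    DFunLike.coe_injective
  set NA : A →ₗ[F] A := (w.1.1 : A →ₗ[F] A) - LinearMap.id with hNA
  set NB : B →ₗ[F] B := (w.1.2 : B →ₗ[F] B) - LinearMap.id with hNB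
  set c : ℕ → Submodule F (A × B) := ch6 NA NB s with hc
  have hcm : Monotone c := ch6_mono NA NB s
  -- the bounds for the chain
  have hlo : ∀ i, (LinearMap.ker NA).prod ⊥ ≤ c i := by
    intro i v hv
    have h1 : NA v.1 = 0 := hv.1
    have h2 : v.2 = 0 := hv.2
    refine mem_ch6.2 ⟨?_, 0, ?_⟩
    · rw [pow_succ, Module.End.mul_apply, h1, map_zero]
    · rw [map_zero, h2]
  have htop : c (2 * s) ≤ (⊤ : Submodule F A).prod (LinearMap.range NB) := by
    intro v hv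
    obtain ⟨-, u, hu⟩ := mem_ch6.1 hv
    have h2 : 2 * s + 1 - 2 * s = 1 := by omega
    rw [h2, pow_one] at hu
    exact ⟨trivial, u, hu⟩
  have hhi : ∀ i ≤ 2 * s, c i ≤ (⊤ : Submodule F A).prod (LinearMap.range NB) :=
    fun i hi => (hcm hi).trans htop
  have hA0 : Big R (A0 F A B) (A0 F A B) := by
    refine big6 hkA hkB ?_ le_rfl ?_
    · exact Submodule.prod_mono le_top le_rfl
    · exact Submodule.prod_mono le_rfl bot_le
  have hNU : nn θ (EE (A0 F A B) (A0 F A B)) = NU θ := by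
    rw [← range_uu, nn_range_uu]
  have hN0 : 0 ≤ NU θ := NU_nonneg hθ
  -- the bound for the group of the chain
  have h1 : nn θ (KF c (2 * s)) ≤ (1 + δ) * NU θ + (2 * s : ℕ) * (δ * ((1 + δ) * NU θ)) := by
    refine (nn_KF_le hθ c hcm (2 * s)).trans (add_le_add ?_ ?_)
    · rw [← hNU]
      exact hR (A × B) θ hθ _ _ _ _ (big6 hkA hkB (hlo _) le_rfl (hhi _ le_rfl)) hA0
    · have h2 : ∀ i ∈ Finset.range (2 * s), nn θ (EE (c i) (c i)) - nn θ (EE (c i) (c (i + 1))) ≤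
          δ * ((1 + δ) * NU θ) := by
        intro i hi
        have hi' := Finset.mem_range.1 hi
        have hb1 : Big R (c i) (c i) := big6 hkA hkB (hlo _) le_rfl (hhi _ hi'.le)
        have hb2 : Big R (c i) (c (i + 1)) :=
          big6 hkA hkB (hlo _) (hcm (Nat.le_succ i)) (hhi _ hi')
        have h3 := hR (A × B) θ hθ _ _ _ _ hb1 hb2
        have h4 := hR (A × B) θ hθ _ _ _ _ hb2 hA0
        rw [hNU] at h4
        have h5 := mul_le_mul_of_nonneg_left h4 hδ0.le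
        linarith
      refine (Finset.sum_le_sum h2).trans ?_
      rw [Finset.sum_const, Finset.card_range, nsmul_eq_mul]
  have h2 : KU (Subgroup.zpowers w) ≤ KF c (2 * s) := by
    rintro g ⟨l, hl, X, rfl⟩
    refine (KF c (2 * s)).mul_mem ?_ (u1_mem6 hwA hwB X)
    obtain ⟨m, rfl⟩ := Subgroup.mem_zpowers_iff.1 hl
    rw [map_zpow]
    exact (KF c (2 * s)).zpow_mem (dg_mem6 w hwA hwB) m
  have h3 := (nn_mono hθ h2 (KF_solvable c hcm (2 * s))).trans h1
  rw [nn_KU] at h3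
  have h4 := sub_le_card_nn (psi_hp hθ) (Subgroup.zpowers w) w (Subgroup.mem_zpowers w)
  have h5 := nn_nonneg (psi_hp hθ) (Subgroup.zpowers w)
  have h6 : (Nat.card (Subgroup.zpowers w) : ℝ) ≤ C := by
    rw [hC]
    exact_mod_cast card_zpowers6 hp w hwA hwB
  have h7 : nn (Psi θ) (Subgroup.zpowers w) ≤ δ * (1 + 4 * (s : ℝ)) * NU θ := by
    have h8 : nn (Psi θ) (Subgroup.zpowers w) ≤ δ * NU θ + 2 * (s : ℝ) * (δ * ((1 + δ) * NU θ)) := by
      push_cast at h3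
      linarith
    have h9 : (1 + δ) * NU θ ≤ 2 * NU θ := mul_le_mul_of_nonneg_right (by linarith) hN0
    have h10 : 2 * (s : ℝ) * (δ * ((1 + δ) * NU θ)) ≤ 2 * (s : ℝ) * (δ * (2 * NU θ)) :=
      mul_le_mul_of_nonneg_left (mul_le_mul_of_nonneg_left h9 hδ0.le) (by positivity)
    linarith
  calc Psi θ 1 - Psi θ w ≤ (Nat.card (Subgroup.zpowers w) : ℝ) * nn (Psi θ) (Subgroup.zpowers w) := h4
    _ ≤ C * nn (Psi θ) (Subgroup.zpowers w) := mul_le_mul_of_nonneg_right h6 h5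
    _ ≤ C * (δ * (1 + 4 * (s : ℝ)) * NU θ) := mul_le_mul_of_nonneg_left h7 hC0.le
    _ = δ * (C * (1 + 4 * (s : ℝ))) * NU θ := by ring
    _ ≤ ε * NU θ := mul_le_mul_of_nonneg_right hδ2 hN0

end Pool.Agent.Helper70.GLn
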