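import Pool.Agent.Helper70.GLn.PT
import Pool.Agent.Helper70.GLn.BD
import Pool.Agent.Helper94.Ded.Final

/-!
# GL-ZZ: the Dedekind inequality for linear groups (proved)
-/

set_option autoImplicit false

open Module Pool.Agent.Helper13.Ded Pool.Agent.Helper94.Ded

namespace Pool.Agent.Helper70.GLn

section

variable {F V : Type} [Field F] [Finite F] [AddCommGroup V] [Module F V] [Finite V]

lemma gl_le {G : Subgroup (V ≃ₗ[F] V)} (hG : ∀ g : V ≃ₗ[F] V, LinearEquiv.det g = 1 → g ∈ G) :
    GLc F V ≤ (Nat.card F - 1) * Nat.card G := by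
  let d : (V ≃ₗ[F] V) →* Fˣ := LinearEquiv.det
  have h1 : Nat.card (V ≃ₗ[F] V) = Nat.card d.range * Nat.card d.ker := by
    rw [← Subgroup.card_mul_index d.ker, Subgroup.index_ker, mul_comm]
  have h2 : Nat.card d.range ≤ Nat.card F - 1 := by
    rw [← Nat.card_units]
    exact Nat.card_le_card_of_injective Subtype.val Subtype.val_injective
  have h3 : Nat.card d.ker ≤ Nat.card G :=
    Nat.card_le_card_of_injective (fun x : d.ker => (⟨x.1, hG x.1 x.2⟩ : G)) fun x y h =>
      Subtype.ext (congrArg (fun z : G => (z : V ≃ₗ[F] V)) h)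
  unfold GLc
  rw [h1]
  exact Nat.mul_le_mul h2 h3

/-- Every element of the quotient by scalars of order prime to `q - 1` has a lift of the same
order bound in the special linear group. -/
lemma exists_lift {G : Subgroup (V ≃ₗ[F] V)} {Q : Type*} [Group Q] (ρ : G →* Q)
    (hρ : Function.Surjective ρ) (hk : ∀ g : G, ρ g = 1 → ∃ a : F, ∀ v, (g : V ≃ₗ[F] V) v = a • v)
    (x : Q) {m : ℕ} (hm : x ^ m = 1) (hm0 : 0 < m) (hc : m.Coprime (Nat.card F - 1)) :
    ∃ g : G, ρ g = x ∧ g ^ m = 1 := by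
  rcases subsingleton_or_nontrivial V with hV | hV
  · obtain ⟨g, hg⟩ := hρ x
    refine ⟨g, hg, ?_⟩
    apply Subtype.ext
    ext v
    exact Subsingleton.elim _ _
  obtain ⟨g, hg⟩ := hρ x
  have h1 : g ^ (m * (Nat.card F - 1)) = 1 := by
    obtain ⟨a, ha⟩ := hk (g ^ m) (by rw [map_pow, hg, hm])
    have ha0 : a ≠ 0 := by
      rintro rfl
      obtain ⟨v, hv⟩ := exists_ne (0 : V)
      have h2 := ha v
      rw [zero_smul] at h2
      exact hv ((LinearEquiv.map_eq_zero_iff _).1 h2)
    have h3 : ∀ n : ℕ, ∀ v, ((g ^ m) ^ n : V ≃ₗ[F] V) v = a ^ n • v := by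
      intro n
      induction n with
      | zero => intro v; simp
      | succ n ih =>
        intro v
        rw [pow_succ]
        show ((g ^ m) ^ n : V ≃ₗ[F] V) (((g : V ≃ₗ[F] V) ^ m) v) = _
        have h4 : ((g : V ≃ₗ[F] V) ^ m) v = a • v := ha v
        rw [h4, map_smul, ih, smul_smul, pow_succ, mul_comm]
    have h5 : a ^ (Nat.card F - 1) = 1 := by
      have h6 := pow_card_eq_one' (G := Fˣ) (x := Units.mk0 a ha0)
      rw [Nat.card_units] at h6
      have h7 := congrArg (Units.val) h6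
      simpa using h7
    rw [pow_mul]
    apply Subtype.ext
    ext v
    have h8 := h3 (Nat.card F - 1) v
    rw [h5, one_smul] at h8
    exact h8
  -- the exponent
  obtain ⟨j, hj⟩ : ∃ j : ℕ, (Nat.card F - 1) * j ≡ 1 [MOD m] := by
    have h9 := Nat.exists_mul_mod_eq_one_of_coprime (n := Nat.card F - 1) (k := m) hc.symm
    rcases Nat.lt_or_ge 1 m with hm1 | hm1
    · obtain ⟨j, -, hj⟩ := h9 hm1
      exact ⟨j, by rw [Nat.ModEq, hj, Nat.mod_eq_of_lt hm1]⟩
    · have : m = 1 := by omega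
      exact ⟨0, by rw [this]; exact Nat.modEq_one⟩
  refine ⟨g ^ ((Nat.card F - 1) * j), ?_, ?_⟩
  · rw [map_pow, hg]
    have h10 : orderOf x ∣ m := orderOf_dvd_of_pow_eq_one hm
    have h11 : x ^ ((Nat.card F - 1) * j) = x ^ 1 :=
      pow_eq_pow_iff_modEq.2 (hj.of_dvd h10)
    rw [h11, pow_one]
  · rw [← pow_mul, show (Nat.card F - 1) * j * m = m * (Nat.card F - 1) * j by ring, pow_mul, h1,
      one_pow]

end

/-- The Dedekind inequality for every group of bounded order prime to `q - 1` in every quotient by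
scalars of a group between the special and the general linear group. -/
theorem ded_gl (F : Type) [Field F] [Finite F] (h : ℕ) : ∃ C : ℕ,
    ∀ (V : Type) [AddCommGroup V] [Module F V] [Finite V], C ≤ finrank F V →
    ∀ (G : Subgroup (V ≃ₗ[F] V)), (∀ g : V ≃ₗ[F] V, LinearEquiv.det g = 1 → g ∈ G) →
    ∀ {Q : Type*} [Group Q] (ρ : G →* Q), Function.Surjective ρ →
    (∀ g : G, ρ g = 1 → ∃ a : F, ∀ v, (g : V ≃ₗ[F] V) v = a • v) →
    ∀ H : Subgroup Q, Nat.card H ≤ h → (Nat.card H).Coprime (Nat.card F - 1) → Ded H := by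
  classical
  rcases Nat.eq_zero_or_pos h with h0 | h0
  · refine ⟨0, ?_⟩
    intro V _ _ _ _ G _ Q _ ρ hρ _ H hH
    exfalso
    have : Finite Q := Finite.of_surjective ρ hρ
    have : 0 < Nat.card H := Nat.card_pos
    omega
  have hh : (0 : ℝ) < h := by exact_mod_cast h0
  have hq : (0 : ℝ) < Nat.card F := by exact_mod_cast Nat.card_pos
  set ε : ℝ := 1 / (6 * h) with hε
  have hε0 : 0 < ε := by positivity
  have hε1 : ε ≤ 1 / 6 := by
    rw [hε]
    have : (1 : ℝ) ≤ h := by exact_mod_cast h0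
    exact one_div_le_one_div_of_le (by norm_num) (by linarith)
  obtain ⟨R, -, hR⟩ := nn_compare F hε0
  obtain ⟨n0, hn0⟩ := pp_all F h R hε0
  obtain ⟨n1, hn1⟩ := bad_card F (ε := 1 / (2 * h * Nat.card F)) (by positivity) R
  refine ⟨max n0 n1, ?_⟩
  intro V _ _ _ hV G hG Q _ ρ hρ hk H hH hc
  have hQ : Finite Q := Finite.of_surjective ρ hρ
  have := Fintype.ofFinite Q
  have := Fintype.ofFinite G
  intro θ hθ
  let Bad : Finset Q := Finset.univ.filter fun x => ∀ g : G, ρ g = x → ¬ Good R (g : V ≃ₗ[F] V)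
  have hθG : HP (fun g : G => θ (ρ g)) := hθ.comp ρ
  refine av_le_of_compare H h hH hθ Bad ?_ ?_
  · -- the number of bad elements
    have h1 : Bad.card * Nat.card ρ.ker ≤ Nat.card {g : G // ¬ Good R (g : V ≃ₗ[F] V)} := by
      have hs : ∀ x : Q, ∃ g : G, ρ g = x := hρ
      choose s hs using hs
      have h2 : Bad.card * Nat.card ρ.ker = Nat.card (Bad × ρ.ker) := by
        rw [Nat.card_prod, show Nat.card Bad = Bad.card by
          rw [Nat.card_eq_fintype_card, Fintype.card_coe]]
      rw [h2]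
      refine Nat.card_le_card_of_injective (fun p => (⟨s p.1.1 * p.2.1, ?_⟩ :
        {g : G // ¬ Good R (g : V ≃ₗ[F] V)})) ?_
      · have h3 := (Finset.mem_filter.1 p.1.2).2
        refine h3 (s p.1.1 * p.2.1) ?_
        rw [map_mul, hs, (MonoidHom.mem_ker).1 p.2.2, mul_one]
      · rintro ⟨⟨x, hx⟩, ⟨k, hk1⟩⟩ ⟨⟨y, hy⟩, ⟨l, hl1⟩⟩ hxy
        have h4 : s x * k = s y * l := congrArg Subtype.val hxy
        have h5 : x = y := by
          have h6 := congrArg ρ h4
          rw [map_mul, map_mul, hs, hs, (MonoidHom.mem_ker).1 hk1, (MonoidHom.mem_ker).1 hl1,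
            mul_one, mul_one] at h6
          exact h6
        subst h5
        have h7 : k = l := mul_left_cancel h4
        subst h7
        rfl
    have h2 : Nat.card {g : G // ¬ Good R (g : V ≃ₗ[F] V)} ≤
        Nat.card {g : V ≃ₗ[F] V // ¬ Good R g} :=
      Nat.card_le_card_of_injective (fun x => ⟨x.1.1, x.2⟩) fun x y hxy =>
        Subtype.ext (Subtype.ext (congrArg (fun z : {g : V ≃ₗ[F] V // ¬ Good R g} => z.1) hxy))
    have h3 := hn1 V (le_trans (le_max_right _ _) hV)
    have h4 := gl_le hG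
    have h5 : Nat.card G = Nat.card Q * Nat.card ρ.ker := by
      rw [← Subgroup.card_mul_index ρ.ker, Subgroup.index_ker, mul_comm,
        MonoidHom.range_eq_top.2 hρ]
      congr 1
      exact Nat.card_congr (Subgroup.topEquiv).toEquiv
    have h6 : (0 : ℝ) < Nat.card ρ.ker := by exact_mod_cast Nat.card_pos
    have h7 : (Bad.card : ℝ) * Nat.card ρ.ker ≤ 1 / (2 * h * Nat.card F) * GLc F V := by
      refine le_trans ?_ h3
      exact_mod_cast h1.trans h2
    have h8 : (GLc F V : ℝ) ≤ Nat.card F * (Nat.card Q * Nat.card ρ.ker) := by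
      rw [h5] at h4
      have h9 : (Nat.card F - 1) * (Nat.card Q * Nat.card ρ.ker) ≤
          Nat.card F * (Nat.card Q * Nat.card ρ.ker) := Nat.mul_le_mul_right _ (Nat.sub_le _ _)
      exact_mod_cast h4.trans h9
    have h9 : (Bad.card : ℝ) * Nat.card ρ.ker ≤
        1 / (2 * h * Nat.card F) * (Nat.card F * (Nat.card Q * Nat.card ρ.ker)) :=
      h7.trans (mul_le_mul_of_nonneg_left h8 (by positivity))
    have h10 : 1 / (2 * (h : ℝ) * Nat.card F) * (Nat.card F * (Nat.card Q * Nat.card ρ.ker)) =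
        (1 / (2 * h) * Nat.card Q) * Nat.card ρ.ker := by
      field_simp
    rw [h10] at h9
    have h11 := le_of_mul_le_mul_right h9 h6
    rw [← Nat.card_eq_fintype_card (α := Q)]
    calc 2 * (h : ℝ) * Bad.card ≤ 2 * h * (1 / (2 * h) * Nat.card Q) :=
          mul_le_mul_of_nonneg_left h11 (by positivity)
      _ = Nat.card Q := by field_simp
  · intro x hx hx1 y hy
    -- a lift of `x`
    have hxm : x ^ Nat.card H = 1 := by
      have := pow_card_eq_one' (G := H) (x := ⟨x, hx⟩)
      exact congrArg Subtype.val this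
    obtain ⟨g, hg, hgm⟩ := exists_lift ρ hρ hk x hxm Nat.card_pos hc
    have hdet : LinearEquiv.det (g : V ≃ₗ[F] V) = 1 :=
      det_eq_one (m := Nat.card H) (by exact congrArg Subtype.val hgm) hc
    let s : SpecialLinearGroup F V := ⟨(g : V ≃ₗ[F] V), hdet⟩
    have hs : inc hG s = g := Subtype.ext rfl
    have hsm : s ^ Nat.card H = 1 := by
      apply SpecialLinearGroup.toLinearEquiv_injective
      rw [map_pow, map_one]
      exact congrArg Subtype.val hgm
    have hord : orderOf s ∣ Nat.card H := orderOf_dvd_of_pow_eq_one hsm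
    have hHpos : 0 < Nat.card H := Nat.card_pos
    obtain ⟨W, hW, hle⟩ := hn0 V (le_trans (le_max_left _ _) hV)
      (fun t => θ (ρ (inc hG t))) (hθG.comp (inc hG)) s
      ((Nat.le_of_dvd hHpos hord).trans hH) (Nat.Coprime.coprime_dvd_left hord hc)
    -- a good lift of `y`
    have hy2 : ∃ g' : G, ρ g' = y ∧ Good R (g' : V ≃ₗ[F] V) := by
      by_contra hcon
      refine hy (Finset.mem_filter.2 ⟨Finset.mem_univ _, fun g' hg' hgood => ?_⟩)
      exact hcon ⟨g', hg', hgood⟩
    obtain ⟨g', hg', hgood⟩ := hy2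
    obtain ⟨W', hW', hle'⟩ := good_le hG hθG g' hgood
    have hcomp := hR V (fun t => θ (ρ (inc hG t))) (hθG.comp (inc hG)) W W W' W' hW hW'
    have e1 : θ (ρ (inc hG s)) = θ x := by rw [hs, hg]
    have e2 : θ (ρ (inc hG 1)) = θ 1 := by rw [map_one, map_one]
    have e3 : θ (ρ (1 : G)) = θ 1 := by rw [map_one]
    simp only [e1, e2] at hle
    simp only [hg', e3] at hle'
    have h0' : 0 ≤ θ 1 - θ y := by
      have := hθ.le_one y
      linarith
    have h1 : θ 1 - θ x ≤ (1 + ε) * ((1 + ε) * (θ 1 - θ y)) :=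
      hle.trans (mul_le_mul_of_nonneg_left
        (hcomp.trans (mul_le_mul_of_nonneg_left hle' (by linarith))) (by linarith))
    refine h1.trans ?_
    rw [← mul_assoc]
    refine mul_le_mul_of_nonneg_right ?_ h0'
    have h2 : 1 / (2 * (h : ℝ)) = 3 * ε := by
      rw [hε]
      field_simp
      norm_num
    rw [h2]
    nlinarith

end Pool.Agent.Helper70.GLn
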